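import Pool.Agent.CutLim.Dim8

/-! CUT, J2: the dimension of the limit set of the cut levels of the critical bridges is 3/4. -/

set_option autoImplicit false

namespace CutLim

open Filter Topology Finset MeasureTheory TopologicalSpace HexObs

open scoped ENNReal NNReal

section

variable {b : ℝ}

private lemma hu6 (hu : Tendsto (fun n : ℕ => (n : ℝ) ^ (1 / 4 : ℝ) * uu n) atTop (𝓝 b)) :
    Tendsto (fun n : ℕ => (n : ℝ) ^ (1 - 3 / 4 : ℝ) * uu n) atTop (𝓝 b) := by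
  have he : (1 : ℝ) - 3 / 4 = 1 / 4 := by norm_num
  rw [he]
  exact hu

/-- the limit set of the bridges meets (x, y) with small probability -/
theorem hit_bridge (hb : 0 < b) (hu : Tendsto (fun n : ℕ => (n : ℝ) ^ (1 / 4 : ℝ) * uu n) atTop (𝓝 b))
    {κ : ProbabilityMeasure NC} (hκ : Tendsto PB atTop (𝓝 κ)) {r' : ℝ} (hr' : r' < 1) :
    ∃ C : ℝ, 0 < C ∧ ∀ x y : ℝ, 0 < x → x < y → y < r' →
      (κ : Measure NC) (AvS (Set.Ioo x y))ᶜ ≤ ENNReal.ofReal (C * ((y - x) / x) ^ (1 - 3 / 4 : ℝ)) := by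
  obtain ⟨C, hC, hhit⟩ := hit_le ren_uu (by norm_num : (0 : ℝ) < 3 / 4) (by norm_num) hb (hu6 hu)
  obtain ⟨C5, hC5, hrat⟩ := uu_ratio hb hu (show (0 : ℝ) < 1 - r' by linarith)
  refine ⟨C5 * (C * 4 ^ (1 - 3 / 4 : ℝ)), by positivity, fun x y hx hxy hyr => ?_⟩
  have hyx : 0 < y - x := by linarith
  refine (ProbabilityMeasure.le_liminf_measure_open_of_tendsto hκ (isClosed_AvS isOpen_Ioo).isOpen_compl).trans ?_
  refine liminf_le_of_frequently_le' (Eventually.frequently ?_)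
  filter_upwards [floor_gap hx hxy, eventually_ge_atTop 1, hrat] with N hN hN1 hNrat
  obtain ⟨h1, h2, h3⟩ := hN
  have hN0 : (0 : ℝ) < N := by exact_mod_cast hN1
  have hm : (PB N : Measure NC) (AvS (Set.Ioo x y))ᶜ = gf {t | t ∈ Brd N ∧ cutset N t ∈ (AvS (Set.Ioo x y))ᶜ} / BT N :=
    lawB_apply N (isClosed_AvS isOpen_Ioo).measurableSet.compl
  rw [hm]
  have huN := uu_pos N
  have hBT0 : BT N ≠ 0 := by
    rw [BT_uu]
    exact (ENNReal.ofReal_pos.2 huN).ne'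
  refine (ENNReal.div_le_iff hBT0 (CutH.BT_ne_top'' N)).2 ?_
  have hfl : (⌊y * N⌋₊ : ℝ) ≤ y * N := Nat.floor_le (by nlinarith)
  have hyN : ⌊y * N⌋₊ ≤ N := by
    have : (⌊y * N⌋₊ : ℝ) ≤ N := by nlinarith
    exact_mod_cast this
  have hun : uu (N - ⌊y * N⌋₊) ≤ C5 * uu N := by
    refine hNrat _ ?_
    rw [Nat.cast_sub hyN]
    nlinarith
  calc gf {t | t ∈ Brd N ∧ cutset N t ∈ (AvS (Set.Ioo x y))ᶜ}
      ≤ gf {t | t ∈ Brd N ∧ (∃ c, ⌊x * N⌋₊ < c ∧ c ≤ ⌊y * N⌋₊ ∧ Cut t c) ∧ t ∈ (Set.univ : Set (List Bool))} := by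
        refine gf_mono ?_
        rintro t ⟨ht, h4⟩
        refine ⟨ht, ?_, Set.mem_univ t⟩
        by_contra hcon
        push Not at hcon
        apply h4
        intro z hz hz2
        obtain ⟨c, hc, hcut, rfl⟩ := mem_cutset.1 hz
        have h5 : x * N < c := (lt_div_iff₀ hN0).1 hz2.1
        have h6 : (c : ℝ) < y * N := (div_lt_iff₀ hN0).1 hz2.2
        have h7 : ⌊x * N⌋₊ < c := (Nat.floor_lt (by positivity)).2 h5
        have h8 : c ≤ ⌊y * N⌋₊ := Nat.le_floor h6.le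
        rcases hcut with h9 | h9
        · omega
        · exact hcon c h7 h8 h9
    _ ≤ ENNReal.ofReal (uu (N - ⌊y * N⌋₊)) *
          ∑ j ∈ Ioc ⌊x * N⌋₊ ⌊y * N⌋₊, gf {s | s ∈ FC (⌊x * N⌋₊ + 1) j ∧ s ∈ (Set.univ : Set (List Bool))} :=
        hit_le_bridge Set.univ hyN fun _ s _ _ _ _ _ _ => Set.mem_univ s
    _ = ENNReal.ofReal (uu (N - ⌊y * N⌋₊)) * ENNReal.ofReal (∑ j ∈ Ioc ⌊x * N⌋₊ ⌊y * N⌋₊, ff ⌊x * N⌋₊ j) := by
        congr 1
        rw [ENNReal.ofReal_sum_of_nonneg fun j _ => ff_nonneg _ _]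
        refine Finset.sum_congr rfl fun j hj => ?_
        rw [← gf_FC_ff (Finset.mem_Ioc.1 hj).1]
        congr 1
        ext t
        exact ⟨fun h => h.1, fun h => ⟨h, Set.mem_univ t⟩⟩
    _ ≤ ENNReal.ofReal (C5 * uu N) * ENNReal.ofReal (C * 4 ^ (1 - 3 / 4 : ℝ) * ((y - x) / x) ^ (1 - 3 / 4 : ℝ)) := by
        refine mul_le_mul' (ENNReal.ofReal_le_ofReal hun) (ENNReal.ofReal_le_ofReal ?_)
        rw [ff_sum h2.le]
        refine (hhit _ _ h1 h2).trans ?_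
        calc C * (((⌊y * N⌋₊ - ⌊x * N⌋₊ : ℕ) : ℝ) / (⌊x * N⌋₊ : ℝ)) ^ (1 - 3 / 4 : ℝ)
            ≤ C * (4 * ((y - x) / x)) ^ (1 - 3 / 4 : ℝ) :=
              mul_le_mul_of_nonneg_left (Real.rpow_le_rpow (by positivity) h3 (by norm_num)) hC.le
          _ = C * 4 ^ (1 - 3 / 4 : ℝ) * ((y - x) / x) ^ (1 - 3 / 4 : ℝ) := by
              rw [Real.mul_rpow (by norm_num) (by positivity)]
              ring
    _ = ENNReal.ofReal (C5 * (C * 4 ^ (1 - 3 / 4 : ℝ)) * ((y - x) / x) ^ (1 - 3 / 4 : ℝ)) * BT N := by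
        rw [BT_uu, ← ENNReal.ofReal_mul (by positivity), ← ENNReal.ofReal_mul (by positivity)]
        congr 1
        ring

/-- J2, BRIDGES: the dimension of the limit set of the cut levels is 3/4 -/
theorem dim_bridge (hb : 0 < b) (hu : Tendsto (fun n : ℕ => (n : ℝ) ^ (1 / 4 : ℝ) * uu n) atTop (𝓝 b))
    {κ : ProbabilityMeasure NC} (hκ : Tendsto PB atTop (𝓝 κ)) :
    ∀ᵐ K : NC ∂(κ : Measure NC), dimH (K : Set ℝ) = ((3 / 4 : ℝ≥0) : ℝ≥0∞) ∧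
      ∀ r : ℝ, 0 < r → dimH ((K : Set ℝ) ∩ Set.Icc 0 r) = ((3 / 4 : ℝ≥0) : ℝ≥0∞) := by
  have h1 : ∀ᵐ K : NC ∂(κ : Measure NC), ∀ n : ℕ,
      dimH ((K : Set ℝ) ∩ Set.Icc 0 (1 - 1 / ((n : ℝ) + 2))) ≤ ((3 / 4 : ℝ≥0) : ℝ≥0∞) := by
    rw [ae_all_iff]
    intro n
    have hn : (0 : ℝ) ≤ n := Nat.cast_nonneg n
    have hn2 : 0 < 1 / ((n : ℝ) + 2) := by positivity
    have hn3 : 1 / ((n : ℝ) + 2) < 1 := by
      rw [div_lt_one (by positivity)]
      linarith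
    obtain ⟨C, hC, hhit⟩ := hit_bridge hb hu hκ (show 1 - 1 / ((n : ℝ) + 2) / 2 < 1 by linarith)
    refine dim_le_of_hit (by positivity) (by
      rw [← NNReal.coe_lt_coe]
      push_cast
      norm_num) (C := C) (r' := 1 - 1 / ((n : ℝ) + 2) / 2) hC (by linarith) (by linarith) fun x y hx hxy hy => ?_
    have e : ((3 / 4 : ℝ≥0) : ℝ) = 3 / 4 := by push_cast; rfl
    rw [e]
    exact hhit x y hx hxy hy
  have h2 : ∀ᵐ K : NC ∂(κ : Measure NC), K ∈ GoodZ {0} := by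
    obtain ⟨ν, hν, hg, -⟩ := bridge_limit hb hu
    have h3 : κ = ν := tendsto_nhds_unique hκ hν
    rw [h3]
    filter_upwards [hg] with K hK
    exact ⟨hK.1, fun x hx => hK.2 (Or.inl hx)⟩
  filter_upwards [h1, h2, dim_bridge_ge hb hu hκ] with K hK1 hK2 hK3
  have hup : dimH (K : Set ℝ) ≤ ((3 / 4 : ℝ≥0) : ℝ≥0∞) := by
    have h3 : (K : Set ℝ) ⊆ (⋃ n : ℕ, (K : Set ℝ) ∩ Set.Icc 0 (1 - 1 / ((n : ℝ) + 2))) ∪ {1} := by
      intro x hx
      have hx1 := hK2.1 hx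
      rcases lt_or_eq_of_le hx1.2 with h | h
      · left
        rw [Set.mem_iUnion]
        obtain ⟨n, hn⟩ := exists_nat_one_div_lt (sub_pos.2 h)
        refine ⟨n, hx, hx1.1, ?_⟩
        have : 1 / ((n : ℝ) + 2) ≤ 1 / ((n : ℝ) + 1) := by
          gcongr
          norm_num
        linarith
      · exact Or.inr h
    refine (dimH_mono h3).trans ?_
    rw [dimH_union, dimH_iUnion, dimH_singleton]
    exact max_le (iSup_le hK1) zero_le
  have h4 : ∀ r : ℝ, 0 < r → dimH ((K : Set ℝ) ∩ Set.Icc 0 r) = ((3 / 4 : ℝ≥0) : ℝ≥0∞) := fun r hr =>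
    le_antisymm ((dimH_mono Set.inter_subset_left).trans hup) (hK3 r hr)
  refine ⟨le_antisymm hup ?_, h4⟩
  rw [← h4 1 one_pos]
  exact dimH_mono Set.inter_subset_left

end

end CutLim
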