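import Pool.Agent.CutLim.N5
import Pool.Agent.CutH.Lists

/-! CUT_N6: the scaling limit of the number of the cut levels of the half plane walk and of the critical bridges, given
the exact decay of the bridges, in terms of lists of sites. -/

set_option autoImplicit false

namespace HexObs.CC

open Filter Topology Finset MeasureTheory TopologicalSpace

open scoped ENNReal

/-- the number of the cut rows 1 ≤ s ≤ T -/
noncomputable def numL (T : ℕ) (L : List (ℤ × ℤ)) : ℕ := {s : ℕ | 1 ≤ s ∧ s ≤ T ∧ RowCut L s}.ncard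

/-- the number of the cut rows 1 ≤ s < N -/
noncomputable def numB (N : ℕ) (L : List (ℤ × ℤ)) : ℕ := {s : ℕ | 1 ≤ s ∧ s < N ∧ RowCut L s}.ncard

lemma cut_row {j : ℕ} {t : List Bool} (ht : t ∈ Brd j) {s : ℕ} (hs : 1 ≤ s) (hsj : s ≤ j) :
    Cut t s ↔ RowCut (toL oo t) s := by
  rcases Nat.lt_or_ge s j with h2 | h2
  · exact (rowCut_iff ht hs h2).symm
  · have h3 : s = j := by omega
    rw [h3]
    exact ⟨fun _ => rowCut_top (by omega) ht, fun _ => cut_top ht⟩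

lemma numL_toL {T j : ℕ} (hj : T ≤ j) {t : List Bool} (ht : t ∈ Brd j) :
    numL T (toL oo t) = CutLim.cN (T + 1) t := by
  unfold numL CutLim.cN
  congr 1
  ext s
  constructor
  · rintro ⟨h1, h2, h3⟩
    exact ⟨h1, by omega, (cut_row ht h1 (by omega)).2 h3⟩
  · rintro ⟨h1, h2, h3⟩
    exact ⟨h1, by omega, (cut_row ht h1 (by omega)).1 h3⟩

lemma numB_toL {N : ℕ} {t : List Bool} (ht : t ∈ Brd N) : numB N (toL oo t) = CutLim.cN N t := by
  unfold numB CutLim.cN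
  congr 1
  ext s
  constructor
  · rintro ⟨h1, h2, h3⟩
    exact ⟨h1, h2, (cut_row ht h1 (by omega)).2 h3⟩
  · rintro ⟨h1, h2, h3⟩
    exact ⟨h1, h2, (cut_row ht h1 (by omega)).1 h3⟩

/-- the law of the rescaled number of the cut rows of the half plane walk -/
noncomputable def numLawH (T : ℕ) : Measure ℝ :=
  Measure.sum fun L : {L : List (ℤ × ℤ) // Stop T L} => wt L.1 • Measure.dirac ((numL T L.1 : ℝ) / (T : ℝ) ^ (3 / 4 : ℝ))

/-- the law of the rescaled number of the cut rows of the critical bridge -/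
noncomputable def numLawB (N : ℕ) : Measure ℝ :=
  Measure.sum fun L : {L : List (ℤ × ℤ) // ∃ b, Crossing N 0 b L} =>
    (wt L.1 / ∑' L : {L : List (ℤ × ℤ) // ∃ b, Crossing N 0 b L}, wt L.1) •
      Measure.dirac ((numB N L.1 : ℝ) / (N : ℝ) ^ (3 / 4 : ℝ))

theorem numLawH_eq {T : ℕ} (hT : 1 ≤ T) : numLawH T = CutLim.lawN (3 / 4) (CutLim.pH kk) T := by
  rw [← CutLim.lawN_half (3 / 4) hT]
  ext S hS
  unfold numLawH
  rw [Measure.sum_apply _ hS, Measure.sum_apply _ hS, ← (wordEquiv hT).tsum_eq]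
  refine tsum_congr fun t => ?_
  rw [wordEquiv_coe, wt_toL]
  obtain ⟨j, hj⟩ := t.2
  rw [numL_toL hj.2.1 hj.1]

theorem numLawB_eq {N : ℕ} (hN : 1 ≤ N) : numLawB N = CutLim.lawN (3 / 4) (CutLim.pB uu kk) N := by
  have hB : ∑' L : {L : List (ℤ × ℤ) // ∃ b, Crossing N 0 b L}, wt L.1 = BT N := by
    rw [← (bridgeEquiv hN).tsum_eq, ← gf_Brd]
    unfold gf
    refine tsum_congr fun t => ?_
    rw [bridgeEquiv_coe, wt_toL]
  rw [← CutLim.lawN_bridge (3 / 4) hN]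
  unfold numLawB
  rw [hB]
  ext S hS
  rw [Measure.sum_apply _ hS, Measure.sum_apply _ hS, ← (bridgeEquiv hN).tsum_eq]
  refine tsum_congr fun t => ?_
  rw [bridgeEquiv_coe, wt_toL, numB_toL t.2]

/-- the number of the cut rows of the half plane walk: Mittag-Leffler law -/
theorem numH_limit {b : ℝ} (hu : Tendsto (fun n : ℕ => (n : ℝ) ^ (1 / 4 : ℝ) * uu n) atTop (𝓝 b)) :
    ∃ ν : Measure ℝ, IsProbabilityMeasure ν ∧
      (∀ f : BoundedContinuousFunction ℝ ℝ, Tendsto (fun T => ∫ x, f x ∂(numLawH T)) atTop (𝓝 (∫ x, f x ∂ν))) ∧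
      ∀ t : ℝ, charFun ν t =
        ∑' k : ℕ, (t * Complex.I) ^ k * (((b * Real.Gamma (3 / 4)) ^ k / Real.Gamma (k * (3 / 4) + 1) : ℝ) : ℂ) := by
  have hu' : Tendsto (fun n : ℕ => (n : ℝ) ^ (1 - 3 / 4 : ℝ) * uu n) atTop (𝓝 b) := by
    rw [show (1 : ℝ) - 3 / 4 = 1 / 4 by norm_num]
    exact hu
  obtain ⟨ν, hν, hc⟩ := CutLim.number_half (by norm_num) (by norm_num) CutLim.ren_uu hu'
  refine ⟨ν, ν.2, fun f => ?_, hc⟩
  have h1 := (ProbabilityMeasure.tendsto_iff_forall_integral_tendsto.1 hν) f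
  refine h1.congr' ?_
  filter_upwards [eventually_ge_atTop 1] with T hT
  rw [numLawH_eq hT]
  rfl

/-- the number of the cut rows of the critical bridge -/
theorem numB_limit {b : ℝ} (hb : 0 < b) (hu : Tendsto (fun n : ℕ => (n : ℝ) ^ (1 / 4 : ℝ) * uu n) atTop (𝓝 b)) :
    ∃ ν : Measure ℝ, IsProbabilityMeasure ν ∧
      (∀ f : BoundedContinuousFunction ℝ ℝ, Tendsto (fun N => ∫ x, f x ∂(numLawB N)) atTop (𝓝 (∫ x, f x ∂ν))) ∧
      ∀ t : ℝ, charFun ν t = ∑' k : ℕ, (t * Complex.I) ^ k *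
        (((b * Real.Gamma (3 / 4)) ^ (k + 1) / (Real.Gamma ((k + 1) * (3 / 4)) * b) : ℝ) : ℂ) := by
  have hu' : Tendsto (fun n : ℕ => (n : ℝ) ^ (1 - 3 / 4 : ℝ) * uu n) atTop (𝓝 b) := by
    rw [show (1 : ℝ) - 3 / 4 = 1 / 4 by norm_num]
    exact hu
  obtain ⟨ν, hν, hc⟩ := CutLim.number_bridge (by norm_num) (by norm_num) hb CutLim.ren_uu uu_pos hu'
  refine ⟨ν, ν.2, fun f => ?_, hc⟩
  have h1 := (ProbabilityMeasure.tendsto_iff_forall_integral_tendsto.1 hν) f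
  refine h1.congr' ?_
  filter_upwards [eventually_ge_atTop 1] with N hN
  rw [numLawB_eq hN]
  rfl

end HexObs.CC
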