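import Pool.Agent.CutLim.E2

/-! CUT_E3: the limits do not depend on `b` (helper10). -/

set_option autoImplicit false

namespace CutLim

open Filter Topology Finset MeasureTheory

open CutR3 (fw gp Ad rho Dk)

variable {a b : ℝ}

theorem mul_ct (hb : b ≠ 0) : b * ct a b = ct a 1 := by
  unfold ct
  by_cases h1 : Real.Gamma a = 0
  · rw [h1]
    simp
  · by_cases h2 : Real.Gamma (1 - a) = 0
    · rw [h2]
      simp
    · field_simp

/-- the constant: `sin (π a) / π` -/
theorem ct_one : ct a 1 = Real.sin (Real.pi * a) / Real.pi := by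
  unfold ct
  rw [one_mul, Real.Gamma_mul_Gamma_one_sub, one_div_div]

theorem rho_scale (hb : b ≠ 0) (l : List (ℝ × ℝ)) (s : ℝ) :
    rho a b (ct a b) l s = b * rho a 1 (ct a 1) l s := by
  induction l generalizing s with
  | nil => rw [rho, rho, one_mul]
  | cons p l ih =>
    rw [rho, rho]
    by_cases h1 : s ≤ p.1
    · rw [if_pos h1, if_pos h1, ih]
    · rw [if_neg h1, if_neg h1]
      by_cases h2 : s ≤ p.2
      · rw [if_pos h2, if_pos h2, mul_zero]
      · rw [if_neg h2, if_neg h2, ih, mul_sub, ← intervalIntegral.integral_const_mul, mul_ct hb, one_mul]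
        congr 1
        refine intervalIntegral.integral_congr fun r _ => ?_
        show rho a b (ct a b) l r * Dk (ct a 1) a r s p.1 p.2 = _
        rw [ih]
        ring

/-- the half-plane limit depends only on `a` -/
theorem Avl_scale (hb : b ≠ 0) (l : List (ℝ × ℝ)) : Avl a b (ct a b) l = Avl a 1 (ct a 1) l := by
  cases l with
  | nil => rfl
  | cons p l =>
    show ∫ r in (0:ℝ)..p.1, rho a b (ct a b) l r * (ct a b * (p.2 - r) ^ (-a)) =
      ∫ r in (0:ℝ)..p.1, rho a 1 (ct a 1) l r * (ct a 1 * (p.2 - r) ^ (-a))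
    refine intervalIntegral.integral_congr fun r _ => ?_
    show rho a b (ct a b) l r * (ct a b * (p.2 - r) ^ (-a)) = rho a 1 (ct a 1) l r * (ct a 1 * (p.2 - r) ^ (-a))
    rw [rho_scale hb, ← mul_ct (a := a) hb]
    ring

/-- the bridge limit depends only on `a` -/
theorem rho_div (hb : b ≠ 0) (l : List (ℝ × ℝ)) (s : ℝ) : rho a b (ct a b) l s / b = rho a 1 (ct a 1) l s := by
  rw [rho_scale hb, mul_div_cancel_left₀ _ hb]

end CutLim
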