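import Pool.Agent.CutLim.F

/-! CUT_F2: convergence in law of random compact subsets of [0, 1] from the avoidance probabilities of finite unions of
intervals, the avoidance probabilities of the limit, uniqueness. -/

set_option autoImplicit false

namespace CutLim

open Filter Topology Finset MeasureTheory TopologicalSpace

open scoped ENNReal

/-- the compact sets K with Z ⊆ K ⊆ [0, 1] -/
def GoodZ (Z : Set ℝ) : Set NC := {K | (K : Set ℝ) ⊆ Set.Icc 0 1 ∧ Z ⊆ (K : Set ℝ)}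

lemma isClosed_GoodZ (Z : Set ℝ) : IsClosed (GoodZ Z) := by
  have h : GoodZ Z = {K : NC | (K : Set ℝ) ⊆ Set.Icc 0 1} ∩ ⋂ x ∈ Z, {K : NC | x ∈ (K : Set ℝ)} := by
    ext K
    simp only [GoodZ, Set.mem_ofPred_eq, Set.mem_inter_iff, Set.mem_iInter]
    exact ⟨fun h => ⟨h.1, fun x hx => h.2 hx⟩, fun h => ⟨h.1, fun x hx => h.2 x hx⟩⟩
  rw [h]
  exact (NonemptyCompacts.isClosed_subsets_of_isClosed isClosed_Icc).inter
    (isClosed_biInter fun x _ => isClosed_mem x)

lemma GoodZ_sub {Z : Set ℝ} (h0 : (0 : ℝ) ∈ Z) : GoodZ Z ⊆ Good := fun _ hK => ⟨hK.1, hK.2 h0⟩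

/-- comparison of two subsequential limits -/
lemma lim_leZ {Z : Set ℝ} (hZ : (0 : ℝ) ∈ Z) {P : ℕ → ProbabilityMeasure NC}
    (hP : ∀ T, ∀ᵐ K : NC ∂(P T : Measure NC), K ∈ GoodZ Z)
    (hl : ∀ m : ℕ, 1 ≤ m → ∀ A : Finset ℕ, A ⊆ range m → Disjoint (clC m A) Z →
      ∃ g : ℝ≥0∞, Tendsto (fun T => (P T : Measure NC) (AvC m A)) atTop (𝓝 g))
    {φ ψ : ℕ → ℕ} (hφ : Tendsto φ atTop atTop) (hψ : Tendsto ψ atTop atTop) {ν ν' : ProbabilityMeasure NC}
    (h : Tendsto (fun n => P (φ n)) atTop (𝓝 ν)) (h' : Tendsto (fun n => P (ψ n)) atTop (𝓝 ν')) {U : Set ℝ}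
    (hU : IsOpen U) (h0 : Disjoint U Z) : (ν : Measure NC) (AvS U) ≤ (ν' : Measure NC) (AvS U) := by
  have h00 : (0 : ℝ) ∉ U := fun h => Set.disjoint_left.1 h0 h hZ
  have key : ∀ m : ℕ, (ν : Measure NC) (AvS U) ≤ (ν' : Measure NC) (AvS (inn U (m + 1))) := by
    intro m
    obtain ⟨g, hg⟩ := hl (m + 1) (by omega) (inC U (m + 1)) (inC_sub _ _) (h0.mono_left (clC_inC (by omega)))
    calc (ν : Measure NC) (AvS U) ≤ (ν : Measure NC) (AvS (clC (m + 1) (inC U (m + 1)))) :=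
          measure_mono (AvS_anti (clC_inC (by omega)))
      _ ≤ g := open_le h (isOpen_AvS (isClosed_clC _ _)) (fun i => measure_mono (AvS_clC _ _)) (hg.comp hφ)
      _ ≤ (ν' : Measure NC) (AvS (inn U (m + 1))) := by
          refine closed_ge h' (isClosed_AvS (isOpen_inn _ _)) (fun i => measure_mono_ae ?_) (hg.comp hψ)
          filter_upwards [hP (ψ i)] with K hK hK'
          exact AvC_inC h00 (by omega) (GoodZ_sub hZ hK) hK'
  have h1 : Tendsto (fun m : ℕ => (ν' : Measure NC) (AvS (inn U (m + 1)))) atTop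
      (𝓝 ((ν' : Measure NC) (⋂ m : ℕ, AvS (inn U (m + 1))))) := by
    refine tendsto_measure_iInter_atTop (fun m => (isClosed_AvS (isOpen_inn _ _)).measurableSet.nullMeasurableSet) ?_
      ⟨0, measure_ne_top _ _⟩
    intro m m' hm
    exact AvS_anti (inn_mono U (by omega) (by omega))
  rw [← AvS_iUnion, iUnion_inn hU ⟨0, h00⟩] at h1
  exact ge_of_tendsto' h1 key

lemma null_of_meet {Z : Set ℝ} {ν : Measure NC} (hν : ∀ᵐ K ∂ν, K ∈ GoodZ Z) {U : Set ℝ} (h0 : ¬ Disjoint U Z) :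
    ν (AvS U) = 0 := by
  obtain ⟨x, hx, hxZ⟩ := Set.not_disjoint_iff.1 h0
  rw [measure_eq_zero_iff_ae_notMem]
  filter_upwards [hν] with K hK hK'
  exact hK' x (hK.2 hxZ) hx

/-- convergence in law from the convergence of the avoidance probabilities of unions of cells away from Z -/
theorem weakZ {Z : Set ℝ} (hZ : (0 : ℝ) ∈ Z) (P : ℕ → ProbabilityMeasure NC)
    (hP : ∀ T, ∀ᵐ K : NC ∂(P T : Measure NC), K ∈ GoodZ Z)
    (hl : ∀ m : ℕ, 1 ≤ m → ∀ A : Finset ℕ, A ⊆ range m → Disjoint (clC m A) Z →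
      ∃ g : ℝ≥0∞, Tendsto (fun T => (P T : Measure NC) (AvC m A)) atTop (𝓝 g)) :
    ∃ ν : ProbabilityMeasure NC, Tendsto P atTop (𝓝 ν) ∧ ∀ᵐ K : NC ∂(ν : Measure NC), K ∈ GoodZ Z := by
  have hP' : ∀ T, ∀ᵐ K : NC ∂(P T : Measure NC), K ∈ Good := fun T => (hP T).mono fun K hK => GoodZ_sub hZ hK
  obtain ⟨φ, hφ, ν, hν⟩ := subseq hP' (fun n => n)
  have hg : ∀ {φ : ℕ → ℕ} {ρ : ProbabilityMeasure NC}, Tendsto (fun n => P (φ n)) atTop (𝓝 ρ) →
      ∀ᵐ K : NC ∂(ρ : Measure NC), K ∈ GoodZ Z := fun {φ} {ρ} h => full_lim h (isClosed_GoodZ Z) (fun i => hP _)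
  refine ⟨ν, ?_, hg hν⟩
  refine tendsto_of_subseq_tendsto fun ns hns => ?_
  obtain ⟨ms, hms, ν', hν'⟩ := subseq hP' ns
  refine ⟨ms, ?_⟩
  have h1 : ν' = ν := by
    apply Subtype.ext
    have : IsProbabilityMeasure (ν' : Measure NC) := ν'.2
    have : IsProbabilityMeasure (ν : Measure NC) := ν.2
    refine ext_open (μ := (ν' : Measure NC)) (ν := (ν : Measure NC)) fun U hU => ?_
    by_cases h0 : Disjoint U Z
    · exact le_antisymm (lim_leZ hZ hP hl (hns.comp hms.tendsto_atTop) hφ.tendsto_atTop hν' hν hU h0)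
        (lim_leZ hZ hP hl hφ.tendsto_atTop (hns.comp hms.tendsto_atTop) hν hν' hU h0)
    · rw [null_of_meet (hg hν') h0, null_of_meet (hg hν) h0]
  rw [← h1]
  exact hν'

/-- two laws with the same avoidance probabilities of unions of cells away from Z are equal -/
theorem uniqueZ {Z : Set ℝ} (hZ : (0 : ℝ) ∈ Z) {ν ν' : ProbabilityMeasure NC}
    (hν : ∀ᵐ K : NC ∂(ν : Measure NC), K ∈ GoodZ Z) (hν' : ∀ᵐ K : NC ∂(ν' : Measure NC), K ∈ GoodZ Z)
    (h : ∀ m : ℕ, 1 ≤ m → ∀ A : Finset ℕ, A ⊆ range m → Disjoint (clC m A) Z →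
      (ν : Measure NC) (AvC m A) = (ν' : Measure NC) (AvC m A)) : ν = ν' := by
  let P : ℕ → ProbabilityMeasure NC := fun n => if Even n then ν else ν'
  have hP : ∀ T, ∀ᵐ K : NC ∂(P T : Measure NC), K ∈ GoodZ Z := by
    intro T
    by_cases hT : Even T
    · simp only [P, hT, if_true]
      exact hν
    · simp only [P, hT, if_false]
      exact hν'
  obtain ⟨ρ, hρ, -⟩ := weakZ hZ P hP (by
    intro m hm A hA hd
    refine ⟨(ν : Measure NC) (AvC m A), ?_⟩
    have h1 : (fun T => (P T : Measure NC) (AvC m A)) = fun _ => (ν : Measure NC) (AvC m A) := by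
      ext T
      by_cases hT : Even T
      · simp only [P, hT, if_true]
      · simp only [P, hT, if_false]
        exact (h m hm A hA hd).symm
    rw [h1]
    exact tendsto_const_nhds)
  have h1 : Tendsto (fun _ : ℕ => ν) atTop (𝓝 ρ) := by
    have h2 : Tendsto (fun n : ℕ => P (2 * n)) atTop (𝓝 ρ) :=
      hρ.comp (tendsto_id.const_mul_atTop' (by norm_num : 0 < 2))
    refine h2.congr fun n => ?_
    simp [P]
  have h3 : Tendsto (fun _ : ℕ => ν') atTop (𝓝 ρ) := by
    have h2 : Tendsto (fun n : ℕ => P (2 * n + 1)) atTop (𝓝 ρ) :=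
      hρ.comp (tendsto_atTop_mono (fun n => by omega : ∀ n : ℕ, n ≤ 2 * n + 1) tendsto_id)
    refine h2.congr fun n => ?_
    have : ¬ Even (2 * n + 1) := by
      rw [Nat.not_even_iff_odd]
      exact ⟨n, rfl⟩
    simp only [P, this, if_false]
  have e1 : ν = ρ := tendsto_nhds_unique tendsto_const_nhds h1
  have e2 : ν' = ρ := tendsto_nhds_unique tendsto_const_nhds h3
  rw [e1, e2]

/-- `(x₁, y₁), (x₂, y₂), ...` are gaps from right to left in `(0, r]`: `0 < ... < y₂ ≤ x₁ < y₁ ≤ r` -/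
def Adm : List (ℝ × ℝ) → ℝ → Prop
  | [], r => 0 < r
  | p :: l, r => p.1 < p.2 ∧ p.2 ≤ r ∧ Adm l p.1

/-- the union of the gaps `(x, y]` -/
def gaps (l : List (ℝ × ℝ)) : Set ℝ := {s | ∃ p ∈ l, p.1 < s ∧ s ≤ p.2}

/-- the union of the open gaps -/
def opg (l : List (ℝ × ℝ)) : Set ℝ := {s | ∃ p ∈ l, p.1 < s ∧ s < p.2}

/-- the union of the closed gaps -/
def clg (l : List (ℝ × ℝ)) : Set ℝ := {s | ∃ p ∈ l, p.1 ≤ s ∧ s ≤ p.2}

lemma opg_sub (l : List (ℝ × ℝ)) : opg l ⊆ gaps l := fun _ ⟨p, hp, h1, h2⟩ => ⟨p, hp, h1, h2.le⟩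

lemma gaps_sub (l : List (ℝ × ℝ)) : gaps l ⊆ clg l := fun _ ⟨p, hp, h1, h2⟩ => ⟨p, hp, h1.le, h2⟩

lemma isOpen_opg (l : List (ℝ × ℝ)) : IsOpen (opg l) := by
  have h : opg l = ⋃ p ∈ {p | p ∈ l}, Set.Ioo p.1 p.2 := by
    ext s
    simp only [opg, Set.mem_ofPred_eq, Set.mem_iUnion, Set.mem_Ioo, exists_prop]
  rw [h]
  exact isOpen_biUnion fun _ _ => isOpen_Ioo

lemma isClosed_clg (l : List (ℝ × ℝ)) : IsClosed (clg l) := by
  have h : clg l = ⋃ p ∈ {p | p ∈ l}, Set.Icc p.1 p.2 := by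
    ext s
    simp only [clg, Set.mem_ofPred_eq, Set.mem_iUnion, Set.mem_Icc, exists_prop]
  rw [h]
  exact (List.finite_toSet l).isClosed_biUnion fun _ _ => isClosed_Icc

lemma adm_pos : ∀ {l : List (ℝ × ℝ)} {r : ℝ}, Adm l r → 0 < r
  | [], _, h => h
  | p :: l, r, h => by
      have := adm_pos h.2.2
      linarith [h.1, h.2.1]

lemma adm_mem : ∀ {l : List (ℝ × ℝ)} {r : ℝ}, Adm l r → ∀ p ∈ l, 0 < p.1 ∧ p.1 < p.2 ∧ p.2 ≤ r
  | [], _, _, p, hp => by simp at hp
  | q :: l, r, h, p, hp => by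
      rcases List.mem_cons.1 hp with rfl | hp
      · exact ⟨adm_pos h.2.2, h.1, h.2.1⟩
      · have h1 := adm_mem h.2.2 p hp
        exact ⟨h1.1, h1.2.1, by linarith [h1.2.2, h.1, h.2.1]⟩

lemma adm_mono {l : List (ℝ × ℝ)} {r r' : ℝ} (h : Adm l r) (hr : r ≤ r') : Adm l r' := by
  cases l with
  | nil => exact lt_of_lt_of_le h hr
  | cons p l => exact ⟨h.1, h.2.1.trans hr, h.2.2⟩

open Classical in
/-- the cells of A below n, from right to left -/
noncomputable def cellL (m : ℕ) (A : Finset ℕ) : ℕ → List (ℝ × ℝ)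
  | 0 => []
  | n + 1 => if n ∈ A then ((n : ℝ) / m, ((n : ℝ) + 1) / m) :: cellL m A n else cellL m A n

lemma cellL_mem (m : ℕ) (A : Finset ℕ) : ∀ (n : ℕ) (p : ℝ × ℝ),
    p ∈ cellL m A n ↔ ∃ l < n, l ∈ A ∧ p = ((l : ℝ) / m, ((l : ℝ) + 1) / m)
  | 0, p => by simp [cellL]
  | n + 1, p => by
      have ih := cellL_mem m A n p
      unfold cellL
      by_cases h : n ∈ A
      · rw [if_pos h, List.mem_cons, ih]
        constructor
        · rintro (h1 | ⟨l, hl, hA, h1⟩)
          · exact ⟨n, by omega, h, h1⟩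
          · exact ⟨l, by omega, hA, h1⟩
        · rintro ⟨l, hl, hA, h1⟩
          by_cases hln : l = n
          · subst hln
            exact Or.inl h1
          · exact Or.inr ⟨l, by omega, hA, h1⟩
      · rw [if_neg h, ih]
        constructor
        · rintro ⟨l, hl, hA, h1⟩
          exact ⟨l, by omega, hA, h1⟩
        · rintro ⟨l, hl, hA, h1⟩
          have : l ≠ n := by
            rintro rfl
            exact h hA
          exact ⟨l, by omega, hA, h1⟩

lemma cellL_adm {m : ℕ} (hm : 1 ≤ m) {A : Finset ℕ} (hA : 0 ∉ A) : ∀ n : ℕ, Adm (cellL m A (n + 1)) (((n + 1 : ℕ) : ℝ) / m)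
  | 0 => by
      have h : cellL m A 1 = [] := by
        unfold cellL
        rw [if_neg hA]
        rfl
      rw [h]
      show (0 : ℝ) < _
      have : (0 : ℝ) < m := by exact_mod_cast hm
      positivity
  | n + 1 => by
      have ih := cellL_adm hm hA n
      have hm' : (0 : ℝ) < m := by exact_mod_cast hm
      unfold cellL
      by_cases h : n + 1 ∈ A
      · rw [if_pos h]
        refine ⟨?_, ?_, ih⟩
        · show ((n + 1 : ℕ) : ℝ) / m < (((n + 1 : ℕ) : ℝ) + 1) / m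
          gcongr
          linarith
        · show (((n + 1 : ℕ) : ℝ) + 1) / m ≤ ((n + 1 + 1 : ℕ) : ℝ) / m
          push_cast
          exact le_rfl
      · rw [if_neg h]
        refine adm_mono ih ?_
        gcongr
        omega

lemma AvC_eq_gaps {m : ℕ} {A : Finset ℕ} (hA : A ⊆ range m) : AvC m A = AvS (gaps (cellL m A m)) := by
  ext K
  simp only [AvC, AvS, gaps, Set.mem_ofPred_eq, cellL_mem]
  constructor
  · rintro h s hs ⟨p, ⟨l, hl, hlA, rfl⟩, h1, h2⟩
    exact h s hs l hlA ⟨h1, h2⟩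
  · rintro h s hs l hlA ⟨h1, h2⟩
    exact h s hs ⟨_, ⟨l, Finset.mem_range.1 (hA hlA), hlA, rfl⟩, h1, h2⟩

lemma clg_cellL {m : ℕ} {A : Finset ℕ} (hA : A ⊆ range m) : clg (cellL m A m) = clC m A := by
  ext s
  simp only [clg, clC, Set.mem_ofPred_eq, cellL_mem, Set.mem_iUnion, Set.mem_Icc, exists_prop]
  constructor
  · rintro ⟨p, ⟨l, hl, hlA, rfl⟩, h1, h2⟩
    exact ⟨l, hlA, h1, h2⟩
  · rintro ⟨l, hlA, h1, h2⟩
    exact ⟨_, ⟨l, Finset.mem_range.1 (hA hlA), hlA, rfl⟩, h1, h2⟩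

lemma adm_cellL {Z : Set ℝ} (hZ : (0 : ℝ) ∈ Z) {m : ℕ} (hm : 1 ≤ m) {A : Finset ℕ} (hd : Disjoint (clC m A) Z) :
    Adm (cellL m A m) 1 := by
  have h0 : 0 ∉ A := by
    intro h
    refine Set.disjoint_left.1 hd ?_ hZ
    refine Set.mem_biUnion (Finset.mem_coe.2 h) ⟨?_, ?_⟩
    · simp
    · have : (0 : ℝ) < m := by exact_mod_cast hm
      positivity
  obtain ⟨n, rfl⟩ : ∃ n, m = n + 1 := ⟨m - 1, by omega⟩
  have h1 := cellL_adm hm h0 n
  rwa [div_self (by positivity)] at h1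

lemma sandwich {P : ℕ → ProbabilityMeasure NC} {ν : ProbabilityMeasure NC} (hν : Tendsto P atTop (𝓝 ν))
    {l : List (ℝ × ℝ)} {a : ℝ} (ha : Tendsto (fun T => ((P T : Measure NC) (AvS (gaps l))).toReal) atTop (𝓝 a)) :
    ((ν : Measure NC) (AvS (clg l))).toReal ≤ a ∧ a ≤ ((ν : Measure NC) (AvS (opg l))).toReal := by
  have ha0 : 0 ≤ a := ge_of_tendsto' ha fun T => ENNReal.toReal_nonneg
  have ha' : Tendsto (fun T => (P T : Measure NC) (AvS (gaps l))) atTop (𝓝 (ENNReal.ofReal a)) := by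
    refine (ENNReal.tendsto_ofReal ha).congr fun T => ?_
    exact ENNReal.ofReal_toReal (measure_ne_top _ _)
  constructor
  · have h1 : (ν : Measure NC) (AvS (clg l)) ≤ ENNReal.ofReal a :=
      open_le hν (isOpen_AvS (isClosed_clg l)) (fun i => measure_mono (AvS_anti (gaps_sub l))) ha'
    exact ENNReal.toReal_le_of_le_ofReal ha0 h1
  · have h1 : ENNReal.ofReal a ≤ (ν : Measure NC) (AvS (opg l)) :=
      closed_ge hν (isClosed_AvS (isOpen_opg l)) (fun i => measure_mono (AvS_anti (opg_sub l))) ha'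
    exact (ENNReal.ofReal_le_iff_le_toReal (measure_ne_top _ _)).1 h1

lemma point_null {ν : ProbabilityMeasure NC} {x : ℝ} {a : ℝ → ℝ} (ha : Tendsto a (𝓝[>] 0) (𝓝 1)) {U : ℝ → Set ℝ}
    (hx : ∀ e, 0 < e → x ∈ U e) (h : ∀ᶠ e in 𝓝[>] 0, a e ≤ ((ν : Measure NC) (AvS (U e))).toReal) :
    ∀ᵐ K : NC ∂(ν : Measure NC), x ∉ (K : Set ℝ) := by
  have h1 : ∀ᶠ e in 𝓝[>] (0 : ℝ), a e ≤ ((ν : Measure NC) (AvS {x})).toReal := by
    filter_upwards [h, self_mem_nhdsWithin] with e he he'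
    refine he.trans ?_
    refine ENNReal.toReal_mono (measure_ne_top _ _) (measure_mono (AvS_anti ?_))
    exact Set.singleton_subset_iff.2 (hx e he')
  have h2 : (1 : ℝ) ≤ ((ν : Measure NC) (AvS {x})).toReal := le_of_tendsto ha h1
  have h3 : (ν : Measure NC) (AvS {x}) = 1 := by
    refine le_antisymm prob_le_one ?_
    rw [← ENNReal.ofReal_one]
    exact (ENNReal.ofReal_le_iff_le_toReal (measure_ne_top _ _)).2 h2
  have h4 : (ν : Measure NC) (AvS {x})ᶜ = 0 :=
    (prob_compl_eq_zero_iff (isOpen_AvS isClosed_singleton).measurableSet).2 h3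
  rw [measure_eq_zero_iff_ae_notMem] at h4
  filter_upwards [h4] with K hK hxK
  apply hK
  intro h5
  exact h5 x hxK rfl

/-- the ends of the gaps are not in the random set: the avoidance probabilities of open, half-open and closed gaps agree -/
lemma eq_of_null {ν : ProbabilityMeasure NC} {l : List (ℝ × ℝ)}
    (h : ∀ p ∈ l, (∀ᵐ K : NC ∂(ν : Measure NC), p.1 ∉ (K : Set ℝ)) ∧ ∀ᵐ K : NC ∂(ν : Measure NC), p.2 ∉ (K : Set ℝ)) :
    (ν : Measure NC) (AvS (opg l)) ≤ (ν : Measure NC) (AvS (clg l)) := by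
  have h1 : ∀ᵐ K : NC ∂(ν : Measure NC), ∀ p ∈ {p | p ∈ l}, p.1 ∉ (K : Set ℝ) ∧ p.2 ∉ (K : Set ℝ) := by
    rw [ae_ball_iff (List.finite_toSet l).countable]
    intro p hp
    filter_upwards [(h p hp).1, (h p hp).2] with K h1 h2
    exact ⟨h1, h2⟩
  refine measure_mono_ae ?_
  filter_upwards [h1] with K hK hK' s hs hs'
  obtain ⟨p, hp, h2, h3⟩ := hs'
  rcases h2.lt_or_eq with h2 | h2
  · rcases h3.lt_or_eq with h3 | h3
    · exact hK' s hs ⟨p, hp, h2, h3⟩
    · rw [h3] at hs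
      exact (hK p hp).2 hs
  · rw [← h2] at hs
    exact (hK p hp).1 hs

/-- Convergence in law from the avoidance probabilities of finite unions of intervals, with the avoidance probabilities of
the limit and uniqueness. `Z = {0}` or `Z = {0, 1}` in the applications. -/
theorem limit_of_gaps {Z : Set ℝ} (hZc : IsClosed Z) (hZ : (0 : ℝ) ∈ Z) (P : ℕ → ProbabilityMeasure NC)
    (hP : ∀ T, ∀ᵐ K : NC ∂(P T : Measure NC), K ∈ GoodZ Z) {A : List (ℝ × ℝ) → ℝ}
    (hA : ∀ l, Adm l 1 → Disjoint (clg l) Z →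
      Tendsto (fun T => ((P T : Measure NC) (AvS (gaps l))).toReal) atTop (𝓝 (A l)))
    (h1 : ∀ x, 0 < x → x < 1 → x ∉ Z → Tendsto (fun e => A [(x - e, x + e)]) (𝓝[>] 0) (𝓝 1))
    (h2 : (1 : ℝ) ∉ Z → Tendsto (fun e => A [(1 - e, 1)]) (𝓝[>] 0) (𝓝 1)) :
    ∃ ν : ProbabilityMeasure NC, Tendsto P atTop (𝓝 ν) ∧ (∀ᵐ K : NC ∂(ν : Measure NC), K ∈ GoodZ Z) ∧
      (∀ l, Adm l 1 → Disjoint (clg l) Z → ((ν : Measure NC) (AvS (gaps l))).toReal = A l ∧
        ((ν : Measure NC) (AvS (opg l))).toReal = A l ∧ ((ν : Measure NC) (AvS (clg l))).toReal = A l) ∧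
      ∀ ν' : ProbabilityMeasure NC, (∀ᵐ K : NC ∂(ν' : Measure NC), K ∈ GoodZ Z) →
        (∀ l, Adm l 1 → Disjoint (clg l) Z → ((ν' : Measure NC) (AvS (gaps l))).toReal = A l) → ν' = ν := by
  obtain ⟨ν, hν, hg⟩ := weakZ hZ P hP (by
    intro m hm B hB hd
    have hadm := adm_cellL hZ hm hd
    have hA' := hA (cellL m B m) hadm (by rwa [clg_cellL hB])
    refine ⟨ENNReal.ofReal (A (cellL m B m)), ?_⟩
    refine (ENNReal.tendsto_ofReal hA').congr fun T => ?_
    rw [ENNReal.ofReal_toReal (measure_ne_top _ _), AvC_eq_gaps hB])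
  -- fixed points are not in the random set
  have hpt : ∀ x, 0 < x → x ≤ 1 → x ∉ Z → ∀ᵐ K : NC ∂(ν : Measure NC), x ∉ (K : Set ℝ) := by
    intro x hx0 hx1 hxZ
    obtain ⟨ε, hε, hball⟩ := Metric.isOpen_iff.1 hZc.isOpen_compl x hxZ
    rcases hx1.lt_or_eq with hx1 | rfl
    · refine point_null (h1 x hx0 hx1 hxZ) (U := fun e => opg [(x - e, x + e)]) ?_ ?_
      · intro e he
        exact ⟨(x - e, x + e), by simp, by simpa using he, by simpa using he⟩
      · have h5 : Set.Ioo (0 : ℝ) (min (ε / 2) (min x (1 - x))) ∈ 𝓝[>] (0 : ℝ) :=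
          Ioo_mem_nhdsGT (lt_min (by linarith) (lt_min hx0 (by linarith)))
        filter_upwards [h5] with e he
        have h6 := lt_min_iff.1 he.2
        have h7 := lt_min_iff.1 h6.2
        have hadm : Adm [(x - e, x + e)] 1 := by
          refine ⟨?_, ?_, ?_⟩
          · show x - e < x + e
            linarith [he.1]
          · show x + e ≤ 1
            linarith
          · show 0 < x - e
            linarith
        have hd : Disjoint (clg [(x - e, x + e)]) Z := by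
          rw [Set.disjoint_left]
          rintro s ⟨p, hp, hs1, hs2⟩ hsZ
          simp only [List.mem_singleton] at hp
          subst hp
          refine hball ?_ hsZ
          rw [Metric.mem_ball, Real.dist_eq, abs_lt]
          simp only at hs1 hs2
          constructor <;> linarith
        exact (sandwich hν (hA _ hadm hd)).2
    · refine point_null (h2 hxZ) (U := fun e => Set.Ioi (1 - e)) ?_ ?_
      · intro e he
        exact sub_lt_self _ he
      · have h5 : Set.Ioo (0 : ℝ) (min (ε / 2) 1) ∈ 𝓝[>] (0 : ℝ) :=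
          Ioo_mem_nhdsGT (lt_min (by linarith) one_pos)
        filter_upwards [h5] with e he
        have h6 := lt_min_iff.1 he.2
        have hadm : Adm [(1 - e, 1)] 1 := by
          refine ⟨?_, ?_, ?_⟩
          · show 1 - e < 1
            linarith [he.1]
          · exact le_rfl
          · show 0 < 1 - e
            linarith
        have hd : Disjoint (clg [(1 - e, 1)]) Z := by
          rw [Set.disjoint_left]
          rintro s ⟨p, hp, hs1, hs2⟩ hsZ
          simp only [List.mem_singleton] at hp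
          subst hp
          refine hball ?_ hsZ
          rw [Metric.mem_ball, Real.dist_eq, abs_lt]
          simp only at hs1 hs2
          constructor <;> linarith
        have ha := hA _ hadm hd
        have ha' : Tendsto (fun T => (P T : Measure NC) (AvS (gaps [(1 - e, 1)]))) atTop
            (𝓝 (ENNReal.ofReal (A [(1 - e, 1)]))) := by
          refine (ENNReal.tendsto_ofReal ha).congr fun T => ?_
          exact ENNReal.ofReal_toReal (measure_ne_top _ _)
        have h8 : ENNReal.ofReal (A [(1 - e, 1)]) ≤ (ν : Measure NC) (AvS (Set.Ioi (1 - e))) := by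
          refine closed_ge hν (isClosed_AvS isOpen_Ioi) (fun i => measure_mono_ae ?_) ha'
          filter_upwards [hP i] with K hK hK' s hs hs'
          exact hK' s hs ⟨(1 - e, 1), by simp, hs', (hK.1 hs).2⟩
        exact (ENNReal.ofReal_le_iff_le_toReal (measure_ne_top _ _)).1 h8
  refine ⟨ν, hν, hg, ?_, ?_⟩
  · intro l hl hd
    have h3 := sandwich hν (hA l hl hd)
    have h4 : ((ν : Measure NC) (AvS (opg l))).toReal ≤ ((ν : Measure NC) (AvS (clg l))).toReal := by
      refine ENNReal.toReal_mono (measure_ne_top _ _) (eq_of_null fun p hp => ?_)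
      have h5 := adm_mem hl p hp
      constructor
      · exact hpt p.1 h5.1 (by linarith) fun h => Set.disjoint_left.1 hd ⟨p, hp, le_rfl, h5.2.1.le⟩ h
      · exact hpt p.2 (by linarith) h5.2.2 fun h => Set.disjoint_left.1 hd ⟨p, hp, h5.2.1.le, le_rfl⟩ h
    have h6 : ((ν : Measure NC) (AvS (clg l))).toReal ≤ ((ν : Measure NC) (AvS (gaps l))).toReal :=
      ENNReal.toReal_mono (measure_ne_top _ _) (measure_mono (AvS_anti (gaps_sub l)))
    have h7 : ((ν : Measure NC) (AvS (gaps l))).toReal ≤ ((ν : Measure NC) (AvS (opg l))).toReal :=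
      ENNReal.toReal_mono (measure_ne_top _ _) (measure_mono (AvS_anti (opg_sub l)))
    refine ⟨?_, ?_, ?_⟩ <;> linarith [h3.1, h3.2]
  · intro ν' hg' hA'
    refine uniqueZ hZ hg' hg fun m hm B hB hd => ?_
    have hadm := adm_cellL hZ hm hd
    have hd' : Disjoint (clg (cellL m B m)) Z := by rwa [clg_cellL hB]
    rw [AvC_eq_gaps hB, ← ENNReal.ofReal_toReal (measure_ne_top (ν' : Measure NC) (AvS (gaps (cellL m B m)))),
      ← ENNReal.ofReal_toReal (measure_ne_top (ν : Measure NC) (AvS (gaps (cellL m B m)))), hA' _ hadm hd']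
    have h3 := sandwich hν (hA _ hadm hd')
    have h4 : ((ν : Measure NC) (AvS (opg (cellL m B m)))).toReal ≤ ((ν : Measure NC) (AvS (clg (cellL m B m)))).toReal := by
      refine ENNReal.toReal_mono (measure_ne_top _ _) (eq_of_null fun p hp => ?_)
      have h5 := adm_mem hadm p hp
      constructor
      · exact hpt p.1 h5.1 (by linarith) fun h => Set.disjoint_left.1 hd' ⟨p, hp, le_rfl, h5.2.1.le⟩ h
      · exact hpt p.2 (by linarith) h5.2.2 fun h => Set.disjoint_left.1 hd' ⟨p, hp, h5.2.1.le, le_rfl⟩ h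
    have h6 : ((ν : Measure NC) (AvS (clg (cellL m B m)))).toReal ≤ ((ν : Measure NC) (AvS (gaps (cellL m B m)))).toReal :=
      ENNReal.toReal_mono (measure_ne_top _ _) (measure_mono (AvS_anti (gaps_sub _)))
    have h7 : ((ν : Measure NC) (AvS (gaps (cellL m B m)))).toReal ≤ ((ν : Measure NC) (AvS (opg (cellL m B m)))).toReal :=
      ENNReal.toReal_mono (measure_ne_top _ _) (measure_mono (AvS_anti (opg_sub _)))
    congr 1
    linarith [h3.1, h3.2]

end CutLim
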