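import Pool.Agent.CutLim.E2
import Pool.Agent.CutLim.E3
import Pool.Agent.CutLim.F2
import Pool.Agent.CutH.Lists

/-! CUT_H: the scaling limits of the cut levels of the half plane walk and of the critical bridges, with all
avoidance probabilities. -/

set_option autoImplicit false

namespace CutLim

open Filter Topology Finset MeasureTheory TopologicalSpace HexObs CutR3

open scoped ENNReal

theorem avs_eq_fw (B : Set ℕ) (n : ℕ) : avs B n = fw kk B n := by
  induction n using Nat.strong_induction_on with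
  | _ n ih =>
    rcases Nat.eq_zero_or_pos n with h | h
    · rw [h, (avs_AvSeq B).zero, fw_zero]
    · by_cases hB : n ∈ B
      · rw [(avs_AvSeq B).mem n h hB, fw_mem kk h hB]
      · rw [(avs_AvSeq B).not_mem n h hB, fw_not kk h hB]
        refine Finset.sum_congr rfl fun k hk => ?_
        rw [ih k (Finset.mem_range.1 hk)]

theorem measurableSet_gaps (l : List (ℝ × ℝ)) : MeasurableSet (AvS (gaps l)) := by
  induction l with
  | nil =>
    have h1 : AvS (gaps []) = Set.univ := by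
      ext K
      refine ⟨fun _ => trivial, fun _ s _ hs => ?_⟩
      obtain ⟨p, hp, -⟩ := hs
      exact List.not_mem_nil hp
    rw [h1]
    exact MeasurableSet.univ
  | cons p l ih =>
    have h1 : AvS (gaps (p :: l)) = AvS (Set.Ioc p.1 p.2) ∩ AvS (gaps l) := by
      rw [← AvS_union]
      congr 1
      ext s
      constructor
      · rintro ⟨q, hq, h1, h2⟩
        rcases List.mem_cons.1 hq with rfl | hq
        · exact Or.inl ⟨h1, h2⟩
        · exact Or.inr ⟨q, hq, h1, h2⟩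
      · rintro (h | ⟨q, hq, h1, h2⟩)
        · exact ⟨p, List.mem_cons_self, h.1, h.2⟩
        · exact ⟨q, List.mem_cons_of_mem _ hq, h1, h2⟩
    rw [h1]
    exact (measurableSet_Ioc _ _).inter ih

theorem mem_gaps_iff {T : ℕ} (hT : 1 ≤ T) {l : List (ℝ × ℝ)} (hl : ∀ p ∈ l, 0 < p.1) (t : List Bool) :
    cutset T t ∈ AvS (gaps l) ↔ ∀ c, 1 ≤ c → c ≤ T → c ∈ gp l T → ¬ Cut t c := by
  have hT' : (0 : ℝ) < T := by exact_mod_cast hT
  have hiff : ∀ c : ℕ, (c : ℝ) / T ∈ gaps l ↔ c ∈ gp l T := by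
    intro c
    constructor
    · rintro ⟨p, hp, h1, h2⟩
      exact ⟨p, hp, (lt_div_iff₀ hT').1 h1, (div_le_iff₀ hT').1 h2⟩
    · rintro ⟨p, hp, h1, h2⟩
      exact ⟨p, hp, (lt_div_iff₀ hT').2 h1, (div_le_iff₀ hT').2 h2⟩
  constructor
  · intro h4 c hc1 hc2 hc3 hcut
    exact h4 _ (mem_cutset.2 ⟨c, hc2, Or.inr hcut, rfl⟩) ((hiff c).2 hc3)
  · intro h4 z hz hz2
    obtain ⟨c, hc, hcut, rfl⟩ := mem_cutset.1 hz
    have h5 := (hiff c).1 hz2
    have hc1 : 1 ≤ c := by
      obtain ⟨p, hp, h1, h2⟩ := h5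
      have h6 := mul_pos (hl p hp) hT'
      rcases Nat.eq_zero_or_pos c with h | h
      · rw [h, Nat.cast_zero] at h1
        linarith
      · exact h
    rcases hcut with h | h
    · omega
    · exact h4 c hc1 hc h5 h

theorem lawS_gaps {T : ℕ} (hT : 1 ≤ T) {l : List (ℝ × ℝ)} (hl : Adm l 1) :
    lawS T (AvS (gaps l)) = ENNReal.ofReal (av kk (gp l T) T 0) := by
  rw [lawS_apply T (measurableSet_gaps l), ← gf_avoid]
  congr 1
  ext t
  exact and_congr_right fun _ => mem_gaps_iff hT (fun p hp => (adm_mem hl p hp).1) t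

theorem lawB_gaps {N : ℕ} (hN : 1 ≤ N) {l : List (ℝ × ℝ)} (hl : Adm l 1) :
    lawB N (AvS (gaps l)) = ENNReal.ofReal (fw kk (gp l N) N / uu N) := by
  rw [lawB_apply N (measurableSet_gaps l), ENNReal.ofReal_div_of_pos (uu_pos N), ← avs_eq_fw, ← gf_avoidB _ hN,
    ← BT_uu]
  congr 2
  ext t
  exact and_congr_right fun _ => mem_gaps_iff hN (fun p hp => (adm_mem hl p hp).1) t

theorem Ad_of_Adm {l : List (ℝ × ℝ)} : ∀ {r : ℝ}, Adm l r → Ad l r := by
  induction l with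
  | nil => exact fun h => h
  | cons p l ih => exact fun h => ⟨h.1.le, h.2.1, ih h.2.2⟩

/-- the laws of the rescaled cut levels of the half plane walk -/
noncomputable def PS (T : ℕ) : ProbabilityMeasure NC := ⟨lawS T, ⟨lawS_univ T⟩⟩

/-- the laws of the rescaled cut levels of the critical bridges -/
noncomputable def PB (N : ℕ) : ProbabilityMeasure NC := ⟨lawB N, ⟨lawB_univ N⟩⟩

theorem PS_good (T : ℕ) : ∀ᵐ K : NC ∂(PS T : Measure NC), K ∈ GoodZ {0} := by
  have h0 : (PS T : Measure NC) = lawS T := rfl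
  rw [h0, ae_iff]
  have h1 : {K : NC | ¬ K ∈ GoodZ {0}} = (GoodZ {0})ᶜ := rfl
  rw [h1, lawS_apply T (isClosed_GoodZ {0}).measurableSet.compl]
  have h2 : {t | t ∈ FCW T ∧ cutset T t ∈ (GoodZ {0})ᶜ} = ∅ := by
    ext t
    constructor
    · rintro ⟨_, h⟩
      have h3 := cutset_unit (T := T) t
      exact absurd (show cutset T t ∈ GoodZ {0} from ⟨h3.1, fun x hx => by
        rw [Set.mem_singleton_iff.1 hx]
        exact h3.2⟩) h
    · exact fun h => absurd h (Set.notMem_empty t)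
  rw [h2]
  unfold gf
  simp

theorem PB_good {N : ℕ} (hN : 1 ≤ N) : ∀ᵐ K : NC ∂(PB N : Measure NC), K ∈ GoodZ {0, 1} := by
  have h0 : (PB N : Measure NC) = lawB N := rfl
  rw [h0, ae_iff]
  have h1 : {K : NC | ¬ K ∈ GoodZ {0, 1}} = (GoodZ {0, 1})ᶜ := rfl
  rw [h1, lawB_apply N (isClosed_GoodZ {0, 1}).measurableSet.compl]
  have hN' : (N : ℝ) ≠ 0 := by
    have : (0 : ℝ) < N := by exact_mod_cast hN
    exact this.ne'
  have h2 : {t | t ∈ Brd N ∧ cutset N t ∈ (GoodZ {0, 1})ᶜ} = ∅ := by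
    ext t
    constructor
    · rintro ⟨ht, h⟩
      have h3 := cutset_unit (T := N) t
      refine absurd (show cutset N t ∈ GoodZ {0, 1} from ⟨h3.1, ?_⟩) h
      intro x hx
      rcases hx with hx | hx
      · rw [hx]
        exact h3.2
      · rw [Set.mem_singleton_iff.1 hx]
        exact mem_cutset.2 ⟨N, le_rfl, Or.inr (CC.cut_top ht), (div_self hN').symm⟩
    · exact fun h => absurd h (Set.notMem_empty t)
  rw [h2]
  unfold gf
  simp

/-- the avoidance probabilities of the limit for the half plane walk: the gaps are `(x, y]`, the head is the rightmost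
gap -/
noncomputable def AH (l : List (ℝ × ℝ)) : ℝ := Avl (3 / 4) 1 (ct (3 / 4) 1) l

/-- the avoidance probabilities of the limit for the bridges -/
noncomputable def AB (l : List (ℝ × ℝ)) : ℝ := rho (3 / 4) 1 (ct (3 / 4) 1) l 1

section

variable {b : ℝ}

private lemma hu' (hu : Tendsto (fun n : ℕ => (n : ℝ) ^ (1 / 4 : ℝ) * uu n) atTop (𝓝 b)) :
    Tendsto (fun n : ℕ => (n : ℝ) ^ (1 - 3 / 4 : ℝ) * uu n) atTop (𝓝 b) := by
  have he : (1 : ℝ) - 3 / 4 = 1 / 4 := by norm_num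
  rw [he]
  exact hu

private lemma avl_cont' (hb : 0 < b) (hu : Tendsto (fun n : ℕ => (n : ℝ) ^ (1 / 4 : ℝ) * uu n) atTop (𝓝 b)) {x0 : ℝ}
    (hx0 : 0 < x0) {x y : ℝ → ℝ} (hx : Tendsto x (𝓝[>] 0) (𝓝 x0)) (hy : Tendsto y (𝓝[>] 0) (𝓝 x0))
    (hxy : ∀ᶠ e in 𝓝[>] (0 : ℝ), x e ≤ y e) : Tendsto (fun e => AH [(x e, y e)]) (𝓝[>] 0) (𝓝 1) := by
  have h1 := Avl_cont ren_uu (by norm_num : (0 : ℝ) < 3 / 4) (by norm_num) hb (hu' hu) hx0 hx hy hxy
  refine h1.congr fun e => ?_
  rw [Avl_scale hb.ne']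
  rfl

/-- THE SCALING LIMIT OF THE CUT LEVELS OF THE CRITICAL HALF PLANE WALK -/
theorem half_limit (hb : 0 < b) (hu : Tendsto (fun n : ℕ => (n : ℝ) ^ (1 / 4 : ℝ) * uu n) atTop (𝓝 b)) :
    ∃ ν : ProbabilityMeasure NC, Tendsto PS atTop (𝓝 ν) ∧ (∀ᵐ K : NC ∂(ν : Measure NC), K ∈ GoodZ {0}) ∧
      (∀ l, Adm l 1 → ((ν : Measure NC) (AvS (gaps l))).toReal = AH l ∧
        ((ν : Measure NC) (AvS (opg l))).toReal = AH l ∧ ((ν : Measure NC) (AvS (clg l))).toReal = AH l) ∧
      ∀ ν' : ProbabilityMeasure NC, (∀ᵐ K : NC ∂(ν' : Measure NC), K ∈ GoodZ {0}) →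
        (∀ l, Adm l 1 → ((ν' : Measure NC) (AvS (gaps l))).toReal = AH l) → ν' = ν := by
  have hd : ∀ l, Adm l 1 → Disjoint (clg l) {0} := by
    intro l hl
    rw [Set.disjoint_singleton_right]
    rintro ⟨p, hp, h1, h2⟩
    have := (adm_mem hl p hp).1
    linarith
  obtain ⟨ν, h1, h2, h3, h4⟩ := limit_of_gaps (Z := {0}) isClosed_singleton rfl PS PS_good (A := AH) (by
    intro l hl _
    have h5 := av_gaps ren_uu (by norm_num : (0 : ℝ) < 3 / 4) (by norm_num) hb (hu' hu) (Ad_of_Adm hl)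
    rw [Avl_scale hb.ne'] at h5
    refine h5.congr' ?_
    filter_upwards [eventually_ge_atTop 1] with T hT
    have h6 : (PS T : Measure NC) = lawS T := rfl
    rw [h6, lawS_gaps hT hl, ENNReal.toReal_ofReal (av_nonneg ren_uu _ _ _)]) (by
    intro x hx0 hx1 _
    refine avl_cont' hb hu hx0 ?_ ?_ ?_
    · have h7 : Tendsto (fun e : ℝ => x - e) (𝓝 0) (𝓝 (x - 0)) := tendsto_const_nhds.sub tendsto_id
      rw [sub_zero] at h7
      exact h7.mono_left nhdsWithin_le_nhds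
    · have h7 : Tendsto (fun e : ℝ => x + e) (𝓝 0) (𝓝 (x + 0)) := tendsto_const_nhds.add tendsto_id
      rw [add_zero] at h7
      exact h7.mono_left nhdsWithin_le_nhds
    · filter_upwards [self_mem_nhdsWithin] with e he
      have he' : (0 : ℝ) < e := he
      linarith) (by
    intro _
    refine avl_cont' hb hu one_pos ?_ tendsto_const_nhds ?_
    · have h7 : Tendsto (fun e : ℝ => (1 : ℝ) - e) (𝓝 0) (𝓝 (1 - 0)) := tendsto_const_nhds.sub tendsto_id
      rw [sub_zero] at h7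
      exact h7.mono_left nhdsWithin_le_nhds
    · filter_upwards [self_mem_nhdsWithin] with e he
      have he' : (0 : ℝ) < e := he
      linarith)
  exact ⟨ν, h1, h2, fun l hl => h3 l hl (hd l hl), fun ν' h5 h6 => h4 ν' h5 fun l hl _ => h6 l hl⟩

/-- THE SCALING LIMIT OF THE CUT LEVELS OF THE CRITICAL BRIDGES -/
theorem bridge_limit (hb : 0 < b) (hu : Tendsto (fun n : ℕ => (n : ℝ) ^ (1 / 4 : ℝ) * uu n) atTop (𝓝 b)) :
    ∃ ν : ProbabilityMeasure NC, Tendsto PB atTop (𝓝 ν) ∧ (∀ᵐ K : NC ∂(ν : Measure NC), K ∈ GoodZ {0, 1}) ∧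
      (∀ l r, Adm l r → r < 1 → ((ν : Measure NC) (AvS (gaps l))).toReal = AB l ∧
        ((ν : Measure NC) (AvS (opg l))).toReal = AB l ∧ ((ν : Measure NC) (AvS (clg l))).toReal = AB l) ∧
      ∀ ν' : ProbabilityMeasure NC, (∀ᵐ K : NC ∂(ν' : Measure NC), K ∈ GoodZ {0, 1}) →
        (∀ l r, Adm l r → r < 1 → ((ν' : Measure NC) (AvS (gaps l))).toReal = AB l) → ν' = ν := by
  have hd : ∀ l r, Adm l r → r < 1 → Adm l 1 ∧ Disjoint (clg l) {0, 1} := by
    intro l r hl hr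
    refine ⟨adm_mono hl hr.le, ?_⟩
    rw [Set.disjoint_left]
    rintro s ⟨p, hp, h1, h2⟩ hs
    have h3 := adm_mem hl p hp
    rcases hs with hs | hs
    · rw [hs] at h1
      linarith [h3.1]
    · rw [Set.mem_singleton_iff.1 hs] at h2
      linarith [h3.2.2]
  have hd' : ∀ l, Adm l 1 → Disjoint (clg l) {0, 1} → ∃ r, Adm l r ∧ r < 1 := by
    intro l hl hdis
    cases l with
    | nil =>
      refine ⟨1 / 2, ?_, by norm_num⟩
      show (0 : ℝ) < 1 / 2
      norm_num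
    | cons p l =>
      refine ⟨p.2, ⟨hl.1, le_rfl, hl.2.2⟩, lt_of_le_of_ne hl.2.1 fun h => ?_⟩
      have h9 : p.2 ∈ clg (p :: l) := ⟨p, List.mem_cons_self, hl.1.le, le_rfl⟩
      exact (Set.disjoint_left.1 hdis h9) (Or.inr h)
  have hZc : IsClosed ({0, 1} : Set ℝ) := (Set.toFinite _).isClosed
  obtain ⟨ν, h1, h2, h3, h4⟩ := limit_of_gaps (Z := {0, 1}) hZc (Or.inl rfl) (fun N => PB (max N 1))
    (fun N => PB_good (le_max_right N 1)) (A := AB) (by
    intro l hl hdis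
    obtain ⟨r, hr, hr1⟩ := hd' l hl hdis
    have h5 := br_gaps ren_uu (by norm_num : (0 : ℝ) < 3 / 4) (by norm_num) hb (hu' hu) (Ad_of_Adm hr) hr1
    rw [rho_div hb.ne'] at h5
    refine h5.congr' ?_
    filter_upwards [eventually_ge_atTop 1] with N hN
    have h6 : (PB (max N 1) : Measure NC) = lawB N := by
      rw [max_eq_left hN]
      rfl
    rw [h6, lawB_gaps hN hl, ENNReal.toReal_ofReal (div_nonneg (fw_nonneg ren_uu _ _) (uu_pos N).le)]) (by
    intro x hx0 hx1 _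
    have h5 := br_cont (c := ct (3 / 4) b) (by norm_num : (0 : ℝ) < 3 / 4) (by norm_num) hb hx0 hx1
      (L := 𝓝[>] (0 : ℝ)) (x := fun e => x - e) (y := fun e => x + e) (by
        have h7 : Tendsto (fun e : ℝ => x - e) (𝓝 0) (𝓝 (x - 0)) := tendsto_const_nhds.sub tendsto_id
        rw [sub_zero] at h7
        exact h7.mono_left nhdsWithin_le_nhds) (by
        have h7 : Tendsto (fun e : ℝ => x + e) (𝓝 0) (𝓝 (x + 0)) := tendsto_const_nhds.add tendsto_id
        rw [add_zero] at h7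
        exact h7.mono_left nhdsWithin_le_nhds) (by
        filter_upwards [self_mem_nhdsWithin] with e he
        have he' : (0 : ℝ) < e := he
        linarith)
    refine h5.congr fun e => ?_
    rw [rho_div hb.ne']
    rfl) (fun h => absurd (Or.inr rfl) h)
  have h5 : Tendsto PB atTop (𝓝 ν) := by
    refine h1.congr' ?_
    filter_upwards [eventually_ge_atTop 1] with N hN
    rw [max_eq_left hN]
  refine ⟨ν, h5, h2, fun l r hl hr => h3 l (hd l r hl hr).1 (hd l r hl hr).2, fun ν' h6 h7 => h4 ν' h6 ?_⟩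
  intro l hl hdis
  obtain ⟨r, hr, hr1⟩ := hd' l hl hdis
  exact h7 l r hr hr1

end

end CutLim
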