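import Pool.Agent.CutLim.E3

/-! CUT_I: the last exit formula for the density of the renewal points which avoid the gaps: for `s` beyond the last gap
`(x, y]`, `rho ((x, y) :: l) s = ∫_0^x rho l r * (sin (π a) / π) (s - r)⁻¹ ((s - y) / (y - r)) ^ a`. -/

set_option autoImplicit false

namespace CutLim

open Filter Topology Finset MeasureTheory

open CutR3 (fw gp Ad rho Dk)

open scoped ENNReal

variable {a : ℝ}

lemma lint_beta (ha : 0 < a) (ha1 : a < 1) :
    ∫⁻ v in Set.Ioo (0 : ℝ) 1, ENNReal.ofReal (v ^ (a - 1) * (1 - v) ^ (-a)) = ENNReal.ofReal (ct a 1)⁻¹ := by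
  have h1 := ProbabilityTheory.lintegral_betaPDF_eq_one ha (show 0 < 1 - a by linarith)
  rw [ProbabilityTheory.lintegral_betaPDF] at h1
  have hB : 0 < ProbabilityTheory.beta a (1 - a) := ProbabilityTheory.beta_pos ha (by linarith)
  have hct : (ct a 1)⁻¹ = ProbabilityTheory.beta a (1 - a) := by
    unfold ct ProbabilityTheory.beta
    rw [show a + (1 - a) = 1 by ring, Real.Gamma_one]
    field_simp
  rw [hct]
  have h2 : ∀ v ∈ Set.Ioo (0 : ℝ) 1, ENNReal.ofReal (1 / ProbabilityTheory.beta a (1 - a) * v ^ (a - 1) *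
      (1 - v) ^ (1 - a - 1)) = ENNReal.ofReal (1 / ProbabilityTheory.beta a (1 - a)) *
        ENNReal.ofReal (v ^ (a - 1) * (1 - v) ^ (-a)) := by
    intro v _
    rw [← ENNReal.ofReal_mul (by positivity), show 1 - a - 1 = -a by ring, mul_assoc]
  rw [setLIntegral_congr_fun measurableSet_Ioo h2, lintegral_const_mul _ (by fun_prop)] at h1
  have h3 : ENNReal.ofReal (ProbabilityTheory.beta a (1 - a)) * ENNReal.ofReal (1 / ProbabilityTheory.beta a (1 - a)) =
      1 := by
    rw [← ENNReal.ofReal_mul hB.le, mul_one_div_cancel hB.ne', ENNReal.ofReal_one]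
  calc ∫⁻ v in Set.Ioo (0 : ℝ) 1, ENNReal.ofReal (v ^ (a - 1) * (1 - v) ^ (-a))
      = ENNReal.ofReal (ProbabilityTheory.beta a (1 - a)) * (ENNReal.ofReal (1 / ProbabilityTheory.beta a (1 - a)) *
        ∫⁻ v in Set.Ioo (0 : ℝ) 1, ENNReal.ofReal (v ^ (a - 1) * (1 - v) ^ (-a))) := by
        rw [← mul_assoc, h3, one_mul]
    _ = _ := by rw [h1, mul_one]

/-- the Moebius substitution -/
lemma lint_moebius (ha : 0 < a) (ha1 : a < 1) {z : ℝ} (hz : z < 0 ∨ 1 < z) :
    ∫⁻ u in Set.Ioo (0 : ℝ) 1, ENNReal.ofReal (u ^ (a - 1) * (1 - u) ^ (-a) * |z - u|⁻¹) =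
      ENNReal.ofReal (|z| ^ (a - 1) * |z - 1| ^ (-a) * (ct a 1)⁻¹) := by
  have hz0 : z ≠ 0 := by rcases hz with h | h <;> linarith [h] <;> exact fun h' => by linarith
  have hz1 : z - 1 ≠ 0 := by
    rcases hz with h | h
    · exact ne_of_lt (by linarith)
    · exact ne_of_gt (by linarith)
  have hzz : 0 < z * (z - 1) := by
    rcases hz with h | h
    · exact mul_pos_of_neg_of_neg h (by linarith)
    · exact mul_pos (by linarith) (by linarith)
  have hd : ∀ v ∈ Set.Ioo (0 : ℝ) 1, 0 < z * (z - 1 + v) := by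
    intro v hv
    rcases hz with h | h
    · exact mul_pos_of_neg_of_neg h (by linarith [hv.2])
    · exact mul_pos (by linarith) (by linarith [hv.1])
  have hd0 : ∀ v ∈ Set.Ioo (0 : ℝ) 1, z - 1 + v ≠ 0 := fun v hv h => by
    have := hd v hv
    rw [h, mul_zero] at this
    exact lt_irrefl _ this
  have him : (fun v : ℝ => z * v / (z - 1 + v)) '' Set.Ioo (0 : ℝ) 1 = Set.Ioo (0 : ℝ) 1 := by
    ext u
    constructor
    · rintro ⟨v, hv, rfl⟩
      have h1 := hd v hv
      have h2 : z * v / (z - 1 + v) = z * z * v / (z * (z - 1 + v)) := by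
        have := hd0 v hv
        field_simp
      have h3 : 1 - z * v / (z - 1 + v) = z * (z - 1) * (1 - v) / (z * (z - 1 + v)) := by
        have := hd0 v hv
        field_simp
        ring
      constructor
      · show 0 < z * v / (z - 1 + v)
        rw [h2]
        exact div_pos (mul_pos (mul_self_pos.2 hz0) hv.1) h1
      · show z * v / (z - 1 + v) < 1
        have h4 : 0 < 1 - z * v / (z - 1 + v) := by
          rw [h3]
          exact div_pos (mul_pos hzz (by linarith [hv.2])) h1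
        linarith
    · intro hu
      have h1 : z - u ≠ 0 := by
        rcases hz with h | h
        · exact ne_of_lt (by linarith [hu.1])
        · exact ne_of_gt (by linarith [hu.2])
      have h5 : 0 < z * (z - u) := by
        rcases hz with h | h
        · exact mul_pos_of_neg_of_neg h (by linarith [hu.1])
        · exact mul_pos (by linarith) (by linarith [hu.2])
      refine ⟨(z - 1) * u / (z - u), ⟨?_, ?_⟩, ?_⟩
      · have h2 : (z - 1) * u / (z - u) = z * (z - 1) * u / (z * (z - u)) := by field_simp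
        rw [h2]
        exact div_pos (mul_pos hzz hu.1) h5
      · have h2 : 1 - (z - 1) * u / (z - u) = z * z * (1 - u) / (z * (z - u)) := by
          field_simp
          ring
        have h3 : 0 < 1 - (z - 1) * u / (z - u) := by
          rw [h2]
          exact div_pos (mul_pos (mul_self_pos.2 hz0) (by linarith [hu.2])) h5
        linarith
      · show z * ((z - 1) * u / (z - u)) / (z - 1 + (z - 1) * u / (z - u)) = u
        have h2 : z - 1 + (z - 1) * u / (z - u) = z * (z - 1) / (z - u) := by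
          field_simp
          ring
        rw [h2]
        field_simp
  have hinj : Set.InjOn (fun v : ℝ => z * v / (z - 1 + v)) (Set.Ioo (0 : ℝ) 1) := by
    intro v hv w hw h
    have h1 : z * v / (z - 1 + v) = z * w / (z - 1 + w) := h
    rw [div_eq_div_iff (hd0 v hv) (hd0 w hw)] at h1
    have h2 : z * (z - 1) * (v - w) = 0 := by linarith
    rcases mul_eq_zero.1 h2 with h3 | h3
    · exact absurd h3 hzz.ne'
    · linarith
  have hder : ∀ v ∈ Set.Ioo (0 : ℝ) 1, HasDerivWithinAt (fun v : ℝ => z * v / (z - 1 + v))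
      (z * (z - 1) / (z - 1 + v) ^ 2) (Set.Ioo (0 : ℝ) 1) v := by
    intro v hv
    have h1 : HasDerivAt (fun v : ℝ => z * v) z v := by
      simpa using (hasDerivAt_id v).const_mul z
    have h2 : HasDerivAt (fun v : ℝ => z - 1 + v) 1 v := (hasDerivAt_id v).const_add (z - 1)
    have h3 := h1.div h2 (hd0 v hv)
    refine (h3.congr_deriv ?_).hasDerivWithinAt
    congr 1
    ring
  have h1 := lintegral_image_eq_lintegral_abs_deriv_mul measurableSet_Ioo hder hinj
    (fun u => ENNReal.ofReal (u ^ (a - 1) * (1 - u) ^ (-a) * |z - u|⁻¹))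
  rw [him] at h1
  rw [h1]
  have h2 : ∀ v ∈ Set.Ioo (0 : ℝ) 1, ENNReal.ofReal |z * (z - 1) / (z - 1 + v) ^ 2| *
      ENNReal.ofReal ((z * v / (z - 1 + v)) ^ (a - 1) * (1 - z * v / (z - 1 + v)) ^ (-a) *
        |z - z * v / (z - 1 + v)|⁻¹) =
      ENNReal.ofReal (|z| ^ (a - 1) * |z - 1| ^ (-a)) * ENNReal.ofReal (v ^ (a - 1) * (1 - v) ^ (-a)) := by
    intro v hv
    rw [← ENNReal.ofReal_mul (abs_nonneg _), ← ENNReal.ofReal_mul (by positivity)]
    congr 1
    have e0 := hd0 v hv
    have e1 : z * v / (z - 1 + v) = |z| * v / |z - 1 + v| := by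
      rcases hz with h | h
      · rw [abs_of_neg h, abs_of_neg (by linarith [hv.2]), neg_mul, neg_div_neg_eq]
      · rw [abs_of_pos (by linarith), abs_of_pos (by linarith [hv.1])]
    have e2 : 1 - z * v / (z - 1 + v) = |z - 1| * (1 - v) / |z - 1 + v| := by
      have e3 : 1 - z * v / (z - 1 + v) = (z - 1) * (1 - v) / (z - 1 + v) := by
        field_simp
        ring
      rw [e3]
      rcases hz with h | h
      · rw [abs_of_neg (show z - 1 < 0 by linarith), abs_of_neg (show z - 1 + v < 0 by linarith [hv.2]), neg_mul,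
          neg_div_neg_eq]
      · rw [abs_of_pos (show 0 < z - 1 by linarith), abs_of_pos (show 0 < z - 1 + v by linarith [hv.1])]
    have e4 : |z - z * v / (z - 1 + v)| = |z| * |z - 1| / |z - 1 + v| := by
      rw [← abs_mul, ← abs_div]
      congr 1
      field_simp
      ring
    have e5 : |z * (z - 1) / (z - 1 + v) ^ 2| = |z| * |z - 1| / |z - 1 + v| ^ 2 := by
      rw [abs_div, abs_mul, abs_pow]
    rw [e2, e4, e5, e1]
    have hA : 0 < |z| := abs_pos.2 hz0
    have hB : 0 < |z - 1| := abs_pos.2 hz1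
    have hC : 0 < |z - 1 + v| := abs_pos.2 e0
    have hv0 := hv.1
    have hv1 : 0 < 1 - v := by linarith [hv.2]
    rw [Real.div_rpow (by positivity) hC.le, Real.div_rpow (by positivity) hC.le, Real.mul_rpow hA.le hv0.le,
      Real.mul_rpow hB.le hv1.le]
    have e6 : |z - 1 + v| ^ (a - 1) * |z - 1 + v| ^ (-a) = |z - 1 + v|⁻¹ := by
      rw [← Real.rpow_add hC, show a - 1 + -a = -1 by ring, Real.rpow_neg_one]
    have e7 : 0 < |z - 1 + v| ^ (a - 1) := Real.rpow_pos_of_pos hC _
    have e8 : 0 < |z - 1 + v| ^ (-a) := Real.rpow_pos_of_pos hC _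
    have e9 : |z - 1 + v| ^ (-a) = |z - 1 + v|⁻¹ / |z - 1 + v| ^ (a - 1) := by
      rw [← e6]
      field_simp
    rw [e9]
    field_simp
  rw [setLIntegral_congr_fun measurableSet_Ioo h2, lintegral_const_mul _ (by fun_prop), lint_beta ha ha1,
    ← ENNReal.ofReal_mul (by positivity)]

lemma ct_pos1 (ha : 0 < a) (ha1 : a < 1) : 0 < ct a 1 := ct_pos ha ha1 one_pos

/-- `∫_0^1 t^a (1-t)^(-a) / (z-t) dt`, `z > 1` -/
lemma lint_right (ha : 0 < a) (ha1 : a < 1) {z : ℝ} (hz : 1 < z) :
    ∫⁻ u in Set.Ioo (0 : ℝ) 1, ENNReal.ofReal (u ^ a * (1 - u) ^ (-a) * (z - u)⁻¹) =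
      ENNReal.ofReal ((ct a 1)⁻¹ * ((z / (z - 1)) ^ a - 1)) := by
  have hc := ct_pos1 ha ha1
  have h1 := lint_moebius ha ha1 (Or.inr hz)
  have h2 := lint_beta ha ha1
  have h3 : ∀ u ∈ Set.Ioo (0 : ℝ) 1, ENNReal.ofReal z * ENNReal.ofReal (u ^ (a - 1) * (1 - u) ^ (-a) * |z - u|⁻¹) =
      ENNReal.ofReal (u ^ a * (1 - u) ^ (-a) * (z - u)⁻¹) + ENNReal.ofReal (u ^ (a - 1) * (1 - u) ^ (-a)) := by
    intro u hu
    have h4 : 0 < z - u := by linarith [hu.2]
    have h5 : 0 < u := hu.1
    have h6 : 0 < 1 - u := by linarith [hu.2]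
    rw [← ENNReal.ofReal_mul (by linarith), ← ENNReal.ofReal_add (by positivity) (by positivity), abs_of_pos h4]
    congr 1
    have h7 : u ^ a = u * u ^ (a - 1) := by
      rw [Real.rpow_sub_one h5.ne']
      field_simp
    rw [h7]
    field_simp
    ring
  have h4 : ENNReal.ofReal z * ENNReal.ofReal (|z| ^ (a - 1) * |z - 1| ^ (-a) * (ct a 1)⁻¹) =
      (∫⁻ u in Set.Ioo (0 : ℝ) 1, ENNReal.ofReal (u ^ a * (1 - u) ^ (-a) * (z - u)⁻¹)) + ENNReal.ofReal (ct a 1)⁻¹ := by
    rw [← h1, ← h2, ← lintegral_const_mul _ (by fun_prop), setLIntegral_congr_fun measurableSet_Ioo h3,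
      lintegral_add_right _ (by fun_prop)]
  have hz1 : 0 < z - 1 := by linarith
  have h5 : 1 ≤ (z / (z - 1)) ^ a := Real.one_le_rpow (by rw [one_le_div hz1]; linarith) ha.le
  have h6 : z * (|z| ^ (a - 1) * |z - 1| ^ (-a) * (ct a 1)⁻¹) =
      (ct a 1)⁻¹ * ((z / (z - 1)) ^ a - 1) + (ct a 1)⁻¹ := by
    rw [abs_of_pos (by linarith), abs_of_pos hz1, Real.div_rpow (by linarith) hz1.le, Real.rpow_neg hz1.le]
    have h7 : z ^ a = z * z ^ (a - 1) := by
      rw [Real.rpow_sub_one (by linarith)]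
      field_simp
    rw [h7]
    field_simp
    ring
  rw [← ENNReal.ofReal_mul (by linarith), h6, ENNReal.ofReal_add (by
    have := inv_pos.2 hc
    exact mul_nonneg this.le (by linarith)) (inv_pos.2 hc).le] at h4
  exact ((ENNReal.add_left_inj ENNReal.ofReal_ne_top).1 h4).symm

/-- `∫_0^1 t^a (1-t)^(-a) / (t+w) dt`, `w > 0` -/
lemma lint_left (ha : 0 < a) (ha1 : a < 1) {w : ℝ} (hw : 0 < w) :
    ∫⁻ u in Set.Ioo (0 : ℝ) 1, ENNReal.ofReal (u ^ a * (1 - u) ^ (-a) * (u + w)⁻¹) =
      ENNReal.ofReal ((ct a 1)⁻¹ * (1 - (w / (1 + w)) ^ a)) := by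
  have hc := ct_pos1 ha ha1
  have h1 := lint_moebius ha ha1 (z := -w) (Or.inl (by linarith))
  have h2 := lint_beta ha ha1
  have h3 : ∀ u ∈ Set.Ioo (0 : ℝ) 1, ENNReal.ofReal (u ^ a * (1 - u) ^ (-a) * (u + w)⁻¹) +
      ENNReal.ofReal w * ENNReal.ofReal (u ^ (a - 1) * (1 - u) ^ (-a) * |-w - u|⁻¹) =
      ENNReal.ofReal (u ^ (a - 1) * (1 - u) ^ (-a)) := by
    intro u hu
    have h5 : 0 < u := hu.1
    have h6 : 0 < 1 - u := by linarith [hu.2]
    have h4 : 0 < u + w := by linarith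
    have h8 : |-w - u| = u + w := by
      rw [abs_of_neg (by linarith)]
      ring
    rw [← ENNReal.ofReal_mul hw.le, ← ENNReal.ofReal_add (by positivity) (by positivity), h8]
    congr 1
    have h7 : u ^ a = u * u ^ (a - 1) := by
      rw [Real.rpow_sub_one h5.ne']
      field_simp
    rw [h7]
    field_simp
  have h4 : (∫⁻ u in Set.Ioo (0 : ℝ) 1, ENNReal.ofReal (u ^ a * (1 - u) ^ (-a) * (u + w)⁻¹)) +
      ENNReal.ofReal w * ENNReal.ofReal (|-w| ^ (a - 1) * |-w - 1| ^ (-a) * (ct a 1)⁻¹) = ENNReal.ofReal (ct a 1)⁻¹ := by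
    rw [← h1, ← h2, ← lintegral_const_mul _ (by fun_prop), ← setLIntegral_congr_fun measurableSet_Ioo h3,
      lintegral_add_right _ (by fun_prop)]
  have h5 : (w / (1 + w)) ^ a ≤ 1 := Real.rpow_le_one (by positivity) (by rw [div_le_one (by linarith)]; linarith) ha.le
  have h6 : (ct a 1)⁻¹ = (ct a 1)⁻¹ * (1 - (w / (1 + w)) ^ a) + w * (|-w| ^ (a - 1) * |-w - 1| ^ (-a) * (ct a 1)⁻¹) := by
    have h8 : |-w - 1| = 1 + w := by
      rw [abs_of_neg (by linarith)]
      ring
    rw [abs_neg, abs_of_pos hw, h8, Real.div_rpow hw.le (by linarith), Real.rpow_neg (by linarith)]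
    have h7 : w ^ a = w * w ^ (a - 1) := by
      rw [Real.rpow_sub_one hw.ne']
      field_simp
    rw [h7]
    have h9 : 0 < (1 + w) ^ a := Real.rpow_pos_of_pos (by linarith) _
    field_simp
    ring
  have h7 : ENNReal.ofReal (ct a 1)⁻¹ = ENNReal.ofReal ((ct a 1)⁻¹ * (1 - (w / (1 + w)) ^ a)) +
      ENNReal.ofReal w * ENNReal.ofReal (|-w| ^ (a - 1) * |-w - 1| ^ (-a) * (ct a 1)⁻¹) := by
    have hci := (inv_pos.2 hc).le
    rw [← ENNReal.ofReal_mul hw.le, ← ENNReal.ofReal_add (mul_nonneg hci (by linarith)) (by positivity), ← h6]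
  rw [h7] at h4
  exact (ENNReal.add_left_inj (ENNReal.mul_ne_top ENNReal.ofReal_ne_top ENNReal.ofReal_ne_top)).1 h4

/-- the density at `s` of the renewal points which start at `q` and jump over `(q, y]` -/
noncomputable def KJ (a q s y : ℝ) : ℝ := ct a 1 * (s - q)⁻¹ * ((s - y) / (y - q)) ^ a

/-- affine substitution -/
lemma lint_affine {x y : ℝ} (hxy : y < x) (g : ℝ → ℝ≥0∞) :
    ∫⁻ r in Set.Ioo y x, g r = ∫⁻ t in Set.Ioo (0 : ℝ) 1, ENNReal.ofReal (x - y) * g (y + (x - y) * t) := by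
  have hp : 0 < x - y := by linarith
  have him : (fun t : ℝ => y + (x - y) * t) '' Set.Ioo (0 : ℝ) 1 = Set.Ioo y x := by
    ext r
    constructor
    · rintro ⟨t, ht, rfl⟩
      refine ⟨?_, ?_⟩
      · show y < y + (x - y) * t
        linarith [mul_pos hp ht.1]
      · show y + (x - y) * t < x
        linarith [mul_lt_of_lt_one_right hp ht.2]
    · intro hr
      refine ⟨(r - y) / (x - y), ⟨div_pos (by linarith [hr.1]) hp, by rw [div_lt_one hp]; linarith [hr.2]⟩, ?_⟩
      show y + (x - y) * ((r - y) / (x - y)) = r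
      field_simp
      ring
  have hinj : Set.InjOn (fun t : ℝ => y + (x - y) * t) (Set.Ioo (0 : ℝ) 1) := by
    intro t _ t' _ h
    have h1 : y + (x - y) * t = y + (x - y) * t' := h
    exact mul_left_cancel₀ hp.ne' (by linarith)
  have hder : ∀ t ∈ Set.Ioo (0 : ℝ) 1, HasDerivWithinAt (fun t : ℝ => y + (x - y) * t) (x - y) (Set.Ioo (0 : ℝ) 1) t := by
    intro t _
    have h1 : HasDerivAt (fun t : ℝ => (x - y) * t) (x - y) t := by
      simpa using (hasDerivAt_id t).const_mul (x - y)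
    exact (h1.const_add y).hasDerivWithinAt
  have h1 := lintegral_image_eq_lintegral_abs_deriv_mul measurableSet_Ioo hder hinj g
  rw [him, abs_of_pos hp] at h1
  exact h1

/-- the semigroup identity of the kernels -/
theorem KJ_step (ha : 0 < a) (ha1 : a < 1) {q y x s : ℝ} (hqy : q < y) (hyx : y ≤ x) (hxs : x < s) :
    (∫⁻ r in Set.Ioo y x, ENNReal.ofReal (KJ a q r y) * ENNReal.ofReal (KJ a r s x)) + ENNReal.ofReal (KJ a q s x) =
      ENNReal.ofReal (KJ a q s y) := by
  rcases eq_or_lt_of_le hyx with h | hyx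
  · rw [h, Set.Ioo_self, Measure.restrict_empty, lintegral_zero_measure, zero_add]
  have hc := ct_pos1 ha ha1
  have hp : 0 < x - y := by linarith
  have hw : 0 < (y - q) / (x - y) := div_pos (by linarith) hp
  have hz : 1 < (s - y) / (x - y) := by
    rw [one_lt_div hp]
    linarith
  obtain ⟨w, hwd⟩ : ∃ w, w = (y - q) / (x - y) := ⟨_, rfl⟩
  obtain ⟨z, hzd⟩ : ∃ z, z = (s - y) / (x - y) := ⟨_, rfl⟩
  rw [← hwd] at hw
  rw [← hzd] at hz
  have ew : y - q = (x - y) * w := by
    rw [hwd]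
    field_simp
  have ez : s - y = (x - y) * z := by
    rw [hzd]
    field_simp
  have hz1 : 0 < z - 1 := by linarith
  rw [lint_affine hyx]
  obtain ⟨C, hC⟩ : ∃ C, C = ct a 1 ^ 2 * ((x - y) * (z + w))⁻¹ * ((z - 1) / w) ^ a := ⟨_, rfl⟩
  have hC0 : 0 ≤ C := by
    rw [hC]
    have : 0 ≤ z - 1 := hz1.le
    positivity
  have h1 : ∀ t ∈ Set.Ioo (0 : ℝ) 1, ENNReal.ofReal (x - y) *
      (ENNReal.ofReal (KJ a q (y + (x - y) * t) y) * ENNReal.ofReal (KJ a (y + (x - y) * t) s x)) =
      ENNReal.ofReal C * (ENNReal.ofReal (t ^ a * (1 - t) ^ (-a) * (t + w)⁻¹) +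
        ENNReal.ofReal (t ^ a * (1 - t) ^ (-a) * (z - t)⁻¹)) := by
    intro t ht
    have ht0 := ht.1
    have ht1 : 0 < 1 - t := by linarith [ht.2]
    have ht2 : 0 < z - t := by linarith [ht.2]
    have e1 : KJ a q (y + (x - y) * t) y = ct a 1 * ((x - y) * (t + w))⁻¹ * (t / w) ^ a := by
      unfold KJ
      rw [show y + (x - y) * t - q = (x - y) * (t + w) by linear_combination ew,
        show y + (x - y) * t - y = (x - y) * t by ring, ew, mul_div_mul_left _ _ hp.ne']
    have e2 : KJ a (y + (x - y) * t) s x = ct a 1 * ((x - y) * (z - t))⁻¹ * ((z - 1) / (1 - t)) ^ a := by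
      unfold KJ
      rw [show s - (y + (x - y) * t) = (x - y) * (z - t) by linear_combination ez,
        show s - x = (x - y) * (z - 1) by linear_combination ez,
        show x - (y + (x - y) * t) = (x - y) * (1 - t) by ring, mul_div_mul_left _ _ hp.ne']
    rw [e1, e2, ← ENNReal.ofReal_mul (by positivity), ← ENNReal.ofReal_mul hp.le,
      ← ENNReal.ofReal_add (by positivity) (by positivity), ← ENNReal.ofReal_mul hC0, hC]
    congr 1
    rw [Real.div_rpow ht0.le hw.le, Real.div_rpow hz1.le ht1.le, Real.div_rpow hz1.le hw.le, Real.rpow_neg ht1.le]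
    have g1 : 0 < t ^ a := Real.rpow_pos_of_pos ht0 _
    have g2 : 0 < w ^ a := Real.rpow_pos_of_pos hw _
    have g3 : 0 < (1 - t) ^ a := Real.rpow_pos_of_pos ht1 _
    have g4 : 0 < (z - 1) ^ a := Real.rpow_pos_of_pos hz1 _
    have g5 : t + w ≠ 0 := by linarith
    have g6 : z + w ≠ 0 := by linarith
    field_simp
    ring
  rw [setLIntegral_congr_fun measurableSet_Ioo h1, lintegral_const_mul _ (by fun_prop),
    lintegral_add_right _ (by fun_prop), lint_left ha ha1 hw, lint_right ha ha1 hz]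
  have hci := (inv_pos.2 hc).le
  have h5 : (w / (1 + w)) ^ a ≤ 1 := Real.rpow_le_one (by positivity) (by rw [div_le_one (by linarith)]; linarith) ha.le
  have h6 : 1 ≤ (z / (z - 1)) ^ a := Real.one_le_rpow (by rw [one_le_div hz1]; linarith) ha.le
  have hK : 0 ≤ KJ a q s x := by
    unfold KJ
    have g1 : 0 < s - q := by linarith
    have g2 : 0 < s - x := by linarith
    have g3 : 0 < x - q := by linarith
    positivity
  rw [← ENNReal.ofReal_add (mul_nonneg hci (by linarith)) (mul_nonneg hci (by linarith)), ← ENNReal.ofReal_mul hC0,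
    ← ENNReal.ofReal_add (mul_nonneg hC0 (add_nonneg (mul_nonneg hci (by linarith)) (mul_nonneg hci (by linarith)))) hK]
  congr 1
  unfold KJ
  rw [hC, show s - q = (x - y) * (z + w) by linear_combination ew + ez, ez, ew, mul_div_mul_left _ _ hp.ne',
    show s - x = (x - y) * (z - 1) by linear_combination ez, show x - q = (x - y) * (1 + w) by linear_combination ew,
    mul_div_mul_left _ _ hp.ne', Real.div_rpow hz1.le hw.le, Real.div_rpow hw.le (by linarith : (0:ℝ) ≤ 1 + w),
    Real.div_rpow (by linarith : 0 ≤ z) hz1.le, Real.div_rpow hz1.le (by linarith : (0:ℝ) ≤ 1 + w),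
    Real.div_rpow (by linarith : 0 ≤ z) hw.le]
  have g2 : 0 < w ^ a := Real.rpow_pos_of_pos hw _
  have g3 : 0 < (1 + w) ^ a := Real.rpow_pos_of_pos (by linarith) _
  have g4 : 0 < (z - 1) ^ a := Real.rpow_pos_of_pos hz1 _
  have g6 : z + w ≠ 0 := by linarith
  field_simp
  ring

/-- the case without gaps -/
theorem KJ_base (ha : 0 < a) (ha1 : a < 1) {x s : ℝ} (hx : 0 < x) (hxs : x < s) :
    ∫⁻ r in Set.Ioo 0 x, ENNReal.ofReal (r ^ (a - 1)) * ENNReal.ofReal (KJ a r s x) = ENNReal.ofReal (s ^ (a - 1)) := by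
  have hc := ct_pos1 ha ha1
  obtain ⟨z, hzd⟩ : ∃ z, z = s / x := ⟨_, rfl⟩
  have hz : 1 < z := by
    rw [hzd, one_lt_div hx]
    exact hxs
  have hz1 : 0 < z - 1 := by linarith
  have ez : s = x * z := by
    rw [hzd]
    field_simp
  rw [lint_affine hx]
  have hC0 : 0 ≤ x ^ (a - 1) * ct a 1 * (z - 1) ^ a := by
    have : 0 ≤ z - 1 := hz1.le
    positivity
  have h1 : ∀ t ∈ Set.Ioo (0 : ℝ) 1, ENNReal.ofReal (x - 0) *
      (ENNReal.ofReal ((0 + (x - 0) * t) ^ (a - 1)) * ENNReal.ofReal (KJ a (0 + (x - 0) * t) s x)) =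
      ENNReal.ofReal (x ^ (a - 1) * ct a 1 * (z - 1) ^ a) *
        ENNReal.ofReal (t ^ (a - 1) * (1 - t) ^ (-a) * |z - t|⁻¹) := by
    intro t ht
    have ht0 := ht.1
    have ht1 : 0 < 1 - t := by linarith [ht.2]
    have ht2 : 0 < z - t := by linarith [ht.2]
    have e2 : KJ a (0 + (x - 0) * t) s x = ct a 1 * (x * (z - t))⁻¹ * ((z - 1) / (1 - t)) ^ a := by
      unfold KJ
      rw [show s - (0 + (x - 0) * t) = x * (z - t) by linear_combination ez,
        show s - x = x * (z - 1) by linear_combination ez,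
        show x - (0 + (x - 0) * t) = x * (1 - t) by ring, mul_div_mul_left _ _ hx.ne']
    rw [e2, sub_zero, zero_add, ← ENNReal.ofReal_mul (by positivity), ← ENNReal.ofReal_mul hx.le,
      ← ENNReal.ofReal_mul hC0, abs_of_pos ht2]
    congr 1
    rw [Real.mul_rpow hx.le ht0.le, Real.div_rpow hz1.le ht1.le, Real.rpow_neg ht1.le]
    have g3 : 0 < (1 - t) ^ a := Real.rpow_pos_of_pos ht1 _
    field_simp
  rw [setLIntegral_congr_fun measurableSet_Ioo h1, lintegral_const_mul _ (by fun_prop), lint_moebius ha ha1 (Or.inr hz),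
    ← ENNReal.ofReal_mul hC0, ez, Real.mul_rpow hx.le (by linarith), abs_of_pos (by linarith), abs_of_pos hz1,
    Real.rpow_neg hz1.le]
  congr 1
  have g4 : 0 < (z - 1) ^ a := Real.rpow_pos_of_pos hz1 _
  field_simp

lemma KJ_nonneg (ha : 0 < a) (ha1 : a < 1) {q s y : ℝ} (h1 : q < y) (h2 : y ≤ s) : 0 ≤ KJ a q s y := by
  have hc := ct_pos1 ha ha1
  unfold KJ
  have g1 : 0 < s - q := by linarith
  have g2 : 0 ≤ s - y := by linarith
  have g3 : 0 < y - q := by linarith
  positivity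

lemma KJ_anti (ha : 0 < a) (ha1 : a < 1) {q s x y : ℝ} (h1 : q < x) (hxy : x ≤ y) (h2 : y ≤ s) :
    KJ a q s y ≤ KJ a q s x := by
  have hc := ct_pos1 ha ha1
  unfold KJ
  have g1 : 0 < s - q := by linarith
  have g2 : 0 ≤ s - y := by linarith
  have g3 : 0 < x - q := by linarith
  refine mul_le_mul_of_nonneg_left (Real.rpow_le_rpow (div_nonneg g2 (by linarith)) ?_ ha.le) (by positivity)
  exact div_le_div₀ (by linarith) (by linarith) g3 (by linarith)

lemma Dk_eq (q s x y : ℝ) : Dk (1 * ct a 1) a q s x y = KJ a q s x - KJ a q s y := by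
  unfold Dk KJ
  ring

lemma measurable_KJ (y : ℝ) : Measurable (fun p : ℝ × ℝ => KJ a p.1 p.2 y) := by
  unfold KJ
  fun_prop

/-- the density without its parameters -/
noncomputable abbrev rh (a : ℝ) : List (ℝ × ℝ) → ℝ → ℝ := rho a 1 (ct a 1)

/-- THE LAST EXIT FORMULA, together with the balayage identity -/
theorem rho_main (ha : 0 < a) (ha1 : a < 1) : ∀ l : List (ℝ × ℝ), (∃ r, Ad l r) →
    Measurable (rh a l) ∧ (∀ s, 0 < s → 0 ≤ rh a l s) ∧
    (∀ x s, Ad l x → x < s →
      ∫⁻ r in Set.Ioo 0 x, ENNReal.ofReal (rh a l r) * ENNReal.ofReal (KJ a r s x) = ENNReal.ofReal (rh a l s)) ∧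
    (∀ p l', l = p :: l' → ∀ s, p.2 < s → rh a l s = ∫ r in (0 : ℝ)..p.1, rh a l' r * KJ a r s p.2)
  | [], _ => by
    have h0 : ∀ s, rh a [] s = s ^ (a - 1) := fun s => one_mul _
    refine ⟨?_, fun s hs => ?_, fun x s hx hxs => ?_, fun p l' h => ?_⟩
    · have h1 : rh a [] = fun s => s ^ (a - 1) := funext h0
      rw [h1]
      fun_prop
    · rw [h0]
      exact Real.rpow_nonneg hs.le _
    · simp only [h0]
      exact KJ_base ha ha1 hx hxs
    · exact absurd h (List.cons_ne_nil _ _).symm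
  | p :: l, ⟨r0, hr0⟩ => by
    have hAd : Ad l p.1 := hr0.2.2
    have hp12 : p.1 ≤ p.2 := hr0.1
    have hp0 : 0 < p.1 := hAd.pos
    obtain ⟨m1, n1, b1, -⟩ := rho_main ha ha1 l ⟨p.1, hAd⟩
    -- the formula beyond the gap
    have hnn : ∀ s, p.1 < s → ∀ y, p.1 ≤ y → y ≤ s → 0 ≤ᵐ[volume.restrict (Set.Ioo 0 p.1)]
        fun r => rh a l r * KJ a r s y := by
      intro s _ y hy hys
      refine (ae_restrict_iff' measurableSet_Ioo).2 (ae_of_all _ fun r hr => ?_)
      exact mul_nonneg (n1 r hr.1) (KJ_nonneg ha ha1 (by linarith [hr.2]) hys)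
    have hms : ∀ s y, Measurable fun r => rh a l r * KJ a r s y := fun s y =>
      m1.mul ((measurable_KJ y).comp (measurable_id.prodMk measurable_const))
    have hle : ∀ s, p.1 < s → ∀ y, p.1 ≤ y → y ≤ s →
        ∫⁻ r in Set.Ioo 0 p.1, ENNReal.ofReal (rh a l r * KJ a r s y) ≤ ENNReal.ofReal (rh a l s) := by
      intro s hs y hy hys
      rw [← b1 p.1 s hAd hs]
      refine setLIntegral_mono' measurableSet_Ioo fun r hr => ?_
      rw [← ENNReal.ofReal_mul (n1 r hr.1)]
      exact ENNReal.ofReal_le_ofReal (mul_le_mul_of_nonneg_left (KJ_anti ha ha1 hr.2 hy hys) (n1 r hr.1))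
    have hint : ∀ s, p.1 < s → ∀ y, p.1 ≤ y → y ≤ s →
        IntegrableOn (fun r => rh a l r * KJ a r s y) (Set.Ioo 0 p.1) := by
      intro s hs y hy hys
      refine ⟨(hms s y).aestronglyMeasurable, ?_⟩
      rw [hasFiniteIntegral_iff_ofReal (hnn s hs y hy hys)]
      exact (hle s hs y hy hys).trans_lt ENNReal.ofReal_lt_top
    have hint' : ∀ s, p.1 < s → ∀ y, p.1 ≤ y → y ≤ s →
        IntervalIntegrable (fun r => rh a l r * KJ a r s y) volume 0 p.1 := by
      intro s hs y hy hys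
      rw [intervalIntegrable_iff_integrableOn_Ioo_of_le hp0.le]
      exact hint s hs y hy hys
    have hval : ∀ s, p.1 < s → ∫ r in (0 : ℝ)..p.1, rh a l r * KJ a r s p.1 = rh a l s := by
      intro s hs
      rw [intervalIntegral.integral_of_le hp0.le, integral_Ioc_eq_integral_Ioo,
        integral_eq_lintegral_of_nonneg_ae (hnn s hs p.1 le_rfl hs.le) (hms s p.1).aestronglyMeasurable]
      have h1 := b1 p.1 s hAd hs
      have h2 : ∀ r ∈ Set.Ioo (0 : ℝ) p.1, ENNReal.ofReal (rh a l r) * ENNReal.ofReal (KJ a r s p.1) =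
          ENNReal.ofReal (rh a l r * KJ a r s p.1) := fun r hr => (ENNReal.ofReal_mul (n1 r hr.1)).symm
      rw [setLIntegral_congr_fun measurableSet_Ioo h2] at h1
      rw [h1, ENNReal.toReal_ofReal (n1 s (hp0.trans hs))]
    have hQ : ∀ s, p.2 < s → rh a (p :: l) s = ∫ r in (0 : ℝ)..p.1, rh a l r * KJ a r s p.2 := by
      intro s hs
      have hs1 : p.1 < s := hp12.trans_lt hs
      show (if s ≤ p.1 then rh a l s else if s ≤ p.2 then 0 else
        rh a l s - ∫ r in (0 : ℝ)..p.1, rh a l r * Dk (1 * ct a 1) a r s p.1 p.2) = _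
      rw [if_neg (not_le.2 hs1), if_neg (not_le.2 hs)]
      have h1 : ∀ r, rh a l r * Dk (1 * ct a 1) a r s p.1 p.2 =
          rh a l r * KJ a r s p.1 - rh a l r * KJ a r s p.2 := fun r => by
        rw [Dk_eq]
        ring
      simp only [h1]
      rw [intervalIntegral.integral_sub (hint' s hs1 p.1 le_rfl hs1.le) (hint' s hs1 p.2 hp12 hs.le), hval s hs1]
      ring
    have h1 : ∀ s, s ≤ p.1 → rh a (p :: l) s = rh a l s := fun s hs => if_pos hs
    have h2 : ∀ s, p.1 < s → s ≤ p.2 → rh a (p :: l) s = 0 := fun s hs hs' => by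
      show (if s ≤ p.1 then rh a l s else if s ≤ p.2 then 0 else _) = _
      rw [if_neg (not_le.2 hs), if_pos hs']
    have hQ' : ∀ s, p.2 < s → ENNReal.ofReal (rh a (p :: l) s) =
        ∫⁻ r in Set.Ioo 0 p.1, ENNReal.ofReal (rh a l r) * ENNReal.ofReal (KJ a r s p.2) := by
      intro s hs
      have hs1 : p.1 < s := hp12.trans_lt hs
      rw [hQ s hs, intervalIntegral.integral_of_le hp0.le, integral_Ioc_eq_integral_Ioo,
        ofReal_integral_eq_lintegral_ofReal (hint s hs1 p.2 hp12 hs.le) (hnn s hs1 p.2 hp12 hs.le)]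
      exact setLIntegral_congr_fun measurableSet_Ioo fun r hr => ENNReal.ofReal_mul (n1 r hr.1)
    refine ⟨?_, ?_, ?_, ?_⟩
    · have hm : Measurable (fun s => ∫ r in (0 : ℝ)..p.1, rh a l r * KJ a r s p.2) := by
        have h3 : (fun s => ∫ r in (0 : ℝ)..p.1, rh a l r * KJ a r s p.2) =
            fun s => ∫ r in Set.Ioc 0 p.1, rh a l r * KJ a r s p.2 := by
          funext s
          exact intervalIntegral.integral_of_le hp0.le
        rw [h3]
        refine (StronglyMeasurable.integral_prod_left (f := fun r s => rh a l r * KJ a r s p.2) ?_).measurable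
        refine Measurable.stronglyMeasurable ?_
        exact (m1.comp measurable_fst).mul (measurable_KJ p.2)
      have h3 : rh a (p :: l) = fun s => if s ≤ p.1 then rh a l s else if s ≤ p.2 then 0 else
          ∫ r in (0 : ℝ)..p.1, rh a l r * KJ a r s p.2 := by
        funext s
        split_ifs with g1 g2
        · exact h1 s g1
        · exact h2 s (not_le.1 g1) g2
        · exact hQ s (not_le.1 g2)
      rw [h3]
      exact Measurable.ite measurableSet_Iic m1 (Measurable.ite measurableSet_Iic measurable_const hm)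
    · intro s hs
      rcases le_or_gt s p.1 with g1 | g1
      · rw [h1 s g1]
        exact n1 s hs
      · rcases le_or_gt s p.2 with g2 | g2
        · rw [h2 s g1 g2]
        · rw [hQ s g2, intervalIntegral.integral_of_le hp0.le, integral_Ioc_eq_integral_Ioo]
          exact integral_nonneg_of_ae (hnn s g1 p.2 hp12 g2.le)
    · intro x s hx hxs
      have hpx : p.2 ≤ x := hx.2.1
      have hxA : Ad l x := hAd.mono (hp12.trans hpx)
      have hx0 : 0 < x := hxA.pos
      have hps : p.2 < s := hpx.trans_lt hxs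
      have hmR : Measurable fun r => ENNReal.ofReal (rh a l r) := m1.ennreal_ofReal
      have hmK : ∀ y, Measurable fun p : ℝ × ℝ => ENNReal.ofReal (KJ a p.1 p.2 y) := fun y =>
        (measurable_KJ y).ennreal_ofReal
      have hmK1 : ∀ s y, Measurable fun r => ENNReal.ofReal (KJ a r s y) := fun s y =>
        (hmK y).comp (measurable_id.prodMk measurable_const)
      have hsp : ∀ f : ℝ → ℝ≥0∞, ∫⁻ r in Set.Ioo 0 x, f r =
          (∫⁻ r in Set.Ioo 0 p.1, f r) + ((∫⁻ r in Set.Ioc p.1 p.2, f r) + ∫⁻ r in Set.Ioo p.2 x, f r) := by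
        intro f
        have d1 : Set.Ioc 0 x = Set.Ioc 0 p.1 ∪ Set.Ioc p.1 x := (Set.Ioc_union_Ioc_eq_Ioc hp0.le (hp12.trans hpx)).symm
        have d2 : Set.Ioc p.1 x = Set.Ioc p.1 p.2 ∪ Set.Ioc p.2 x := (Set.Ioc_union_Ioc_eq_Ioc hp12 hpx).symm
        have d3 : Disjoint (Set.Ioc 0 p.1) (Set.Ioc p.1 x) :=
          Set.disjoint_left.2 fun t ht ht' => absurd ht.2 (not_le.2 ht'.1)
        have d4 : Disjoint (Set.Ioc p.1 p.2) (Set.Ioc p.2 x) :=
          Set.disjoint_left.2 fun t ht ht' => absurd ht.2 (not_le.2 ht'.1)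
        rw [setLIntegral_congr (Ioo_ae_eq_Ioc (a := (0:ℝ)) (b := x)), d1, lintegral_union measurableSet_Ioc d3, d2,
          lintegral_union measurableSet_Ioc d4, setLIntegral_congr (Ioo_ae_eq_Ioc (a := (0:ℝ)) (b := p.1)),
          setLIntegral_congr (Ioo_ae_eq_Ioc (a := p.2) (b := x))]
      rw [hsp, hQ' s hps]
      have k1 : ∫⁻ r in Set.Ioo 0 p.1, ENNReal.ofReal (rh a (p :: l) r) * ENNReal.ofReal (KJ a r s x) =
          ∫⁻ r in Set.Ioo 0 p.1, ENNReal.ofReal (rh a l r) * ENNReal.ofReal (KJ a r s x) :=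
        setLIntegral_congr_fun measurableSet_Ioo fun r hr => by
          show ENNReal.ofReal (rh a (p :: l) r) * ENNReal.ofReal (KJ a r s x) = _
          rw [h1 r hr.2.le]
      have k2 : ∫⁻ r in Set.Ioc p.1 p.2, ENNReal.ofReal (rh a (p :: l) r) * ENNReal.ofReal (KJ a r s x) = 0 := by
        rw [setLIntegral_congr_fun (g := fun _ => 0) measurableSet_Ioc fun r hr => by
          show ENNReal.ofReal (rh a (p :: l) r) * ENNReal.ofReal (KJ a r s x) = 0
          rw [h2 r hr.1 hr.2, ENNReal.ofReal_zero, zero_mul], lintegral_zero]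
      have k3 : ∫⁻ r in Set.Ioo p.2 x, ENNReal.ofReal (rh a (p :: l) r) * ENNReal.ofReal (KJ a r s x) =
          ∫⁻ q in Set.Ioo 0 p.1, ENNReal.ofReal (rh a l q) *
            ∫⁻ r in Set.Ioo p.2 x, ENNReal.ofReal (KJ a q r p.2) * ENNReal.ofReal (KJ a r s x) := by
        have e1 : ∀ r ∈ Set.Ioo p.2 x, ENNReal.ofReal (rh a (p :: l) r) * ENNReal.ofReal (KJ a r s x) =
            ∫⁻ q in Set.Ioo 0 p.1, ENNReal.ofReal (rh a l q) * ENNReal.ofReal (KJ a q r p.2) *
              ENNReal.ofReal (KJ a r s x) := by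
          intro r hr
          have mm : Measurable fun q => ENNReal.ofReal (rh a l q) * ENNReal.ofReal (KJ a q r p.2) := hmR.mul (hmK1 r p.2)
          rw [hQ' r hr.1, ← lintegral_mul_const _ mm]
        rw [setLIntegral_congr_fun measurableSet_Ioo e1, lintegral_lintegral_swap]
        · refine lintegral_congr fun q => ?_
          have mm : Measurable fun r => ENNReal.ofReal (KJ a q r p.2) * ENNReal.ofReal (KJ a r s x) :=
            ((hmK p.2).comp (measurable_const.prodMk measurable_id)).mul (hmK1 s x)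
          rw [← lintegral_const_mul _ mm]
          refine lintegral_congr fun r => ?_
          rw [mul_assoc]
        · refine Measurable.aemeasurable ?_
          refine Measurable.mul (Measurable.mul (hmR.comp measurable_snd) ?_) ((hmK1 s x).comp measurable_fst)
          exact (hmK p.2).comp (measurable_snd.prodMk measurable_fst)
      have mm : Measurable fun r => ENNReal.ofReal (rh a l r) * ENNReal.ofReal (KJ a r s x) := hmR.mul (hmK1 s x)
      rw [k1, k2, k3, zero_add, ← lintegral_add_left mm]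
      refine setLIntegral_congr_fun measurableSet_Ioo fun q hq => ?_
      show ENNReal.ofReal (rh a l q) * ENNReal.ofReal (KJ a q s x) + ENNReal.ofReal (rh a l q) *
        (∫⁻ r in Set.Ioo p.2 x, ENNReal.ofReal (KJ a q r p.2) * ENNReal.ofReal (KJ a r s x)) = _
      rw [← mul_add, add_comm, KJ_step ha ha1 (hq.2.trans_le hp12) hpx hxs]
    · intro p' l' h s hs
      rw [List.cons.injEq] at h
      obtain ⟨rfl, rfl⟩ := h
      exact hQ s hs

end CutLim
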