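import Pool.Agent.CutLim.Defs
import Pool.Agent.CutR.Tail

/-! CUT_A: the coefficients cf a n of (1 - x)^(-a). -/

set_option autoImplicit false

namespace CutLim

open Filter Topology Finset

theorem cf_zero (a : ℝ) : cf a 0 = 1 := by simp [cf]

theorem cf_succ (a : ℝ) (n : ℕ) : cf a (n + 1) = cf a n * ((a + n) / (n + 1)) := by
  rw [cf, cf, prod_range_succ]

theorem cf_eq_cb (a : ℝ) : cf a = CutR.cb a := by
  funext n
  induction n with
  | zero => rw [cf_zero, CutR.cb_zero]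
  | succ n ih => rw [cf_succ, CutR.cb_succ, ih]

theorem cf_nonneg {a : ℝ} (ha : 0 ≤ a) (n : ℕ) : 0 ≤ cf a n :=
  prod_nonneg (fun j _ => by positivity)

/-- Chu-Vandermonde; proof: n s_n = n s_(n-1), s_n the left side, from (k + 1) cf a (k + 1) = (k + a) cf a k -/
theorem cf_conv (a : ℝ) (n : ℕ) : ∑ i ∈ range (n + 1), cf a i * cf (1 - a) (n - i) = 1 := by
  rw [cf_eq_cb, cf_eq_cb, ← CutR.cv_range, CutR.cv, CutR.cb_conv, show a + (1 - a) = 1 by ring,
    CutR.cb_one]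

theorem sum_cf (a : ℝ) (n : ℕ) : ∑ i ∈ range (n + 1), cf a i = cf (a + 1) n := by
  rw [cf_eq_cb, cf_eq_cb, CutR.cb_sum]

/-- from Real.GammaSeq_tendsto_Gamma -/
theorem cf_tendsto {a : ℝ} (ha : 0 < a) :
    Tendsto (fun n : ℕ => (n : ℝ) ^ (1 - a) * cf a n) atTop (𝓝 (Real.Gamma a)⁻¹) := by
  have h := CutR.cb_tendsto ha
  rw [one_div] at h
  rw [cf_eq_cb]
  simpa [mul_comm] using h

end CutLim
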