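import Pool.Agent.CutLim.A

/-! CUT_B: asymptotics of the partial sums and of the tail. -/

set_option autoImplicit false

namespace CutLim

open Filter Topology Finset

variable {u k : ℕ → ℝ} {a b : ℝ}

theorem KK_zero (k : ℕ → ℝ) : KK k 0 = 1 := by simp [KK]

theorem KK_nonneg (h : Ren u k) (n : ℕ) : 0 ≤ KK k n := by
  rw [KK, sub_nonneg, ← h.ks.tsum_eq]
  exact h.ks.summable.sum_le_tsum _ (fun i _ => h.kn i)

theorem KK_le_one (h : Ren u k) (n : ℕ) : KK k n ≤ 1 := by
  have := sum_nonneg (fun i (_ : i ∈ range n) => h.kn i)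
  rw [KK]
  linarith

theorem KK_sub (k : ℕ → ℝ) {m n : ℕ} (hmn : m ≤ n) : KK k m - KK k n = ∑ j ∈ Ico m n, k j := by
  rw [KK, KK, Finset.sum_Ico_eq_sub _ hmn]
  ring

theorem KK_anti (h : Ren u k) {m n : ℕ} (hmn : m ≤ n) : KK k n ≤ KK k m := by
  have := KK_sub k hmn
  have h2 := sum_nonneg (fun i (_ : i ∈ Ico m n) => h.kn i)
  linarith

theorem KK_one (h : Ren u k) : KK k 1 = 1 := by simp [KK, h.k0]

theorem ren_range (h : Ren u k) (N : ℕ) :
    u (N + 1) = ∑ y ∈ range (N + 1), u y * k (N + 1 - y) := by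
  rw [h.ren (N+1) (by omega)]
  rw [show (Icc 1 (N+1)) = (range (N+1)).image (fun y => N + 1 - y) by
    ext r
    simp only [mem_Icc, mem_image, mem_range]
    constructor
    · rintro ⟨h1, h2⟩
      exact ⟨N + 1 - r, by omega, by omega⟩
    · rintro ⟨y, hy, rfl⟩
      omega]
  rw [sum_image]
  · apply sum_congr rfl
    intro y hy
    have := mem_range.1 hy
    rw [show N + 1 - (N + 1 - y) = y by omega, mul_comm]
  · intro x hx y hy hxy
    simp only [coe_range, Set.mem_Iio] at hx hy
    simp only at hxy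
    omega

/-- compare RenewNum.K_renewal in Pool/Agent/PHW/Num3Gen.lean -/
theorem KK_renewal (h : Ren u k) (N : ℕ) : ∑ y ∈ range (N + 1), u y * KK k (N + 1 - y) = 1 := by
  induction N with
  | zero => simp [KK_one h, h.u0]
  | succ N ih =>
    rw [sum_range_succ, show N + 1 + 1 - (N + 1) = 1 by omega, KK_one h, mul_one]
    have h1 : ∑ y ∈ range (N + 1), u y * KK k (N + 1 + 1 - y)
        = ∑ y ∈ range (N + 1), u y * KK k (N + 1 - y) - ∑ y ∈ range (N + 1), u y * k (N + 1 - y) := by
      rw [← sum_sub_distrib]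
      apply sum_congr rfl
      intro y hy
      have hy' := mem_range.1 hy
      rw [show N + 1 + 1 - y = (N + 1 - y) + 1 by omega, KK, KK, sum_range_succ]
      ring
    rw [h1, ih, ← ren_range h N]
    ring

theorem u_nonneg (h : Ren u k) (n : ℕ) : 0 ≤ u n := by
  induction n using Nat.strong_induction_on with
  | _ n ih =>
    rcases Nat.eq_zero_or_pos n with rfl | hn
    · rw [h.u0]; norm_num
    · rw [h.ren n hn]
      refine sum_nonneg (fun r hr => mul_nonneg (h.kn r) (ih _ ?_))
      have := mem_Icc.1 hr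
      omega

theorem u_le_one (h : Ren u k) (n : ℕ) : u n ≤ 1 := by
  rcases n with _ | n
  · rw [h.u0]
  · have h1 := KK_renewal h (n+1)
    rw [sum_range_succ, show n + 1 + 1 - (n + 1) = 1 by omega, KK_one h, mul_one] at h1
    have : 0 ≤ ∑ y ∈ range (n + 1), u y * KK k (n + 1 + 1 - y) :=
      sum_nonneg (fun y _ => mul_nonneg (u_nonneg h y) (KK_nonneg h _))
    linarith

theorem KK_zero_lim (h : Ren u k) : Tendsto (KK k) atTop (𝓝 0) := by
  have := (tendsto_const_nhds (x := (1:ℝ))).sub h.ks.tendsto_sum_nat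
  rw [sub_self] at this
  exact this

theorem toRT (h : Ren u k) (ha : 0 < a) (ha1 : a < 1) (hb : 0 < b)
    (hu : Tendsto (fun n : ℕ => (n : ℝ) ^ (1 - a) * u n) atTop (𝓝 b)) :
    CutR.RT u (fun n => KK k (n+1)) a b where
  h0 := ha
  h1 := ha1
  hb := hb
  hu := u_nonneg h
  hq := fun n => KK_nonneg h _
  hmono := fun m n hmn => KK_anti h (by omega)
  hq0 := (KK_zero_lim h).comp (tendsto_add_atTop_nat 1)
  hc := fun n => by
    rw [← KK_renewal h n]
    apply sum_congr rfl
    intro y hy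
    have := mem_range.1 hy
    rw [show n - y + 1 = n + 1 - y by omega]
  hl := by simpa [mul_comm] using hu

/-- partial sums -/
theorem UU_tendsto (h : Ren u k) (ha : 0 < a) (ha1 : a < 1) (hb : 0 < b)
    (hu : Tendsto (fun n : ℕ => (n : ℝ) ^ (1 - a) * u n) atTop (𝓝 b)) :
    Tendsto (fun n : ℕ => (n : ℝ) ^ (-a) * UU u n) atTop (𝓝 (b / a)) := by
  have hR := toRT h ha ha1 hb hu
  set L := b * Real.Gamma a with hL
  have hLp : 0 < L := mul_pos hb (Real.Gamma_pos_of_pos ha)
  have hT : ∀ n, CutR.cv (fun _ => 1) (CutR.cb a) n = CutR.cb (a+1) n := by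
    intro n
    rw [CutR.cv_comm, CutR.cv_one, CutR.cb_sum]
  have ha1' : 0 < a + 1 := by linarith
  have hinf : Tendsto (fun n => CutR.cb (a+1) n) atTop atTop := by
    have h1 := CutR.cb_tendsto ha1'
    have hG : 0 < 1 / Real.Gamma (a+1) := by
      have := Real.Gamma_pos_of_pos ha1'
      positivity
    have h2 : Tendsto (fun n : ℕ => ((n:ℝ))^a) atTop atTop :=
      (tendsto_rpow_atTop ha).comp tendsto_natCast_atTop_atTop
    have h3 := h2.atTop_mul_pos hG h1
    refine h3.congr' ?_
    filter_upwards [eventually_gt_atTop 0] with n hn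
    have hn' : (0:ℝ) < n := by exact_mod_cast hn
    rw [show 1 - (a+1) = -a by ring, Real.rpow_neg hn'.le]
    have := (Real.rpow_pos_of_pos hn' a).ne'
    field_simp
  have h1 := CutR.cv_toeplitz (A := fun _ => 1) (V := CutR.cb a) (x := fun n => u n - L * CutR.cb a n)
    (fun _ => zero_le_one)
    (fun n => by rw [hT]; exact CutR.cb_pos ha1' n)
    (fun j => by
      simp_rw [hT]
      exact tendsto_const_nhds.div_atTop hinf)
    (by
      intro ε hε
      have he := CutR.equiv_cb ha hR.hl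
      rw [← hL, Metric.tendsto_atTop] at he
      obtain ⟨N, hN⟩ := he ε hε
      refine ⟨∑ n ∈ range N, |u n - L * CutR.cb a n|, N, fun n => ?_⟩
      have hc := CutR.cb_pos ha n
      split_ifs with h
      · have := single_le_sum (f := fun n => |u n - L * CutR.cb a n|) (fun _ _ => abs_nonneg _)
          (mem_range.2 h)
        have h2 := mul_pos hε hc
        linarith
      · have := hN n (not_lt.1 h)
        rw [Real.dist_eq] at this
        have h3 : u n - L * CutR.cb a n = (u n / CutR.cb a n - L) * CutR.cb a n := by field_simp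
        rw [h3, abs_mul, abs_of_pos hc, zero_add]
        exact mul_le_mul_of_nonneg_right this.le hc.le)
  simp_rw [hT] at h1
  have e : ∀ n, CutR.cv (fun _ => 1) (fun n => u n - L * CutR.cb a n) n
      = UU u n - L * CutR.cb (a+1) n := by
    intro n
    have e1 : (fun n => u n - L * CutR.cb a n) = (fun n => u n + (-L) * CutR.cb a n) := by
      funext n; ring
    rw [e1, CutR.cv_add, CutR.cv_smul, hT, CutR.cv_comm, CutR.cv_one, UU]
    ring
  simp_rw [e] at h1
  have h2 := (h1.add (tendsto_const_nhds (x := L))).mul (CutR.cb_tendsto ha1')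
  have hG := Real.Gamma_pos_of_pos ha
  have : (0 + L) * (1 / Real.Gamma (a+1)) = b / a := by
    rw [Real.Gamma_add_one ha.ne', hL]
    field_simp
    ring
  rw [this] at h2
  refine h2.congr' ?_
  filter_upwards [eventually_gt_atTop 0] with n hn
  have hn' : (0:ℝ) < n := by exact_mod_cast hn
  have hp := CutR.cb_pos ha1' n
  rw [show 1 - (a+1) = -a by ring]
  field_simp
  ring

/-- partial sums of the tail: convolve KK_renewal with cf (1 - a):
u = b Gamma(a) cf a + e, e_n = o(n^(a-1)), (cf (1-a) * e)_n -> 0 -/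
theorem sum_KK_tendsto (h : Ren u k) (ha : 0 < a) (ha1 : a < 1) (hb : 0 < b)
    (hu : Tendsto (fun n : ℕ => (n : ℝ) ^ (1 - a) * u n) atTop (𝓝 b)) :
    Tendsto (fun n : ℕ => (n : ℝ) ^ (a - 1) * ∑ i ∈ range (n + 1), KK k (i + 1)) atTop
      (𝓝 (1 / (b * Real.Gamma a * Real.Gamma (2 - a)))) := by
  have hR := toRT h ha ha1 hb hu
  have h1 := hR.sum_tendsto
  have hβ : 0 < 1 - a + 1 := by linarith
  have h2 := h1.mul (CutR.cb_tendsto hβ)
  have hg1 := (Real.Gamma_pos_of_pos ha)
  have hg2 := (Real.Gamma_pos_of_pos hβ)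
  have e : 1 / (b * Real.Gamma a) * (1 / Real.Gamma (1 - a + 1))
      = 1 / (b * Real.Gamma a * Real.Gamma (2 - a)) := by
    rw [show 2 - a = 1 - a + 1 by ring]
    field_simp
  rw [e] at h2
  refine h2.congr' ?_
  filter_upwards [eventually_gt_atTop 0] with n hn
  have hn' : (0:ℝ) < n := by exact_mod_cast hn
  have hp := CutR.cb_pos hβ n
  rw [show 1 - (1 - a + 1) = a - 1 by ring]
  field_simp

/-- the tail (monotone) -/
theorem KK_tendsto (h : Ren u k) (ha : 0 < a) (ha1 : a < 1) (hb : 0 < b)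
    (hu : Tendsto (fun n : ℕ => (n : ℝ) ^ (1 - a) * u n) atTop (𝓝 b)) :
    Tendsto (fun n : ℕ => (n : ℝ) ^ a * KK k n) atTop (𝓝 (1 / (b * Real.Gamma a * Real.Gamma (1 - a)))) := by
  have hR := toRT h ha ha1 hb hu
  have h1 := hR.tail
  have hg := Real.Gamma_mul_Gamma_one_sub a
  have hβ : 0 < 1 - a := by linarith
  have hg1 := (Real.Gamma_pos_of_pos ha)
  have hg2 := (Real.Gamma_pos_of_pos hβ)
  have hsin : 0 < Real.sin (Real.pi * a) := by
    apply Real.sin_pos_of_pos_of_lt_pi
    · exact mul_pos Real.pi_pos ha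
    · nlinarith [Real.pi_pos]
  have hpi := Real.pi_pos
  have e : Real.sin (Real.pi * a) / (Real.pi * b) = 1 / (b * Real.Gamma a * Real.Gamma (1 - a)) := by
    rw [mul_assoc, hg]
    field_simp
  rw [e] at h1
  -- shift by one
  have h2 : Tendsto (fun n : ℕ => ((n - 1 : ℕ) : ℝ) ^ a * KK k ((n - 1) + 1)) atTop
      (𝓝 (1 / (b * Real.Gamma a * Real.Gamma (1 - a)))) := by
    have := h1.comp (tendsto_sub_atTop_nat 1)
    refine this.congr (fun n => ?_)
    simp only [Function.comp_apply]
    rw [mul_comm]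
  have h3 : Tendsto (fun n : ℕ => ((n : ℝ) / ((n - 1 : ℕ) : ℝ)) ^ a) atTop (𝓝 1) := by
    have h4 : Tendsto (fun n : ℕ => (n : ℝ) / ((n - 1 : ℕ) : ℝ)) atTop (𝓝 1) := by
      have : Tendsto (fun n : ℕ => 1 + (((n - 1 : ℕ) : ℝ))⁻¹) atTop (𝓝 (1 + 0)) :=
        tendsto_const_nhds.add ((tendsto_inv_atTop_zero.comp tendsto_natCast_atTop_atTop).comp
          (tendsto_sub_atTop_nat 1))
      rw [add_zero] at this
      refine this.congr' ?_
      filter_upwards [eventually_gt_atTop 1] with n hn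
      have hn' : (0:ℝ) < ((n - 1 : ℕ) : ℝ) := by
        have : 0 < n - 1 := by omega
        exact_mod_cast this
      have e2 : (n : ℝ) = ((n - 1 : ℕ) : ℝ) + 1 := by
        have : n = (n - 1) + 1 := by omega
        exact_mod_cast this
      rw [e2]
      field_simp
    have := h4.rpow_const (p := a) (Or.inl one_ne_zero)
    simpa using this
  have h5 := h3.mul h2
  rw [one_mul] at h5
  refine h5.congr' ?_
  filter_upwards [eventually_gt_atTop 1] with n hn
  have hn' : (0:ℝ) < ((n - 1 : ℕ) : ℝ) := by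
    have : 0 < n - 1 := by omega
    exact_mod_cast this
  have hn0 : (0:ℝ) < n := by
    have : 0 < n := by omega
    exact_mod_cast this
  rw [show n - 1 + 1 = n by omega, Real.div_rpow hn0.le hn'.le]
  have := (Real.rpow_pos_of_pos hn' a).ne'
  field_simp

end CutLim
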