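import Pool.Agent.CutLim.B
import Pool.Agent.CutR3.C

/-! CUT_D: the avoidance probability (helper10). -/

set_option autoImplicit false

namespace CutLim

open Filter Topology Finset

variable {u k : ℕ → ℝ}

open Classical in
theorem av_eq (k : ℕ → ℝ) (G : Set ℕ) (n a : ℕ) :
    av k G n a = KK k (n + 1 - a) + ∑ j ∈ Ioc a n, k (j - a) * (if j ∈ G then 0 else av k G n j) :=
  CutR3.av_eq' k G n a

theorem sum_k (k : ℕ → ℝ) {j X Z : ℕ} (hj : j ≤ X) (hXZ : X ≤ Z) :
    ∑ m ∈ Ioc X Z, k (m - j) = KK k (X + 1 - j) - KK k (Z + 1 - j) := by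
  induction Z, hXZ using Nat.le_induction with
  | base => simp
  | succ Z hZ ih =>
    rw [Finset.sum_Ioc_succ_top (by omega), ih]
    have h1 : Z + 1 + 1 - j = (Z + 1 - j) + 1 := by omega
    rw [h1]
    unfold KK
    rw [Finset.sum_range_succ]
    ring

theorem av_nonneg (h : Ren u k) (G : Set ℕ) (n a : ℕ) : 0 ≤ av k G n a := by
  classical
  induction hd : n - a using Nat.strong_induction_on generalizing a with
  | _ d ih =>
    rw [av_eq]
    refine add_nonneg (KK_nonneg h _) (Finset.sum_nonneg fun j hj => mul_nonneg (h.kn _) ?_)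
    have hj' := Finset.mem_Ioc.1 hj
    split_ifs
    · exact le_rfl
    · exact ih (n - j) (by omega) j rfl

theorem av_le_one' (h : Ren u k) (G : Set ℕ) (n a : ℕ) : av k G n a ≤ 1 := by
  classical
  induction hd : n - a using Nat.strong_induction_on generalizing a with
  | _ d ih =>
    rcases le_total a n with han | han
    · rw [av_eq]
      have h1 : ∑ j ∈ Ioc a n, k (j - a) * (if j ∈ G then 0 else av k G n j) ≤ ∑ j ∈ Ioc a n, k (j - a) := by
        refine Finset.sum_le_sum fun j hj => ?_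
        have hj' := Finset.mem_Ioc.1 hj
        have h2 : (if j ∈ G then 0 else av k G n j) ≤ 1 := by
          split_ifs
          · exact zero_le_one
          · exact ih (n - j) (by omega) j rfl
        exact (mul_le_mul_of_nonneg_left h2 (h.kn _)).trans (mul_one _).le
      rw [sum_k k le_rfl han] at h1
      have h2 := KK_le_one h (a + 1 - a)
      linarith
    · rw [av_eq, Finset.Ioc_eq_empty (by omega), Finset.sum_empty, add_zero]
      exact KK_le_one h _

theorem av_le_one (h : Ren u k) (G : Set ℕ) {n a : ℕ} (_ha : a ≤ n) : av k G n a ≤ 1 := av_le_one' h G n a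

theorem av_anti (h : Ren u k) {G G' : Set ℕ} (hG : G ⊆ G') {n a : ℕ} (_ha : a ≤ n) : av k G' n a ≤ av k G n a := by
  classical
  clear _ha
  induction hd : n - a using Nat.strong_induction_on generalizing a with
  | _ d ih =>
    rw [av_eq, av_eq]
    refine add_le_add le_rfl (Finset.sum_le_sum fun j hj => mul_le_mul_of_nonneg_left ?_ (h.kn _))
    have hj' := Finset.mem_Ioc.1 hj
    by_cases h1 : j ∈ G'
    · rw [if_pos h1]
      split_ifs
      · exact le_rfl
      · exact av_nonneg h G n j
    · rw [if_neg h1, if_neg (fun h2 => h1 (hG h2))]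
      exact ih (n - j) (by omega) rfl

/-- no point of G in (a, n] -/
theorem av_empty (h : Ren u k) {G : Set ℕ} {n a : ℕ} (ha : a ≤ n) (hG : ∀ j ∈ G, j ≤ a ∨ n < j) :
    av k G n a = 1 := by
  classical
  induction hd : n - a using Nat.strong_induction_on generalizing a with
  | _ d ih =>
    rw [av_eq]
    have h1 : ∑ j ∈ Ioc a n, k (j - a) * (if j ∈ G then 0 else av k G n j) = ∑ j ∈ Ioc a n, k (j - a) := by
      refine Finset.sum_congr rfl fun j hj => ?_
      have hj' := Finset.mem_Ioc.1 hj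
      rw [if_neg (fun h2 => by have := hG j h2; omega),
        ih (n - j) (by omega) hj'.2 (fun i hi => by have := hG i hi; omega) rfl, mul_one]
    rw [h1, sum_k k le_rfl ha, Nat.add_sub_cancel_left, KK_one h]
    ring

/-- the horizon may be lowered if there is no point of G beyond it -/
theorem av_top (h : Ren u k) {G : Set ℕ} {n n' a : ℕ} (ha : a ≤ n') (hn : n' ≤ n) (hG : ∀ j ∈ G, j ≤ n' ∨ n < j) :
    av k G n a = av k G n' a := by
  classical
  induction hd : n' - a using Nat.strong_induction_on generalizing a with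
  | _ d ih =>
    rw [av_eq, av_eq k G n' a, ← Finset.sum_Ioc_consecutive _ ha hn]
    have h1 : ∑ j ∈ Ioc n' n, k (j - a) * (if j ∈ G then 0 else av k G n j) = ∑ j ∈ Ioc n' n, k (j - a) := by
      refine Finset.sum_congr rfl fun j hj => ?_
      have hj' := Finset.mem_Ioc.1 hj
      rw [if_neg (fun h2 => by have := hG j h2; omega),
        av_empty h hj'.2 (fun i hi => by have := hG i hi; omega), mul_one]
    have h2 : ∑ j ∈ Ioc a n', k (j - a) * (if j ∈ G then 0 else av k G n j) =
        ∑ j ∈ Ioc a n', k (j - a) * (if j ∈ G then 0 else av k G n' j) := by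
      refine Finset.sum_congr rfl fun j hj => ?_
      have hj' := Finset.mem_Ioc.1 hj
      by_cases h3 : j ∈ G
      · rw [if_pos h3, if_pos h3]
      · rw [if_neg h3, if_neg h3, ih (n' - j) (by omega) hj'.2 rfl]
    rw [h1, h2, sum_k k ha hn]
    ring

/-- the last gap is (m, n]: the sum over the last renewal point up to m -/
theorem av_gap (h : Ren u k) {G : Set ℕ} {m n N : ℕ} (hmn : m ≤ n) (hN : n ≤ N)
    (hG : ∀ j, m < j → j ≤ n → j ∈ G) (hG' : ∀ j ∈ G, j ≤ n ∨ N < j) :
    av k G N 0 = ∑ i ∈ range (m + 1), CutR3.fw k G i * KK k (n + 1 - i) := by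
  rw [av_top h (Nat.zero_le _) hN hG', CutR3.av_fw]
  symm
  refine Finset.sum_subset (Finset.range_subset_range.2 (by omega)) fun j hj hj' => ?_
  rw [Finset.mem_range] at hj hj'
  rw [CutR3.fw_mem k (by omega) (hG j (by omega) (by omega)), zero_mul]

/-- one interval (m, n] -/
theorem av_one_zero (h : Ren u k) {G : Set ℕ} {m n N : ℕ} (hmn : m ≤ n) (hN : n ≤ N)
    (hG : ∀ j, j ∈ G ↔ m < j ∧ j ≤ n) :
    av k G N 0 = ∑ i ∈ range (m + 1), u i * KK k (n + 1 - i) := by
  rw [av_gap h hmn hN (fun j h1 h2 => (hG j).2 ⟨h1, h2⟩) (fun j hj => Or.inl ((hG j).1 hj).2)]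
  refine Finset.sum_congr rfl fun j hj => ?_
  rw [CutR3.fw_congr k (G' := ∅), CutR3.fw_empty h]
  intro l hl
  rw [hG]
  have := Finset.mem_range.1 hj
  simp only [Set.mem_empty_iff_false, iff_false]
  omega

/-- an initial gap -/
theorem av_initial (h : Ren u k) {G : Set ℕ} {m N : ℕ} (hm : m ≤ N) (hG : ∀ j, 0 < j → j ≤ m → j ∈ G) :
    av k G N 0 ≤ KK k (m + 1) := by
  classical
  rw [av_eq, ← Finset.sum_Ioc_consecutive _ (Nat.zero_le m) hm]
  have h1 : ∑ j ∈ Ioc 0 m, k (j - 0) * (if j ∈ G then 0 else av k G N j) = 0 := by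
    refine Finset.sum_eq_zero fun j hj => ?_
    have hj' := Finset.mem_Ioc.1 hj
    rw [if_pos (hG j hj'.1 hj'.2), mul_zero]
  have h2 : ∑ j ∈ Ioc m N, k (j - 0) * (if j ∈ G then 0 else av k G N j) ≤ ∑ j ∈ Ioc m N, k (j - 0) := by
    refine Finset.sum_le_sum fun j hj => ?_
    have h2 : (if j ∈ G then 0 else av k G N j) ≤ 1 := by
      split_ifs
      · exact zero_le_one
      · exact av_le_one' h G N j
    exact (mul_le_mul_of_nonneg_left h2 (h.kn _)).trans (mul_one _).le
  rw [sum_k k (Nat.zero_le m) hm] at h2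
  rw [h1]
  simp only [Nat.sub_zero] at h2 ⊢
  linarith

end CutLim
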