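import Mathlib

/-!
CUT: scaling limit of the set of renewal levels (cut levels). Definitions.
-/

set_option autoImplicit false

namespace CutLim

open Filter Topology Finset

/-- coefficients of (1 - x)^(-a) -/
noncomputable def cf (a : ℝ) (n : ℕ) : ℝ := ∏ j ∈ range n, (a + j) / (j + 1)

/-- renewal sequence u with step law k -/
structure Ren (u k : ℕ → ℝ) : Prop where
  u0 : u 0 = 1
  k0 : k 0 = 0
  kn : ∀ r, 0 ≤ k r
  ks : HasSum k 1
  ren : ∀ T, 1 ≤ T → u T = ∑ r ∈ Icc 1 T, k r * u (T - r)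

/-- probability that a step is at least n -/
noncomputable def KK (k : ℕ → ℝ) (n : ℕ) : ℝ := 1 - ∑ r ∈ range n, k r

/-- partial sums -/
noncomputable def UU (u : ℕ → ℝ) (n : ℕ) : ℝ := ∑ i ∈ range (n + 1), u i

open Classical in
/-- probability that the renewal process started at a has no point j with a < j ≤ n and j ∈ G -/
noncomputable def av (k : ℕ → ℝ) (G : Set ℕ) (n a : ℕ) : ℝ :=
  KK k (n + 1 - a) + ∑ j ∈ (Ioc a n).attach, k (j.1 - a) * (if j.1 ∈ G then 0 else av k G n j.1)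
termination_by n - a
decreasing_by
  have := Finset.mem_Ioc.1 j.2
  omega

/-- the filter of the pairs (T, i) with T → ∞, i / T → s -/
noncomputable def FF (s : ℝ) : Filter (ℕ × ℕ) := comap Prod.fst atTop ⊓ comap (fun z : ℕ × ℕ => (z.2 : ℝ) / z.1) (𝓝 s)

/-- continuous convergence at s -/
noncomputable def CC (W : ℕ → ℕ → ℝ) (s w : ℝ) : Prop := Tendsto (fun z : ℕ × ℕ => W z.1 z.2) (FF s) (𝓝 w)

/-- the integers j of the cells (l T / m, (l + 1) T / m], l ∈ A -/
def cells (m : ℕ) (A : Finset ℕ) (T : ℕ) : Set ℕ := {j | ∃ l ∈ A, l * T < m * j ∧ m * j ≤ (l + 1) * T}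

end CutLim
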