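import Mathlib

/-! CUT, J2: Hausdorff dimension from the energy of a measure. -/

set_option autoImplicit false

namespace CutLim

open Filter Topology MeasureTheory

open scoped ENNReal NNReal

/-- the regularised kernel -/
noncomputable def ker (s ε : ℝ) (p : ℝ × ℝ) : ℝ := (max |p.1 - p.2| ε) ^ (-s)

lemma ker_pos {s ε : ℝ} (hε : 0 < ε) (p : ℝ × ℝ) : 0 < ker s ε p :=
  Real.rpow_pos_of_pos (lt_max_of_lt_right hε) _

lemma ker_cont {s ε : ℝ} (hε : 0 < ε) : Continuous (ker s ε) := by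
  unfold ker
  refine Continuous.rpow_const (by fun_prop) fun p => Or.inl ?_
  exact (lt_max_of_lt_right hε).ne'

lemma ker_le {s ε : ℝ} (hs : 0 ≤ s) (hε : 0 < ε) (p : ℝ × ℝ) : ker s ε p ≤ ε ^ (-s) :=
  Real.rpow_le_rpow_of_nonpos hε (le_max_right _ _) (by linarith)

lemma ker_anti {s ε ε' : ℝ} (hs : 0 ≤ s) (hε : 0 < ε) (h : ε ≤ ε') (p : ℝ × ℝ) : ker s ε' p ≤ ker s ε p :=
  Real.rpow_le_rpow_of_nonpos (lt_max_of_lt_right hε) (max_le_max le_rfl h) (by linarith)

/-- the regularised energy -/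
noncomputable def en (s ε : ℝ) (m : Measure ℝ) : ℝ≥0∞ := ∫⁻ p, ENNReal.ofReal (ker s ε p) ∂(m.prod m)

lemma en_anti {s ε ε' : ℝ} (hs : 0 ≤ s) (hε : 0 < ε) (h : ε ≤ ε') (m : Measure ℝ) : en s ε' m ≤ en s ε m :=
  lintegral_mono fun p => ENNReal.ofReal_le_ofReal (ker_anti hs hε h p)

lemma en_eq {s ε : ℝ} (hε : 0 < ε) (m : Measure ℝ) [SFinite m] :
    en s ε m = ∫⁻ x, ∫⁻ y, ENNReal.ofReal (ker s ε (x, y)) ∂m ∂m := by
  unfold en
  rw [lintegral_prod _ ((ker_cont hε).measurable.ennreal_ofReal.aemeasurable)]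

/-- the scales -/
noncomputable def sc (n : ℕ) : ℝ := 1 / ((n : ℝ) + 1)

lemma sc_pos (n : ℕ) : 0 < sc n := by
  unfold sc
  positivity

lemma sc_anti {n k : ℕ} (h : n ≤ k) : sc k ≤ sc n := by
  unfold sc
  have : (n : ℝ) ≤ k := by exact_mod_cast h
  gcongr

lemma sc_tendsto : Tendsto sc atTop (𝓝 0) := tendsto_one_div_add_atTop_nhds_zero_nat

/-- the Frostman lemma, easy direction: finite energy gives the lower bound of the dimension -/
theorem dim_of_energy {s : ℝ≥0} (hs : 0 < s) {m : Measure ℝ} [IsProbabilityMeasure m] {M : ℝ≥0∞} (hM : M ≠ ∞)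
    (h : ∀ n : ℕ, en s (sc n) m ≤ M) {K : Set ℝ} (hmK : m Kᶜ = 0) : (s : ℝ≥0∞) ≤ dimH K := by
  have hs' : (0 : ℝ) < s := by exact_mod_cast hs
  set φ : ℕ → ℝ → ℝ≥0∞ := fun n x => ∫⁻ y, ENNReal.ofReal (ker s (sc n) (x, y)) ∂m with hφ
  have hφm : ∀ n, Measurable (φ n) := fun n =>
    Measurable.lintegral_prod_right' (f := fun p : ℝ × ℝ => ENNReal.ofReal (ker s (sc n) p))
      (ker_cont (sc_pos n)).measurable.ennreal_ofReal
  have hmono : Monotone φ := fun n k hnk x =>
    lintegral_mono fun y => ENNReal.ofReal_le_ofReal (ker_anti hs'.le (sc_pos k) (sc_anti hnk) (x, y))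
  have hint : ∫⁻ x, ⨆ n, φ n x ∂m ≤ M := by
    rw [lintegral_iSup hφm hmono]
    refine iSup_le fun n => ?_
    rw [← en_eq (sc_pos n)]
    exact h n
  set Λ : ℝ≥0∞ := 2 * M + 1 with hΛ
  have hΛ0 : Λ ≠ 0 := by simp [hΛ]
  have hΛt : Λ ≠ ∞ := by
    rw [hΛ]
    exact ENNReal.add_ne_top.2 ⟨ENNReal.mul_ne_top (by norm_num) hM, ENNReal.one_ne_top⟩
  set G : Set ℝ := {x | (⨆ n, φ n x) < Λ} with hG
  have hGm : MeasurableSet G := measurableSet_lt (Measurable.iSup hφm) measurable_const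
  have hGc : m Gᶜ < 1 := by
    have h1 : Λ * m {x | Λ ≤ ⨆ n, φ n x} ≤ M := (mul_meas_ge_le_lintegral (Measurable.iSup hφm) Λ).trans hint
    have h2 : Gᶜ = {x | Λ ≤ ⨆ n, φ n x} := by
      ext x
      simp [hG]
    rw [h2]
    by_contra hcon
    have h3 : (1 : ℝ≥0∞) ≤ m {x | Λ ≤ ⨆ n, φ n x} := not_lt.1 hcon
    have h4 : Λ ≤ M := by
      calc Λ = Λ * 1 := (mul_one _).symm
        _ ≤ Λ * m {x | Λ ≤ ⨆ n, φ n x} := by gcongr
        _ ≤ M := h1
    rw [hΛ] at h4
    have h5 : M < 2 * M + 1 := by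
      calc M ≤ 2 * M := by
            rw [two_mul]
            exact le_self_add
        _ < 2 * M + 1 := ENNReal.lt_add_right (ENNReal.mul_ne_top (by norm_num) hM) one_ne_zero
    exact absurd h4 (not_le.2 h5)
  have hGpos : m G ≠ 0 := by
    intro h0
    have h1 := prob_add_prob_compl (μ := m) hGm
    rw [h0, zero_add] at h1
    rw [h1] at hGc
    exact lt_irrefl _ hGc
  have hle : Λ⁻¹ • m.restrict G ≤ Measure.hausdorffMeasure (s : ℝ) := by
    refine Measure.le_hausdorffMeasure _ _ ∞ ENNReal.coe_lt_top fun A _ => ?_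
    rw [Measure.smul_apply, smul_eq_mul, Measure.restrict_apply' hGm]
    rcases (A ∩ G).eq_empty_or_nonempty with h0 | ⟨x, hxA, hxG⟩
    · rw [h0, measure_empty, mul_zero]
      exact zero_le
    · by_cases hd : Metric.ediam A = ∞
      · rw [hd, ENNReal.top_rpow_of_pos hs']
        exact le_top
      · set d : ℝ := (Metric.ediam A).toReal with hdd
        have hd0 : 0 ≤ d := ENNReal.toReal_nonneg
        have hAb : A ∩ G ⊆ Metric.closedBall x d := by
          intro y hy
          rw [Metric.mem_closedBall]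
          have h1 : edist y x ≤ Metric.ediam A := Metric.edist_le_ediam_of_mem hy.1 hxA
          rw [edist_dist] at h1
          exact (ENNReal.ofReal_le_iff_le_toReal hd).1 h1
        have key : ∀ n, m (A ∩ G) ≤ ENNReal.ofReal ((max d (sc n)) ^ (s : ℝ)) * Λ := by
          intro n
          have hx1 : φ n x ≤ Λ := (le_iSup (fun n => φ n x) n).trans (le_of_lt hxG)
          have hpos : 0 < max d (sc n) := lt_max_of_lt_right (sc_pos n)
          have h2 : ENNReal.ofReal ((max d (sc n)) ^ (-(s : ℝ))) * m (Metric.closedBall x d) ≤ φ n x := by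
            rw [← setLIntegral_const]
            refine le_trans ?_ (setLIntegral_le_lintegral (Metric.closedBall x d) _)
            refine setLIntegral_mono' Metric.isClosed_closedBall.measurableSet fun y hy => ENNReal.ofReal_le_ofReal ?_
            refine Real.rpow_le_rpow_of_nonpos (lt_max_of_lt_right (sc_pos n)) (max_le_max ?_ le_rfl) (by linarith)
            rw [Metric.mem_closedBall, Real.dist_eq] at hy
            rwa [abs_sub_comm]
          have h3 : ENNReal.ofReal ((max d (sc n)) ^ (s : ℝ)) * ENNReal.ofReal ((max d (sc n)) ^ (-(s : ℝ))) = 1 := by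
            rw [← ENNReal.ofReal_mul (by positivity), ← Real.rpow_add hpos, add_neg_cancel, Real.rpow_zero,
              ENNReal.ofReal_one]
          calc m (A ∩ G) ≤ m (Metric.closedBall x d) := measure_mono hAb
            _ = ENNReal.ofReal ((max d (sc n)) ^ (s : ℝ)) * (ENNReal.ofReal ((max d (sc n)) ^ (-(s : ℝ))) *
                m (Metric.closedBall x d)) := by rw [← mul_assoc, h3, one_mul]
            _ ≤ ENNReal.ofReal ((max d (sc n)) ^ (s : ℝ)) * Λ := by
                gcongr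
                exact h2.trans hx1
        have hlim : Tendsto (fun n => ENNReal.ofReal ((max d (sc n)) ^ (s : ℝ)) * Λ) atTop
            (𝓝 (ENNReal.ofReal (d ^ (s : ℝ)) * Λ)) := by
          refine ENNReal.Tendsto.mul_const ?_ (Or.inr hΛt)
          refine (ENNReal.continuous_ofReal.tendsto _).comp ?_
          have h4 : Tendsto (fun n => max d (sc n)) atTop (𝓝 (max d 0)) := tendsto_const_nhds.max sc_tendsto
          rw [max_eq_left hd0] at h4
          exact h4.rpow_const (Or.inr hs'.le)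
        have h5 := ge_of_tendsto' hlim key
        have h6 : (Metric.ediam A) ^ (s : ℝ) = ENNReal.ofReal (d ^ (s : ℝ)) := by
          rw [← ENNReal.ofReal_rpow_of_nonneg hd0 hs'.le, hdd, ENNReal.ofReal_toReal hd]
        rw [h6]
        calc Λ⁻¹ * m (A ∩ G) ≤ Λ⁻¹ * (ENNReal.ofReal (d ^ (s : ℝ)) * Λ) := by gcongr
          _ = ENNReal.ofReal (d ^ (s : ℝ)) := by
              rw [mul_comm, mul_assoc, ENNReal.mul_inv_cancel hΛ0 hΛt, mul_one]
  refine le_dimH_of_hausdorffMeasure_ne_zero fun h0 => ?_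
  have h1 : (Λ⁻¹ • m.restrict G) K = 0 := le_antisymm ((hle K).trans h0.le) zero_le
  rw [Measure.smul_apply, smul_eq_mul, Measure.restrict_apply' hGm, mul_eq_zero] at h1
  rcases h1 with h1 | h1
  · exact ENNReal.inv_ne_zero.2 hΛt h1
  · apply hGpos
    have h2 : m G ≤ m (K ∩ G) + m Kᶜ := by
      refine (measure_mono ?_).trans (measure_union_le _ _)
      intro x hx
      by_cases hxK : x ∈ K
      · exact Or.inl ⟨hxK, hx⟩
      · exact Or.inr hxK
    rw [h1, hmK, add_zero] at h2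
    exact le_antisymm h2 zero_le

end CutLim
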