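import Pool.Agent.CutLim.Defs

/-! CUT_F: weak convergence of random compact subsets of [0, 1] from the avoidance probabilities of the cells. -/

set_option autoImplicit false

namespace CutLim

open Filter Topology Finset MeasureTheory TopologicalSpace

open scoped ENNReal

/-- nonempty compact sets of real numbers, Hausdorff distance -/
abbrev NC := NonemptyCompacts ℝ

noncomputable instance instMeasNC : MeasurableSpace NC := borel NC

instance instBorelNC : BorelSpace NC := ⟨rfl⟩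

/-- The compact sets that avoid `U`. -/
def AvS (U : Set ℝ) : Set NC := {K | ∀ s ∈ K, s ∉ U}

lemma AvS_anti {U V : Set ℝ} (h : U ⊆ V) : AvS V ⊆ AvS U := fun _ hK s hs hU => hK s hs (h hU)

lemma AvS_union (U V : Set ℝ) : AvS (U ∪ V) = AvS U ∩ AvS V := by
  ext K
  constructor
  · exact fun h => ⟨AvS_anti Set.subset_union_left h, AvS_anti Set.subset_union_right h⟩
  · rintro ⟨h1, h2⟩ s hs (hU | hV)
    · exact h1 s hs hU
    · exact h2 s hs hV

lemma AvS_iUnion {ι : Sort*} (U : ι → Set ℝ) : AvS (⋃ i, U i) = ⋂ i, AvS (U i) := by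
  ext K
  simp only [AvS, Set.mem_ofPred_eq, Set.mem_iUnion, not_exists, Set.mem_iInter]
  exact ⟨fun h i s hs => h s hs i, fun h s hs i => h i s hs⟩

lemma AvS_eq (U : Set ℝ) : AvS U = {K : NC | (K : Set ℝ) ⊆ Uᶜ} := rfl

lemma isClosed_AvS {U : Set ℝ} (hU : IsOpen U) : IsClosed (AvS U) := by
  rw [AvS_eq]
  exact NonemptyCompacts.isClosed_subsets_of_isClosed hU.isClosed_compl

lemma isOpen_AvS {F : Set ℝ} (hF : IsClosed F) : IsOpen (AvS F) := by
  rw [AvS_eq]
  exact NonemptyCompacts.isOpen_subsets_of_isOpen hF.isOpen_compl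

/-- The avoidance events of open sets. -/
def AvFam : Set (Set NC) := {E | ∃ U : Set ℝ, IsOpen U ∧ E = AvS U}

lemma isPiSystem_AvFam : IsPiSystem AvFam := by
  rintro _ ⟨U, hU, rfl⟩ _ ⟨V, hV, rfl⟩ -
  exact ⟨U ∪ V, hU.union hV, (AvS_union U V).symm⟩

lemma sub_eq {U : Set ℝ} (hU : IsOpen U) :
    {K : NC | (K : Set ℝ) ⊆ U} = ⋃ m : ℕ, AvS (Metric.thickening (1 / ((m : ℝ) + 1)) Uᶜ) := by
  ext K
  simp only [Set.mem_ofPred_eq, Set.mem_iUnion]
  constructor
  · intro h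
    have h1 : Disjoint (K : Set ℝ) Uᶜ := Set.disjoint_compl_right_iff_subset.2 h
    obtain ⟨δ, hδ, hd⟩ := h1.exists_thickenings K.isCompact hU.isClosed_compl
    obtain ⟨m, hm⟩ := exists_nat_one_div_lt hδ
    refine ⟨m, fun s hs hs' => ?_⟩
    exact (Set.disjoint_left.1 hd) (Metric.self_subset_thickening hδ _ hs) (Metric.thickening_mono hm.le _ hs')
  · rintro ⟨m, hm⟩ s hs
    by_contra hcon
    exact hm s hs (Metric.self_subset_thickening (by positivity) _ hcon)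

lemma borel_eq : borel NC = MeasurableSpace.generateFrom AvFam := by
  apply le_antisymm
  · have h0 : (inferInstance : TopologicalSpace NC) = TopologicalSpace.generateFrom
        (Set.preimage ((↑) : NC → Set ℝ) '' (Set.powerset '' {U | IsOpen U} ∪
          (fun V => {s | (s ∩ V).Nonempty}) '' {V | IsOpen V})) := by
      rw [← induced_generateFrom_eq]
      rfl
    rw [borel_eq_generateFrom_of_subbasis h0]
    apply MeasurableSpace.generateFrom_le
    rintro _ ⟨_, (⟨U, hU, rfl⟩ | ⟨V, hV, rfl⟩), rfl⟩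
    · have h1 : ((↑) : NC → Set ℝ) ⁻¹' (Set.powerset U) = {K : NC | (K : Set ℝ) ⊆ U} := rfl
      rw [h1, sub_eq hU]
      refine MeasurableSet.iUnion fun m => ?_
      exact MeasurableSpace.measurableSet_generateFrom ⟨_, Metric.isOpen_thickening, rfl⟩
    · have h1 : ((↑) : NC → Set ℝ) ⁻¹' {s | (s ∩ V).Nonempty} = (AvS V)ᶜ := by
        ext K
        simp only [AvS, Set.mem_preimage, Set.mem_ofPred_eq, Set.mem_compl_iff, not_forall, not_not]
        constructor
        · rintro ⟨s, hs, hs'⟩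
          exact ⟨s, hs, hs'⟩
        · rintro ⟨s, hs, hs'⟩
          exact ⟨s, hs, hs'⟩
      rw [h1]
      exact (MeasurableSpace.measurableSet_generateFrom (s := AvFam) (t := AvS V) ⟨V, hV, rfl⟩).compl
  · apply MeasurableSpace.generateFrom_le
    rintro _ ⟨U, hU, rfl⟩
    exact (isClosed_AvS hU).measurableSet

/-- A law of a random compact set is determined by the avoidance probabilities of open sets. -/
theorem ext_open {μ ν : Measure NC} [IsProbabilityMeasure μ] [IsProbabilityMeasure ν]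
    (h : ∀ U : Set ℝ, IsOpen U → μ (AvS U) = ν (AvS U)) : μ = ν := by
  refine ext_of_generate_finite AvFam borel_eq isPiSystem_AvFam ?_ ?_
  · rintro _ ⟨U, hU, rfl⟩
    exact h U hU
  · rw [measure_univ, measure_univ]

/-- K does not meet the cells (l / m, (l + 1) / m], l ∈ A -/
def AvC (m : ℕ) (A : Finset ℕ) : Set NC :=
  {K | ∀ x ∈ (K : Set ℝ), ∀ l ∈ A, ¬ ((l : ℝ) / m < x ∧ x ≤ ((l : ℝ) + 1) / m)}

/-- half-open intervals: a measurable avoidance event -/
lemma measurableSet_Ioc (x y : ℝ) : MeasurableSet (AvS (Set.Ioc x y)) := by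
  have h : Set.Ioc x y = ⋃ n : ℕ, Set.Icc (x + 1 / ((n : ℝ) + 1)) y := by
    ext s
    simp only [Set.mem_Ioc, Set.mem_iUnion, Set.mem_Icc]
    constructor
    · rintro ⟨h1, h2⟩
      obtain ⟨n, hn⟩ := exists_nat_one_div_lt (sub_pos.2 h1)
      exact ⟨n, by linarith, h2⟩
    · rintro ⟨n, h1, h2⟩
      have : (0 : ℝ) < 1 / ((n : ℝ) + 1) := by positivity
      exact ⟨by linarith, h2⟩
  rw [h, AvS_iUnion]
  exact MeasurableSet.iInter fun n => (isOpen_AvS isClosed_Icc).measurableSet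

theorem measurableSet_AvC (m : ℕ) (A : Finset ℕ) : MeasurableSet (AvC m A) := by
  have h : AvC m A = ⋂ l ∈ A, AvS (Set.Ioc ((l : ℝ) / m) (((l : ℝ) + 1) / m)) := by
    ext K
    simp only [AvC, AvS, Set.mem_ofPred_eq, Set.mem_iInter, Set.mem_Ioc]
    exact ⟨fun h l hl s hs => h s hs l hl, fun h s hs l hl => h l hl s hs⟩
  rw [h]
  exact Finset.measurableSet_biInter A fun l _ => measurableSet_Ioc _ _

/-- K does not meet (x, y] -/
def AvI (x y : ℝ) : Set NC := {K | Disjoint (K : Set ℝ) (Set.Ioc x y)}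

/-- K does not meet (x, y) -/
def AvO (x y : ℝ) : Set NC := {K | Disjoint (K : Set ℝ) (Set.Ioo x y)}

lemma AvI_eq (x y : ℝ) : AvI x y = AvS (Set.Ioc x y) := by
  ext K
  exact Set.disjoint_left

lemma AvO_eq (x y : ℝ) : AvO x y = AvS (Set.Ioo x y) := by
  ext K
  exact Set.disjoint_left

lemma open_le {ι : Type*} {L : Filter ι} [L.NeBot] {μ : ι → ProbabilityMeasure NC} {ν : ProbabilityMeasure NC}
    (h : Tendsto μ L (𝓝 ν)) {O S : Set NC} (hO : IsOpen O) {c : ℝ≥0∞} (hOS : ∀ i, (μ i : Measure NC) O ≤ (μ i : Measure NC) S)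
    (hc : Tendsto (fun i => (μ i : Measure NC) S) L (𝓝 c)) : (ν : Measure NC) O ≤ c := by
  refine (ProbabilityMeasure.le_liminf_measure_open_of_tendsto h hO).trans ?_
  rw [← hc.liminf_eq]
  exact liminf_le_liminf (Eventually.of_forall hOS)

lemma closed_ge {ι : Type*} {L : Filter ι} [L.NeBot] {μ : ι → ProbabilityMeasure NC} {ν : ProbabilityMeasure NC}
    (h : Tendsto μ L (𝓝 ν)) {F S : Set NC} (hF : IsClosed F) {c : ℝ≥0∞} (hFS : ∀ i, (μ i : Measure NC) S ≤ (μ i : Measure NC) F)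
    (hc : Tendsto (fun i => (μ i : Measure NC) S) L (𝓝 c)) : c ≤ (ν : Measure NC) F := by
  refine le_trans ?_ (ProbabilityMeasure.limsup_measure_closed_le_of_tendsto h hF)
  rw [← hc.limsup_eq]
  exact limsup_le_limsup (Eventually.of_forall hFS)

/-- the compact sets K with 0 ∈ K ⊆ [0, 1] -/
def Good : Set NC := {K | (K : Set ℝ) ⊆ Set.Icc 0 1 ∧ (0 : ℝ) ∈ (K : Set ℝ)}

lemma isClosed_mem (x : ℝ) : IsClosed {K : NC | x ∈ (K : Set ℝ)} := by
  have h : {K : NC | x ∈ (K : Set ℝ)} = {K : NC | ((K : Set ℝ) ∩ {x}).Nonempty} := by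
    ext K
    simp
  rw [h]
  exact NonemptyCompacts.isClosed_inter_nonempty_of_isClosed isClosed_singleton

lemma isClosed_Good : IsClosed Good :=
  (NonemptyCompacts.isClosed_subsets_of_isClosed isClosed_Icc).inter (isClosed_mem 0)

/-- a closed event of full measure -/
lemma full_lim {ι : Type*} {L : Filter ι} [L.NeBot] {μ : ι → ProbabilityMeasure NC} {ν : ProbabilityMeasure NC}
    (h : Tendsto μ L (𝓝 ν)) {F : Set NC} (hF : IsClosed F) (hμ : ∀ i, ∀ᵐ K ∂(μ i : Measure NC), K ∈ F) :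
    ∀ᵐ K ∂(ν : Measure NC), K ∈ F := by
  have h1 : (1 : ℝ≥0∞) ≤ (ν : Measure NC) F := by
    refine closed_ge h hF (S := F) (fun i => le_rfl) ?_
    have h2 : (fun i => (μ i : Measure NC) F) = fun _ => 1 := by
      ext i
      exact (prob_compl_eq_zero_iff hF.measurableSet).1 (ae_iff.1 (hμ i))
    rw [h2]
    exact tendsto_const_nhds
  have h3 : (ν : Measure NC) F = 1 := le_antisymm prob_le_one h1
  rw [ae_iff]
  have h4 : {K | ¬ K ∈ F} = Fᶜ := rfl
  rw [h4]
  exact (prob_compl_eq_zero_iff hF.measurableSet).2 h3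

/-- points of U that are far from the complement -/
def inn (U : Set ℝ) (m : ℕ) : Set ℝ := {s | 2 / (m : ℝ) < Metric.infDist s Uᶜ}

lemma isOpen_inn (U : Set ℝ) (m : ℕ) : IsOpen (inn U m) :=
  isOpen_lt continuous_const (Metric.continuous_infDist_pt _)

lemma inn_sub (U : Set ℝ) (m : ℕ) : inn U m ⊆ U := by
  intro s hs
  by_contra hcon
  have h1 : Metric.infDist s Uᶜ = 0 := Metric.infDist_zero_of_mem hcon
  have h2 : 2 / (m : ℝ) < Metric.infDist s Uᶜ := hs
  rw [h1] at h2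
  have : (0 : ℝ) ≤ 2 / (m : ℝ) := by positivity
  linarith

lemma inn_mono (U : Set ℝ) {m m' : ℕ} (hm : 1 ≤ m) (h : m ≤ m') : inn U m ⊆ inn U m' := by
  intro s hs
  have h2 : 2 / (m : ℝ) < Metric.infDist s Uᶜ := hs
  have h3 : 2 / (m' : ℝ) ≤ 2 / (m : ℝ) := by
    have : (0 : ℝ) < m := by exact_mod_cast hm
    have h4 : (m : ℝ) ≤ m' := by exact_mod_cast h
    exact div_le_div_of_nonneg_left (by norm_num) this h4
  exact lt_of_le_of_lt h3 h2

lemma iUnion_inn {U : Set ℝ} (hU : IsOpen U) (h0 : Uᶜ.Nonempty) : ⋃ m : ℕ, inn U (m + 1) = U := by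
  apply Set.Subset.antisymm
  · exact Set.iUnion_subset fun m => inn_sub U _
  · intro s hs
    have h1 : 0 < Metric.infDist s Uᶜ := by
      rw [← hU.isClosed_compl.notMem_iff_infDist_pos h0]
      exact fun h => h hs
    obtain ⟨m, hm⟩ := exists_nat_one_div_lt (half_pos h1)
    rw [Set.mem_iUnion]
    refine ⟨m, ?_⟩
    show 2 / (((m + 1 : ℕ)) : ℝ) < _
    push_cast
    have : 2 / ((m : ℝ) + 1) = 2 * (1 / ((m : ℝ) + 1)) := by ring
    rw [this]
    linarith

open Classical in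
/-- the cells that meet the inner part of U -/
noncomputable def inC (U : Set ℝ) (m : ℕ) : Finset ℕ :=
  (range m).filter fun l => ∃ s ∈ inn U m, (l : ℝ) / m < s ∧ s ≤ ((l : ℝ) + 1) / m

lemma inC_sub (U : Set ℝ) (m : ℕ) : inC U m ⊆ range m := by
  classical
  exact Finset.filter_subset _ _

lemma mem_inC {U : Set ℝ} {m l : ℕ} :
    l ∈ inC U m ↔ l < m ∧ ∃ s ∈ inn U m, (l : ℝ) / m < s ∧ s ≤ ((l : ℝ) + 1) / m := by
  classical
  rw [inC, Finset.mem_filter, Finset.mem_range]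

/-- closed cells -/
def clC (m : ℕ) (A : Finset ℕ) : Set ℝ := ⋃ l ∈ A, Set.Icc ((l : ℝ) / m) (((l : ℝ) + 1) / m)

lemma isClosed_clC (m : ℕ) (A : Finset ℕ) : IsClosed (clC m A) :=
  A.finite_toSet.isClosed_biUnion fun _ _ => isClosed_Icc

lemma AvS_clC (m : ℕ) (A : Finset ℕ) : AvS (clC m A) ⊆ AvC m A := by
  intro K hK x hx l hl h
  exact hK x hx (Set.mem_biUnion (Finset.mem_coe.2 hl) ⟨h.1.le, h.2⟩)

lemma clC_inC {U : Set ℝ} {m : ℕ} (hm : 1 ≤ m) : clC m (inC U m) ⊆ U := by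
  intro x hx
  simp only [clC, Set.mem_iUnion] at hx
  obtain ⟨l, hl, hx1, hx2⟩ := hx
  obtain ⟨-, s, hs, hs1, hs2⟩ := mem_inC.1 hl
  by_contra hcon
  have h1 : Metric.infDist s Uᶜ ≤ dist s x := Metric.infDist_le_dist_of_mem hcon
  have h2 : 2 / (m : ℝ) < Metric.infDist s Uᶜ := hs
  have h3 : dist s x ≤ 1 / (m : ℝ) := by
    rw [Real.dist_eq, abs_le]
    have h5 : ((l : ℝ) + 1) / m = (l : ℝ) / m + 1 / m := by ring
    rw [h5] at hs2 hx2
    constructor <;> linarith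
  have hm' : (0 : ℝ) < m := by exact_mod_cast hm
  have h4 : 1 / (m : ℝ) ≤ 2 / (m : ℝ) := by gcongr; norm_num
  linarith

lemma AvC_inC {U : Set ℝ} (h0 : (0 : ℝ) ∉ U) {m : ℕ} (hm : 1 ≤ m) {K : NC} (hK : K ∈ Good)
    (h : K ∈ AvC m (inC U m)) : K ∈ AvS (inn U m) := by
  intro s hs hs'
  have hm' : (0 : ℝ) < m := by exact_mod_cast hm
  have h1 := hK.1 hs
  have h2 : s ≠ 0 := by
    rintro rfl
    exact h0 (inn_sub U m hs')
  have h3 : 0 < s := lt_of_le_of_ne h1.1 (Ne.symm h2)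
  have h4 : 0 < s * m := mul_pos h3 hm'
  have h5 : 1 ≤ ⌈s * m⌉₊ := Nat.one_le_ceil_iff.2 h4
  have h6 : ⌈s * m⌉₊ ≤ m := by
    rw [Nat.ceil_le]
    nlinarith [h1.2]
  have h7 : ((⌈s * m⌉₊ - 1 : ℕ) : ℝ) = (⌈s * m⌉₊ : ℝ) - 1 := by
    rw [Nat.cast_sub h5]
    simp
  have h8 : ((⌈s * m⌉₊ - 1 : ℕ) : ℝ) / m < s := by
    rw [div_lt_iff₀ hm', h7]
    have := Nat.ceil_lt_add_one h4.le
    linarith
  have h9 : s ≤ (((⌈s * m⌉₊ - 1 : ℕ) : ℝ) + 1) / m := by
    rw [le_div_iff₀ hm', h7]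
    have := Nat.le_ceil (s * m)
    linarith
  refine h s hs (⌈s * m⌉₊ - 1) (mem_inC.2 ⟨by omega, s, hs', h8, h9⟩) ⟨h8, h9⟩

/-- comparison of two subsequential limits -/
lemma lim_le {P : ℕ → ProbabilityMeasure NC} (hP : ∀ T, ∀ᵐ K : NC ∂(P T : Measure NC), K ∈ Good)
    (hl : ∀ m : ℕ, 1 ≤ m → ∀ A : Finset ℕ, A ⊆ range m →
      ∃ g : ℝ≥0∞, Tendsto (fun T => (P T : Measure NC) (AvC m A)) atTop (𝓝 g))
    {φ ψ : ℕ → ℕ} (hφ : Tendsto φ atTop atTop) (hψ : Tendsto ψ atTop atTop) {ν ν' : ProbabilityMeasure NC}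
    (h : Tendsto (fun n => P (φ n)) atTop (𝓝 ν)) (h' : Tendsto (fun n => P (ψ n)) atTop (𝓝 ν')) {U : Set ℝ}
    (hU : IsOpen U) (h0 : (0 : ℝ) ∉ U) : (ν : Measure NC) (AvS U) ≤ (ν' : Measure NC) (AvS U) := by
  have key : ∀ m : ℕ, (ν : Measure NC) (AvS U) ≤ (ν' : Measure NC) (AvS (inn U (m + 1))) := by
    intro m
    obtain ⟨g, hg⟩ := hl (m + 1) (by omega) (inC U (m + 1)) (inC_sub _ _)
    calc (ν : Measure NC) (AvS U) ≤ (ν : Measure NC) (AvS (clC (m + 1) (inC U (m + 1)))) :=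
          measure_mono (AvS_anti (clC_inC (by omega)))
      _ ≤ g := open_le h (isOpen_AvS (isClosed_clC _ _)) (fun i => measure_mono (AvS_clC _ _)) (hg.comp hφ)
      _ ≤ (ν' : Measure NC) (AvS (inn U (m + 1))) := by
          refine closed_ge h' (isClosed_AvS (isOpen_inn _ _)) (fun i => measure_mono_ae ?_) (hg.comp hψ)
          filter_upwards [hP (ψ i)] with K hK hK'
          exact AvC_inC h0 (by omega) hK hK'
  have h1 : Tendsto (fun m : ℕ => (ν' : Measure NC) (AvS (inn U (m + 1)))) atTop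
      (𝓝 ((ν' : Measure NC) (⋂ m : ℕ, AvS (inn U (m + 1))))) := by
    refine tendsto_measure_iInter_atTop (fun m => (isClosed_AvS (isOpen_inn _ _)).measurableSet.nullMeasurableSet) ?_
      ⟨0, measure_ne_top _ _⟩
    intro m m' hm
    exact AvS_anti (inn_mono U (by omega) (by omega))
  rw [← AvS_iUnion, iUnion_inn hU ⟨0, h0⟩] at h1
  exact ge_of_tendsto' h1 key

lemma null_of_zero {ν : Measure NC} (hν : ∀ᵐ K ∂ν, K ∈ Good) {U : Set ℝ} (h0 : (0 : ℝ) ∈ U) : ν (AvS U) = 0 := by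
  rw [measure_eq_zero_iff_ae_notMem]
  filter_upwards [hν] with K hK hK'
  exact hK' 0 hK.2 h0

/-- tightness -/
theorem subseq {P : ℕ → ProbabilityMeasure NC} (hP : ∀ T, ∀ᵐ K : NC ∂(P T : Measure NC), K ∈ Good) (φ : ℕ → ℕ) :
    ∃ ψ : ℕ → ℕ, StrictMono ψ ∧ ∃ ν : ProbabilityMeasure NC, Tendsto (fun k => P (φ (ψ k))) atTop (𝓝 ν) := by
  have htight : IsTightMeasureSet {((ρ : ProbabilityMeasure NC) : Measure NC) | ρ ∈ Set.range fun k => P (φ k)} := by
    rw [isTightMeasureSet_iff_exists_isCompact_measure_compl_le]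
    intro ε hε
    refine ⟨{K | (K : Set ℝ) ⊆ Set.Icc 0 1}, NonemptyCompacts.isCompact_subsets_of_isCompact isCompact_Icc, ?_⟩
    rintro _ ⟨ρ, ⟨k, rfl⟩, rfl⟩
    have h1 : ((P (φ k) : ProbabilityMeasure NC) : Measure NC) {K | (K : Set ℝ) ⊆ Set.Icc 0 1}ᶜ = 0 := by
      rw [measure_eq_zero_iff_ae_notMem]
      filter_upwards [hP (φ k)] with K hK hK'
      exact hK' hK.1
    show ((P (φ k) : ProbabilityMeasure NC) : Measure NC) {K | (K : Set ℝ) ⊆ Set.Icc 0 1}ᶜ ≤ ε
    rw [h1]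
    exact zero_le
  have hc := isCompact_closure_of_isTightMeasureSet htight
  obtain ⟨ν, -, ψ, hψ, hlim⟩ := hc.tendsto_subseq (x := fun k => P (φ k)) (fun k => subset_closure ⟨k, rfl⟩)
  exact ⟨ψ, hψ, ν, hlim⟩

/-- convergence in law from the convergence of the avoidance probabilities of unions of cells -/
theorem weakG (P : ℕ → ProbabilityMeasure NC) (hP : ∀ T, ∀ᵐ K : NC ∂(P T : Measure NC), K ∈ Good)
    (hl : ∀ m : ℕ, 1 ≤ m → ∀ A : Finset ℕ, A ⊆ range m →
      ∃ g : ℝ≥0∞, Tendsto (fun T => (P T : Measure NC) (AvC m A)) atTop (𝓝 g)) :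
    ∃ ν : ProbabilityMeasure NC, Tendsto P atTop (𝓝 ν) ∧ ∀ᵐ K : NC ∂(ν : Measure NC), K ∈ Good := by
  obtain ⟨φ, hφ, ν, hν⟩ := subseq hP (fun n => n)
  have hg : ∀ {φ : ℕ → ℕ} {ρ : ProbabilityMeasure NC}, Tendsto (fun n => P (φ n)) atTop (𝓝 ρ) →
      ∀ᵐ K : NC ∂(ρ : Measure NC), K ∈ Good := fun {φ} {ρ} h => full_lim h isClosed_Good (fun i => hP _)
  refine ⟨ν, ?_, hg hν⟩
  refine tendsto_of_subseq_tendsto fun ns hns => ?_
  obtain ⟨ms, hms, ν', hν'⟩ := subseq hP ns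
  refine ⟨ms, ?_⟩
  have h1 : ν' = ν := by
    apply Subtype.ext
    have : IsProbabilityMeasure (ν' : Measure NC) := ν'.2
    have : IsProbabilityMeasure (ν : Measure NC) := ν.2
    refine ext_open (μ := (ν' : Measure NC)) (ν := (ν : Measure NC)) fun U hU => ?_
    by_cases h0 : (0 : ℝ) ∈ U
    · rw [null_of_zero (hg hν') h0, null_of_zero (hg hν) h0]
    · exact le_antisymm (lim_le hP hl (hns.comp hms.tendsto_atTop) hφ.tendsto_atTop hν' hν hU h0)
        (lim_le hP hl hφ.tendsto_atTop (hns.comp hms.tendsto_atTop) hν hν' hU h0)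
  rw [← h1]
  exact hν'

/-- Proof: on the compact set of the K with 0 ∈ K ⊆ [0, 1] the set K^(m) = {0} ∪ {(l + 1) / m : K meets the cell l} has
Hausdorff distance at most 1 / m from K; for bounded continuous f, f K ~ f K^(m) uniformly, and the probabilities of the
patterns are combinations of the avoidance probabilities; so the integrals of f converge; compactness of the space of the
probability measures on a compact metric space gives the limit. -/
theorem weak (P : ℕ → ProbabilityMeasure NC)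
    (hP : ∀ T, ∀ᵐ K : NC ∂(P T : Measure NC), (K : Set ℝ) ⊆ Set.Icc 0 1 ∧ (0 : ℝ) ∈ (K : Set ℝ))
    (hl : ∀ m : ℕ, 1 ≤ m → ∀ A : Finset ℕ, A ⊆ range m →
      ∃ g : ℝ, Tendsto (fun T => ((P T : Measure NC) (AvC m A)).toReal) atTop (𝓝 g)) :
    ∃ ν : ProbabilityMeasure NC, Tendsto P atTop (𝓝 ν) ∧
      ∀ᵐ K : NC ∂(ν : Measure NC), (K : Set ℝ) ⊆ Set.Icc 0 1 ∧ (0 : ℝ) ∈ (K : Set ℝ) := by
  refine weakG P hP fun m hm A hA => ?_
  obtain ⟨g, hg⟩ := hl m hm A hA
  refine ⟨ENNReal.ofReal g, ?_⟩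
  refine (ENNReal.tendsto_ofReal hg).congr fun T => ?_
  exact ENNReal.ofReal_toReal (measure_ne_top _ _)

/-- Portmanteau: AvO x y is closed, the avoidance of a closed interval is open; h is continuous. -/
theorem interval {P : ℕ → ProbabilityMeasure NC} {ν : ProbabilityMeasure NC} (hν : Tendsto P atTop (𝓝 ν)) {h : ℝ → ℝ}
    (hc : ContinuousOn h (Set.Icc 0 1))
    (hl : ∀ x y : ℝ, 0 ≤ x → x < y → y ≤ 1 →
      Tendsto (fun T => ((P T : Measure NC) (AvI x y)).toReal) atTop (𝓝 (h (x / y)))) :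
    ∀ x y : ℝ, 0 ≤ x → x < y → y ≤ 1 → ((ν : Measure NC) (AvO x y)).toReal = h (x / y) := by
  have hl' : ∀ x y : ℝ, 0 ≤ x → x < y → y ≤ 1 →
      Tendsto (fun T => (P T : Measure NC) (AvI x y)) atTop (𝓝 (ENNReal.ofReal (h (x / y)))) := by
    intro x y hx hxy hy
    refine (ENNReal.tendsto_ofReal (hl x y hx hxy hy)).congr fun T => ?_
    exact ENNReal.ofReal_toReal (measure_ne_top _ _)
  have hpos : ∀ x y : ℝ, 0 ≤ x → x < y → y ≤ 1 → 0 ≤ h (x / y) := by
    intro x y hx hxy hy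
    exact ge_of_tendsto' (hl x y hx hxy hy) fun T => ENNReal.toReal_nonneg
  intro x y hx hxy hy
  have hy0 : 0 < y := lt_of_le_of_lt hx hxy
  apply le_antisymm
  · -- shrink the interval
    have h1 : Tendsto (fun t : ℝ => h ((x + t) / (y - t))) (𝓝[>] 0) (𝓝 (h (x / y))) := by
      have h2 : ContinuousWithinAt h (Set.Icc 0 1) (x / y) :=
        hc (x / y) ⟨by positivity, by rw [div_le_one hy0]; exact hxy.le⟩
      refine h2.tendsto.comp (tendsto_nhdsWithin_iff.2 ⟨?_, ?_⟩)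
      · have h3 : ContinuousAt (fun t : ℝ => (x + t) / (y - t)) 0 := by
          refine ContinuousAt.div (by fun_prop) (by fun_prop) (by simpa using hy0.ne')
        have h4 := h3.tendsto
        simp only [add_zero, sub_zero] at h4
        exact h4.mono_left nhdsWithin_le_nhds
      · have h5 : Set.Ioo (0 : ℝ) ((y - x) / 2) ∈ 𝓝[>] (0 : ℝ) := Ioo_mem_nhdsGT (by linarith)
        filter_upwards [h5] with t ht
        have h6 : 0 < y - t := by linarith [ht.2]
        refine ⟨div_nonneg (by linarith [ht.1]) h6.le, ?_⟩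
        rw [div_le_one h6]
        linarith [ht.2]
    refine ge_of_tendsto h1 ?_
    have h5 : Set.Ioo (0 : ℝ) ((y - x) / 2) ∈ 𝓝[>] (0 : ℝ) := Ioo_mem_nhdsGT (by linarith)
    filter_upwards [h5] with t ht
    have h7 : 0 ≤ x + t := by linarith [ht.1]
    have h8 : x + t < y - t := by linarith [ht.2]
    have h9 : y - t ≤ 1 := by linarith [ht.1]
    have h10 : (ν : Measure NC) (AvO x y) ≤ ENNReal.ofReal (h ((x + t) / (y - t))) := by
      calc (ν : Measure NC) (AvO x y) ≤ (ν : Measure NC) (AvS (Set.Icc (x + t) (y - t))) := by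
            rw [AvO_eq]
            refine measure_mono (AvS_anti fun s hs => ⟨?_, ?_⟩)
            · linarith [hs.1, ht.1]
            · linarith [hs.2, ht.1]
        _ ≤ _ := open_le hν (isOpen_AvS isClosed_Icc) (fun i => measure_mono (by
            rw [AvI_eq]
            exact AvS_anti Set.Ioc_subset_Icc_self)) (hl' (x + t) (y - t) h7 h8 h9)
    exact ENNReal.toReal_le_of_le_ofReal (hpos _ _ h7 h8 h9) h10
  · have h1 : ENNReal.ofReal (h (x / y)) ≤ (ν : Measure NC) (AvO x y) := by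
      refine closed_ge hν (by rw [AvO_eq]; exact isClosed_AvS isOpen_Ioo) (fun i => measure_mono ?_) (hl' x y hx hxy hy)
      rw [AvI_eq, AvO_eq]
      exact AvS_anti Set.Ioo_subset_Ioc_self
    exact (ENNReal.ofReal_le_iff_le_toReal (measure_ne_top _ _)).1 h1

end CutLim
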