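import Pool.Agent.CutLim.Dim1
import Pool.Agent.CutLim.F

/-! CUT, J2: the compact sets that carry a measure of bounded energy form a closed set; the limit law. -/

set_option autoImplicit false

namespace CutLim

open Filter Topology MeasureTheory TopologicalSpace

open scoped ENNReal NNReal BoundedContinuousFunction

/-- the kernel as a bounded continuous function -/
noncomputable def kerB {s ε : ℝ} (hs : 0 ≤ s) (hε : 0 < ε) : (ℝ × ℝ) →ᵇ ℝ≥0 :=
  BoundedContinuousFunction.mkOfBound ⟨fun p => (ker s ε p).toNNReal, continuous_real_toNNReal.comp (ker_cont hε)⟩ (ε ^ (-s)) (by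
    intro p p'
    rw [NNReal.dist_eq]
    simp only [ContinuousMap.coe_mk]
    rw [Real.coe_toNNReal _ (ker_pos hε p).le, Real.coe_toNNReal _ (ker_pos hε p').le]
    have h1 := ker_le hs hε p
    have h2 := ker_le hs hε p'
    have h3 := (ker_pos hε p (s := s)).le
    have h4 := (ker_pos hε p' (s := s)).le
    rw [abs_le]
    constructor <;> linarith)

lemma en_tendsto {s ε : ℝ} (hs : 0 ≤ s) (hε : 0 < ε) {m : ℕ → ProbabilityMeasure ℝ} {m0 : ProbabilityMeasure ℝ}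
    (h : Tendsto m atTop (𝓝 m0)) : Tendsto (fun n => en s ε (m n)) atTop (𝓝 (en s ε m0)) := by
  have h1 : Tendsto (fun n => (m n).prod (m n)) atTop (𝓝 (m0.prod m0)) :=
    (ProbabilityMeasure.continuous_prod.tendsto (m0, m0)).comp (h.prodMk_nhds h)
  have h2 := (ProbabilityMeasure.tendsto_iff_forall_lintegral_tendsto.1 h1) (kerB hs hε)
  exact h2

/-- K ∩ [0, r] carries a probability measure of energy at most M -/
def En (s ε : ℝ) (M : ℝ≥0∞) (r : ℝ) : Set NC :=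
  {K | ∃ m : ProbabilityMeasure ℝ, (m : Measure ℝ) ((K : Set ℝ) ∩ Set.Icc 0 r)ᶜ = 0 ∧ en s ε (m : Measure ℝ) ≤ M}

lemma En_anti {s ε ε' : ℝ} (hs : 0 ≤ s) (hε : 0 < ε) (h : ε ≤ ε') (M : ℝ≥0∞) (r : ℝ) : En s ε M r ⊆ En s ε' M r := by
  rintro K ⟨m, h1, h2⟩
  exact ⟨m, h1, (en_anti hs hε h _).trans h2⟩

lemma tight_Icc {r : ℝ} {m : ℕ → ProbabilityMeasure ℝ} (hm : ∀ n, (m n : Measure ℝ) (Set.Icc 0 r)ᶜ = 0) :
    ∃ φ : ℕ → ℕ, StrictMono φ ∧ ∃ m0 : ProbabilityMeasure ℝ, Tendsto (fun k => m (φ k)) atTop (𝓝 m0) := by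
  have htight : IsTightMeasureSet {((ρ : ProbabilityMeasure ℝ) : Measure ℝ) | ρ ∈ Set.range m} := by
    rw [isTightMeasureSet_iff_exists_isCompact_measure_compl_le]
    intro ε _
    refine ⟨Set.Icc 0 r, isCompact_Icc, ?_⟩
    rintro _ ⟨ρ, ⟨k, rfl⟩, rfl⟩
    rw [hm k]
    exact zero_le
  have hc := isCompact_closure_of_isTightMeasureSet htight
  obtain ⟨ν, -, ψ, hψ, hlim⟩ := hc.tendsto_subseq (x := m) (fun k => subset_closure ⟨k, rfl⟩)
  exact ⟨ψ, hψ, ν, hlim⟩

lemma full_of {μ : ℕ → ProbabilityMeasure ℝ} {ν : ProbabilityMeasure ℝ} (h : Tendsto μ atTop (𝓝 ν)) {F : Set ℝ}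
    (hF : IsClosed F) (hμ : ∀ᶠ n in atTop, (μ n : Measure ℝ) Fᶜ = 0) : (ν : Measure ℝ) Fᶜ = 0 := by
  have h1 : (1 : ℝ≥0∞) ≤ (ν : Measure ℝ) F := by
    refine le_trans ?_ (ProbabilityMeasure.limsup_measure_closed_le_of_tendsto h hF)
    refine le_limsup_of_frequently_le' (Eventually.frequently ?_)
    filter_upwards [hμ] with n hn
    rw [(prob_compl_eq_zero_iff hF.measurableSet).1 hn]
  exact (prob_compl_eq_zero_iff hF.measurableSet).2 (le_antisymm prob_le_one h1)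

theorem isClosed_En {s ε : ℝ} (hs : 0 ≤ s) (hε : 0 < ε) (M : ℝ≥0∞) (r : ℝ) : IsClosed (En s ε M r) := by
  apply IsSeqClosed.isClosed
  intro K K0 hK hlim
  choose m hm1 hm2 using hK
  have hI : ∀ n, (m n : Measure ℝ) (Set.Icc 0 r)ᶜ = 0 := fun n =>
    le_antisymm ((measure_mono (Set.compl_subset_compl.2 Set.inter_subset_right)).trans (hm1 n).le) zero_le
  obtain ⟨φ, hφ, m0, hm0⟩ := tight_Icc hI
  refine ⟨m0, ?_, ?_⟩
  · have h1 : ∀ k : ℕ, (m0 : Measure ℝ) (Metric.cthickening (sc k) (K0 : Set ℝ) ∩ Set.Icc 0 r)ᶜ = 0 := by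
      intro k
      refine full_of hm0 (Metric.isClosed_cthickening.inter isClosed_Icc) ?_
      have h2 : ∀ᶠ n in atTop, (K n : Set ℝ) ⊆ Metric.thickening (sc k) (K0 : Set ℝ) := by
        have h3 : IsOpen {L : NC | (L : Set ℝ) ⊆ Metric.thickening (sc k) (K0 : Set ℝ)} :=
          NonemptyCompacts.isOpen_subsets_of_isOpen Metric.isOpen_thickening
        exact hlim (h3.mem_nhds (Metric.self_subset_thickening (sc_pos k) _))
      filter_upwards [hφ.tendsto_atTop.eventually h2] with n hn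
      refine le_antisymm ((measure_mono (Set.compl_subset_compl.2 ?_)).trans (hm1 (φ n)).le) zero_le
      exact Set.inter_subset_inter_left _ (hn.trans (Metric.thickening_subset_cthickening _ _))
    have h4 : ((K0 : Set ℝ) ∩ Set.Icc 0 r)ᶜ ⊆ ⋃ k : ℕ, (Metric.cthickening (sc k) (K0 : Set ℝ) ∩ Set.Icc 0 r)ᶜ := by
      intro x hx
      rw [Set.mem_iUnion]
      by_contra hcon
      push Not at hcon
      apply hx
      have h5 : ∀ k, x ∈ Metric.cthickening (sc k) (K0 : Set ℝ) ∩ Set.Icc 0 r := fun k => Set.notMem_compl_iff.1 (hcon k)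
      refine ⟨?_, (h5 0).2⟩
      have h6 : x ∈ closure (K0 : Set ℝ) := by
        rw [Metric.closure_eq_iInter_cthickening]
        simp only [Set.mem_iInter]
        intro δ hδ
        obtain ⟨k, hk⟩ := exists_nat_one_div_lt hδ
        exact Metric.cthickening_mono hk.le _ (h5 k).1
      rwa [K0.isCompact.isClosed.closure_eq] at h6
    refine le_antisymm ((measure_mono h4).trans ((measure_iUnion_le _).trans ?_)) zero_le
    rw [ENNReal.tsum_eq_zero.2 h1]
  · exact le_of_tendsto (en_tendsto hs hε hm0) (Eventually.of_forall fun n => hm2 (φ n))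

/-- all scales at once -/
lemma dim_of_En {s : ℝ≥0} (hs : 0 < s) {M : ℝ≥0∞} (hM : M ≠ ∞) {r : ℝ} {K : NC} (h : ∀ n : ℕ, K ∈ En s (sc n) M r) :
    (s : ℝ≥0∞) ≤ dimH ((K : Set ℝ) ∩ Set.Icc 0 r) := by
  have hs' : (0 : ℝ) ≤ s := s.2
  choose m hm1 hm2 using h
  have hI : ∀ n, (m n : Measure ℝ) (Set.Icc 0 r)ᶜ = 0 := fun n =>
    le_antisymm ((measure_mono (Set.compl_subset_compl.2 Set.inter_subset_right)).trans (hm1 n).le) zero_le
  obtain ⟨φ, hφ, m0, hm0⟩ := tight_Icc hI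
  refine dim_of_energy hs hM (m := (m0 : Measure ℝ)) ?_ ?_
  · intro n
    refine le_of_tendsto (en_tendsto hs' (sc_pos n) hm0) ?_
    filter_upwards [eventually_ge_atTop n] with k hk
    exact (en_anti hs' (sc_pos _) (sc_anti (hk.trans (hφ.le_apply))) _).trans (hm2 (φ k))
  · exact full_of hm0 (K.isCompact.isClosed.inter isClosed_Icc) (Eventually.of_forall fun n => hm1 (φ n))

/-- the lower bound of the dimension passes to the limit law -/
theorem dim_ae {P : ℕ → ProbabilityMeasure NC} {ν : ProbabilityMeasure NC} (hν : Tendsto P atTop (𝓝 ν)) {s : ℝ≥0}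
    (hs : 0 < s) {r : ℝ} (h : ∀ η : ℝ≥0∞, 0 < η → ∃ M : ℝ≥0∞, M ≠ ∞ ∧ ∀ n : ℕ, ∀ᶠ T in atTop,
      (P T : Measure NC) (En s (sc n) M r)ᶜ ≤ η) :
    ∀ᵐ K : NC ∂(ν : Measure NC), (s : ℝ≥0∞) ≤ dimH ((K : Set ℝ) ∩ Set.Icc 0 r) := by
  have hs' : (0 : ℝ) ≤ s := s.2
  rw [ae_iff]
  refine le_antisymm (le_of_forall_gt_imp_ge_of_dense fun η hη => ?_) zero_le
  obtain ⟨M, hM, hP⟩ := h η hη
  have h1 : ∀ n, (ν : Measure NC) (En s (sc n) M r)ᶜ ≤ η := by
    intro n
    refine (ProbabilityMeasure.le_liminf_measure_open_of_tendsto hν (isClosed_En hs' (sc_pos n) M r).isOpen_compl).trans ?_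
    exact liminf_le_of_frequently_le' (hP n).frequently
  have h2 : Monotone fun n : ℕ => (En s (sc n) M r)ᶜ := by
    intro n k hnk
    exact Set.compl_subset_compl.2 (En_anti hs' (sc_pos k) (sc_anti hnk) M r)
  have h3 : (ν : Measure NC) (⋃ n, (En s (sc n) M r)ᶜ) ≤ η := by
    rw [h2.measure_iUnion]
    exact iSup_le h1
  refine (measure_mono ?_).trans h3
  intro K hK
  by_contra hcon
  apply hK
  refine dim_of_En hs hM fun n => ?_
  by_contra hn
  exact hcon (Set.mem_iUnion.2 ⟨n, hn⟩)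

end CutLim
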