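import Pool.Agent.CutLim.N4

/-! CUT, J2: the number of the renewals is not small; the energy sum. -/

set_option autoImplicit false

namespace CutLim

open Filter Topology Finset

variable {u q : ℕ → ℝ} {a b : ℝ}

lemma cp0_nonneg' (h : Ren u q) (k m : ℕ) : 0 ≤ cp0 q k m := by
  cases k with
  | zero =>
    show (0 : ℝ) ≤ if m = 0 then 1 else 0
    split_ifs <;> norm_num
  | succ k => exact cp_nonneg h k m

lemma cp0_succ (q : ℕ → ℝ) (k : ℕ) : cp0 q (k + 1) = cv q (cp0 q k) := by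
  cases k with
  | zero =>
    funext n
    exact (cv_delta q n).symm
  | succ k => rfl

lemma cv_hasSum {x y : ℕ → ℝ} (hx : ∀ n, 0 ≤ x n) (hy : ∀ n, 0 ≤ y n) {z X Y : ℝ} (hz : 0 ≤ z)
    (hX : HasSum (fun n => x n * z ^ n) X) (hY : HasSum (fun n => y n * z ^ n) Y) :
    HasSum (fun n => cv x y n * z ^ n) (X * Y) := by
  have h1 : Summable fun n => ‖x n * z ^ n‖ := by
    refine hX.summable.congr fun n => ?_
    rw [Real.norm_eq_abs, abs_of_nonneg (mul_nonneg (hx n) (pow_nonneg hz n))]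
  have h2 : Summable fun n => ‖y n * z ^ n‖ := by
    refine hY.summable.congr fun n => ?_
    rw [Real.norm_eq_abs, abs_of_nonneg (mul_nonneg (hy n) (pow_nonneg hz n))]
  have h3 := hasSum_sum_range_mul_of_summable_norm h1 h2
  rw [hX.tsum_eq, hY.tsum_eq] at h3
  convert! h3 using 1
  funext n
  unfold cv
  rw [sum_mul]
  refine sum_congr rfl fun j hj => ?_
  have hj' := mem_range.1 hj
  have e : z ^ n = z ^ j * z ^ (n - j) := by
    rw [← pow_add]
    congr 1
    omega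
  rw [e]
  ring

/-- generating functions of the convolution powers -/
lemma cp0_hasSum (h : Ren u q) {x : ℝ} (hx0 : 0 ≤ x) {Q : ℝ} (hQ : HasSum (fun n => q n * x ^ n) Q) :
    ∀ k : ℕ, HasSum (fun m => cp0 q k m * x ^ m) (Q ^ k)
  | 0 => by
      have h1 : HasSum (fun m => cp0 q 0 m * x ^ m) (cp0 q 0 0 * x ^ 0) := by
        refine hasSum_single 0 fun m hm => ?_
        show (if m = 0 then (1 : ℝ) else 0) * x ^ m = 0
        rw [if_neg hm, zero_mul]
      have h2 : cp0 q 0 0 * x ^ 0 = Q ^ 0 := by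
        show (if (0 : ℕ) = 0 then (1 : ℝ) else 0) * x ^ 0 = Q ^ 0
        simp
      rwa [h2] at h1
  | k + 1 => by
      have h1 := cv_hasSum h.kn (cp0_nonneg' h k) hx0 hQ (cp0_hasSum h hx0 hQ k)
      rw [← cp0_succ, ← pow_succ'] at h1
      exact h1

lemma sum_cv_range (f g : ℕ → ℝ) (N : ℕ) :
    ∑ n ∈ range N, cv f g n = ∑ m ∈ range N, f m * ∑ r ∈ range (N - m), g r := by
  induction N with
  | zero => simp
  | succ N ih =>
    rw [sum_range_succ, ih, sum_range_succ (fun m => f m * ∑ r ∈ range (N + 1 - m), g r)]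
    have h1 : ∀ m ∈ range N, f m * ∑ r ∈ range (N + 1 - m), g r = f m * ∑ r ∈ range (N - m), g r + f m * g (N - m) := by
      intro m hm
      have := mem_range.1 hm
      rw [show N + 1 - m = (N - m) + 1 by omega, sum_range_succ, mul_add]
    rw [sum_congr rfl h1, sum_add_distrib]
    unfold cv
    rw [sum_range_succ (fun j => f j * g (N - j)), show N + 1 - N = 1 by omega, sum_range_one, Nat.sub_self]
    ring

/-- the probability of less than k renewals up to T -/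
lemma count_tail (h : Ren u q) (T : ℕ) : ∀ k : ℕ, ∑ i ∈ range k, pH q T i = 1 - ∑ m ∈ range (T + 1), cp0 q k m
  | 0 => by
      have h1 : ∑ m ∈ range (T + 1), cp0 q 0 m = 1 := by
        show ∑ m ∈ range (T + 1), (if m = 0 then (1 : ℝ) else 0) = 1
        rw [sum_ite_eq' (range (T + 1)) 0, if_pos (mem_range.2 (by omega))]
      rw [h1]
      simp
  | k + 1 => by
      rw [sum_range_succ, count_tail h T k, cp0_succ]
      have h1 : ∑ m ∈ range (T + 1), cv q (cp0 q k) m = ∑ m ∈ range (T + 1), cv (cp0 q k) q m :=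
        sum_congr rfl fun m _ => cv_comm _ _ m
      rw [h1, sum_cv_range]
      unfold pH
      have h2 : ∀ m ∈ range (T + 1), cp0 q k m * KK q (T + 1 - m) = cp0 q k m - cp0 q k m * ∑ r ∈ range (T + 1 - m), q r := by
        intro m _
        unfold KK
        ring
      rw [sum_congr rfl h2, sum_sub_distrib]
      ring

lemma ren_cv (h : Ren u q) (n : ℕ) : u n = (if n = 0 then 1 else 0) + cv q u n := by
  rcases Nat.eq_zero_or_pos n with rfl | hn
  · simp [cv, h.k0, h.u0]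
  · rw [if_neg (by omega), zero_add, h.ren n hn]
    unfold cv
    rw [Finset.range_eq_Ico, Finset.sum_eq_sum_Ico_succ_bot (by omega), h.k0, zero_mul, zero_add]
    rfl

/-- few renewals are unlikely -/
theorem few_le (h : Ren u q) {T : ℕ} (hT : 1 ≤ T) (k : ℕ) : ∑ i ∈ range k, pH q T i ≤ 6 * k / UU u T := by
  have hT0 : (0 : ℝ) < T := by exact_mod_cast hT
  set x : ℝ := T / (T + 1) with hx
  have hx0 : 0 < x := by positivity
  have hx1 : x < 1 := by
    rw [hx, div_lt_one (by positivity)]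
    linarith
  have hxT : 1 / 3 ≤ x ^ T := by
    have e : x ^ T = ((1 + 1 / (T : ℝ)) ^ T)⁻¹ := by
      rw [← inv_pow, hx]
      congr 1
      field_simp
    rw [e, one_div]
    refine inv_anti₀ (by positivity) ?_
    calc (1 + 1 / (T : ℝ)) ^ T ≤ (Real.exp (1 / T)) ^ T := by
          gcongr
          linarith [Real.add_one_le_exp (1 / (T : ℝ))]
      _ = Real.exp 1 := by
          rw [← Real.exp_nat_mul]
          congr 1
          field_simp
      _ ≤ 3 := Real.exp_one_lt_three.le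
  have hxT1 : x ^ (T + 1) ≤ 1 / 2 := by
    have e : x = 1 - 1 / ((T : ℝ) + 1) := by
      rw [hx]
      field_simp
      ring
    calc x ^ (T + 1) ≤ (Real.exp (-(1 / ((T : ℝ) + 1)))) ^ (T + 1) := by
          gcongr
          rw [e]
          linarith [Real.add_one_le_exp (-(1 / ((T : ℝ) + 1)))]
      _ = Real.exp (-1) := by
          rw [← Real.exp_nat_mul]
          congr 1
          push_cast
          field_simp
      _ ≤ 1 / 2 := by
          rw [Real.exp_neg, one_div]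
          refine inv_anti₀ (by norm_num) ?_
          linarith [Real.add_one_le_exp (1 : ℝ)]
  have hqs : Summable fun n => q n * x ^ n := by
    refine Summable.of_nonneg_of_le (fun n => mul_nonneg (h.kn n) (pow_nonneg hx0.le n)) (fun n => ?_) h.ks.summable
    exact mul_le_of_le_one_right (h.kn n) (pow_le_one₀ hx0.le hx1.le)
  obtain ⟨Q, hQ⟩ := hqs
  have hus : Summable fun n => u n * x ^ n := by
    refine Summable.of_nonneg_of_le (fun n => mul_nonneg (u_nonneg h n) (pow_nonneg hx0.le n)) (fun n => ?_)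
      (summable_geometric_of_lt_one hx0.le hx1)
    exact mul_le_of_le_one_left (pow_nonneg hx0.le n) (u_le_one h n)
  obtain ⟨U, hU⟩ := hus
  have hQ0 : 0 ≤ Q := hQ.nonneg fun n => mul_nonneg (h.kn n) (pow_nonneg hx0.le n)
  have hQ1 : Q ≤ 1 := hasSum_le (fun n => mul_le_of_le_one_right (h.kn n) (pow_le_one₀ hx0.le hx1.le)) hQ h.ks
  have hUQ : (1 - Q) * U = 1 := by
    have h1 := cv_hasSum h.kn (u_nonneg h) hx0.le hQ hU
    have h2 : HasSum (fun n => (if n = 0 then (1 : ℝ) else 0) * x ^ n) 1 := by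
      have h3 : HasSum (fun n => (if n = 0 then (1 : ℝ) else 0) * x ^ n) ((if (0 : ℕ) = 0 then (1 : ℝ) else 0) * x ^ 0) := by
        refine hasSum_single 0 fun m hm => ?_
        rw [if_neg hm, zero_mul]
      simpa using h3
    have h4 := h2.add h1
    have h5 : (fun n => (if n = 0 then (1 : ℝ) else 0) * x ^ n + cv q u n * x ^ n) = fun n => u n * x ^ n := by
      funext n
      rw [← add_mul, ← ren_cv h n]
    rw [h5] at h4
    have h6 := hU.unique h4
    linarith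
  have hUU : 0 < UU u T := by
    unfold UU
    have h1 : u 0 ≤ ∑ i ∈ range (T + 1), u i := single_le_sum (fun i _ => u_nonneg h i) (mem_range.2 (by omega))
    rw [h.u0] at h1
    linarith
  have hUl : UU u T / 3 ≤ U := by
    have h1 : ∑ n ∈ range (T + 1), u n * x ^ n ≤ U :=
      sum_le_hasSum _ (fun n _ => mul_nonneg (u_nonneg h n) (pow_nonneg hx0.le n)) hU
    refine le_trans ?_ h1
    unfold UU
    rw [sum_div]
    refine sum_le_sum fun n hn => ?_
    have h2 : 1 / 3 ≤ x ^ n := hxT.trans (pow_le_pow_of_le_one hx0.le hx1.le (by have := mem_range.1 hn; omega))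
    have h3 := u_nonneg h n
    nlinarith
  have hU0 : 0 < U := by linarith [div_pos hUU (by norm_num : (0 : ℝ) < 3)]
  have hQU : 1 - Q ≤ 3 / UU u T := by
    have h1 : 1 - Q = 1 / U := by
      field_simp
      linarith
    rw [h1, div_le_div_iff₀ hU0 hUU]
    linarith
  -- the tail of the k-fold convolution
  have hD := cp0_hasSum h hx0.le hQ k
  have hD1 : HasSum (fun m => cp0 q k m) 1 := by
    have h1 := cp0_hasSum h (x := 1) zero_le_one (Q := 1) (by simpa using h.ks) k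
    simpa using h1
  have hfin : HasSum (fun m => if m ∈ range (T + 1) then cp0 q k m else 0) (∑ m ∈ range (T + 1), cp0 q k m) := by
    have h1 : HasSum (fun m => if m ∈ range (T + 1) then cp0 q k m else 0)
        (∑ m ∈ range (T + 1), (if m ∈ range (T + 1) then cp0 q k m else 0)) :=
      hasSum_sum_of_ne_finset_zero fun m hm => if_neg hm
    have h2 : ∑ m ∈ range (T + 1), (if m ∈ range (T + 1) then cp0 q k m else 0) = ∑ m ∈ range (T + 1), cp0 q k m :=
      sum_congr rfl fun m hm => if_pos hm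
    rwa [h2] at h1
  have hcomb := (hD1.sub hD).sub ((hD1.sub hfin).mul_left (1 / 2))
  have hnn : 0 ≤ (1 - Q ^ k) - 1 / 2 * (1 - ∑ m ∈ range (T + 1), cp0 q k m) := by
    refine hcomb.nonneg fun m => ?_
    have h1 := cp0_nonneg' h k m
    by_cases hm : m ∈ range (T + 1)
    · rw [if_pos hm, sub_self, mul_zero, sub_zero]
      have h2 : x ^ m ≤ 1 := pow_le_one₀ hx0.le hx1.le
      nlinarith
    · rw [if_neg hm, sub_zero]
      have h2 : x ^ m ≤ 1 / 2 := (pow_le_pow_of_le_one hx0.le hx1.le (by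
        rw [mem_range] at hm
        omega)).trans hxT1
      nlinarith
  have hbern : 1 - Q ^ k ≤ k * (1 - Q) := by
    have h1 := one_add_mul_le_pow (a := -(1 - Q)) (by linarith) k
    have h2 : 1 + -(1 - Q) = Q := by ring
    rw [h2] at h1
    linarith
  rw [count_tail h T k]
  have h3 : (k : ℝ) * (1 - Q) ≤ k * (3 / UU u T) := by gcongr
  have h4 : 6 * (k : ℝ) / UU u T = 2 * (k * (3 / UU u T)) := by ring
  rw [h4]
  linarith

/-- few renewals are unlikely, power form -/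
theorem few_pow (h : Ren u q) (ha : 0 < a) (ha1 : a < 1) (hb : 0 < b)
    (hu : Tendsto (fun n : ℕ => (n : ℝ) ^ (1 - a) * u n) atTop (𝓝 b)) :
    ∃ C : ℝ, 0 < C ∧ ∀ T k : ℕ, 1 ≤ T → ∑ i ∈ range k, pH q T i ≤ C * k / (T : ℝ) ^ a := by
  have h1 := UU_tendsto h ha ha1 hb hu
  have hUpos : ∀ T : ℕ, 1 ≤ UU u T := by
    intro T
    unfold UU
    have h1 : u 0 ≤ ∑ i ∈ range (T + 1), u i := single_le_sum (fun i _ => u_nonneg h i) (mem_range.2 (by omega))
    rwa [h.u0] at h1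
  obtain ⟨S, hS⟩ := (h1.inv₀ (div_pos hb ha).ne').bddAbove_range
  refine ⟨6 * max 1 S, by positivity, fun T k hT => ?_⟩
  have hT0 : (0 : ℝ) < T := by exact_mod_cast hT
  have hTa := Real.rpow_pos_of_pos hT0 a
  have hUT : 0 < UU u T := by linarith [hUpos T]
  have h2 : ((T : ℝ) ^ (-a) * UU u T)⁻¹ ≤ S := hS ⟨T, rfl⟩
  have h3 : (T : ℝ) ^ a / UU u T ≤ max 1 S := by
    refine le_trans (le_of_eq ?_) (h2.trans (le_max_right _ _))
    rw [Real.rpow_neg hT0.le, mul_inv, inv_inv]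
    rfl
  refine (few_le h hT k).trans ?_
  rw [div_le_div_iff₀ hUT hTa]
  have h4 : (T : ℝ) ^ a ≤ max 1 S * UU u T := by
    rwa [div_le_iff₀ hUT] at h3
  have h5 : (0 : ℝ) ≤ 6 * k := by positivity
  calc 6 * (k : ℝ) * (T : ℝ) ^ a ≤ 6 * k * (max 1 S * UU u T) := by gcongr
    _ = 6 * max 1 S * k * UU u T := by ring

lemma rpow_le_cf {β : ℝ} (hβ : 0 < β) : ∃ C : ℝ, 0 < C ∧ ∀ n : ℕ, 1 ≤ n → (n : ℝ) ^ (β - 1) ≤ C * cf β n := by
  have hG := Real.Gamma_pos_of_pos hβ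
  obtain ⟨S, hS⟩ := ((cf_tendsto hβ).inv₀ (inv_ne_zero hG.ne')).bddAbove_range
  refine ⟨max 1 S, by positivity, fun n hn => ?_⟩
  have hn0 : (0 : ℝ) < n := by exact_mod_cast hn
  have h1 : ((n : ℝ) ^ (1 - β) * cf β n)⁻¹ ≤ S := hS ⟨n, rfl⟩
  have h2 := cf_pos hβ n
  have h3 := Real.rpow_pos_of_pos hn0 (1 - β)
  have h4 : (n : ℝ) ^ (β - 1) = ((n : ℝ) ^ (1 - β))⁻¹ := by
    rw [← Real.rpow_neg hn0.le]
    congr 1
    ring
  have h5 : ((n : ℝ) ^ (1 - β))⁻¹ = ((n : ℝ) ^ (1 - β) * cf β n)⁻¹ * cf β n := by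
    field_simp
  rw [h4, h5]
  exact mul_le_mul_of_nonneg_right (h1.trans (le_max_right _ _)) h2.le

lemma cf_le_rpow {β : ℝ} (hβ : 0 < β) : ∃ C : ℝ, 0 < C ∧ ∀ n : ℕ, 1 ≤ n → cf β n ≤ C * (n : ℝ) ^ (β - 1) := by
  obtain ⟨S, hS⟩ := (cf_div hβ).bddAbove_range
  refine ⟨max 1 S, by positivity, fun n hn => ?_⟩
  have hn0 : (0 : ℝ) < n := by exact_mod_cast hn
  have h1 : cf β n / (n : ℝ) ^ (β - 1) ≤ S := hS ⟨n, rfl⟩
  have h3 := Real.rpow_pos_of_pos hn0 (β - 1)
  rw [div_le_iff₀ h3] at h1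
  exact h1.trans (mul_le_mul_of_nonneg_right (le_max_right _ _) h3.le)

lemma sum_rpow_le {β : ℝ} (hβ : 0 < β) : ∃ C : ℝ, 0 < C ∧ ∀ T : ℕ, 1 ≤ T →
    ∑ d ∈ Icc 1 T, (d : ℝ) ^ (β - 1) ≤ C * (T : ℝ) ^ β := by
  obtain ⟨C1, hC1, h1⟩ := rpow_le_cf hβ
  obtain ⟨C2, hC2, h2⟩ := cf_le_rpow (show 0 < β + 1 by linarith)
  refine ⟨C1 * C2, by positivity, fun T hT => ?_⟩
  calc ∑ d ∈ Icc 1 T, (d : ℝ) ^ (β - 1) ≤ ∑ d ∈ Icc 1 T, C1 * cf β d := by
        refine sum_le_sum fun d hd => h1 d (mem_Icc.1 hd).1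
    _ ≤ ∑ d ∈ range (T + 1), C1 * cf β d := by
        refine sum_le_sum_of_subset_of_nonneg (fun d hd => ?_) fun d _ _ => mul_nonneg hC1.le (cf_pos hβ d).le
        have := mem_Icc.1 hd
        exact mem_range.2 (by omega)
    _ = C1 * cf (β + 1) T := by rw [← mul_sum, sum_cf]
    _ ≤ C1 * (C2 * (T : ℝ) ^ β) := by
        have := h2 T hT
        rw [add_sub_cancel_right] at this
        gcongr
    _ = C1 * C2 * (T : ℝ) ^ β := by ring

/-- the energy sum -/
theorem pair_sum (h : Ren u q) (ha : 0 < a) (hu : Tendsto (fun n : ℕ => (n : ℝ) ^ (1 - a) * u n) atTop (𝓝 b)) {s : ℝ}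
    (hsa : s < a) : ∃ C : ℝ, 0 < C ∧ ∀ T : ℕ, 1 ≤ T →
      ∑ c ∈ Icc 1 T, ∑ d ∈ Icc 1 T, u c * u d * ((d : ℝ) / T) ^ (-s) ≤ C * (T : ℝ) ^ (2 * a) := by
  obtain ⟨S, hS⟩ := hu.bddAbove_range
  have hub : ∀ n : ℕ, 1 ≤ n → u n ≤ max 1 S * (n : ℝ) ^ (a - 1) := by
    intro n hn
    have hn0 : (0 : ℝ) < n := by exact_mod_cast hn
    have h1 : (n : ℝ) ^ (1 - a) * u n ≤ S := hS ⟨n, rfl⟩
    have h2 := Real.rpow_pos_of_pos hn0 (1 - a)
    have h3 : (n : ℝ) ^ (a - 1) = ((n : ℝ) ^ (1 - a))⁻¹ := by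
      rw [← Real.rpow_neg hn0.le]
      congr 1
      ring
    rw [h3, ← div_eq_mul_inv, le_div_iff₀ h2, mul_comm]
    exact h1.trans (le_max_right _ _)
  obtain ⟨C1, hC1, h1⟩ := sum_rpow_le ha
  obtain ⟨C2, hC2, h2⟩ := sum_rpow_le (show 0 < a - s by linarith)
  have hS0 : 0 < max 1 S := by positivity
  refine ⟨(max 1 S * C1) * (max 1 S * C2), by positivity, fun T hT => ?_⟩
  have hT0 : (0 : ℝ) < T := by exact_mod_cast hT
  have e1 : ∑ c ∈ Icc 1 T, u c ≤ max 1 S * C1 * (T : ℝ) ^ a := by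
    calc ∑ c ∈ Icc 1 T, u c ≤ ∑ c ∈ Icc 1 T, max 1 S * (c : ℝ) ^ (a - 1) := sum_le_sum fun c hc => hub c (mem_Icc.1 hc).1
      _ = max 1 S * ∑ c ∈ Icc 1 T, (c : ℝ) ^ (a - 1) := by rw [mul_sum]
      _ ≤ max 1 S * (C1 * (T : ℝ) ^ a) := by
          have := h1 T hT
          gcongr
      _ = _ := by ring
  have e2 : ∑ d ∈ Icc 1 T, u d * ((d : ℝ) / T) ^ (-s) ≤ max 1 S * C2 * (T : ℝ) ^ a := by
    calc ∑ d ∈ Icc 1 T, u d * ((d : ℝ) / T) ^ (-s)
        ≤ ∑ d ∈ Icc 1 T, max 1 S * ((d : ℝ) ^ (a - s - 1) * (T : ℝ) ^ s) := by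
          refine sum_le_sum fun d hd => ?_
          have hd1 := (mem_Icc.1 hd).1
          have hd0 : (0 : ℝ) < d := by exact_mod_cast hd1
          have e3 : ((d : ℝ) / T) ^ (-s) = (d : ℝ) ^ (-s) * (T : ℝ) ^ s := by
            rw [Real.div_rpow hd0.le hT0.le, Real.rpow_neg hT0.le, div_inv_eq_mul]
          rw [e3, ← mul_assoc]
          calc u d * (d : ℝ) ^ (-s) * (T : ℝ) ^ s ≤ (max 1 S * (d : ℝ) ^ (a - 1)) * (d : ℝ) ^ (-s) * (T : ℝ) ^ s := by
                have := hub d hd1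
                gcongr
            _ = max 1 S * ((d : ℝ) ^ (a - s - 1) * (T : ℝ) ^ s) := by
                rw [mul_assoc (max 1 S), ← Real.rpow_add hd0, mul_assoc]
                congr 3
                ring
      _ = max 1 S * ((∑ d ∈ Icc 1 T, (d : ℝ) ^ (a - s - 1)) * (T : ℝ) ^ s) := by rw [sum_mul, mul_sum]
      _ ≤ max 1 S * ((C2 * (T : ℝ) ^ (a - s)) * (T : ℝ) ^ s) := by
          have := h2 T hT
          gcongr
      _ = max 1 S * C2 * (T : ℝ) ^ a := by
          rw [mul_assoc C2, ← Real.rpow_add hT0, sub_add_cancel]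
          ring
  have e4 : ∑ c ∈ Icc 1 T, ∑ d ∈ Icc 1 T, u c * u d * ((d : ℝ) / T) ^ (-s) =
      (∑ c ∈ Icc 1 T, u c) * ∑ d ∈ Icc 1 T, u d * ((d : ℝ) / T) ^ (-s) := by
    rw [sum_mul_sum]
    exact sum_congr rfl fun c _ => sum_congr rfl fun d _ => by ring
  rw [e4]
  have e5 : (T : ℝ) ^ (2 * a) = (T : ℝ) ^ a * (T : ℝ) ^ a := by
    rw [← Real.rpow_add hT0]
    congr 1
    ring
  rw [e5]
  have p1 : 0 ≤ ∑ c ∈ Icc 1 T, u c := sum_nonneg fun c _ => u_nonneg h c
  have p2 : 0 ≤ ∑ d ∈ Icc 1 T, u d * ((d : ℝ) / T) ^ (-s) :=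
    sum_nonneg fun d _ => mul_nonneg (u_nonneg h d) (Real.rpow_nonneg (by positivity) _)
  calc _ ≤ (max 1 S * C1 * (T : ℝ) ^ a) * (max 1 S * C2 * (T : ℝ) ^ a) := by gcongr
    _ = _ := by ring

end CutLim
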