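import Pool.Agent.CutLim.N5
import Pool.Agent.CutLim.Dim2
import Pool.Agent.CutLim.Dim3
import Pool.Agent.CutH.Lists

/-! CUT, J2: the set of the cut levels of the half plane walk carries measures of bounded energy. -/

set_option autoImplicit false

namespace CutLim

open Filter Topology Finset MeasureTheory TopologicalSpace HexObs

open scoped ENNReal NNReal

/-- cuts of a prefix -/
lemma cut_prefix {c b x : ℕ} {a u : List Bool} (ha : a ∈ Brd c) (hu : u ∈ Brd b) (hx : x ≤ c) :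
    Cut (a ++ u) x ↔ Cut a x := by
  constructor
  · rintro ⟨s, w, b', hs, hw, h⟩
    obtain ⟨v, hv, h1, -⟩ := cut_nested hs ha hw hu hx h.symm
    exact ⟨s, v, c - x, hs, hv, h1⟩
  · rintro ⟨s, w, b', hs, hw, h⟩
    exact ⟨s, w ++ u, b' + b, hs, Brd_append hw hu, by rw [h, List.append_assoc]⟩

/-- two cut levels -/
theorem two_point {c c' T : ℕ} (hc : c ≤ c') (hT : c' ≤ T) :
    gf {t | t ∈ FCW T ∧ Cut t c ∧ Cut t c'} ≤ ENNReal.ofReal (uu c * uu (c' - c)) := by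
  have h1 : gf {t | t ∈ FCW T ∧ Cut t c ∧ Cut t c'} ≤ gf (Brd c) * gf {t | ∃ v u, v ∈ Brd (c' - c) ∧ u ∈ FCW (T - c') ∧ t = v ++ u} := by
    refine gf_le_mul ?_
    rintro t ⟨⟨j, hj⟩, ⟨s1, u1, b1, hs1, hu1, e1⟩, ⟨s2, u2, b2, hs2, hu2, e2⟩⟩
    obtain ⟨v, hv, h3, h4⟩ := cut_nested hs1 hs2 hu1 hu2 hc (e1.symm.trans e2)
    refine ⟨s1, hs1, u1, ⟨v, u2, hv, ⟨b2, hu2, ?_, ?_⟩, h4⟩, e1⟩
    · have h5 : c' + b2 = j := by
        have := Brd_append hs2 hu2
        rw [← e2] at this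
        exact Brd_height this hj.1
      have := hj.2.1
      omega
    · rintro x hx1 hx2 ⟨s', u', b, hs', hu', h6⟩
      have h5 : c' + b2 = j := by
        have := Brd_append hs2 hu2
        rw [← e2] at this
        exact Brd_height this hj.1
      refine hj.2.2 (c' + x) (by omega) (by omega) ⟨s2 ++ s', u', b, Brd_append hs2 hs', hu', ?_⟩
      rw [e2, h6, List.append_assoc]
  have h2 : gf {t | ∃ v u, v ∈ Brd (c' - c) ∧ u ∈ FCW (T - c') ∧ t = v ++ u} ≤ gf (Brd (c' - c)) * gf (FCW (T - c')) :=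
    gf_le_mul fun t ht => by
      obtain ⟨v, u, hv, hu, h⟩ := ht
      exact ⟨v, hv, u, hu, h⟩
  rw [Touch.gf_FCW, mul_one] at h2
  refine h1.trans ?_
  rw [gf_Brd] at h2 ⊢
  rw [BT_uu] at h2 ⊢
  rw [ENNReal.ofReal_mul (uu_pos c).le]
  gcongr

/-- few cut levels up to T' -/
theorem few_words {T' T : ℕ} (hT' : 1 ≤ T') (h : T' ≤ T) (k : ℕ) :
    gf {t | t ∈ FCW T ∧ cN (T' + 1) t < k} ≤ ENNReal.ofReal (∑ i ∈ range k, pH kk T' i) := by
  have h1 : gf {t | t ∈ FCW T ∧ cN (T' + 1) t < k} ≤ gf (FCW T' ∩ {a | cN (T' + 1) a < k}) := by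
    refine (gf_mono ?_).trans (Touch.mass_le {a | cN (T' + 1) a < k} h)
    rintro t ⟨ht, hk⟩
    obtain ⟨j, a, u, b, ha, hu, -, e⟩ := Touch.dec h ht
    refine ⟨ht, j, a, u, b, ha, ?_, hu, e⟩
    have h2 : cN (T' + 1) a = cN (T' + 1) t := by
      unfold cN
      congr 1
      ext x
      rw [e]
      constructor
      · rintro ⟨h3, h4, h5⟩
        exact ⟨h3, h4, (cut_prefix ha.1 hu (by have := ha.2.1; omega)).2 h5⟩
      · rintro ⟨h3, h4, h5⟩
        exact ⟨h3, h4, (cut_prefix ha.1 hu (by have := ha.2.1; omega)).1 h5⟩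
    show cN (T' + 1) a < k
    rw [h2]
    exact hk
  refine h1.trans ?_
  have h2 : FCW T' ∩ {a | cN (T' + 1) a < k} ⊆ ⋃ i ∈ range k, {t | t ∈ FCW T' ∧ cN (T' + 1) t = i} := by
    rintro t ⟨ht, hk⟩
    simp only [Set.mem_iUnion, Finset.mem_range]
    exact ⟨cN (T' + 1) t, hk, ht, rfl⟩
  refine (gf_mono h2).trans (le_of_eq ?_)
  rw [gf_biUnion (range k) (fun i => {t | t ∈ FCW T' ∧ cN (T' + 1) t = i}) (by
    intro i _ j _ hij
    rw [Set.disjoint_left]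
    rintro t ⟨-, h3⟩ ⟨-, h4⟩
    exact hij (h3.symm.trans h4))]
  rw [ENNReal.ofReal_sum_of_nonneg fun i _ => pH_nonneg ren_uu T' i]
  exact Finset.sum_congr rfl fun i _ => gf_FCW_cN hT' i

open Classical in
/-- the sum over the pairs of cut levels up to T' -/
noncomputable def WW (s : ℝ) (T' T : ℕ) (t : List Bool) : ℝ≥0∞ :=
  ∑ c ∈ Icc 1 T', ∑ d ∈ Icc 1 T', (if c + d ≤ T' ∧ Cut t c ∧ Cut t (c + d) then ENNReal.ofReal (((d : ℝ) / T) ^ (-s)) else 0)

/-- the first moment -/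
theorem WW_mean {s : ℝ} {T' T : ℕ} (h : T' ≤ T) :
    ∑' t : {t : List Bool // t ∈ FCW T}, wE t.1 * WW s T' T t.1 ≤
      ENNReal.ofReal (∑ c ∈ Icc 1 T', ∑ d ∈ Icc 1 T', uu c * uu d * ((d : ℝ) / T) ^ (-s)) := by
  classical
  have hnn : ∀ c d : ℕ, 0 ≤ uu c * uu d * ((d : ℝ) / T) ^ (-s) := fun c d =>
    mul_nonneg (mul_nonneg (uu_pos c).le (uu_pos d).le) (Real.rpow_nonneg (by positivity) _)
  rw [ENNReal.ofReal_sum_of_nonneg fun c _ => sum_nonneg fun d _ => hnn c d]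
  unfold WW
  simp_rw [Finset.mul_sum]
  rw [Summable.tsum_finsetSum (fun _ _ => ENNReal.summable)]
  refine Finset.sum_le_sum fun c hc => ?_
  rw [Summable.tsum_finsetSum (fun _ _ => ENNReal.summable), ENNReal.ofReal_sum_of_nonneg fun d _ => hnn c d]
  refine Finset.sum_le_sum fun d hd => ?_
  by_cases hcd : c + d ≤ T'
  · have h1 : ∑' t : {t : List Bool // t ∈ FCW T}, wE t.1 * (if c + d ≤ T' ∧ Cut t.1 c ∧ Cut t.1 (c + d) then
        ENNReal.ofReal (((d : ℝ) / T) ^ (-s)) else 0) =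
        gf {t | t ∈ FCW T ∧ Cut t c ∧ Cut t (c + d)} * ENNReal.ofReal (((d : ℝ) / T) ^ (-s)) := by
      unfold gf
      rw [← ENNReal.tsum_mul_right,
        tsum_subtype (FCW T) (fun t => wE t * (if c + d ≤ T' ∧ Cut t c ∧ Cut t (c + d) then
          ENNReal.ofReal (((d : ℝ) / T) ^ (-s)) else 0)),
        tsum_subtype {t | t ∈ FCW T ∧ Cut t c ∧ Cut t (c + d)} (fun t => wE t * ENNReal.ofReal (((d : ℝ) / T) ^ (-s)))]
      refine tsum_congr fun t => ?_
      by_cases h2 : t ∈ FCW T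
      · rw [Set.indicator_of_mem h2]
        by_cases h3 : Cut t c ∧ Cut t (c + d)
        · rw [if_pos ⟨hcd, h3⟩, Set.indicator_of_mem (show t ∈ {t | t ∈ FCW T ∧ Cut t c ∧ Cut t (c + d)} from ⟨h2, h3⟩)]
        · rw [if_neg (fun h4 => h3 h4.2),
            Set.indicator_of_notMem (fun h4 : t ∈ {t | t ∈ FCW T ∧ Cut t c ∧ Cut t (c + d)} => h3 h4.2), mul_zero]
      · rw [Set.indicator_of_notMem h2,
          Set.indicator_of_notMem (fun h4 : t ∈ {t | t ∈ FCW T ∧ Cut t c ∧ Cut t (c + d)} => h2 h4.1)]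
    rw [h1, ENNReal.ofReal_mul (mul_nonneg (uu_pos c).le (uu_pos d).le)]
    have h2 := two_point (c := c) (c' := c + d) (T := T) (by omega) (by omega)
    rw [Nat.add_sub_cancel_left] at h2
    gcongr
  · have h1 : ∑' t : {t : List Bool // t ∈ FCW T}, wE t.1 * (if c + d ≤ T' ∧ Cut t.1 c ∧ Cut t.1 (c + d) then
        ENNReal.ofReal (((d : ℝ) / T) ^ (-s)) else 0) = 0 := by
      rw [ENNReal.tsum_eq_zero]
      intro t
      rw [if_neg (fun h4 => hcd h4.1), mul_zero]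
    rw [h1]
    exact zero_le

/-- Markov inequality for the sum over the pairs -/
theorem WW_markov {s : ℝ} {T' T : ℕ} (h : T' ≤ T) (A : ℝ≥0∞) :
    A * gf {t | t ∈ FCW T ∧ A ≤ WW s T' T t} ≤
      ENNReal.ofReal (∑ c ∈ Icc 1 T', ∑ d ∈ Icc 1 T', uu c * uu d * ((d : ℝ) / T) ^ (-s)) := by
  refine le_trans ?_ (WW_mean h)
  unfold gf
  rw [← ENNReal.tsum_mul_left, tsum_subtype {t | t ∈ FCW T ∧ A ≤ WW s T' T t} (fun t => A * wE t),
    tsum_subtype (FCW T) (fun t => wE t * WW s T' T t)]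
  refine ENNReal.tsum_le_tsum fun t => ?_
  by_cases h2 : t ∈ FCW T
  · rw [Set.indicator_of_mem h2]
    by_cases h3 : A ≤ WW s T' T t
    · rw [Set.indicator_of_mem (show t ∈ {t | t ∈ FCW T ∧ A ≤ WW s T' T t} from ⟨h2, h3⟩), mul_comm]
      gcongr
    · rw [Set.indicator_of_notMem (fun h4 : t ∈ {t | t ∈ FCW T ∧ A ≤ WW s T' T t} => h3 h4.2)]
      exact zero_le
  · rw [Set.indicator_of_notMem h2,
      Set.indicator_of_notMem (fun h4 : t ∈ {t | t ∈ FCW T ∧ A ≤ WW s T' T t} => h2 h4.1)]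

open Classical in
/-- the cut levels up to T' as a finite set -/
noncomputable def cS (T' : ℕ) (t : List Bool) : Finset ℕ := (Icc 1 T').filter fun c => Cut t c

lemma mem_cS {T' : ℕ} {t : List Bool} {c : ℕ} : c ∈ cS T' t ↔ (1 ≤ c ∧ c ≤ T') ∧ Cut t c := by
  classical
  unfold cS
  rw [Finset.mem_filter, Finset.mem_Icc]

lemma card_cS (T' : ℕ) (t : List Bool) : (cS T' t).card = cN (T' + 1) t := by
  unfold cN
  rw [← Set.ncard_coe_finset]
  congr 1
  ext c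
  rw [Finset.mem_coe, mem_cS]
  constructor
  · rintro ⟨⟨h1, h2⟩, h3⟩
    exact ⟨h1, by omega, h3⟩
  · rintro ⟨h1, h2, h3⟩
    exact ⟨⟨h1, by omega⟩, h3⟩

/-- the normalised counting measure of a finite set of levels -/
noncomputable def cm (T : ℕ) (S : Finset ℕ) : Measure ℝ := ((S.card : ℝ≥0∞))⁻¹ • ∑ c ∈ S, Measure.dirac ((c : ℝ) / T)

lemma cm_prob {T : ℕ} {S : Finset ℕ} (hS : S.Nonempty) : IsProbabilityMeasure (cm T S) := by
  constructor
  unfold cm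
  rw [Measure.smul_apply, Measure.finsetSum_apply]
  simp only [measure_univ, Finset.sum_const, nsmul_eq_mul, mul_one, smul_eq_mul]
  refine ENNReal.inv_mul_cancel ?_ (ENNReal.natCast_ne_top _)
  exact_mod_cast hS.card_pos.ne'

lemma cm_lintegral (T : ℕ) (S : Finset ℕ) {f : ℝ → ℝ≥0∞} (hf : Measurable f) :
    ∫⁻ x, f x ∂(cm T S) = ((S.card : ℝ≥0∞))⁻¹ * ∑ c ∈ S, f ((c : ℝ) / T) := by
  unfold cm
  rw [lintegral_smul_measure, lintegral_finsetSum_measure, smul_eq_mul]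
  congr 1
  exact Finset.sum_congr rfl fun c _ => lintegral_dirac' _ hf

lemma cm_en {s ε : ℝ} (hε : 0 < ε) (T : ℕ) (S : Finset ℕ) (hS : S.Nonempty) :
    en s ε (cm T S) = ((S.card : ℝ≥0∞))⁻¹ * (((S.card : ℝ≥0∞))⁻¹ *
      ∑ c ∈ S, ∑ c' ∈ S, ENNReal.ofReal (ker s ε ((c : ℝ) / T, (c' : ℝ) / T))) := by
  have := cm_prob (T := T) hS
  have hm : Measurable fun p : ℝ × ℝ => ENNReal.ofReal (ker s ε p) := (ker_cont hε).measurable.ennreal_ofReal
  rw [en_eq hε]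
  have h1 : ∀ x : ℝ, ∫⁻ y, ENNReal.ofReal (ker s ε (x, y)) ∂(cm T S) =
      ((S.card : ℝ≥0∞))⁻¹ * ∑ c' ∈ S, ENNReal.ofReal (ker s ε (x, (c' : ℝ) / T)) := fun x =>
    cm_lintegral T S (hm.comp measurable_prodMk_left)
  simp_rw [h1]
  rw [cm_lintegral T S]
  · rw [← Finset.mul_sum]
  · refine Measurable.const_mul (Finset.measurable_sum _ fun c' _ => ?_) _
    exact hm.comp measurable_prodMk_right

/-- the double sum of the kernel over the cut levels -/
lemma ker_sum {s ε : ℝ} (hs : 0 ≤ s) (hε : 0 < ε) {T' T : ℕ} (hT : 1 ≤ T) (t : List Bool) :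
    ∑ c ∈ cS T' t, ∑ c' ∈ cS T' t, ENNReal.ofReal (ker s ε ((c : ℝ) / T, (c' : ℝ) / T)) ≤
      (cS T' t).card * ENNReal.ofReal (ε ^ (-s)) + 2 * WW s T' T t := by
  classical
  have hT0 : (0 : ℝ) < T := by exact_mod_cast hT
  set S := cS T' t with hS
  have hker : ∀ c d : ℕ, 1 ≤ d → ker s ε ((c : ℝ) / T, ((c + d : ℕ) : ℝ) / T) ≤ ((d : ℝ) / T) ^ (-s) := by
    intro c d hd
    have hd0 : (0 : ℝ) < d := by exact_mod_cast hd
    refine Real.rpow_le_rpow_of_nonpos (by positivity) (le_max_of_le_left ?_) (by linarith)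
    have e : (c : ℝ) / T - ((c + d : ℕ) : ℝ) / T = -((d : ℝ) / T) := by
      push_cast
      field_simp
      ring
    rw [e, abs_neg, abs_of_pos (by positivity)]
  have hsymm : ∀ x y : ℝ, ker s ε (x, y) = ker s ε (y, x) := by
    intro x y
    unfold ker
    rw [abs_sub_comm]
  -- the sum over c < c'
  have hlt : ∑ c ∈ S, ∑ c' ∈ S, (if c < c' then ENNReal.ofReal (ker s ε ((c : ℝ) / T, (c' : ℝ) / T)) else 0) ≤ WW s T' T t := by
    unfold WW
    have hsub : S ⊆ Icc 1 T' := by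
      intro c hc
      exact Finset.mem_Icc.2 (mem_cS.1 hc).1
    refine le_trans (Finset.sum_le_sum fun c hc => ?_) (Finset.sum_le_sum_of_subset hsub)
    rw [← Finset.sum_filter]
    -- c' = c + d
    have h1 : (S.filter fun c' => c < c') ⊆ ((Icc 1 T').filter fun d => c + d ≤ T' ∧ Cut t c ∧ Cut t (c + d)).image fun d => c + d := by
      intro c' hc'
      rw [Finset.mem_filter] at hc'
      have h2 := mem_cS.1 hc'.1
      have h3 := mem_cS.1 hc
      rw [Finset.mem_image]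
      refine ⟨c' - c, Finset.mem_filter.2 ⟨Finset.mem_Icc.2 ⟨by omega, by omega⟩, ?_⟩, by omega⟩
      rw [show c + (c' - c) = c' by omega]
      exact ⟨h2.1.2, h3.2, h2.2⟩
    refine (Finset.sum_le_sum_of_subset h1).trans ?_
    rw [Finset.sum_image (fun x _ y _ h => by simpa using h), Finset.sum_filter]
    refine Finset.sum_le_sum fun d hd => ?_
    split_ifs with h4
    · exact ENNReal.ofReal_le_ofReal (hker c d (Finset.mem_Icc.1 hd).1)
    · exact le_rfl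
  have hgt : ∑ c ∈ S, ∑ c' ∈ S, (if c' < c then ENNReal.ofReal (ker s ε ((c : ℝ) / T, (c' : ℝ) / T)) else 0) ≤ WW s T' T t := by
    rw [Finset.sum_comm]
    refine le_trans (le_of_eq ?_) hlt
    refine Finset.sum_congr rfl fun c' _ => Finset.sum_congr rfl fun c _ => ?_
    rw [hsymm]
  have hdiag : ∑ c ∈ S, ∑ c' ∈ S, (if c' = c then ENNReal.ofReal (ker s ε ((c : ℝ) / T, (c' : ℝ) / T)) else 0) ≤
      S.card * ENNReal.ofReal (ε ^ (-s)) := by
    rw [← nsmul_eq_mul, ← Finset.sum_const]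
    refine Finset.sum_le_sum fun c hc => ?_
    rw [Finset.sum_ite_eq' S c, if_pos hc]
    exact ENNReal.ofReal_le_ofReal (ker_le hs hε _)
  have hsplit : ∑ c ∈ S, ∑ c' ∈ S, ENNReal.ofReal (ker s ε ((c : ℝ) / T, (c' : ℝ) / T)) =
      ∑ c ∈ S, ∑ c' ∈ S, (if c' = c then ENNReal.ofReal (ker s ε ((c : ℝ) / T, (c' : ℝ) / T)) else 0) +
      (∑ c ∈ S, ∑ c' ∈ S, (if c < c' then ENNReal.ofReal (ker s ε ((c : ℝ) / T, (c' : ℝ) / T)) else 0) +
      ∑ c ∈ S, ∑ c' ∈ S, (if c' < c then ENNReal.ofReal (ker s ε ((c : ℝ) / T, (c' : ℝ) / T)) else 0)) := by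
    rw [← Finset.sum_add_distrib, ← Finset.sum_add_distrib]
    refine Finset.sum_congr rfl fun c _ => ?_
    rw [← Finset.sum_add_distrib, ← Finset.sum_add_distrib]
    refine Finset.sum_congr rfl fun c' _ => ?_
    rcases lt_trichotomy c c' with h | h | h
    · rw [if_neg (by omega), if_pos h, if_neg (by omega), zero_add, add_zero]
    · rw [if_pos h.symm, if_neg (by omega), if_neg (by omega), add_zero, add_zero]
    · rw [if_neg (by omega), if_neg (by omega), if_pos h, zero_add, zero_add]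
  rw [hsplit, two_mul]
  gcongr

/-- good words: the set of the cut levels carries a measure of bounded energy -/
theorem good_word {s ε r : ℝ} (hs : 0 ≤ s) (hε : 0 < ε) (_hr : 0 ≤ r) {T T' k : ℕ} (hT : 1 ≤ T) (hT' : (T' : ℝ) ≤ r * T) (hTT : T' ≤ T)
    (hk : 1 ≤ k) {t : List Bool} (h1 : k ≤ cN (T' + 1) t) {A M : ℝ≥0∞} (h2 : WW s T' T t ≤ A)
    (hM : ((k : ℝ≥0∞))⁻¹ * ENNReal.ofReal (ε ^ (-s)) + 2 * A * (((k : ℝ≥0∞))⁻¹ * ((k : ℝ≥0∞))⁻¹) ≤ M) :
    cutset T t ∈ En s ε M r := by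
  have hT0 : (0 : ℝ) < T := by exact_mod_cast hT
  have hcard : k ≤ (cS T' t).card := by
    rw [card_cS]
    exact h1
  have hne : (cS T' t).Nonempty := Finset.card_pos.1 (by omega)
  have hN0 : ((cS T' t).card : ℝ≥0∞) ≠ 0 := by exact_mod_cast hne.card_pos.ne'
  have hkN : (((cS T' t).card : ℝ≥0∞))⁻¹ ≤ ((k : ℝ≥0∞))⁻¹ := ENNReal.inv_le_inv.2 (by exact_mod_cast hcard)
  refine ⟨⟨cm T (cS T' t), cm_prob hne⟩, ?_, ?_⟩
  · show cm T (cS T' t) ((cutset T t : Set ℝ) ∩ Set.Icc 0 r)ᶜ = 0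
    have hm : MeasurableSet ((cutset T t : Set ℝ) ∩ Set.Icc 0 r)ᶜ :=
      (((cutset T t).isCompact.isClosed).inter isClosed_Icc).measurableSet.compl
    unfold cm
    rw [Measure.smul_apply, Measure.finsetSum_apply, smul_eq_mul, mul_eq_zero]
    right
    refine Finset.sum_eq_zero fun c hc => ?_
    rw [Measure.dirac_apply' _ hm, Set.indicator_of_notMem]
    intro h3
    apply h3
    have h4 := mem_cS.1 hc
    refine ⟨mem_cutset.2 ⟨c, by omega, Or.inr h4.2, rfl⟩, by positivity, ?_⟩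
    rw [div_le_iff₀ hT0]
    have h5 : (c : ℝ) ≤ T' := by exact_mod_cast h4.1.2
    linarith
  · show en s ε (cm T (cS T' t)) ≤ M
    rw [cm_en hε T _ hne]
    refine le_trans ?_ hM
    calc (((cS T' t).card : ℝ≥0∞))⁻¹ * ((((cS T' t).card : ℝ≥0∞))⁻¹ *
          ∑ c ∈ cS T' t, ∑ c' ∈ cS T' t, ENNReal.ofReal (ker s ε ((c : ℝ) / T, (c' : ℝ) / T)))
        ≤ (((cS T' t).card : ℝ≥0∞))⁻¹ * ((((cS T' t).card : ℝ≥0∞))⁻¹ *
          ((cS T' t).card * ENNReal.ofReal (ε ^ (-s)) + 2 * A)) := by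
          gcongr
          exact (ker_sum hs hε hT t).trans (by gcongr)
      _ = (((cS T' t).card : ℝ≥0∞))⁻¹ * ENNReal.ofReal (ε ^ (-s)) +
          2 * A * ((((cS T' t).card : ℝ≥0∞))⁻¹ * (((cS T' t).card : ℝ≥0∞))⁻¹) := by
          rw [mul_add, mul_add, ← mul_assoc (((cS T' t).card : ℝ≥0∞))⁻¹ ((cS T' t).card : ℝ≥0∞),
            ENNReal.inv_mul_cancel hN0 (ENNReal.natCast_ne_top _), one_mul]
          ring
      _ ≤ _ := by gcongr

end CutLim
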