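import Pool.Agent.CutLim.Dim4
import Pool.Agent.CutLim.H

/-! CUT, J2: the lower bound of the Hausdorff dimension of the limit set of the cut levels (half plane). -/

set_option autoImplicit false

namespace CutLim

open Filter Topology Finset MeasureTheory TopologicalSpace HexObs

open scoped ENNReal NNReal

section

variable {b : ℝ}

private lemma hu3 (hu : Tendsto (fun n : ℕ => (n : ℝ) ^ (1 / 4 : ℝ) * uu n) atTop (𝓝 b)) :
    Tendsto (fun n : ℕ => (n : ℝ) ^ (1 - 3 / 4 : ℝ) * uu n) atTop (𝓝 b) := by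
  have he : (1 : ℝ) - 3 / 4 = 1 / 4 := by norm_num
  rw [he]
  exact hu

/-- the laws of the cut levels charge the sets En uniformly -/
theorem en_eventually (hb : 0 < b) (hu : Tendsto (fun n : ℕ => (n : ℝ) ^ (1 / 4 : ℝ) * uu n) atTop (𝓝 b)) {s : ℝ}
    (hs : 0 ≤ s) (hs1 : s < 3 / 4) {r : ℝ} (hr : 0 < r) (hr1 : r ≤ 1) {η : ℝ} (hη : 0 < η) :
    ∃ M : ℝ≥0∞, M ≠ ∞ ∧ ∀ ε : ℝ, 0 < ε → ∀ᶠ T in atTop, (PS T : Measure NC) (En s ε M r)ᶜ ≤ ENNReal.ofReal η := by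
  obtain ⟨C, hC, hfew⟩ := few_pow ren_uu (by norm_num : (0 : ℝ) < 3 / 4) (by norm_num) hb (hu3 hu)
  obtain ⟨C2, hC2, hpair⟩ := pair_sum ren_uu (by norm_num : (0 : ℝ) < 3 / 4) (hu3 hu) hs1
  have h2r : 0 < (2 / r) ^ (3 / 4 : ℝ) := Real.rpow_pos_of_pos (by positivity) _
  set δ : ℝ := η / (4 * C * (2 / r) ^ (3 / 4 : ℝ)) with hδ
  have hδ0 : 0 < δ := by positivity
  set A0 : ℝ := 2 * C2 / η with hA0
  have hA00 : 0 < A0 := by positivity
  refine ⟨ENNReal.ofReal (1 + 2 * A0 / δ ^ 2), ENNReal.ofReal_ne_top, fun ε hε => ?_⟩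
  have hlim : Tendsto (fun T : ℕ => (T : ℝ) ^ (3 / 4 : ℝ)) atTop atTop :=
    (tendsto_rpow_atTop (by norm_num)).comp tendsto_natCast_atTop_atTop
  filter_upwards [eventually_ge_atTop 1, eventually_ge_atTop ⌈2 / r⌉₊, hlim.eventually_ge_atTop (1 / δ),
    hlim.eventually_ge_atTop (ε ^ (-s) / δ)] with T hT1 hTr hTδ hTε
  have hT0 : (0 : ℝ) < T := by exact_mod_cast hT1
  have hTr' : 2 / r ≤ T := (Nat.le_ceil _).trans (by exact_mod_cast hTr)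
  have hrT : 2 ≤ r * T := by
    rw [div_le_iff₀ hr] at hTr'
    linarith
  set T' : ℕ := ⌊r * T⌋₊ with hT'
  have hT'1 : (T' : ℝ) ≤ r * T := Nat.floor_le (by positivity)
  have hT'2 : r * T - 1 < T' := by
    have := Nat.lt_floor_add_one (r * T)
    rw [← hT'] at this
    linarith
  have hT'3 : r * T / 2 ≤ T' := by linarith
  have hT'4 : 1 ≤ T' := by
    have h1 : (1 : ℝ) ≤ T' := by linarith
    exact_mod_cast h1
  have hTT : T' ≤ T := by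
    have h1 : (T' : ℝ) ≤ T := hT'1.trans (by nlinarith)
    exact_mod_cast h1
  set P : ℝ := (T : ℝ) ^ (3 / 4 : ℝ) with hP
  have hP0 : 0 < P := Real.rpow_pos_of_pos hT0 _
  have hP2 : (T : ℝ) ^ (2 * (3 / 4) : ℝ) = P ^ 2 := by
    rw [hP, ← Real.rpow_natCast, ← Real.rpow_mul hT0.le]
    congr 1
    norm_num
  have hδP : 1 ≤ δ * P := by
    rw [div_le_iff₀ hδ0] at hTδ
    linarith
  set k : ℕ := ⌈δ * P⌉₊ with hk
  have hk1 : δ * P ≤ k := Nat.le_ceil _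
  have hk2 : (k : ℝ) ≤ 2 * (δ * P) := by
    have := Nat.ceil_lt_add_one (show 0 ≤ δ * P by positivity)
    rw [← hk] at this
    linarith
  have hk3 : 1 ≤ k := by
    have h1 : (1 : ℝ) ≤ k := hδP.trans hk1
    exact_mod_cast h1
  have hk0 : (0 : ℝ) < k := by linarith
  set A : ℝ≥0∞ := ENNReal.ofReal (A0 * P ^ 2) with hA
  -- the two bad events
  have hb1 : gf {t | t ∈ FCW T ∧ cN (T' + 1) t < k} ≤ ENNReal.ofReal (η / 2) := by
    refine (few_words hT'4 hTT k).trans (ENNReal.ofReal_le_ofReal ((hfew T' k hT'4).trans ?_))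
    have h1 : (r * T / 2) ^ (3 / 4 : ℝ) ≤ (T' : ℝ) ^ (3 / 4 : ℝ) := Real.rpow_le_rpow (by positivity) hT'3 (by norm_num)
    have h2 : (r * T / 2) ^ (3 / 4 : ℝ) = P / (2 / r) ^ (3 / 4 : ℝ) := by
      rw [hP, ← Real.div_rpow hT0.le (by positivity)]
      congr 1
      field_simp
    have h3 : 0 < (r * T / 2) ^ (3 / 4 : ℝ) := Real.rpow_pos_of_pos (by positivity) _
    calc C * k / (T' : ℝ) ^ (3 / 4 : ℝ) ≤ C * (2 * (δ * P)) / (r * T / 2) ^ (3 / 4 : ℝ) := by gcongr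
      _ = η / 2 := by
          rw [h2, hδ]
          field_simp
          ring
  have hb2 : gf {t | t ∈ FCW T ∧ A ≤ WW s T' T t} ≤ ENNReal.ofReal (η / 2) := by
    have h1 := WW_markov (s := s) hTT A
    have h2 : ∑ c ∈ Icc 1 T', ∑ d ∈ Icc 1 T', uu c * uu d * ((d : ℝ) / T) ^ (-s) ≤ C2 * P ^ 2 := by
      rw [← hP2]
      refine le_trans ?_ (hpair T hT1)
      have hnn : ∀ c d : ℕ, 0 ≤ uu c * uu d * ((d : ℝ) / T) ^ (-s) := fun c d =>
        mul_nonneg (mul_nonneg (uu_pos c).le (uu_pos d).le) (Real.rpow_nonneg (by positivity) _)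
      have hsub : Icc 1 T' ⊆ Icc 1 T := Icc_subset_Icc_right hTT
      calc ∑ c ∈ Icc 1 T', ∑ d ∈ Icc 1 T', uu c * uu d * ((d : ℝ) / T) ^ (-s)
          ≤ ∑ c ∈ Icc 1 T', ∑ d ∈ Icc 1 T, uu c * uu d * ((d : ℝ) / T) ^ (-s) :=
            Finset.sum_le_sum fun c _ => Finset.sum_le_sum_of_subset_of_nonneg hsub fun d _ _ => hnn c d
        _ ≤ ∑ c ∈ Icc 1 T, ∑ d ∈ Icc 1 T, uu c * uu d * ((d : ℝ) / T) ^ (-s) :=
            Finset.sum_le_sum_of_subset_of_nonneg hsub fun c _ _ => Finset.sum_nonneg fun d _ => hnn c d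
    have h3 : A * gf {t | t ∈ FCW T ∧ A ≤ WW s T' T t} ≤ ENNReal.ofReal (C2 * P ^ 2) :=
      h1.trans (ENNReal.ofReal_le_ofReal h2)
    have hAp : 0 < A0 * P ^ 2 := by positivity
    have h4 : ENNReal.ofReal (C2 * P ^ 2) = A * ENNReal.ofReal (η / 2) := by
      rw [hA, ← ENNReal.ofReal_mul hAp.le]
      congr 1
      rw [hA0]
      field_simp
    rw [h4] at h3
    exact (ENNReal.mul_le_mul_iff_right (ENNReal.ofReal_pos.2 hAp).ne' ENNReal.ofReal_ne_top).1 h3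
  have hcm : (PS T : Measure NC) (En s ε (ENNReal.ofReal (1 + 2 * A0 / δ ^ 2)) r)ᶜ =
      gf {t | t ∈ FCW T ∧ cutset T t ∈ (En s ε (ENNReal.ofReal (1 + 2 * A0 / δ ^ 2)) r)ᶜ} :=
    lawS_apply T (isClosed_En hs hε _ _).measurableSet.compl
  rw [hcm]
  have hM : ((k : ℝ≥0∞))⁻¹ * ENNReal.ofReal (ε ^ (-s)) + 2 * A * (((k : ℝ≥0∞))⁻¹ * ((k : ℝ≥0∞))⁻¹) ≤
      ENNReal.ofReal (1 + 2 * A0 / δ ^ 2) := by
    have hki : ((k : ℝ≥0∞))⁻¹ = ENNReal.ofReal ((k : ℝ)⁻¹) := by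
      rw [ENNReal.ofReal_inv_of_pos hk0, ENNReal.ofReal_natCast]
    have h2A : 2 * A = ENNReal.ofReal (2 * (A0 * P ^ 2)) := by
      rw [hA, ENNReal.ofReal_mul (by norm_num : (0 : ℝ) ≤ 2), ENNReal.ofReal_ofNat]
    have hεs : 0 < ε ^ (-s) := Real.rpow_pos_of_pos hε _
    rw [hki, h2A, ← ENNReal.ofReal_mul (by positivity), ← ENNReal.ofReal_mul (by positivity),
      ← ENNReal.ofReal_mul (by positivity), ← ENNReal.ofReal_add (by positivity) (by positivity)]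
    refine ENNReal.ofReal_le_ofReal (add_le_add ?_ ?_)
    · rw [inv_mul_le_iff₀ hk0, mul_one]
      rw [div_le_iff₀ hδ0] at hTε
      linarith
    · have hδP0 : 0 < δ * P := by positivity
      have h5 : (k : ℝ)⁻¹ * (k : ℝ)⁻¹ ≤ (δ * P)⁻¹ * (δ * P)⁻¹ := by gcongr
      calc 2 * (A0 * P ^ 2) * ((k : ℝ)⁻¹ * (k : ℝ)⁻¹) ≤ 2 * (A0 * P ^ 2) * ((δ * P)⁻¹ * (δ * P)⁻¹) := by gcongr
        _ = 2 * A0 / δ ^ 2 := by
            field_simp
  calc gf {t | t ∈ FCW T ∧ cutset T t ∈ (En s ε (ENNReal.ofReal (1 + 2 * A0 / δ ^ 2)) r)ᶜ}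
      ≤ gf ({t | t ∈ FCW T ∧ cN (T' + 1) t < k} ∪ {t | t ∈ FCW T ∧ A ≤ WW s T' T t}) := by
        refine gf_mono ?_
        rintro t ⟨ht, h1⟩
        by_contra hcon
        rw [Set.mem_union, not_or] at hcon
        have h2 : k ≤ cN (T' + 1) t := not_lt.1 fun h => hcon.1 ⟨ht, h⟩
        have h3 : WW s T' T t ≤ A := (lt_of_not_ge fun h => hcon.2 ⟨ht, h⟩).le
        exact h1 (good_word hs hε hr.le hT1 hT'1 hTT hk3 h2 h3 hM)
    _ ≤ gf {t | t ∈ FCW T ∧ cN (T' + 1) t < k} + gf {t | t ∈ FCW T ∧ A ≤ WW s T' T t} := gf_union_le _ _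
    _ ≤ ENNReal.ofReal (η / 2) + ENNReal.ofReal (η / 2) := add_le_add hb1 hb2
    _ = ENNReal.ofReal η := by
        rw [← ENNReal.ofReal_add (by positivity) (by positivity), add_halves]

/-- a sequence of exponents below 3/4 -/
noncomputable def sq (n : ℕ) : ℝ≥0 := 3 / 4 * ((n + 1 : ℕ) / (n + 2 : ℕ))

lemma sq_pos (n : ℕ) : 0 < sq n := by
  unfold sq
  positivity

lemma sq_coe (n : ℕ) : (sq n : ℝ) = 3 / 4 * (((n : ℝ) + 1) / ((n : ℝ) + 2)) := by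
  unfold sq
  push_cast
  rfl

lemma sq_lt (n : ℕ) : (sq n : ℝ) < 3 / 4 := by
  rw [sq_coe]
  have h : ((n : ℝ) + 1) / ((n : ℝ) + 2) < 1 := by
    rw [div_lt_one (by positivity)]
    linarith
  linarith

lemma sq_tendsto : Tendsto (fun n => ((sq n : ℝ≥0) : ℝ≥0∞)) atTop (𝓝 (((3 / 4 : ℝ≥0)) : ℝ≥0∞)) := by
  rw [ENNReal.tendsto_coe, ← NNReal.tendsto_coe]
  have h1 : Tendsto (fun n : ℕ => 3 / 4 * (1 - 1 / ((n : ℝ) + 2))) atTop (𝓝 (3 / 4 * (1 - 0))) := by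
    refine tendsto_const_nhds.mul (tendsto_const_nhds.sub ?_)
    refine (tendsto_const_nhds (x := (1 : ℝ))).div_atTop ?_
    exact tendsto_atTop_add_const_right _ _ tendsto_natCast_atTop_atTop
  have h2 : ((3 / 4 : ℝ≥0) : ℝ) = 3 / 4 * (1 - 0) := by
    push_cast
    ring
  rw [h2]
  refine h1.congr fun n => ?_
  rw [sq_coe]
  field_simp
  ring

/-- J2, HALF PLANE: every initial piece of the limit set of the cut levels has dimension at least 3/4 -/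
theorem dim_half_ge (hb : 0 < b) (hu : Tendsto (fun n : ℕ => (n : ℝ) ^ (1 / 4 : ℝ) * uu n) atTop (𝓝 b))
    {κ : ProbabilityMeasure NC} (hκ : Tendsto PS atTop (𝓝 κ)) :
    ∀ᵐ K : NC ∂(κ : Measure NC), ∀ r : ℝ, 0 < r → (((3 / 4 : ℝ≥0)) : ℝ≥0∞) ≤ dimH ((K : Set ℝ) ∩ Set.Icc 0 r) := by
  have h1 : ∀ n m : ℕ, ∀ᵐ K : NC ∂(κ : Measure NC), ((sq n : ℝ≥0) : ℝ≥0∞) ≤ dimH ((K : Set ℝ) ∩ Set.Icc 0 (sc m)) := by
    intro n m
    refine dim_ae hκ (sq_pos n) fun η hη => ?_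
    have hsc1 : sc m ≤ 1 := by
      unfold sc
      rw [div_le_one (by positivity)]
      have : (0 : ℝ) ≤ m := Nat.cast_nonneg m
      linarith
    by_cases hη1 : η = ∞
    · exact ⟨0, ENNReal.zero_ne_top, fun _ => Eventually.of_forall fun T => by rw [hη1]; exact le_top⟩
    · have hη2 : 0 < η.toReal := ENNReal.toReal_pos hη.ne' hη1
      obtain ⟨M, hM, h⟩ := en_eventually hb hu (sq n).2 (sq_lt n) (sc_pos m) hsc1 hη2
      refine ⟨M, hM, fun i => ?_⟩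
      filter_upwards [h (sc i) (sc_pos i)] with T hT
      rwa [ENNReal.ofReal_toReal hη1] at hT
  have h2 : ∀ᵐ K : NC ∂(κ : Measure NC), ∀ n m : ℕ, ((sq n : ℝ≥0) : ℝ≥0∞) ≤ dimH ((K : Set ℝ) ∩ Set.Icc 0 (sc m)) := by
    rw [ae_all_iff]
    intro n
    rw [ae_all_iff]
    exact h1 n
  filter_upwards [h2] with K hK r hr
  obtain ⟨m, hm⟩ := exists_nat_one_div_lt hr
  have h3 : dimH ((K : Set ℝ) ∩ Set.Icc 0 (sc m)) ≤ dimH ((K : Set ℝ) ∩ Set.Icc 0 r) :=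
    dimH_mono (Set.inter_subset_inter_right _ (Set.Icc_subset_Icc_right hm.le))
  exact le_of_tendsto' sq_tendsto fun n => (hK n m).trans h3

end

end CutLim
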