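import Pool.Agent.CutLim.Dim5

/-! CUT, J2: the upper bound of the Hausdorff dimension, by the first moment of the coverings. -/

set_option autoImplicit false

namespace CutLim

open Filter Topology Finset MeasureTheory TopologicalSpace HexObs

open scoped ENNReal NNReal

/-- the cells of [0, r] -/
def cell (r : ℝ) (m l : ℕ) : Set ℝ := Set.Icc (r * l / m) (r * (l + 1) / m)

lemma cell_cover {r : ℝ} (hr : 0 < r) {m : ℕ} (hm : 1 ≤ m) {x : ℝ} (hx : x ∈ Set.Icc 0 r) :
    ∃ l : ℕ, l < m ∧ x ∈ cell r m l := by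
  have hm0 : (0 : ℝ) < m := by exact_mod_cast hm
  by_cases hxr : x = r
  · refine ⟨m - 1, by omega, ?_⟩
    have h1 : ((m - 1 : ℕ) : ℝ) = m - 1 := by
      rw [Nat.cast_sub hm, Nat.cast_one]
    unfold cell
    rw [h1, hxr]
    refine ⟨?_, ?_⟩
    · rw [div_le_iff₀ hm0]
      nlinarith
    · rw [le_div_iff₀ hm0]
      nlinarith
  · have hxr' : x < r := lt_of_le_of_ne hx.2 hxr
    have h0 : 0 ≤ x * m / r := by
      have := hx.1
      positivity
    refine ⟨⌊x * m / r⌋₊, ?_, ?_, ?_⟩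
    · rw [Nat.floor_lt h0, div_lt_iff₀ hr]
      nlinarith
    · rw [div_le_iff₀ hm0]
      have h1 := Nat.floor_le h0
      rw [le_div_iff₀ hr] at h1
      linarith
    · rw [le_div_iff₀ hm0]
      have h1 := (Nat.lt_floor_add_one (x * m / r)).le
      rw [div_le_iff₀ hr] at h1
      linarith

lemma ediam_cell {r : ℝ} {m l : ℕ} : Metric.ediam (cell r m l) = ENNReal.ofReal (r / m) := by
  unfold cell
  rw [Real.ediam_Icc]
  congr 1
  ring

lemma cell_hit {κ : ProbabilityMeasure NC} {a C r r' : ℝ} (ha1 : a < 1) (hC : 0 < C) (hr : 0 < r)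
    (hit : ∀ x y : ℝ, 0 < x → x < y → y < r' →
      (κ : Measure NC) (AvS (Set.Ioo x y))ᶜ ≤ ENNReal.ofReal (C * ((y - x) / x) ^ (1 - a)))
    {m l : ℕ} (hm : r * (m + 1) / m < r') (hl : l < m) :
    (κ : Measure NC) (AvS (cell r m l))ᶜ ≤ ENNReal.ofReal (max C 1 * 9 ^ (1 - a) * ((l + 1 : ℕ) : ℝ) ^ (a - 1)) := by
  have hm0 : (0 : ℝ) < m := by
    have : 0 < m := by omega
    exact_mod_cast this
  have hl1 : (0 : ℝ) < ((l + 1 : ℕ) : ℝ) := by positivity
  have e1 : max C 1 * 9 ^ (1 - a) * ((l + 1 : ℕ) : ℝ) ^ (a - 1) = max C 1 * (9 / ((l + 1 : ℕ) : ℝ)) ^ (1 - a) := by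
    rw [Real.div_rpow (by norm_num) hl1.le, mul_assoc, div_eq_mul_inv, ← Real.rpow_neg hl1.le]
    congr 3
    ring
  rw [e1]
  by_cases h2 : l < 2
  · refine le_trans prob_le_one ?_
    rw [← ENNReal.ofReal_one]
    refine ENNReal.ofReal_le_ofReal ?_
    have h3 : ((l + 1 : ℕ) : ℝ) ≤ 9 := by
      have : l + 1 ≤ 9 := by omega
      exact_mod_cast this
    have h4 : 1 ≤ (9 / ((l + 1 : ℕ) : ℝ)) ^ (1 - a) := by
      refine Real.one_le_rpow ?_ (by linarith)
      rw [le_div_iff₀ hl1]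
      linarith
    calc (1 : ℝ) = 1 * 1 := (mul_one _).symm
      _ ≤ max C 1 * (9 / ((l + 1 : ℕ) : ℝ)) ^ (1 - a) := mul_le_mul (le_max_right _ _) h4 zero_le_one (by positivity)
  · push Not at h2
    have hl2 : (2 : ℝ) ≤ l := by exact_mod_cast h2
    have hlm : (l : ℝ) + 1 ≤ m := by
      have : l + 1 ≤ m := hl
      exact_mod_cast this
    have hx : 0 < r * (l - 1) / m := by
      have : (0 : ℝ) < l - 1 := by linarith
      positivity
    have hsub : cell r m l ⊆ Set.Ioo (r * (l - 1) / m) (r * (l + 2) / m) := by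
      rintro z ⟨h5, h6⟩
      constructor
      · refine lt_of_lt_of_le ?_ h5
        gcongr
        linarith
      · refine lt_of_le_of_lt h6 ?_
        gcongr
        norm_num
    have h7 := hit (r * (l - 1) / m) (r * (l + 2) / m) hx
      (div_lt_div_of_pos_right (mul_lt_mul_of_pos_left (by linarith) hr) hm0)
      (lt_of_le_of_lt (div_le_div_of_nonneg_right (mul_le_mul_of_nonneg_left (by linarith) hr.le) hm0.le) hm)
    refine (measure_mono (Set.compl_subset_compl.2 (AvS_anti hsub))).trans (h7.trans (ENNReal.ofReal_le_ofReal ?_))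
    refine mul_le_mul (le_max_left _ _) ?_ (Real.rpow_nonneg (by
      have : (0 : ℝ) ≤ r * (l + 2) / m - r * (l - 1) / m := by
        rw [← sub_div, ← mul_sub]
        have : (0 : ℝ) ≤ (l : ℝ) + 2 - (l - 1) := by linarith
        positivity
      positivity) _) (by positivity)
    refine Real.rpow_le_rpow ?_ ?_ (by linarith)
    · have : (0 : ℝ) ≤ r * (l + 2) / m - r * (l - 1) / m := by
        rw [← sub_div, ← mul_sub]
        have : (0 : ℝ) ≤ (l : ℝ) + 2 - (l - 1) := by linarith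
        positivity
      positivity
    · have e2 : (r * ((l : ℝ) + 2) / m - r * (l - 1) / m) / (r * (l - 1) / m) = 3 / (l - 1) := by
        have : (l : ℝ) - 1 ≠ 0 := by linarith
        field_simp
        ring
      rw [e2, div_le_div_iff₀ (by linarith) hl1]
      push_cast
      linarith

/-- the first moment of the coverings gives the upper bound of the dimension -/
theorem dim_le_of_hit {κ : ProbabilityMeasure NC} {a : ℝ≥0} (ha : 0 < a) (ha1 : a < 1) {C r r' : ℝ} (hC : 0 < C)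
    (hr : 0 < r) (hr' : r < r')
    (hit : ∀ x y : ℝ, 0 < x → x < y → y < r' →
      (κ : Measure NC) (AvS (Set.Ioo x y))ᶜ ≤ ENNReal.ofReal (C * ((y - x) / x) ^ (1 - (a : ℝ)))) :
    ∀ᵐ K : NC ∂(κ : Measure NC), dimH ((K : Set ℝ) ∩ Set.Icc 0 r) ≤ a := by
  have ha' : (0 : ℝ) < a := by exact_mod_cast ha
  have ha1' : (a : ℝ) < 1 := by exact_mod_cast ha1
  obtain ⟨C1, hC1, hsum⟩ := sum_rpow_le ha'
  set B : ℝ := max C 1 * 9 ^ (1 - (a : ℝ)) with hB
  have hB0 : 0 < B := by positivity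
  have key : ∀ s : ℝ≥0, a < s → ∀ᵐ K : NC ∂(κ : Measure NC), dimH ((K : Set ℝ) ∩ Set.Icc 0 r) ≤ s := by
    intro s hs
    have hs' : (a : ℝ) < s := by exact_mod_cast hs
    set F : ℕ → NC → ℝ≥0∞ := fun n K =>
      (∑ l : Fin (n + 1), (AvS (cell r (n + 1) l))ᶜ.indicator (fun _ => (1 : ℝ≥0∞)) K) *
        ENNReal.ofReal (r / ((n + 1 : ℕ) : ℝ)) ^ (s : ℝ) with hF
    have hmeas : ∀ n l : ℕ, MeasurableSet (AvS (cell r (n + 1) l))ᶜ := fun n l =>
      (isOpen_AvS isClosed_Icc).measurableSet.compl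
    have hFm : ∀ n, Measurable (F n) := by
      intro n
      refine Measurable.mul_const (Finset.measurable_sum _ fun l _ => ?_) _
      exact measurable_const.indicator (hmeas n l)
    have hint : ∀ᶠ n in atTop, ∫⁻ K, F n K ∂(κ : Measure NC) ≤
        ENNReal.ofReal (B * C1 * r ^ (s : ℝ) * ((n + 1 : ℕ) : ℝ) ^ ((a : ℝ) - s)) := by
      have h1 : Tendsto (fun n : ℕ => r * (((n + 1 : ℕ) : ℝ) + 1) / ((n + 1 : ℕ) : ℝ)) atTop (𝓝 (r * 1)) := by
        have h2 : Tendsto (fun n : ℕ => r * (1 + 1 / ((n : ℝ) + 1))) atTop (𝓝 (r * (1 + 0))) :=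
          tendsto_const_nhds.mul (tendsto_const_nhds.add tendsto_one_div_add_atTop_nhds_zero_nat)
        rw [add_zero] at h2
        refine h2.congr fun n => ?_
        push_cast
        field_simp
      rw [mul_one] at h1
      filter_upwards [h1.eventually_lt_const hr'] with n hn
      have hm0 : (0 : ℝ) < ((n + 1 : ℕ) : ℝ) := by positivity
      have hmi : ∀ l : Fin (n + 1), Measurable fun K : NC => (AvS (cell r (n + 1) l))ᶜ.indicator (fun _ => (1 : ℝ≥0∞)) K :=
        fun l => measurable_const.indicator (hmeas n l)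
      have hmS : Measurable fun K : NC => ∑ l : Fin (n + 1), (AvS (cell r (n + 1) l))ᶜ.indicator (fun _ => (1 : ℝ≥0∞)) K :=
        Finset.measurable_sum _ fun l _ => hmi l
      simp only [hF]
      rw [lintegral_mul_const _ hmS, lintegral_finsetSum _ (fun l _ => hmi l)]
      have h3 : ∑ l : Fin (n + 1), ∫⁻ K, (AvS (cell r (n + 1) l))ᶜ.indicator (fun _ => (1 : ℝ≥0∞)) K ∂(κ : Measure NC) ≤
          ENNReal.ofReal (B * (C1 * ((n + 1 : ℕ) : ℝ) ^ (a : ℝ))) := by
        calc ∑ l : Fin (n + 1), ∫⁻ K, (AvS (cell r (n + 1) l))ᶜ.indicator (fun _ => (1 : ℝ≥0∞)) K ∂(κ : Measure NC)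
            ≤ ∑ l : Fin (n + 1), ENNReal.ofReal (B * (((l : ℕ) + 1 : ℕ) : ℝ) ^ ((a : ℝ) - 1)) := by
              refine Finset.sum_le_sum fun l _ => ?_
              rw [lintegral_indicator (hmeas n l), setLIntegral_one]
              exact cell_hit ha1' hC hr hit hn l.2
          _ = ∑ l ∈ range (n + 1), ENNReal.ofReal (B * ((l + 1 : ℕ) : ℝ) ^ ((a : ℝ) - 1)) :=
              Fin.sum_univ_eq_sum_range (fun l => ENNReal.ofReal (B * ((l + 1 : ℕ) : ℝ) ^ ((a : ℝ) - 1))) (n + 1)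
          _ = ENNReal.ofReal (∑ l ∈ range (n + 1), B * ((l + 1 : ℕ) : ℝ) ^ ((a : ℝ) - 1)) :=
              (ENNReal.ofReal_sum_of_nonneg fun l _ => by positivity).symm
          _ ≤ ENNReal.ofReal (B * (C1 * ((n + 1 : ℕ) : ℝ) ^ (a : ℝ))) := by
              refine ENNReal.ofReal_le_ofReal ?_
              rw [← Finset.mul_sum]
              refine mul_le_mul_of_nonneg_left (le_trans (le_of_eq ?_) (hsum (n + 1) (by omega))) hB0.le
              refine Finset.sum_bij' (fun l _ => l + 1) (fun d _ => d - 1) ?_ ?_ ?_ ?_ ?_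
              · intro l hl
                have := Finset.mem_range.1 hl
                exact Finset.mem_Icc.2 ⟨by omega, by omega⟩
              · intro d hd
                have := Finset.mem_Icc.1 hd
                exact Finset.mem_range.2 (by omega)
              · intro l _
                show l + 1 - 1 = l
                omega
              · intro d hd
                have := Finset.mem_Icc.1 hd
                show d - 1 + 1 = d
                omega
              · intro l _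
                rfl
      calc _ ≤ ENNReal.ofReal (B * (C1 * ((n + 1 : ℕ) : ℝ) ^ (a : ℝ))) * ENNReal.ofReal (r / ((n + 1 : ℕ) : ℝ)) ^ (s : ℝ) := by
            gcongr
        _ = ENNReal.ofReal (B * C1 * r ^ (s : ℝ) * ((n + 1 : ℕ) : ℝ) ^ ((a : ℝ) - s)) := by
            rw [ENNReal.ofReal_rpow_of_pos (by positivity), ← ENNReal.ofReal_mul (by positivity)]
            congr 1
            rw [Real.div_rpow hr.le hm0.le, Real.rpow_sub hm0]
            ring
    have hlim : Tendsto (fun n : ℕ => ENNReal.ofReal (B * C1 * r ^ (s : ℝ) * ((n + 1 : ℕ) : ℝ) ^ ((a : ℝ) - s))) atTop (𝓝 0) := by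
      have h1 : Tendsto (fun n : ℕ => B * C1 * r ^ (s : ℝ) * ((n + 1 : ℕ) : ℝ) ^ ((a : ℝ) - s)) atTop
          (𝓝 (B * C1 * r ^ (s : ℝ) * 0)) := by
        refine tendsto_const_nhds.mul ?_
        have h2 := (tendsto_rpow_neg_atTop (show 0 < (s : ℝ) - a by linarith)).comp
          (tendsto_natCast_atTop_atTop.comp (tendsto_add_atTop_nat 1))
        refine h2.congr fun n => ?_
        show ((n + 1 : ℕ) : ℝ) ^ (-((s : ℝ) - a)) = _
        congr 1
        ring
      rw [mul_zero] at h1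
      have := ENNReal.tendsto_ofReal h1
      rwa [ENNReal.ofReal_zero] at this
    have hzero : ∫⁻ K, liminf (fun n => F n K) atTop ∂(κ : Measure NC) = 0 := by
      refine le_antisymm ((lintegral_liminf_le hFm).trans ?_) zero_le
      calc liminf (fun n => ∫⁻ K, F n K ∂(κ : Measure NC)) atTop
          ≤ liminf (fun n : ℕ => ENNReal.ofReal (B * C1 * r ^ (s : ℝ) * ((n + 1 : ℕ) : ℝ) ^ ((a : ℝ) - s))) atTop :=
            liminf_le_liminf hint
        _ = 0 := hlim.liminf_eq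
    have hae := (lintegral_eq_zero_iff (Measurable.liminf hFm)).1 hzero
    filter_upwards [hae] with K hK
    have hK' : liminf (fun n => F n K) atTop = 0 := hK
    refine dimH_le_of_hausdorffMeasure_ne_top ?_
    have h5 : Measure.hausdorffMeasure (s : ℝ) ((K : Set ℝ) ∩ Set.Icc 0 r) ≤ 0 := by
      rw [← hK']
      classical
      refine (Measure.hausdorffMeasure_le_liminf_sum (ι := fun n : ℕ => Fin (n + 1)) (s : ℝ) ((K : Set ℝ) ∩ Set.Icc 0 r)
        (l := atTop) (fun n => ENNReal.ofReal (r / ((n + 1 : ℕ) : ℝ))) ?_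
        (fun n l => if K ∈ AvS (cell r (n + 1) l) then ∅ else cell r (n + 1) l) ?_ ?_).trans ?_
      · have h1 : Tendsto (fun n : ℕ => r / ((n + 1 : ℕ) : ℝ)) atTop (𝓝 0) :=
          tendsto_const_nhds.div_atTop (tendsto_natCast_atTop_atTop.comp (tendsto_add_atTop_nat 1))
        have := ENNReal.tendsto_ofReal h1
        rwa [ENNReal.ofReal_zero] at this
      · refine Eventually.of_forall fun n l => ?_
        split_ifs
        · rw [Metric.ediam_empty]
          exact zero_le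
        · exact ediam_cell.le
      · refine Eventually.of_forall fun n => ?_
        rintro x ⟨hxK, hx⟩
        obtain ⟨l, hl, hxl⟩ := cell_cover hr (show 1 ≤ n + 1 by omega) hx
        rw [Set.mem_iUnion]
        refine ⟨⟨l, hl⟩, ?_⟩
        rw [if_neg]
        · exact hxl
        · exact fun h => h x hxK hxl
      · refine liminf_le_liminf (Eventually.of_forall fun n => ?_)
        show _ ≤ (∑ l : Fin (n + 1), (AvS (cell r (n + 1) l))ᶜ.indicator (fun _ => (1 : ℝ≥0∞)) K) *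
          ENNReal.ofReal (r / ((n + 1 : ℕ) : ℝ)) ^ (s : ℝ)
        rw [Finset.sum_mul]
        refine Finset.sum_le_sum fun l _ => ?_
        by_cases h : K ∈ AvS (cell r (n + 1) l)
        · rw [if_pos h, Metric.ediam_empty, ENNReal.zero_rpow_of_pos (by linarith)]
          exact zero_le
        · rw [if_neg h, ediam_cell, Set.indicator_of_mem h, one_mul]
    exact ne_top_of_le_ne_top ENNReal.zero_ne_top h5
  -- let s decrease to a
  have h1 : ∀ᵐ K : NC ∂(κ : Measure NC), ∀ n : ℕ, dimH ((K : Set ℝ) ∩ Set.Icc 0 r) ≤ ((a + 1 / (n + 1) : ℝ≥0) : ℝ≥0∞) := by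
    rw [ae_all_iff]
    intro n
    exact key _ (lt_add_of_pos_right _ (by positivity))
  filter_upwards [h1] with K hK
  have h2 : Tendsto (fun n : ℕ => ((a + 1 / (n + 1) : ℝ≥0) : ℝ≥0∞)) atTop (𝓝 (a : ℝ≥0∞)) := by
    rw [ENNReal.tendsto_coe]
    have h3 : Tendsto (fun n : ℕ => a + 1 / ((n : ℝ≥0) + 1)) atTop (𝓝 (a + 0)) :=
      tendsto_const_nhds.add tendsto_one_div_add_atTop_nhds_zero_nat
    rwa [add_zero] at h3
  exact ge_of_tendsto' h2 hK

section

variable {u q : ℕ → ℝ} {a b : ℝ}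

/-- the probability of a renewal in (m, M] -/
theorem hit_le (h : Ren u q) (ha : 0 < a) (ha1 : a < 1) (hb : 0 < b)
    (hu : Tendsto (fun n : ℕ => (n : ℝ) ^ (1 - a) * u n) atTop (𝓝 b)) :
    ∃ C : ℝ, 0 < C ∧ ∀ m M : ℕ, 1 ≤ m → m < M →
      1 - ∑ i ∈ range (m + 1), u i * KK q (M + 1 - i) ≤ C * (((M - m : ℕ) : ℝ) / m) ^ (1 - a) := by
  obtain ⟨S, hS⟩ := hu.bddAbove_range
  have hub : ∀ n : ℕ, 1 ≤ n → u n ≤ max 1 S * (n : ℝ) ^ (a - 1) := by
    intro n hn
    have hn0 : (0 : ℝ) < n := by exact_mod_cast hn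
    have h1 : (n : ℝ) ^ (1 - a) * u n ≤ S := hS ⟨n, rfl⟩
    have h2 := Real.rpow_pos_of_pos hn0 (1 - a)
    have h3 : (n : ℝ) ^ (a - 1) = ((n : ℝ) ^ (1 - a))⁻¹ := by
      rw [← Real.rpow_neg hn0.le]
      congr 1
      ring
    rw [h3, ← div_eq_mul_inv, le_div_iff₀ h2, mul_comm]
    exact h1.trans (le_max_right _ _)
  obtain ⟨S2, hS2⟩ := (sum_KK_tendsto h ha ha1 hb hu).bddAbove_range
  have hK : ∀ n : ℕ, 1 ≤ n → ∑ i ∈ range n, KK q (i + 1) ≤ max 1 S2 * (n : ℝ) ^ (1 - a) := by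
    intro n hn
    have hn0 : (0 : ℝ) < n := by exact_mod_cast hn
    have h1 : (n : ℝ) ^ (a - 1) * ∑ i ∈ range (n + 1), KK q (i + 1) ≤ S2 := hS2 ⟨n, rfl⟩
    have h2 := Real.rpow_pos_of_pos hn0 (a - 1)
    have h3 : (n : ℝ) ^ (1 - a) = ((n : ℝ) ^ (a - 1))⁻¹ := by
      rw [← Real.rpow_neg hn0.le]
      congr 1
      ring
    rw [h3, ← div_eq_mul_inv, le_div_iff₀ h2, mul_comm]
    refine le_trans ?_ (h1.trans (le_max_right _ _))
    refine mul_le_mul_of_nonneg_left ?_ h2.le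
    exact Finset.sum_le_sum_of_subset_of_nonneg (Finset.range_mono (by omega)) fun i _ _ => KK_nonneg h _
  refine ⟨max 1 S * max 1 S2, by positivity, fun m M hm hmM => ?_⟩
  have hm0 : (0 : ℝ) < m := by exact_mod_cast hm
  have hM0 : (0 : ℝ) < ((M - m : ℕ) : ℝ) := by
    have : 0 < M - m := by omega
    exact_mod_cast this
  have h1 : 1 - ∑ i ∈ range (m + 1), u i * KK q (M + 1 - i) = ∑ i ∈ Finset.Ico (m + 1) (M + 1), u i * KK q (M + 1 - i) := by
    rw [← KK_renewal h M, Finset.range_eq_Ico, Finset.range_eq_Ico,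
      ← Finset.sum_Ico_consecutive _ (Nat.zero_le (m + 1)) (show m + 1 ≤ M + 1 by omega)]
    ring
  rw [h1]
  calc ∑ i ∈ Finset.Ico (m + 1) (M + 1), u i * KK q (M + 1 - i)
      ≤ ∑ i ∈ Finset.Ico (m + 1) (M + 1), (max 1 S * (m : ℝ) ^ (a - 1)) * KK q (M + 1 - i) := by
        refine Finset.sum_le_sum fun i hi => mul_le_mul_of_nonneg_right ?_ (KK_nonneg h _)
        have hi' := Finset.mem_Ico.1 hi
        refine (hub i (by omega)).trans ?_
        refine mul_le_mul_of_nonneg_left ?_ (by positivity)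
        refine Real.rpow_le_rpow_of_nonpos hm0 ?_ (by linarith)
        have : m ≤ i := by omega
        exact_mod_cast this
    _ = (max 1 S * (m : ℝ) ^ (a - 1)) * ∑ i ∈ range (M - m), KK q (i + 1) := by
        rw [← Finset.mul_sum]
        congr 1
        refine Finset.sum_bij' (fun i _ => M - i) (fun i _ => M - i) ?_ ?_ ?_ ?_ ?_
        · intro i hi
          have := Finset.mem_Ico.1 hi
          exact Finset.mem_range.2 (by omega)
        · intro i hi
          have := Finset.mem_range.1 hi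
          exact Finset.mem_Ico.2 ⟨by omega, by omega⟩
        · intro i hi
          have := Finset.mem_Ico.1 hi
          show M - (M - i) = i
          omega
        · intro i hi
          have := Finset.mem_range.1 hi
          show M - (M - i) = i
          omega
        · intro i hi
          have := Finset.mem_Ico.1 hi
          show KK q (M + 1 - i) = KK q (M - i + 1)
          congr 1
          omega
    _ ≤ (max 1 S * (m : ℝ) ^ (a - 1)) * (max 1 S2 * ((M - m : ℕ) : ℝ) ^ (1 - a)) :=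
        mul_le_mul_of_nonneg_left (hK (M - m) (by omega)) (by positivity)
    _ = max 1 S * max 1 S2 * (((M - m : ℕ) : ℝ) / m) ^ (1 - a) := by
        rw [Real.div_rpow hM0.le hm0.le, div_eq_mul_inv, ← Real.rpow_neg hm0.le]
        rw [show -(1 - a) = a - 1 by ring]
        ring

/-- floor estimate -/
lemma floor_gap {x y : ℝ} (hx : 0 < x) (hxy : x < y) :
    ∀ᶠ T : ℕ in atTop, 1 ≤ ⌊x * T⌋₊ ∧ ⌊x * T⌋₊ < ⌊y * T⌋₊ ∧
      ((⌊y * T⌋₊ - ⌊x * T⌋₊ : ℕ) : ℝ) / (⌊x * T⌋₊ : ℝ) ≤ 4 * ((y - x) / x) := by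
  have hT := tendsto_natCast_atTop_atTop (R := ℝ)
  filter_upwards [hT.eventually_ge_atTop (2 / x), hT.eventually_ge_atTop (2 / (y - x)), eventually_ge_atTop 1] with T h1 h2 h3
  have hT0 : (0 : ℝ) < T := by exact_mod_cast h3
  have hyx : 0 < y - x := by linarith
  have hx1 : 2 ≤ x * T := by
    rw [div_le_iff₀ hx] at h1
    linarith
  have hx2 : 2 ≤ (y - x) * T := by
    rw [div_le_iff₀ hyx] at h2
    linarith
  have f1 := Nat.floor_le (show 0 ≤ x * T by positivity)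
  have f2 := Nat.lt_floor_add_one (x * T)
  have f3 := Nat.floor_le (show 0 ≤ y * T by nlinarith)
  have f4 := Nat.lt_floor_add_one (y * T)
  have g1 : 1 ≤ ⌊x * T⌋₊ := by
    have : (0 : ℝ) < ⌊x * T⌋₊ := by linarith
    exact_mod_cast this
  have g2 : ⌊x * T⌋₊ < ⌊y * T⌋₊ := by
    have : (⌊x * T⌋₊ : ℝ) < ⌊y * T⌋₊ := by nlinarith
    exact_mod_cast this
  refine ⟨g1, g2, ?_⟩
  have g3 : (0 : ℝ) < ⌊x * T⌋₊ := by exact_mod_cast g1
  have g4 : ((⌊y * T⌋₊ - ⌊x * T⌋₊ : ℕ) : ℝ) = ⌊y * T⌋₊ - ⌊x * T⌋₊ := by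
    rw [Nat.cast_sub g2.le]
  rw [g4, div_le_iff₀ g3]
  have g5 : (⌊y * T⌋₊ : ℝ) - ⌊x * T⌋₊ ≤ 2 * ((y - x) * T) := by nlinarith
  have g6 : x * T / 2 ≤ ⌊x * T⌋₊ := by linarith
  calc (⌊y * T⌋₊ : ℝ) - ⌊x * T⌋₊ ≤ 2 * ((y - x) * T) := g5
    _ = 4 * ((y - x) / x) * (x * T / 2) := by
        field_simp
        ring
    _ ≤ 4 * ((y - x) / x) * ⌊x * T⌋₊ := by gcongr

end

section

variable {b : ℝ}

private lemma hu4 (hu : Tendsto (fun n : ℕ => (n : ℝ) ^ (1 / 4 : ℝ) * uu n) atTop (𝓝 b)) :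
    Tendsto (fun n : ℕ => (n : ℝ) ^ (1 - 3 / 4 : ℝ) * uu n) atTop (𝓝 b) := by
  have he : (1 : ℝ) - 3 / 4 = 1 / 4 := by norm_num
  rw [he]
  exact hu

/-- the limit set meets (x, y) with small probability -/
theorem hit_half (hb : 0 < b) (hu : Tendsto (fun n : ℕ => (n : ℝ) ^ (1 / 4 : ℝ) * uu n) atTop (𝓝 b))
    {κ : ProbabilityMeasure NC} (hκ : Tendsto PS atTop (𝓝 κ)) :
    ∃ C : ℝ, 0 < C ∧ ∀ x y : ℝ, 0 < x → x < y →
      (κ : Measure NC) (AvS (Set.Ioo x y))ᶜ ≤ ENNReal.ofReal (C * ((y - x) / x) ^ (1 - 3 / 4 : ℝ)) := by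
  obtain ⟨C, hC, hhit⟩ := hit_le ren_uu (by norm_num : (0 : ℝ) < 3 / 4) (by norm_num) hb (hu4 hu)
  refine ⟨C * 4 ^ (1 - 3 / 4 : ℝ), by positivity, fun x y hx hxy => ?_⟩
  have hyx : 0 < y - x := by linarith
  refine (ProbabilityMeasure.le_liminf_measure_open_of_tendsto hκ (isClosed_AvS isOpen_Ioo).isOpen_compl).trans ?_
  refine liminf_le_of_frequently_le' (Eventually.frequently ?_)
  -- reduce to y ≤ 1
  by_cases hx1 : 1 ≤ x
  · refine Eventually.of_forall fun T => ?_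
    have hm : (PS T : Measure NC) (AvS (Set.Ioo x y))ᶜ = gf {t | t ∈ FCW T ∧ cutset T t ∈ (AvS (Set.Ioo x y))ᶜ} :=
      lawS_apply T (isClosed_AvS isOpen_Ioo).measurableSet.compl
    have hem : {t | t ∈ FCW T ∧ cutset T t ∈ (AvS (Set.Ioo x y))ᶜ} = ∅ := by
      rw [Set.eq_empty_iff_forall_notMem]
      rintro t ⟨-, h2⟩
      apply h2
      intro z hz hz2
      have := (cutset_unit (T := T) t).1 hz
      linarith [hz2.1, this.2]
    rw [hm, hem]
    unfold gf
    simp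
  · push Not at hx1
    have hxy1 : x < min y 1 := lt_min hxy hx1
    filter_upwards [floor_gap hx hxy1, eventually_ge_atTop 1] with T hT hT1
    obtain ⟨h1, h2, h3⟩ := hT
    have hle : (PS T : Measure NC) (AvS (Set.Ioo x y))ᶜ ≤ (PS T : Measure NC) (AvI x (min y 1))ᶜ := by
      have e1 : (PS T : Measure NC) (AvS (Set.Ioo x y))ᶜ = gf {t | t ∈ FCW T ∧ cutset T t ∈ (AvS (Set.Ioo x y))ᶜ} :=
        lawS_apply T (isClosed_AvS isOpen_Ioo).measurableSet.compl
      have e2 : (PS T : Measure NC) (AvI x (min y 1))ᶜ = gf {t | t ∈ FCW T ∧ cutset T t ∈ (AvI x (min y 1))ᶜ} :=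
        lawS_apply T (measurableSet_AvI _ _).compl
      rw [e1, e2]
      refine gf_mono ?_
      rintro t ⟨h4, h5⟩
      refine ⟨h4, fun h6 => h5 fun z hz hz2 => ?_⟩
      have h7 : Disjoint (cutset T t : Set ℝ) (Set.Ioc x (min y 1)) := h6
      exact Set.disjoint_left.1 h7 hz ⟨hz2.1, le_min hz2.2.le ((cutset_unit (T := T) t).1 hz).2⟩
    refine hle.trans ?_
    have hprob : (PS T : Measure NC) (AvI x (min y 1))ᶜ = 1 - lawS T (AvI x (min y 1)) :=
      prob_compl_eq_one_sub (measurableSet_AvI _ _)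
    rw [hprob, lawS_AvI hT1 hx.le hxy1 (min_le_right _ _), ← ENNReal.ofReal_one,
      ← ENNReal.ofReal_sub _ (Finset.sum_nonneg fun i _ => mul_nonneg (uu_pos i).le (KK_nonneg ren_uu _))]
    refine ENNReal.ofReal_le_ofReal ?_
    have hr : Finset.Icc 0 ⌊x * T⌋₊ = range (⌊x * T⌋₊ + 1) := by
      ext i
      rw [Finset.mem_Icc, Finset.mem_range]
      omega
    rw [hr]
    refine (hhit _ _ h1 h2).trans ?_
    have hmin : (min y 1 - x) / x ≤ (y - x) / x := by
      gcongr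
      exact min_le_left _ _
    calc C * (((⌊min y 1 * T⌋₊ - ⌊x * T⌋₊ : ℕ) : ℝ) / (⌊x * T⌋₊ : ℝ)) ^ (1 - 3 / 4 : ℝ)
        ≤ C * (4 * ((y - x) / x)) ^ (1 - 3 / 4 : ℝ) := by
          refine mul_le_mul_of_nonneg_left (Real.rpow_le_rpow (by positivity) (h3.trans ?_) (by norm_num)) hC.le
          linarith
      _ = C * 4 ^ (1 - 3 / 4 : ℝ) * ((y - x) / x) ^ (1 - 3 / 4 : ℝ) := by
          rw [Real.mul_rpow (by norm_num) (by positivity)]
          ring

/-- J2, HALF PLANE: the dimension of the limit set of the cut levels is 3/4 -/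
theorem dim_half (hb : 0 < b) (hu : Tendsto (fun n : ℕ => (n : ℝ) ^ (1 / 4 : ℝ) * uu n) atTop (𝓝 b))
    {κ : ProbabilityMeasure NC} (hκ : Tendsto PS atTop (𝓝 κ)) :
    ∀ᵐ K : NC ∂(κ : Measure NC), dimH (K : Set ℝ) = ((3 / 4 : ℝ≥0) : ℝ≥0∞) ∧
      ∀ r : ℝ, 0 < r → dimH ((K : Set ℝ) ∩ Set.Icc 0 r) = ((3 / 4 : ℝ≥0) : ℝ≥0∞) := by
  obtain ⟨C, hC, hhit⟩ := hit_half hb hu hκ
  have h1 : ∀ᵐ K : NC ∂(κ : Measure NC), dimH ((K : Set ℝ) ∩ Set.Icc 0 1) ≤ ((3 / 4 : ℝ≥0) : ℝ≥0∞) := by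
    refine dim_le_of_hit (by positivity) (by
      rw [← NNReal.coe_lt_coe]
      push_cast
      norm_num) (C := C) (r' := 2) hC one_pos (by norm_num) fun x y hx hxy _ => ?_
    have e : ((3 / 4 : ℝ≥0) : ℝ) = 3 / 4 := by push_cast; rfl
    rw [e]
    exact hhit x y hx hxy
  have h2 : ∀ᵐ K : NC ∂(κ : Measure NC), K ∈ GoodZ {0} := full_lim hκ (isClosed_GoodZ {0}) fun i => PS_good i
  filter_upwards [h1, h2, dim_half_ge hb hu hκ] with K hK1 hK2 hK3
  have h3 : (K : Set ℝ) ∩ Set.Icc 0 1 = K := Set.inter_eq_left.2 hK2.1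
  rw [h3] at hK1
  have h4 : ∀ r : ℝ, 0 < r → dimH ((K : Set ℝ) ∩ Set.Icc 0 r) = ((3 / 4 : ℝ≥0) : ℝ≥0∞) := fun r hr =>
    le_antisymm ((dimH_mono Set.inter_subset_left).trans hK1) (hK3 r hr)
  refine ⟨le_antisymm hK1 ?_, h4⟩
  rw [← h4 1 one_pos]
  exact dimH_mono Set.inter_subset_left

end

end CutLim
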