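import Pool.Agent.CutLim.Dim6

/-! CUT, J2: the dimension of the limit set of the cut levels of the critical bridges. -/

set_option autoImplicit false

namespace CutLim

open Filter Topology Finset MeasureTheory TopologicalSpace HexObs

open scoped ENNReal NNReal

/-- the probability that the first cut above row i is in row j -/
noncomputable def ff (i j : ℕ) : ℝ := ∑ c ∈ range (i + 1), uu c * kk (j - c)

lemma ff_nonneg (i j : ℕ) : 0 ≤ ff i j := Finset.sum_nonneg fun c _ => mul_nonneg (uu_pos c).le (kk_nonneg _)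

lemma uu_AvSeq : AvSeq ∅ uu where
  zero := uu_zero
  mem := fun n _ h => absurd h (Set.notMem_empty n)
  not_mem := by
    intro n hn _
    rw [renewal_real hn]
    refine Finset.sum_bij' (fun r _ => n - r) (fun k _ => n - k) ?_ ?_ ?_ ?_ ?_
    · intro r hr
      have := Finset.mem_Icc.1 hr
      exact Finset.mem_range.2 (by omega)
    · intro k hk
      have := Finset.mem_range.1 hk
      exact Finset.mem_Icc.2 ⟨by omega, by omega⟩
    · intro r hr
      have := Finset.mem_Icc.1 hr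
      show n - (n - r) = r
      omega
    · intro k hk
      have := Finset.mem_range.1 hk
      show n - (n - k) = k
      omega
    · intro r hr
      have := Finset.mem_Icc.1 hr
      show kk r * uu (n - r) = uu (n - r) * kk (n - (n - r))
      rw [show n - (n - r) = r by omega, mul_comm]

lemma gf_FC_ff {i j : ℕ} (hj : i < j) : gf (FC (i + 1) j) = ENNReal.ofReal (ff i j) := by
  have h1 : FC (i + 1) j = {t | t ∈ FC (i + 1) j ∧ NoCut ∅ (i + 1) t} := by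
    ext t
    exact ⟨fun h => ⟨h, fun c hc => absurd hc (Set.notMem_empty c)⟩, fun h => h.1⟩
  rw [h1, gf_FC_noCut uu_AvSeq (by omega) hj]
  unfold ff
  rw [ENNReal.ofReal_sum_of_nonneg fun c _ => mul_nonneg (uu_pos c).le (kk_nonneg _)]
  refine Finset.sum_congr rfl fun c _ => ?_
  rw [ENNReal.ofReal_mul (uu_pos c).le, CutH.kap_kk]

lemma ff_sum {i n : ℕ} (h : i ≤ n) : ∑ j ∈ Ioc i n, ff i j = 1 - ∑ c ∈ range (i + 1), uu c * KK kk (n + 1 - c) := by
  unfold ff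
  rw [Finset.sum_comm]
  have h1 : ∀ c ∈ range (i + 1), ∑ j ∈ Ioc i n, uu c * kk (j - c) = uu c * KK kk (i + 1 - c) - uu c * KK kk (n + 1 - c) := by
    intro c hc
    rw [← Finset.mul_sum, sum_k kk (by have := Finset.mem_range.1 hc; omega) h]
    ring
  rw [Finset.sum_congr rfl h1, Finset.sum_sub_distrib, KK_renewal ren_uu i]

/-- bridges whose first cut above row i is in row j, with a property of the first piece -/
def DD (P : Set (List Bool)) (i N j : ℕ) : Set (List Bool) := {t | ∃ s u, (s ∈ FC (i + 1) j ∧ s ∈ P) ∧ u ∈ Brd (N - j) ∧ t = s ++ u}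

lemma DD_le (P : Set (List Bool)) {i N j : ℕ} :
    gf (DD P i N j) ≤ gf {s | s ∈ FC (i + 1) j ∧ s ∈ P} * ENNReal.ofReal (uu (N - j)) := by
  rw [← BT_uu, ← gf_Brd]
  refine gf_le_mul ?_
  rintro t ⟨s, u, hs, hu, h⟩
  exact ⟨s, hs, u, hu, h⟩

lemma DD_ge {i N j : ℕ} (hij : i < j) : ENNReal.ofReal (ff i j * uu (N - j)) ≤ gf (DD Set.univ i N j) := by
  rw [ENNReal.ofReal_mul (ff_nonneg i j), ← BT_uu, ← gf_Brd, ← gf_FC_ff hij]
  refine mul_le_gf (fun s hs u hu => ⟨s, u, ⟨hs, Set.mem_univ s⟩, hu, rfl⟩) ?_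
  intro s hs u hu s' hs' u' hu' h
  exact (cut_unique hs.1 hs'.1 hu hu' h).1

lemma DD_disj {i N j j' : ℕ} (hjj : j < j') (hij : i < j) : Disjoint (DD Set.univ i N j) (DD Set.univ i N j') := by
  rw [Set.disjoint_left]
  rintro t ⟨s, u, ⟨hs, -⟩, hu, rfl⟩ ⟨s', u', ⟨hs', -⟩, hu', h⟩
  obtain ⟨v, hv, h1, h2⟩ := cut_nested hs.1 hs'.1 hu hu' hjj.le h
  exact hs'.2.2 j (by omega) hjj ⟨s, v, j' - j, hs.1, hv, h1⟩

/-- the bridges without a cut in (i, n] -/
theorem nohit_le {i n N : ℕ} (hn : n ≤ N) :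
    gf {t | t ∈ Brd N ∧ ∀ c, i < c → c ≤ n → ¬ Cut t c} ≤ ENNReal.ofReal (uu N - ∑ j ∈ Ioc i n, ff i j * uu (N - j)) := by
  classical
  have hnn : ∀ j, 0 ≤ ff i j * uu (N - j) := fun j => mul_nonneg (ff_nonneg i j) (uu_pos _).le
  have h1 : ∑ j ∈ Ioc i n, ENNReal.ofReal (ff i j * uu (N - j)) ≤ gf (⋃ j ∈ Ioc i n, DD Set.univ i N j) := by
    rw [gf_biUnion (Ioc i n) (fun j => DD Set.univ i N j)]
    · exact Finset.sum_le_sum fun j hj => DD_ge (Finset.mem_Ioc.1 hj).1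
    · intro j hj j' hj' hne
      have a1 := Finset.mem_Ioc.1 hj
      have a2 := Finset.mem_Ioc.1 hj'
      rcases lt_or_gt_of_ne hne with h | h
      · exact DD_disj h a1.1
      · exact (DD_disj h a2.1).symm
  have h2 : gf {t | t ∈ Brd N ∧ ∀ c, i < c → c ≤ n → ¬ Cut t c} + gf (⋃ j ∈ Ioc i n, DD Set.univ i N j) ≤ gf (Brd N) := by
    have hdis : Disjoint {t | t ∈ Brd N ∧ ∀ c, i < c → c ≤ n → ¬ Cut t c} (⋃ j ∈ Ioc i n, DD Set.univ i N j) := by
      rw [Set.disjoint_left]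
      rintro t ⟨-, ht⟩ ht2
      simp only [Set.mem_iUnion] at ht2
      obtain ⟨j, hj, s, u, ⟨hs, -⟩, hu, h⟩ := ht2
      have a1 := Finset.mem_Ioc.1 hj
      exact ht j a1.1 a1.2 ⟨s, u, N - j, hs.1, hu, h⟩
    have h3 := gf_biUnion (Finset.univ : Finset Bool)
      (fun b => cond b {t | t ∈ Brd N ∧ ∀ c, i < c → c ≤ n → ¬ Cut t c} (⋃ j ∈ Ioc i n, DD Set.univ i N j)) (by
        intro b _ b' _ hb
        rcases b with _ | _ <;> rcases b' with _ | _
        · exact absurd rfl hb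
        · exact hdis.symm
        · exact hdis
        · exact absurd rfl hb)
    rw [Fintype.sum_bool] at h3
    have h4 : gf {t | t ∈ Brd N ∧ ∀ c, i < c → c ≤ n → ¬ Cut t c} + gf (⋃ j ∈ Ioc i n, DD Set.univ i N j) =
      gf (⋃ b ∈ (Finset.univ : Finset Bool), cond b {t | t ∈ Brd N ∧ ∀ c, i < c → c ≤ n → ¬ Cut t c}
        (⋃ j ∈ Ioc i n, DD Set.univ i N j)) := h3.symm
    rw [h4]
    refine gf_mono ?_
    intro t ht
    rw [Set.mem_iUnion₂] at ht
    obtain ⟨b, -, hb⟩ := ht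
    rcases b with _ | _
    · have hb' : t ∈ ⋃ j ∈ Ioc i n, DD Set.univ i N j := hb
      rw [Set.mem_iUnion₂] at hb'
      obtain ⟨j, hj, s, u, ⟨hs, -⟩, hu, rfl⟩ := hb'
      have a1 := Finset.mem_Ioc.1 hj
      have := Brd_append hs.1 hu
      rwa [show j + (N - j) = N by omega] at this
    · exact hb.1
  rw [gf_Brd, BT_uu] at h2
  rw [ENNReal.ofReal_sub _ (Finset.sum_nonneg fun j _ => hnn j), ENNReal.ofReal_sum_of_nonneg fun j _ => hnn j]
  refine ENNReal.le_sub_of_add_le_right ?_ ?_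
  · exact ENNReal.sum_ne_top.2 fun j _ => ENNReal.ofReal_ne_top
  · exact le_trans (by gcongr) h2

/-- the bridges with a cut in (i, n] and a property of the piece up to the first of them -/
theorem hit_le_bridge (P : Set (List Bool)) {i n N : ℕ} (hn : n ≤ N) {Q : Set (List Bool)}
    (hQ : ∀ j s u, i < j → j ≤ n → s ∈ FC (i + 1) j → u ∈ Brd (N - j) → s ++ u ∈ Q → s ∈ P) :
    gf {t | t ∈ Brd N ∧ (∃ c, i < c ∧ c ≤ n ∧ Cut t c) ∧ t ∈ Q} ≤
      ENNReal.ofReal (uu (N - n)) * ∑ j ∈ Ioc i n, gf {s | s ∈ FC (i + 1) j ∧ s ∈ P} := by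
  have h1 : {t | t ∈ Brd N ∧ (∃ c, i < c ∧ c ≤ n ∧ Cut t c) ∧ t ∈ Q} ⊆ ⋃ j ∈ Ioc i n, DD P i N j := by
    rintro t ⟨ht, ⟨c, hc1, hc2, s0, u0, b0, hs0, hu0, h0⟩, hQt⟩
    obtain ⟨j, a, u, h2, h3, ha, hu, h4⟩ := FC_dec (show i + 1 ≤ N by omega) ht
    have hjc : j ≤ c := by
      by_contra hcon
      push Not at hcon
      obtain ⟨v, hv, h5, -⟩ := cut_nested hs0 ha.1 hu0 hu hcon.le (h0.symm.trans h4)
      exact ha.2.2 c (by omega) hcon ⟨s0, v, j - c, hs0, hv, h5⟩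
    simp only [Set.mem_iUnion]
    refine ⟨j, Finset.mem_Ioc.2 ⟨by omega, by omega⟩, a, u, ⟨ha, ?_⟩, hu, h4⟩
    exact hQ j a u (by omega) (by omega) ha hu (h4 ▸ hQt)
  refine (gf_mono h1).trans ((JumpVaux.gf_biUnion_le _ _).trans ?_)
  rw [Finset.mul_sum]
  refine Finset.sum_le_sum fun j hj => (DD_le P).trans ?_
  rw [mul_comm]
  have a1 := Finset.mem_Ioc.1 hj
  have h5 : uu (N - j) ≤ uu (N - n) := uu_anti (by omega)
  gcongr

lemma sum_FC_le (P : Set (List Bool)) (i n : ℕ) :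
    ∑ j ∈ Ioc i n, gf {s | s ∈ FC (i + 1) j ∧ s ∈ P} ≤ gf {t | t ∈ FCW (i + 1) ∧ t ∈ P} := by
  rw [← gf_biUnion (Ioc i n) (fun j => {s | s ∈ FC (i + 1) j ∧ s ∈ P})]
  · refine gf_mono ?_
    intro t ht
    simp only [Set.mem_iUnion] at ht
    obtain ⟨j, -, h1, h2⟩ := ht
    exact ⟨⟨j, h1⟩, h2⟩
  · intro j _ j' _ hne
    rw [Set.disjoint_left]
    rintro t ⟨h1, -⟩ ⟨h2, -⟩
    exact hne (Brd_height h1.1 h2.1)

end CutLim
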