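import Pool.Agent.CutLim.Dim7

/-! CUT, J2: the dimension of the limit set of the cut levels of the critical bridges, conclusion. -/

set_option autoImplicit false

namespace CutLim

open Filter Topology Finset MeasureTheory TopologicalSpace HexObs

open scoped ENNReal NNReal

lemma cN_prefix {T' j b : ℕ} (hj : T' < j) {s u : List Bool} (hs : s ∈ Brd j) (hu : u ∈ Brd b) :
    cN (T' + 1) (s ++ u) = cN (T' + 1) s := by
  unfold cN
  congr 1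
  ext x
  constructor
  · rintro ⟨h3, h4, h5⟩
    exact ⟨h3, h4, (cut_prefix hs hu (by omega)).1 h5⟩
  · rintro ⟨h3, h4, h5⟩
    exact ⟨h3, h4, (cut_prefix hs hu (by omega)).2 h5⟩

/-- few cut levels up to T', bridges -/
theorem few_bridge {T' n N : ℕ} (hT' : 1 ≤ T') (h1 : T' < n) (h2 : n ≤ N) (k : ℕ) :
    gf {t | t ∈ Brd N ∧ cN (T' + 1) t < k} ≤
      ENNReal.ofReal (uu N * (UU uu T' * KK kk (n + 1 - T'))) +
        ENNReal.ofReal (uu (N - n) * ∑ i ∈ range k, pH kk T' i) := by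
  have hsub : {t | t ∈ Brd N ∧ cN (T' + 1) t < k} ⊆ {t | t ∈ Brd N ∧ ∀ c, T' < c → c ≤ n → ¬ Cut t c} ∪
      {t | t ∈ Brd N ∧ (∃ c, T' < c ∧ c ≤ n ∧ Cut t c) ∧ t ∈ {t | cN (T' + 1) t < k}} := by
    rintro t ⟨ht, hk⟩
    by_cases h : ∃ c, T' < c ∧ c ≤ n ∧ Cut t c
    · exact Or.inr ⟨ht, h, hk⟩
    · refine Or.inl ⟨ht, fun c hc1 hc2 hc3 => h ⟨c, hc1, hc2, hc3⟩⟩
  refine (gf_mono hsub).trans ((gf_union_le _ _).trans (add_le_add ?_ ?_))
  · refine (nohit_le h2).trans (ENNReal.ofReal_le_ofReal ?_)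
    have h3 : uu N * ∑ j ∈ Ioc T' n, ff T' j ≤ ∑ j ∈ Ioc T' n, ff T' j * uu (N - j) := by
      rw [Finset.mul_sum]
      refine Finset.sum_le_sum fun j _ => ?_
      rw [mul_comm]
      exact mul_le_mul_of_nonneg_left (uu_anti (Nat.sub_le _ _)) (ff_nonneg _ _)
    rw [ff_sum h1.le] at h3
    have h4 : ∑ c ∈ range (T' + 1), uu c * KK kk (n + 1 - c) ≤ UU uu T' * KK kk (n + 1 - T') := by
      unfold UU
      rw [Finset.sum_mul]
      refine Finset.sum_le_sum fun c hc => mul_le_mul_of_nonneg_left (KK_anti ren_uu ?_) (uu_pos c).le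
      have := Finset.mem_range.1 hc
      omega
    have h5 := mul_le_mul_of_nonneg_left h4 (uu_pos N).le
    nlinarith
  · refine (hit_le_bridge {t | cN (T' + 1) t < k} h2 ?_).trans ?_
    · intro j s u hj1 _ hs hu hQ
      have h3 : cN (T' + 1) (s ++ u) < k := hQ
      rw [cN_prefix hj1 hs.1 hu] at h3
      exact h3
    · rw [ENNReal.ofReal_mul (uu_pos _).le]
      gcongr
      exact (sum_FC_le _ _ _).trans (few_words hT' (Nat.le_succ T') k)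

/-- two cut levels, bridges -/
theorem two_point_bridge {c c' N : ℕ} (hc : c ≤ c') (hN : c' ≤ N) :
    gf {t | t ∈ Brd N ∧ Cut t c ∧ Cut t c'} ≤ ENNReal.ofReal (uu c * uu (c' - c) * uu (N - c')) := by
  have h1 : gf {t | t ∈ Brd N ∧ Cut t c ∧ Cut t c'} ≤
      gf (Brd c) * gf {t | ∃ v u, v ∈ Brd (c' - c) ∧ u ∈ Brd (N - c') ∧ t = v ++ u} := by
    refine gf_le_mul ?_
    rintro t ⟨ht, ⟨s1, u1, b1, hs1, hu1, e1⟩, ⟨s2, u2, b2, hs2, hu2, e2⟩⟩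
    obtain ⟨v, hv, h3, h4⟩ := cut_nested hs1 hs2 hu1 hu2 hc (e1.symm.trans e2)
    have h5 : c' + b2 = N := by
      have := Brd_append hs2 hu2
      rw [← e2] at this
      exact Brd_height this ht
    refine ⟨s1, hs1, u1, ⟨v, u2, hv, ?_, h4⟩, e1⟩
    rw [show N - c' = b2 by omega]
    exact hu2
  have h2 : gf {t | ∃ v u, v ∈ Brd (c' - c) ∧ u ∈ Brd (N - c') ∧ t = v ++ u} ≤ gf (Brd (c' - c)) * gf (Brd (N - c')) :=
    gf_le_mul fun t ht => by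
      obtain ⟨v, u, hv, hu, h⟩ := ht
      exact ⟨v, hv, u, hu, h⟩
  refine h1.trans ?_
  rw [gf_Brd, gf_Brd, BT_uu, BT_uu] at h2
  rw [gf_Brd, BT_uu, mul_assoc, ENNReal.ofReal_mul (uu_pos c).le, ENNReal.ofReal_mul (uu_pos _).le]
  gcongr

/-- the first moment, bridges -/
theorem WW_mean_bridge {s : ℝ} {T' n N : ℕ} (h : T' ≤ n) (hn : n ≤ N) :
    ∑' t : {t : List Bool // t ∈ Brd N}, wE t.1 * WW s T' N t.1 ≤
      ENNReal.ofReal (uu (N - n) * ∑ c ∈ Icc 1 T', ∑ d ∈ Icc 1 T', uu c * uu d * ((d : ℝ) / N) ^ (-s)) := by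
  classical
  have hnn : ∀ c d : ℕ, 0 ≤ uu c * uu d * ((d : ℝ) / N) ^ (-s) := fun c d =>
    mul_nonneg (mul_nonneg (uu_pos c).le (uu_pos d).le) (Real.rpow_nonneg (by positivity) _)
  rw [ENNReal.ofReal_mul (uu_pos _).le, ENNReal.ofReal_sum_of_nonneg fun c _ => sum_nonneg fun d _ => hnn c d,
    Finset.mul_sum]
  unfold WW
  simp_rw [Finset.mul_sum]
  rw [Summable.tsum_finsetSum (fun _ _ => ENNReal.summable)]
  refine Finset.sum_le_sum fun c hc => ?_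
  rw [Summable.tsum_finsetSum (fun _ _ => ENNReal.summable), ENNReal.ofReal_sum_of_nonneg fun d _ => hnn c d, Finset.mul_sum]
  refine Finset.sum_le_sum fun d hd => ?_
  by_cases hcd : c + d ≤ T'
  · have h1 : ∑' t : {t : List Bool // t ∈ Brd N}, wE t.1 * (if c + d ≤ T' ∧ Cut t.1 c ∧ Cut t.1 (c + d) then
        ENNReal.ofReal (((d : ℝ) / N) ^ (-s)) else 0) =
        gf {t | t ∈ Brd N ∧ Cut t c ∧ Cut t (c + d)} * ENNReal.ofReal (((d : ℝ) / N) ^ (-s)) := by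
      unfold gf
      rw [← ENNReal.tsum_mul_right,
        tsum_subtype (Brd N) (fun t => wE t * (if c + d ≤ T' ∧ Cut t c ∧ Cut t (c + d) then
          ENNReal.ofReal (((d : ℝ) / N) ^ (-s)) else 0)),
        tsum_subtype {t | t ∈ Brd N ∧ Cut t c ∧ Cut t (c + d)} (fun t => wE t * ENNReal.ofReal (((d : ℝ) / N) ^ (-s)))]
      refine tsum_congr fun t => ?_
      by_cases h2 : t ∈ Brd N
      · rw [Set.indicator_of_mem h2]
        by_cases h3 : Cut t c ∧ Cut t (c + d)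
        · rw [if_pos ⟨hcd, h3⟩, Set.indicator_of_mem (show t ∈ {t | t ∈ Brd N ∧ Cut t c ∧ Cut t (c + d)} from ⟨h2, h3⟩)]
        · rw [if_neg (fun h4 => h3 h4.2),
            Set.indicator_of_notMem (fun h4 : t ∈ {t | t ∈ Brd N ∧ Cut t c ∧ Cut t (c + d)} => h3 h4.2), mul_zero]
      · rw [Set.indicator_of_notMem h2,
          Set.indicator_of_notMem (fun h4 : t ∈ {t | t ∈ Brd N ∧ Cut t c ∧ Cut t (c + d)} => h2 h4.1)]
    rw [h1, ENNReal.ofReal_mul (mul_nonneg (uu_pos c).le (uu_pos d).le), ← mul_assoc]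
    have h2 := two_point_bridge (c := c) (c' := c + d) (N := N) (by omega) (by omega)
    rw [Nat.add_sub_cancel_left] at h2
    refine mul_le_mul_left ?_ _
    refine h2.trans ?_
    rw [ENNReal.ofReal_mul (mul_nonneg (uu_pos c).le (uu_pos d).le), mul_comm]
    have h3 : uu (N - (c + d)) ≤ uu (N - n) := uu_anti (by omega)
    gcongr
  · have h1 : ∑' t : {t : List Bool // t ∈ Brd N}, wE t.1 * (if c + d ≤ T' ∧ Cut t.1 c ∧ Cut t.1 (c + d) then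
        ENNReal.ofReal (((d : ℝ) / N) ^ (-s)) else 0) = 0 := by
      rw [ENNReal.tsum_eq_zero]
      intro t
      rw [if_neg (fun h4 => hcd h4.1), mul_zero]
    rw [h1]
    exact zero_le

/-- Markov inequality for the sum over the pairs, bridges -/
theorem WW_markov_bridge {s : ℝ} {T' n N : ℕ} (h : T' ≤ n) (hn : n ≤ N) (A : ℝ≥0∞) :
    A * gf {t | t ∈ Brd N ∧ A ≤ WW s T' N t} ≤
      ENNReal.ofReal (uu (N - n) * ∑ c ∈ Icc 1 T', ∑ d ∈ Icc 1 T', uu c * uu d * ((d : ℝ) / N) ^ (-s)) := by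
  refine le_trans ?_ (WW_mean_bridge h hn)
  unfold gf
  rw [← ENNReal.tsum_mul_left, tsum_subtype {t | t ∈ Brd N ∧ A ≤ WW s T' N t} (fun t => A * wE t),
    tsum_subtype (Brd N) (fun t => wE t * WW s T' N t)]
  refine ENNReal.tsum_le_tsum fun t => ?_
  by_cases h2 : t ∈ Brd N
  · rw [Set.indicator_of_mem h2]
    by_cases h3 : A ≤ WW s T' N t
    · rw [Set.indicator_of_mem (show t ∈ {t | t ∈ Brd N ∧ A ≤ WW s T' N t} from ⟨h2, h3⟩), mul_comm]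
      gcongr
    · rw [Set.indicator_of_notMem (fun h4 : t ∈ {t | t ∈ Brd N ∧ A ≤ WW s T' N t} => h3 h4.2)]
      exact zero_le
  · rw [Set.indicator_of_notMem h2,
      Set.indicator_of_notMem (fun h4 : t ∈ {t | t ∈ Brd N ∧ A ≤ WW s T' N t} => h2 h4.1)]

section

variable {b : ℝ}

private lemma hu5 (hu : Tendsto (fun n : ℕ => (n : ℝ) ^ (1 / 4 : ℝ) * uu n) atTop (𝓝 b)) :
    Tendsto (fun n : ℕ => (n : ℝ) ^ (1 - 3 / 4 : ℝ) * uu n) atTop (𝓝 b) := by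
  have he : (1 : ℝ) - 3 / 4 = 1 / 4 := by norm_num
  rw [he]
  exact hu

/-- the ratio of the weights -/
lemma uu_ratio (hb : 0 < b) (hu : Tendsto (fun n : ℕ => (n : ℝ) ^ (1 / 4 : ℝ) * uu n) atTop (𝓝 b)) {x : ℝ} (hx : 0 < x) :
    ∃ C : ℝ, 0 < C ∧ ∀ᶠ N : ℕ in atTop, ∀ m : ℕ, x * N ≤ m → uu m ≤ C * uu N := by
  refine ⟨4 * x ^ (-(1 / 4) : ℝ), by positivity, ?_⟩
  have h1 := hu.eventually_const_le (show b / 2 < b by linarith)
  have h2 := hu.eventually_le_const (show b < 2 * b by linarith)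
  obtain ⟨N0, hN0⟩ := eventually_atTop.1 h2
  filter_upwards [h1, eventually_ge_atTop 1, tendsto_natCast_atTop_atTop.eventually_ge_atTop (((N0 : ℝ) + 1) / x)]
    with N h3 h4 h5 m hm
  have hN : (0 : ℝ) < N := by exact_mod_cast h4
  have h6 : (N0 : ℝ) + 1 ≤ x * N := by
    rw [div_le_iff₀ hx] at h5
    linarith
  have hm0 : (0 : ℝ) < m := by
    have : (0 : ℝ) ≤ N0 := Nat.cast_nonneg _
    linarith
  have h7 : N0 ≤ m := by
    have : (N0 : ℝ) ≤ m := by linarith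
    exact_mod_cast this
  have h8 := hN0 m h7
  have hmp : 0 < (m : ℝ) ^ (1 / 4 : ℝ) := Real.rpow_pos_of_pos hm0 _
  have hNp : 0 < (N : ℝ) ^ (1 / 4 : ℝ) := Real.rpow_pos_of_pos hN _
  have h9 : (x * N) ^ (1 / 4 : ℝ) ≤ (m : ℝ) ^ (1 / 4 : ℝ) := Real.rpow_le_rpow (by positivity) hm (by norm_num)
  rw [Real.mul_rpow hx.le hN.le] at h9
  have hxp : 0 < x ^ (1 / 4 : ℝ) := Real.rpow_pos_of_pos hx _
  rw [Real.rpow_neg hx.le, ← div_eq_mul_inv, div_mul_eq_mul_div, le_div_iff₀ hxp]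
  have h10 : (x ^ (1 / 4 : ℝ) * (N : ℝ) ^ (1 / 4 : ℝ)) * uu m ≤ 2 * b :=
    (mul_le_mul_of_nonneg_right h9 (uu_pos m).le).trans h8
  have h11 : (x ^ (1 / 4 : ℝ) * (N : ℝ) ^ (1 / 4 : ℝ)) * uu m ≤ 4 * ((N : ℝ) ^ (1 / 4 : ℝ) * uu N) := by linarith
  have h12 : (N : ℝ) ^ (1 / 4 : ℝ) * (uu m * x ^ (1 / 4 : ℝ)) ≤ (N : ℝ) ^ (1 / 4 : ℝ) * (4 * uu N) := by nlinarith
  exact le_of_mul_le_mul_left h12 hNp

lemma UU_bound (hb : 0 < b) (hu : Tendsto (fun n : ℕ => (n : ℝ) ^ (1 / 4 : ℝ) * uu n) atTop (𝓝 b)) :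
    ∃ C : ℝ, 0 < C ∧ ∀ n : ℕ, 1 ≤ n → UU uu n ≤ C * (n : ℝ) ^ (3 / 4 : ℝ) := by
  obtain ⟨S, hS⟩ := (UU_tendsto ren_uu (by norm_num : (0 : ℝ) < 3 / 4) (by norm_num) hb (hu5 hu)).bddAbove_range
  refine ⟨max 1 S, by positivity, fun n hn => ?_⟩
  have hn0 : (0 : ℝ) < n := by exact_mod_cast hn
  have h1 : (n : ℝ) ^ (-(3 / 4) : ℝ) * UU uu n ≤ S := hS ⟨n, rfl⟩
  have h2 := Real.rpow_pos_of_pos hn0 (3 / 4)
  rw [Real.rpow_neg hn0.le, inv_mul_le_iff₀ h2] at h1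
  rw [mul_comm]
  exact h1.trans (mul_le_mul_of_nonneg_left (le_max_right _ _) h2.le)

lemma KK_bound' (hb : 0 < b) (hu : Tendsto (fun n : ℕ => (n : ℝ) ^ (1 / 4 : ℝ) * uu n) atTop (𝓝 b)) :
    ∃ C : ℝ, 0 < C ∧ ∀ n : ℕ, 1 ≤ n → KK kk n ≤ C * (n : ℝ) ^ (-(3 / 4) : ℝ) := by
  obtain ⟨S, hS⟩ := (KK_tendsto ren_uu (by norm_num : (0 : ℝ) < 3 / 4) (by norm_num) hb (hu5 hu)).bddAbove_range
  refine ⟨max 1 S, by positivity, fun n hn => ?_⟩
  have hn0 : (0 : ℝ) < n := by exact_mod_cast hn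
  have h1 : (n : ℝ) ^ (3 / 4 : ℝ) * KK kk n ≤ S := hS ⟨n, rfl⟩
  have h2 := Real.rpow_pos_of_pos hn0 (3 / 4)
  rw [Real.rpow_neg hn0.le, ← div_eq_mul_inv, le_div_iff₀ h2, mul_comm]
  exact h1.trans (le_max_right _ _)

/-- the laws of the cut levels of the bridges charge the sets En uniformly -/
theorem en_eventually_bridge (hb : 0 < b) (hu : Tendsto (fun n : ℕ => (n : ℝ) ^ (1 / 4 : ℝ) * uu n) atTop (𝓝 b)) {s : ℝ}
    (hs : 0 ≤ s) (hs1 : s < 3 / 4) {r : ℝ} (hr : 0 < r) {η : ℝ} (hη : 0 < η) :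
    ∃ M : ℝ≥0∞, M ≠ ∞ ∧ ∀ ε : ℝ, 0 < ε → ∀ᶠ N in atTop, (PB N : Measure NC) (En s ε M r)ᶜ ≤ ENNReal.ofReal η := by
  obtain ⟨C, hC, hfew⟩ := few_pow ren_uu (by norm_num : (0 : ℝ) < 3 / 4) (by norm_num) hb (hu5 hu)
  obtain ⟨C2, hC2, hpair⟩ := pair_sum ren_uu (by norm_num : (0 : ℝ) < 3 / 4) (hu5 hu) hs1
  obtain ⟨C3, hC3, hU⟩ := UU_bound hb hu
  obtain ⟨C4, hC4, hKK⟩ := KK_bound' hb hu
  obtain ⟨C5, hC5, hrat⟩ := uu_ratio hb hu (show (0 : ℝ) < 1 / 2 by norm_num)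
  -- choice of the initial piece
  obtain ⟨ρ, hρ0, hρr, hρ4, hρ⟩ : ∃ ρ : ℝ, 0 < ρ ∧ ρ ≤ r ∧ ρ ≤ 1 / 8 ∧ C3 * C4 * (8 * ρ) ^ (3 / 4 : ℝ) ≤ η / 3 := by
    have h1 : Tendsto (fun ρ : ℝ => C3 * C4 * (8 * ρ) ^ (3 / 4 : ℝ)) (𝓝[>] 0) (𝓝 (C3 * C4 * (8 * 0) ^ (3 / 4 : ℝ))) := by
      have h2 : Continuous fun ρ : ℝ => C3 * C4 * (8 * ρ) ^ (3 / 4 : ℝ) :=
        continuous_const.mul ((continuous_const.mul continuous_id).rpow_const fun _ => Or.inr (by norm_num))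
      exact (h2.tendsto 0).mono_left nhdsWithin_le_nhds
    have e0 : C3 * C4 * (8 * 0) ^ (3 / 4 : ℝ) = 0 := by
      rw [mul_zero, Real.zero_rpow (by norm_num), mul_zero]
    rw [e0] at h1
    have h3 := h1.eventually_le_const (show 0 < η / 3 by positivity)
    have h4 : ∀ᶠ ρ : ℝ in 𝓝[>] 0, 0 < ρ := self_mem_nhdsWithin
    have h5 : ∀ᶠ ρ : ℝ in 𝓝[>] 0, ρ ≤ r := nhdsWithin_le_nhds (Iic_mem_nhds hr)
    have h6 : ∀ᶠ ρ : ℝ in 𝓝[>] 0, ρ ≤ 1 / 8 := nhdsWithin_le_nhds (Iic_mem_nhds (by norm_num))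
    obtain ⟨ρ, h⟩ := (h4.and (h5.and (h6.and h3))).exists
    exact ⟨ρ, h.1, h.2.1, h.2.2.1, h.2.2.2⟩
  have h2r : 0 < (2 / ρ) ^ (3 / 4 : ℝ) := Real.rpow_pos_of_pos (by positivity) _
  set δ : ℝ := η / (6 * C5 * C * (2 / ρ) ^ (3 / 4 : ℝ)) with hδ
  have hδ0 : 0 < δ := by positivity
  set A0 : ℝ := 3 * C5 * C2 / η with hA0
  have hA00 : 0 < A0 := by positivity
  refine ⟨ENNReal.ofReal (1 + 2 * A0 / δ ^ 2), ENNReal.ofReal_ne_top, fun ε hε => ?_⟩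
  have hlim : Tendsto (fun T : ℕ => (T : ℝ) ^ (3 / 4 : ℝ)) atTop atTop :=
    (tendsto_rpow_atTop (by norm_num)).comp tendsto_natCast_atTop_atTop
  filter_upwards [eventually_ge_atTop 8, eventually_ge_atTop ⌈2 / ρ⌉₊, hlim.eventually_ge_atTop (1 / δ),
    hlim.eventually_ge_atTop (ε ^ (-s) / δ), hrat] with N hN1 hNr hNδ hNε hNrat
  have hN0 : (0 : ℝ) < N := by
    have : 0 < N := by omega
    exact_mod_cast this
  have hN8 : (8 : ℝ) ≤ N := by exact_mod_cast hN1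
  have hNr' : 2 / ρ ≤ N := (Nat.le_ceil _).trans (by exact_mod_cast hNr)
  have hrN : 2 ≤ ρ * N := by
    rw [div_le_iff₀ hρ0] at hNr'
    linarith
  set T' : ℕ := ⌊ρ * N⌋₊ with hT'
  have hT'1 : (T' : ℝ) ≤ ρ * N := Nat.floor_le (by positivity)
  have hT'2 : ρ * N - 1 < T' := by
    have := Nat.lt_floor_add_one (ρ * N)
    rw [← hT'] at this
    linarith
  have hT'3 : ρ * N / 2 ≤ T' := by linarith
  have hT'4 : 1 ≤ T' := by
    have h1 : (1 : ℝ) ≤ T' := by linarith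
    exact_mod_cast h1
  have hT'0 : (0 : ℝ) < T' := by exact_mod_cast hT'4
  set n : ℕ := N / 2 with hn
  have hn1 : (N : ℝ) / 2 - 1 ≤ n := by
    have h1 : N ≤ 2 * n + 1 := by omega
    have h2 : (N : ℝ) ≤ 2 * n + 1 := by exact_mod_cast h1
    linarith
  have hn2 : n ≤ N := by omega
  have hT'n : T' < n := by
    have h1 : (T' : ℝ) < n := by nlinarith
    exact_mod_cast h1
  have hTT : T' ≤ N := by omega
  have huN := uu_pos N
  have hUn : uu (N - n) ≤ C5 * uu N := by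
    refine hNrat (N - n) ?_
    have h1 : N ≤ 2 * (N - n) := by omega
    have h2 : (N : ℝ) ≤ 2 * ((N - n : ℕ) : ℝ) := by exact_mod_cast h1
    linarith
  set P : ℝ := (N : ℝ) ^ (3 / 4 : ℝ) with hP
  have hP0 : 0 < P := Real.rpow_pos_of_pos hN0 _
  have hP2 : (N : ℝ) ^ (2 * (3 / 4) : ℝ) = P ^ 2 := by
    rw [hP, ← Real.rpow_natCast, ← Real.rpow_mul hN0.le]
    congr 1
    norm_num
  have hδP : 1 ≤ δ * P := by
    rw [div_le_iff₀ hδ0] at hNδ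
    linarith
  set k : ℕ := ⌈δ * P⌉₊ with hk
  have hk1 : δ * P ≤ k := Nat.le_ceil _
  have hk2 : (k : ℝ) ≤ 2 * (δ * P) := by
    have := Nat.ceil_lt_add_one (show 0 ≤ δ * P by positivity)
    rw [← hk] at this
    linarith
  have hk3 : 1 ≤ k := by
    have h1 : (1 : ℝ) ≤ k := hδP.trans hk1
    exact_mod_cast h1
  have hk0 : (0 : ℝ) < k := by linarith
  set A : ℝ≥0∞ := ENNReal.ofReal (A0 * P ^ 2) with hA
  -- the two bad events
  have hb1 : gf {t | t ∈ Brd N ∧ cN (T' + 1) t < k} ≤ ENNReal.ofReal (η / 3 * uu N) + ENNReal.ofReal (η / 3 * uu N) := by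
    refine (few_bridge hT'4 hT'n hn2 k).trans (add_le_add (ENNReal.ofReal_le_ofReal ?_) (ENNReal.ofReal_le_ofReal ?_))
    · rw [mul_comm]
      refine mul_le_mul_of_nonneg_right ?_ huN.le
      refine le_trans ?_ hρ
      have h1 := hU T' hT'4
      have h2 := hKK (n + 1 - T') (by omega)
      have h3 : (N : ℝ) / 8 ≤ ((n + 1 - T' : ℕ) : ℝ) := by
        rw [Nat.cast_sub (by omega)]
        push_cast
        nlinarith
      have h4 : ((n + 1 - T' : ℕ) : ℝ) ^ (-(3 / 4) : ℝ) ≤ ((N : ℝ) / 8) ^ (-(3 / 4) : ℝ) :=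
        Real.rpow_le_rpow_of_nonpos (by positivity) h3 (by norm_num)
      have h5 : (T' : ℝ) ^ (3 / 4 : ℝ) ≤ (ρ * N) ^ (3 / 4 : ℝ) := Real.rpow_le_rpow hT'0.le hT'1 (by norm_num)
      calc UU uu T' * KK kk (n + 1 - T') ≤ (C3 * (ρ * N) ^ (3 / 4 : ℝ)) * (C4 * ((N : ℝ) / 8) ^ (-(3 / 4) : ℝ)) := by
            refine mul_le_mul (h1.trans (by gcongr)) (h2.trans (by gcongr)) (KK_nonneg ren_uu _) (by positivity)
        _ = C3 * C4 * (8 * ρ) ^ (3 / 4 : ℝ) := by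
            have h6 : (8 * ρ) ^ (3 / 4 : ℝ) = (ρ * N) ^ (3 / 4 : ℝ) * ((N : ℝ) / 8) ^ (-(3 / 4) : ℝ) := by
              rw [Real.rpow_neg (by positivity), ← div_eq_mul_inv, ← Real.div_rpow (by positivity) (by positivity)]
              congr 1
              field_simp
            rw [h6]
            ring
    · have h1 := hfew T' k hT'4
      have h2 : (ρ * N / 2) ^ (3 / 4 : ℝ) ≤ (T' : ℝ) ^ (3 / 4 : ℝ) := Real.rpow_le_rpow (by positivity) hT'3 (by norm_num)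
      have h3 : (ρ * N / 2) ^ (3 / 4 : ℝ) = P / (2 / ρ) ^ (3 / 4 : ℝ) := by
        rw [hP, ← Real.div_rpow hN0.le (by positivity)]
        congr 1
        field_simp
      have h4 : 0 < (ρ * N / 2) ^ (3 / 4 : ℝ) := Real.rpow_pos_of_pos (by positivity) _
      calc uu (N - n) * ∑ i ∈ range k, pH kk T' i ≤ (C5 * uu N) * (C * (2 * (δ * P)) / (ρ * N / 2) ^ (3 / 4 : ℝ)) := by
            refine mul_le_mul hUn (h1.trans (by gcongr)) (Finset.sum_nonneg fun i _ => pH_nonneg ren_uu T' i) (by positivity)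
        _ = η / 3 * uu N := by
            rw [h3, hδ]
            field_simp
            ring
  have hb2 : gf {t | t ∈ Brd N ∧ A ≤ WW s T' N t} ≤ ENNReal.ofReal (η / 3 * uu N) := by
    have h1 := WW_markov_bridge (s := s) hT'n.le hn2 A
    have h2 : ∑ c ∈ Icc 1 T', ∑ d ∈ Icc 1 T', uu c * uu d * ((d : ℝ) / N) ^ (-s) ≤ C2 * P ^ 2 := by
      rw [← hP2]
      refine le_trans ?_ (hpair N (by omega))
      have hnn : ∀ c d : ℕ, 0 ≤ uu c * uu d * ((d : ℝ) / N) ^ (-s) := fun c d =>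
        mul_nonneg (mul_nonneg (uu_pos c).le (uu_pos d).le) (Real.rpow_nonneg (by positivity) _)
      have hsub : Icc 1 T' ⊆ Icc 1 N := Icc_subset_Icc_right hTT
      calc ∑ c ∈ Icc 1 T', ∑ d ∈ Icc 1 T', uu c * uu d * ((d : ℝ) / N) ^ (-s)
          ≤ ∑ c ∈ Icc 1 T', ∑ d ∈ Icc 1 N, uu c * uu d * ((d : ℝ) / N) ^ (-s) :=
            Finset.sum_le_sum fun c _ => Finset.sum_le_sum_of_subset_of_nonneg hsub fun d _ _ => hnn c d
        _ ≤ ∑ c ∈ Icc 1 N, ∑ d ∈ Icc 1 N, uu c * uu d * ((d : ℝ) / N) ^ (-s) :=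
            Finset.sum_le_sum_of_subset_of_nonneg hsub fun c _ _ => Finset.sum_nonneg fun d _ => hnn c d
    have h3 : A * gf {t | t ∈ Brd N ∧ A ≤ WW s T' N t} ≤ ENNReal.ofReal (C5 * uu N * (C2 * P ^ 2)) := by
      refine h1.trans (ENNReal.ofReal_le_ofReal (mul_le_mul hUn h2 ?_ (by positivity)))
      exact Finset.sum_nonneg fun c _ => Finset.sum_nonneg fun d _ =>
        mul_nonneg (mul_nonneg (uu_pos c).le (uu_pos d).le) (Real.rpow_nonneg (by positivity) _)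
    have hAp : 0 < A0 * P ^ 2 := by positivity
    have h4 : ENNReal.ofReal (C5 * uu N * (C2 * P ^ 2)) = A * ENNReal.ofReal (η / 3 * uu N) := by
      rw [hA, ← ENNReal.ofReal_mul hAp.le]
      congr 1
      rw [hA0]
      field_simp
    rw [h4] at h3
    exact (ENNReal.mul_le_mul_iff_right (ENNReal.ofReal_pos.2 hAp).ne' ENNReal.ofReal_ne_top).1 h3
  have hM : ((k : ℝ≥0∞))⁻¹ * ENNReal.ofReal (ε ^ (-s)) + 2 * A * (((k : ℝ≥0∞))⁻¹ * ((k : ℝ≥0∞))⁻¹) ≤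
      ENNReal.ofReal (1 + 2 * A0 / δ ^ 2) := by
    have hki : ((k : ℝ≥0∞))⁻¹ = ENNReal.ofReal ((k : ℝ)⁻¹) := by
      rw [ENNReal.ofReal_inv_of_pos hk0, ENNReal.ofReal_natCast]
    have h2A : 2 * A = ENNReal.ofReal (2 * (A0 * P ^ 2)) := by
      rw [hA, ENNReal.ofReal_mul (by norm_num : (0 : ℝ) ≤ 2), ENNReal.ofReal_ofNat]
    have hεs : 0 < ε ^ (-s) := Real.rpow_pos_of_pos hε _
    rw [hki, h2A, ← ENNReal.ofReal_mul (by positivity), ← ENNReal.ofReal_mul (by positivity),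
      ← ENNReal.ofReal_mul (by positivity), ← ENNReal.ofReal_add (by positivity) (by positivity)]
    refine ENNReal.ofReal_le_ofReal (add_le_add ?_ ?_)
    · rw [inv_mul_le_iff₀ hk0, mul_one]
      rw [div_le_iff₀ hδ0] at hNε
      linarith
    · have hδP0 : 0 < δ * P := by positivity
      have h5 : (k : ℝ)⁻¹ * (k : ℝ)⁻¹ ≤ (δ * P)⁻¹ * (δ * P)⁻¹ := by gcongr
      calc 2 * (A0 * P ^ 2) * ((k : ℝ)⁻¹ * (k : ℝ)⁻¹) ≤ 2 * (A0 * P ^ 2) * ((δ * P)⁻¹ * (δ * P)⁻¹) := by gcongr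
        _ = 2 * A0 / δ ^ 2 := by
            field_simp
  have hEn : En s ε (ENNReal.ofReal (1 + 2 * A0 / δ ^ 2)) ρ ⊆ En s ε (ENNReal.ofReal (1 + 2 * A0 / δ ^ 2)) r := by
    rintro K ⟨m, h1, h2⟩
    refine ⟨m, le_antisymm ((measure_mono (Set.compl_subset_compl.2 ?_)).trans h1.le) zero_le, h2⟩
    exact Set.inter_subset_inter_right _ (Set.Icc_subset_Icc_right hρr)
  refine (measure_mono (Set.compl_subset_compl.2 hEn)).trans ?_
  have hcm : (PB N : Measure NC) (En s ε (ENNReal.ofReal (1 + 2 * A0 / δ ^ 2)) ρ)ᶜ =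
      gf {t | t ∈ Brd N ∧ cutset N t ∈ (En s ε (ENNReal.ofReal (1 + 2 * A0 / δ ^ 2)) ρ)ᶜ} / BT N :=
    lawB_apply N (isClosed_En hs hε _ _).measurableSet.compl
  rw [hcm]
  have hBT0 : BT N ≠ 0 := by
    rw [BT_uu]
    exact (ENNReal.ofReal_pos.2 huN).ne'
  refine (ENNReal.div_le_iff hBT0 (CutH.BT_ne_top'' N)).2 ?_
  calc gf {t | t ∈ Brd N ∧ cutset N t ∈ (En s ε (ENNReal.ofReal (1 + 2 * A0 / δ ^ 2)) ρ)ᶜ}
      ≤ gf ({t | t ∈ Brd N ∧ cN (T' + 1) t < k} ∪ {t | t ∈ Brd N ∧ A ≤ WW s T' N t}) := by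
        refine gf_mono ?_
        rintro t ⟨ht, h1⟩
        by_contra hcon
        rw [Set.mem_union, not_or] at hcon
        have h2 : k ≤ cN (T' + 1) t := not_lt.1 fun h => hcon.1 ⟨ht, h⟩
        have h3 : WW s T' N t ≤ A := (lt_of_not_ge fun h => hcon.2 ⟨ht, h⟩).le
        exact h1 (good_word hs hε hρ0.le (by omega) hT'1 hTT hk3 h2 h3 hM)
    _ ≤ gf {t | t ∈ Brd N ∧ cN (T' + 1) t < k} + gf {t | t ∈ Brd N ∧ A ≤ WW s T' N t} := gf_union_le _ _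
    _ ≤ (ENNReal.ofReal (η / 3 * uu N) + ENNReal.ofReal (η / 3 * uu N)) + ENNReal.ofReal (η / 3 * uu N) := add_le_add hb1 hb2
    _ = ENNReal.ofReal η * BT N := by
        rw [BT_uu, ← ENNReal.ofReal_add (by positivity) (by positivity), ← ENNReal.ofReal_add (by positivity) (by positivity),
          ← ENNReal.ofReal_mul hη.le]
        congr 1
        ring

/-- J2, BRIDGES: every initial piece of the limit set of the cut levels has dimension at least 3/4 -/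
theorem dim_bridge_ge (hb : 0 < b) (hu : Tendsto (fun n : ℕ => (n : ℝ) ^ (1 / 4 : ℝ) * uu n) atTop (𝓝 b))
    {κ : ProbabilityMeasure NC} (hκ : Tendsto PB atTop (𝓝 κ)) :
    ∀ᵐ K : NC ∂(κ : Measure NC), ∀ r : ℝ, 0 < r → (((3 / 4 : ℝ≥0)) : ℝ≥0∞) ≤ dimH ((K : Set ℝ) ∩ Set.Icc 0 r) := by
  have h1 : ∀ n m : ℕ, ∀ᵐ K : NC ∂(κ : Measure NC), ((sq n : ℝ≥0) : ℝ≥0∞) ≤ dimH ((K : Set ℝ) ∩ Set.Icc 0 (sc m)) := by
    intro n m
    refine dim_ae hκ (sq_pos n) fun η hη => ?_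
    by_cases hη1 : η = ∞
    · exact ⟨0, ENNReal.zero_ne_top, fun _ => Eventually.of_forall fun T => by rw [hη1]; exact le_top⟩
    · have hη2 : 0 < η.toReal := ENNReal.toReal_pos hη.ne' hη1
      obtain ⟨M, hM, h⟩ := en_eventually_bridge hb hu (sq n).2 (sq_lt n) (sc_pos m) hη2
      refine ⟨M, hM, fun i => ?_⟩
      filter_upwards [h (sc i) (sc_pos i)] with T hT
      rwa [ENNReal.ofReal_toReal hη1] at hT
  have h2 : ∀ᵐ K : NC ∂(κ : Measure NC), ∀ n m : ℕ, ((sq n : ℝ≥0) : ℝ≥0∞) ≤ dimH ((K : Set ℝ) ∩ Set.Icc 0 (sc m)) := by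
    rw [ae_all_iff]
    intro n
    rw [ae_all_iff]
    exact h1 n
  filter_upwards [h2] with K hK r hr
  obtain ⟨m, hm⟩ := exists_nat_one_div_lt hr
  have h3 : dimH ((K : Set ℝ) ∩ Set.Icc 0 (sc m)) ≤ dimH ((K : Set ℝ) ∩ Set.Icc 0 r) :=
    dimH_mono (Set.inter_subset_inter_right _ (Set.Icc_subset_Icc_right hm.le))
  exact le_of_tendsto' sq_tendsto fun n => (hK n m).trans h3

end

end CutLim
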