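import Pool.Agent.CutLim.D
import Pool.Agent.CutR3.F
import Pool.Agent.CutR.One

/-! CUT_E: the avoidance probabilities of all finite unions of gaps converge (helper10).

`av_gaps`, `br_gaps`: gaps with real end points, the limits are explicit iterated integrals. `av_lim`: unions of grid cells. -/

set_option autoImplicit false

namespace CutLim

open Filter Topology Finset

open CutR3 (fw gp Ad rho Dk)

variable {u k : ℕ → ℝ} {a b c : ℝ}

/-- the constant of the tail -/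
noncomputable def ct (a b : ℝ) : ℝ := 1 / (b * Real.Gamma a * Real.Gamma (1 - a))

theorem ct_pos (ha : 0 < a) (ha1 : a < 1) (hb : 0 < b) : 0 < ct a b := by
  unfold ct
  have h1 := Real.Gamma_pos_of_pos ha
  have h2 := Real.Gamma_pos_of_pos (show 0 < 1 - a by linarith)
  positivity

/-- the limit of the avoidance probability (half-plane version): the last gap is `(x, y]` -/
noncomputable def Avl (a b c : ℝ) : List (ℝ × ℝ) → ℝ
  | [] => 1
  | p :: l => ∫ r in (0:ℝ)..p.1, rho a b c l r * (c * (p.2 - r) ^ (-a))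

/-- HALF-PLANE VERSION: the probability that no renewal point lies in a gap converges -/
theorem av_gaps' (h : Ren u k) (ha : 0 < a) (ha1 : a < 1) (hc : 0 < c)
    (hu : Tendsto (fun n : ℕ => (n : ℝ) ^ (1 - a) * u n) atTop (𝓝 b))
    (hk : Tendsto (fun n : ℕ => (n : ℝ) ^ a * KK k n) atTop (𝓝 c)) {l : List (ℝ × ℝ)} {t : ℝ} (hl : Ad l t) :
    Tendsto (fun T : ℕ => av k (gp l T) ⌊t * (T : ℝ)⌋₊ 0) atTop (𝓝 (Avl a b c l)) := by
  cases l with
  | nil =>
    refine tendsto_const_nhds.congr fun T => ?_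
    rw [CutR3.gp_nil, av_empty h (Nat.zero_le _) (fun j hj => absurd hj (Set.notMem_empty j))]
    rfl
  | cons p l =>
    have hp := hl.le p List.mem_cons_self
    have h1 := CutR3.tail_lim h ha ha1 hc hu hk hl.2.2 hp.2.1 tendsto_id
    refine h1.congr fun T => ?_
    show ∑ j ∈ range (⌊p.1 * (T : ℝ)⌋₊ + 1), fw k (gp l T) j * KK k (⌊p.2 * (T : ℝ)⌋₊ + 1 - j) = _
    have hT : (0:ℝ) ≤ T := Nat.cast_nonneg T
    symm
    rw [av_gap h (Nat.floor_le_floor (mul_le_mul_of_nonneg_right hp.2.1 hT))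
      (Nat.floor_le_floor (mul_le_mul_of_nonneg_right hp.2.2 hT))
      (fun j h1 h2 => (CutR3.gp_cons hp.1 hp.2.1 T j).2 (Or.inr ⟨h1, h2⟩))]
    · refine Finset.sum_congr rfl fun j hj => ?_
      have hj' : j ≤ ⌊p.1 * (T : ℝ)⌋₊ := by
        have := Finset.mem_range.1 hj
        omega
      rw [CutR3.fw_congr k (G' := gp l T)]
      intro i hi
      rw [CutR3.gp_cons hp.1 hp.2.1]
      constructor
      · rintro (h2 | h2)
        · exact h2
        · omega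
      · exact Or.inl
    · intro j hj
      left
      by_contra h2
      rw [not_le] at h2
      exact CutR3.gp_le (l := p :: l) (r := p.2) ⟨hp.2.1, le_rfl, hl.2.2⟩ T j h2 hj

theorem av_gaps (h : Ren u k) (ha : 0 < a) (ha1 : a < 1) (hb : 0 < b)
    (hu : Tendsto (fun n : ℕ => (n : ℝ) ^ (1 - a) * u n) atTop (𝓝 b)) {l : List (ℝ × ℝ)} (hl : Ad l 1) :
    Tendsto (fun T : ℕ => av k (gp l T) T 0) atTop (𝓝 (Avl a b (ct a b) l)) := by
  refine (av_gaps' h ha ha1 (ct_pos ha ha1 hb) hu (KK_tendsto h ha ha1 hb hu) hl).congr fun T => ?_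
  rw [one_mul, Nat.floor_natCast]

/-- BRIDGE VERSION: conditioned on `T` being a renewal point -/
theorem br_gaps (h : Ren u k) (ha : 0 < a) (ha1 : a < 1) (hb : 0 < b)
    (hu : Tendsto (fun n : ℕ => (n : ℝ) ^ (1 - a) * u n) atTop (𝓝 b)) {l : List (ℝ × ℝ)} {r : ℝ} (hl : Ad l r)
    (hr : r < 1) :
    Tendsto (fun T : ℕ => fw k (gp l T) T / u T) atTop (𝓝 (rho a b (ct a b) l 1 / b)) :=
  CutR3.bridge_lim h ha ha1 hb (ct_pos ha ha1 hb) hu (KK_tendsto h ha ha1 hb hu) hl hr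

/-- the list of the cells below `n` -/
noncomputable def cl (m : ℕ) (A : Finset ℕ) : ℕ → List (ℝ × ℝ)
  | 0 => []
  | n + 1 => if n ∈ A then ((n : ℝ) / m, ((n : ℝ) + 1) / m) :: cl m A n else cl m A n

theorem mem_cl {m : ℕ} {A : Finset ℕ} {n : ℕ} {p : ℝ × ℝ} :
    p ∈ cl m A n ↔ ∃ l, l < n ∧ l ∈ A ∧ p = ((l : ℝ) / m, ((l : ℝ) + 1) / m) := by
  induction n with
  | zero => simp [cl]
  | succ n ih =>
    rw [cl]
    by_cases hn : n ∈ A
    · rw [if_pos hn, List.mem_cons, ih]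
      constructor
      · rintro (h | ⟨l, h1, h2, h3⟩)
        · exact ⟨n, Nat.lt_succ_self n, hn, h⟩
        · exact ⟨l, Nat.lt_succ_of_lt h1, h2, h3⟩
      · rintro ⟨l, h1, h2, h3⟩
        rcases Nat.lt_succ_iff_lt_or_eq.1 h1 with h4 | h4
        · exact Or.inr ⟨l, h4, h2, h3⟩
        · rw [h4] at h3
          exact Or.inl h3
    · rw [if_neg hn, ih]
      constructor
      · rintro ⟨l, h1, h2, h3⟩
        exact ⟨l, Nat.lt_succ_of_lt h1, h2, h3⟩
      · rintro ⟨l, h1, h2, h3⟩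
        rcases Nat.lt_succ_iff_lt_or_eq.1 h1 with h4 | h4
        · exact ⟨l, h4, h2, h3⟩
        · rw [h4] at h2
          exact absurd h2 hn

theorem Ad_cl {m : ℕ} (hm : 1 ≤ m) {A : Finset ℕ} (hA : 0 ∉ A) {n : ℕ} (hn : 1 ≤ n) :
    Ad (cl m A n) ((n : ℝ) / m) := by
  have hm' : (0:ℝ) < m := by exact_mod_cast hm
  induction n, hn using Nat.le_induction with
  | base =>
    rw [cl, if_neg hA, cl]
    show (0:ℝ) < ((1 : ℕ) : ℝ) / m
    rw [Nat.cast_one]
    positivity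
  | succ n hn ih =>
    have h1 : (n : ℝ) / m ≤ ((n : ℝ) + 1) / m := div_le_div_of_nonneg_right (by linarith) hm'.le
    rw [cl, Nat.cast_succ]
    by_cases hnA : n ∈ A
    · rw [if_pos hnA]
      exact ⟨h1, le_rfl, ih⟩
    · rw [if_neg hnA]
      exact ih.mono h1

theorem gp_cl {m : ℕ} (hm : 1 ≤ m) {A : Finset ℕ} (hA : A ⊆ range m) (T : ℕ) : gp (cl m A m) T = cells m A T := by
  have hm' : (0:ℝ) < m := by exact_mod_cast hm
  ext j
  have key : ∀ l : ℕ, ((l : ℝ) / m * T < j ↔ l * T < m * j) ∧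
      ((j : ℝ) ≤ ((l : ℝ) + 1) / m * T ↔ m * j ≤ (l + 1) * T) := by
    intro l
    constructor
    · rw [div_mul_eq_mul_div, div_lt_iff₀ hm', mul_comm (j : ℝ)]
      exact_mod_cast Iff.rfl
    · rw [div_mul_eq_mul_div, le_div_iff₀ hm', mul_comm (j : ℝ)]
      exact_mod_cast Iff.rfl
  constructor
  · rintro ⟨p, hp, h1, h2⟩
    obtain ⟨l, -, hl, rfl⟩ := mem_cl.1 hp
    exact ⟨l, hl, (key l).1.1 h1, (key l).2.1 h2⟩
  · rintro ⟨l, hl, h1, h2⟩
    exact ⟨_, mem_cl.2 ⟨l, Finset.mem_range.1 (hA hl), hl, rfl⟩, (key l).1.2 h1, (key l).2.2 h2⟩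

/-- the avoidance probabilities of the cells converge (start in 0) -/
theorem av_lim (h : Ren u k) (ha : 0 < a) (ha1 : a < 1) (hb : 0 < b)
    (hu : Tendsto (fun n : ℕ => (n : ℝ) ^ (1 - a) * u n) atTop (𝓝 b)) {m : ℕ} (hm : 1 ≤ m) {A : Finset ℕ}
    (hA : A ⊆ range m) :
    ∃ g : ℝ, Tendsto (fun T : ℕ => av k (cells m A T) T 0) atTop (𝓝 g) := by
  have hm' : (0:ℝ) < m := by exact_mod_cast hm
  by_cases h0 : 0 ∈ A
  · refine ⟨0, ?_⟩
    have h1 : Tendsto (fun T : ℕ => KK k (T / m + 1)) atTop (𝓝 0) := by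
      refine (KK_zero_lim h).comp ((tendsto_add_atTop_nat 1).comp ?_)
      exact Nat.tendsto_div_const_atTop (by omega)
    refine squeeze_zero (fun T => av_nonneg h _ _ _) (fun T => ?_) h1
    refine av_initial h (Nat.div_le_self T m) fun j hj hj' => ⟨0, h0, ?_, ?_⟩
    · rw [zero_mul]
      positivity
    · rw [zero_add, one_mul]
      exact (Nat.mul_le_mul_left m hj').trans (Nat.mul_div_le T m)
  · have h1 := Ad_cl hm h0 hm
    rw [div_self hm'.ne'] at h1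
    refine ⟨_, (av_gaps h ha ha1 hb hu h1).congr fun T => ?_⟩
    rw [gp_cl hm hA]

/-- one interval -/
theorem av_one_lim (h : Ren u k) (ha : 0 < a) (ha1 : a < 1) (hb : 0 < b)
    (hu : Tendsto (fun n : ℕ => (n : ℝ) ^ (1 - a) * u n) atTop (𝓝 b)) {x y : ℝ} (hx : 0 ≤ x) (hxy : x < y) :
    Tendsto (fun T : ℕ => ∑ i ∈ Icc 0 ⌊x * T⌋₊, u i * KK k (⌊y * T⌋₊ + 1 - i)) atTop
      (𝓝 ((Real.Gamma a * Real.Gamma (1 - a))⁻¹ * ∫ r in (0 : ℝ)..(x / y), r ^ (a - 1) * (1 - r) ^ (-a))) :=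
  av_one_lim' h ha ha1 hb hu hx hxy

/-- one gap: the generalised arcsine law -/
theorem Avl_one (h : Ren u k) (ha : 0 < a) (ha1 : a < 1) (hb : 0 < b)
    (hu : Tendsto (fun n : ℕ => (n : ℝ) ^ (1 - a) * u n) atTop (𝓝 b)) {x y : ℝ} (hx : 0 < x) (hxy : x < y) :
    Avl a b (ct a b) [(x, y)] =
      (Real.Gamma a * Real.Gamma (1 - a))⁻¹ * ∫ r in (0 : ℝ)..(x / y), r ^ (a - 1) * (1 - r) ^ (-a) := by
  have h1 : Ad [(x, y)] y := ⟨hxy.le, le_rfl, hx⟩
  have h2 := av_gaps' h ha ha1 (ct_pos ha ha1 hb) hu (KK_tendsto h ha ha1 hb hu) h1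
  refine tendsto_nhds_unique h2 ((av_one_lim h ha ha1 hb hu hx.le hxy).congr fun T => ?_)
  have hT : (0:ℝ) ≤ T := Nat.cast_nonneg T
  rw [av_one_zero h (m := ⌊x * (T : ℝ)⌋₊) (Nat.floor_le_floor (mul_le_mul_of_nonneg_right hxy.le hT)) le_rfl]
  · refine Finset.sum_congr ?_ fun _ _ => rfl
    ext i
    simp only [Finset.mem_Icc, Finset.mem_range]
    omega
  · intro j
    rw [CutR3.gp_cons (l := []) hx hxy.le, CutR3.gp_nil]
    simp

end CutLim
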