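import Pool.Agent.CutLim.E

/-! CUT_E2: the bridge version for the cells, continuity of the limits at degenerate gaps (helper10). -/

set_option autoImplicit false

namespace CutLim

open Filter Topology Finset MeasureTheory

open CutR3 (fw gp Ad rho Dk)

variable {u k : ℕ → ℝ} {a b c : ℝ}

theorem fw_anti (h : Ren u k) {G G' : Set ℕ} (hG : G ⊆ G') (i : ℕ) : fw k G' i ≤ fw k G i := by
  induction i using Nat.strong_induction_on with
  | _ i ih =>
    rcases Nat.eq_zero_or_pos i with rfl | hi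
    · rw [CutR3.fw_zero, CutR3.fw_zero]
    · by_cases h1 : i ∈ G'
      · rw [CutR3.fw_mem k hi h1]
        exact CutR3.fw_nonneg h G i
      · rw [CutR3.fw_not k hi h1, CutR3.fw_not k hi (fun h2 => h1 (hG h2))]
        exact Finset.sum_le_sum fun j hj => mul_le_mul_of_nonneg_right (ih j (Finset.mem_range.1 hj)) (h.kn _)

/-- an initial gap -/
theorem fw_initial (h : Ren u k) {G : Set ℕ} {m N : ℕ} (hm : m < N) (hG : ∀ j, 0 < j → j ≤ m → j ∈ G) :
    fw k G N ≤ KK k (m + 1) := by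
  set G0 : Set ℕ := {j | 0 < j ∧ j ≤ m} with hG0
  have h1 : fw k G N ≤ fw k G0 N := fw_anti h (fun j hj => hG j hj.1 hj.2) N
  have h2 := CutR3.entrance h hm (G := G0) (fun j hj _ hj' => by
    have := hj'.2
    omega)
  have h3 : ∀ n, ∑ j ∈ range (m + 1), fw k G0 j * k (n - j) = k n := by
    intro n
    rw [Finset.sum_eq_single_of_mem 0 (Finset.mem_range.2 (by omega)), CutR3.fw_zero, one_mul, Nat.sub_zero]
    intro j hj hj0
    have := Finset.mem_range.1 hj
    have h5 : j ∈ G0 := ⟨by omega, by omega⟩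
    rw [CutR3.fw_mem k (by omega) h5, zero_mul]
  have h4 : fw k G0 N ≤ ∑ n ∈ Ioc m N, k n := by
    rw [h2]
    refine Finset.sum_le_sum fun n _ => ?_
    rw [h3]
    exact (mul_le_mul_of_nonneg_left (u_le_one h _) (h.kn n)).trans (mul_one _).le
  have h5 := sum_k k (Nat.zero_le m) hm.le
  simp only [Nat.sub_zero] at h5
  rw [h5] at h4
  have h6 := KK_nonneg h (N + 1)
  linarith

/-- BRIDGE VERSION for the cells -/
theorem br_lim (h : Ren u k) (ha : 1 / 2 < a) (ha1 : a < 1) (hb : 0 < b)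
    (hu : Tendsto (fun n : ℕ => (n : ℝ) ^ (1 - a) * u n) atTop (𝓝 b)) {m : ℕ} (hm : 1 ≤ m) {A : Finset ℕ}
    (hA : A ⊆ range m) :
    ∃ g : ℝ, Tendsto (fun T : ℕ => fw k (cells m A T) T / u T) atTop (𝓝 g) := by
  have ha0 : 0 < a := by linarith
  have hm' : (0:ℝ) < m := by exact_mod_cast hm
  by_cases htop : m - 1 ∈ A
  · -- the last cell contains `T`
    refine ⟨0, tendsto_const_nhds.congr' ?_⟩
    filter_upwards [eventually_gt_atTop 0] with T hT
    have h1 : T ∈ cells m A T := by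
      refine ⟨m - 1, htop, ?_, ?_⟩
      · exact Nat.mul_lt_mul_of_pos_right (by omega) hT
      · rw [Nat.sub_add_cancel hm]
    rw [CutR3.fw_mem k hT h1, zero_div]
  by_cases h0 : 0 ∈ A
  · refine ⟨0, ?_⟩
    have hm2 : 2 ≤ m := by
      by_contra h1
      have h2 : m = 1 := by omega
      rw [h2] at htop
      exact htop h0
    -- the bound `KK (T / m + 1) / u T`
    obtain ⟨C, hC0, hC⟩ := CutR3.KK_bound (KK_tendsto h ha0 ha1 hb hu)
    have h1 : Tendsto (fun T : ℕ => C * (m : ℝ) ^ a * (T : ℝ) ^ (-(2 * a - 1)) / ((T : ℝ) ^ (1 - a) * u T)) atTop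
        (𝓝 0) := by
      have h2 : Tendsto (fun T : ℕ => (T : ℝ) ^ (-(2 * a - 1))) atTop (𝓝 0) :=
        (tendsto_rpow_neg_atTop (by linarith)).comp tendsto_natCast_atTop_atTop
      have h3 := (h2.const_mul (C * (m : ℝ) ^ a)).div hu hb.ne'
      rw [mul_zero, zero_div] at h3
      exact h3
    refine squeeze_zero' (Eventually.of_forall fun T =>
      div_nonneg (CutR3.fw_nonneg h _ _) (u_nonneg h _)) ?_ h1
    have hupos : ∀ᶠ T : ℕ in atTop, 0 < (T : ℝ) ^ (1 - a) * u T := hu.eventually_const_lt hb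
    filter_upwards [eventually_gt_atTop 0, hupos] with T hT hT2
    have hT' : (0:ℝ) < T := by exact_mod_cast hT
    have hTa : 0 < (T : ℝ) ^ (1 - a) := Real.rpow_pos_of_pos hT' _
    have hu0 : 0 < u T := pos_of_mul_pos_right hT2 hTa.le
    have h2 : fw k (cells m A T) T ≤ KK k (T / m + 1) := by
      refine fw_initial h (Nat.div_lt_self hT hm2) fun j hj hj' => ⟨0, h0, ?_, ?_⟩
      · rw [zero_mul]
        positivity
      · rw [zero_add, one_mul]
        exact (Nat.mul_le_mul_left m hj').trans (Nat.mul_div_le T m)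
    have h3 : KK k (T / m + 1) ≤ C * (m : ℝ) ^ a * (T : ℝ) ^ (-a) := by
      refine (hC _ (Nat.succ_pos _)).trans ?_
      have h4 : (T : ℝ) / m ≤ ((T / m + 1 : ℕ) : ℝ) := by
        rw [div_le_iff₀ hm']
        have h5 : T < (T / m + 1) * m := Nat.lt_mul_of_div_lt (Nat.lt_succ_self _) (by omega)
        exact_mod_cast h5.le
      have h5 := Real.rpow_le_rpow_of_nonpos (div_pos hT' hm') h4 (show -a ≤ 0 by linarith)
      refine (mul_le_mul_of_nonneg_left h5 hC0.le).trans (le_of_eq ?_)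
      rw [Real.div_rpow hT'.le hm'.le, Real.rpow_neg hm'.le, div_inv_eq_mul]
      ring
    rw [div_le_div_iff₀ hu0 hT2]
    have h4 : (T : ℝ) ^ (-a) * (T : ℝ) ^ (1 - a) = (T : ℝ) ^ (-(2 * a - 1)) := by
      rw [← Real.rpow_add hT']
      congr 1
      ring
    calc fw k (cells m A T) T * ((T : ℝ) ^ (1 - a) * u T)
        ≤ (C * (m : ℝ) ^ a * (T : ℝ) ^ (-a)) * ((T : ℝ) ^ (1 - a) * u T) :=
          mul_le_mul_of_nonneg_right (h2.trans h3) hT2.le
      _ = C * (m : ℝ) ^ a * ((T : ℝ) ^ (-a) * (T : ℝ) ^ (1 - a)) * u T := by ring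
      _ = C * (m : ℝ) ^ a * (T : ℝ) ^ (-(2 * a - 1)) * u T := by rw [h4]
  · -- the generic case
    have h1 : ∃ r : ℝ, r < 1 ∧ Ad (cl m A m) r := by
      obtain ⟨n, rfl⟩ : ∃ n, m = n + 1 := ⟨m - 1, by omega⟩
      have h2 : n ∉ A := by
        rw [Nat.add_sub_cancel] at htop
        exact htop
      rw [cl, if_neg h2]
      rcases Nat.eq_zero_or_pos n with rfl | hn
      · exact ⟨1 / 2, by norm_num, show (0:ℝ) < 1 / 2 by norm_num⟩
      · refine ⟨(n : ℝ) / (n + 1 : ℕ), ?_, Ad_cl hm h0 hn⟩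
        rw [div_lt_one (by positivity)]
        push_cast
        linarith
    obtain ⟨r, hr, hl⟩ := h1
    refine ⟨_, (br_gaps h ha0 ha1 hb hu hl hr).congr fun T => ?_⟩
    rw [gp_cl hm hA]

/-- the kernel integrals depend continuously on the end points, also at degenerate gaps -/
theorem cont_int (ha : 0 < a) (ha1 : a < 1) {g : ℝ → ℝ} {x0 z : ℝ} (hx0 : 0 < x0) (hz : x0 < z)
    (hg : ContinuousOn g (Set.Icc 0 z)) {ι : Type*} {L : Filter ι} [L.IsCountablyGenerated] {x y : ι → ℝ}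
    (hx : Tendsto x L (𝓝 x0)) (hy : Tendsto y L (𝓝 x0)) (hxy : ∀ᶠ i in L, x i ≤ y i) :
    Tendsto (fun i => ∫ r in (0:ℝ)..(x i), g r * (r ^ (a - 1) * (y i - r) ^ (-a))) L
      (𝓝 (∫ r in (0:ℝ)..x0, g r * (r ^ (a - 1) * (x0 - r) ^ (-a)))) := by
  obtain ⟨M, hM⟩ := isCompact_Icc.exists_bound_of_continuousOn hg
  -- scaling
  have key : ∀ x y : ℝ, 0 < x → ∫ r in (0:ℝ)..x, g r * (r ^ (a - 1) * (y - r) ^ (-a)) =
      ∫ t in (0:ℝ)..1, x * (g (x * t) * ((x * t) ^ (a - 1) * (y - x * t) ^ (-a))) := by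
    intro x y _
    have h1 := intervalIntegral.mul_integral_comp_mul_left (a := 0) (b := 1)
      (f := fun r : ℝ => g r * (r ^ (a - 1) * (y - r) ^ (-a))) x
    rw [mul_zero, mul_one] at h1
    rw [← h1, intervalIntegral.integral_const_mul]
  have hxpos : ∀ᶠ i in L, 0 < x i := hx.eventually_const_lt hx0
  have hxz : ∀ᶠ i in L, x i < z := hx.eventually_lt_const hz
  rw [key x0 x0 hx0]
  have hmain : Tendsto (fun i => ∫ t in (0:ℝ)..1,
      x i * (g (x i * t) * ((x i * t) ^ (a - 1) * (y i - x i * t) ^ (-a)))) L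
      (𝓝 (∫ t in (0:ℝ)..1, x0 * (g (x0 * t) * ((x0 * t) ^ (a - 1) * (x0 - x0 * t) ^ (-a))))) := by
    simp_rw [intervalIntegral.integral_of_le (zero_le_one' ℝ), integral_Ioc_eq_integral_Ioo]
    refine tendsto_integral_filter_of_dominated_convergence
      (fun t => M * (t ^ (a - 1) * (1 - t) ^ (-a))) ?_ ?_ ((CutR3.maj_integrable ha ha1 one_pos).const_mul M) ?_
    · filter_upwards [hxpos, hxz, hxy] with i h1 h2 h3
      refine ContinuousOn.aestronglyMeasurable ?_ measurableSet_Ioo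
      have hin : ∀ t ∈ Set.Ioo (0:ℝ) 1, x i * t ∈ Set.Icc 0 z := fun t ht =>
        ⟨mul_nonneg h1.le ht.1.le, (mul_le_of_le_one_right h1.le ht.2.le).trans h2.le⟩
      have hlin : ContinuousOn (fun t : ℝ => x i * t) (Set.Ioo (0:ℝ) 1) := by fun_prop
      refine continuousOn_const.mul ((hg.comp hlin hin).mul (ContinuousOn.mul ?_ ?_))
      · exact hlin.rpow_const fun t ht => Or.inl (mul_pos h1 ht.1).ne'
      · refine (continuousOn_const.sub hlin).rpow_const fun t ht => Or.inl ?_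
        have : x i * t < x i := mul_lt_of_lt_one_right h1 ht.2
        exact (show 0 < y i - x i * t by linarith).ne'
    · filter_upwards [hxpos, hxz, hxy] with i h1 h2 h3
      refine (ae_restrict_iff' measurableSet_Ioo).2 (ae_of_all _ fun t ht => ?_)
      have hin : x i * t ∈ Set.Icc 0 z :=
        ⟨mul_nonneg h1.le ht.1.le, (mul_le_of_le_one_right h1.le ht.2.le).trans h2.le⟩
      have ht1 : 0 < 1 - t := by linarith [ht.2]
      have h4 : x i * (1 - t) ≤ y i - x i * t := by linarith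
      have h5 : (y i - x i * t) ^ (-a) ≤ (x i) ^ (-a) * (1 - t) ^ (-a) := by
        rw [← Real.mul_rpow h1.le ht1.le]
        exact Real.rpow_le_rpow_of_nonpos (mul_pos h1 ht1) h4 (by linarith)
      have h6 : 0 ≤ (y i - x i * t) ^ (-a) := Real.rpow_nonneg ((mul_pos h1 ht1).le.trans h4) _
      rw [norm_mul, norm_mul, norm_mul, Real.norm_of_nonneg h1.le,
        Real.norm_of_nonneg (Real.rpow_nonneg (mul_pos h1 ht.1).le _), Real.norm_of_nonneg h6,
        Real.mul_rpow h1.le ht.1.le]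
      have h7 := hM _ hin
      have hM0 : 0 ≤ M := (norm_nonneg _).trans h7
      have h8 : 0 < (x i) ^ (a - 1) := Real.rpow_pos_of_pos h1 _
      have h9 : 0 < t ^ (a - 1) := Real.rpow_pos_of_pos ht.1 _
      have e1 : x i * ((x i) ^ (a - 1) * (x i) ^ (-a)) = 1 := by
        rw [← Real.rpow_add h1, show a - 1 + -a = -1 by ring, Real.rpow_neg_one, mul_inv_cancel₀ h1.ne']
      calc x i * (‖g (x i * t)‖ * ((x i) ^ (a - 1) * t ^ (a - 1) * (y i - x i * t) ^ (-a)))
          ≤ x i * (M * ((x i) ^ (a - 1) * t ^ (a - 1) * ((x i) ^ (-a) * (1 - t) ^ (-a)))) := by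
            refine mul_le_mul_of_nonneg_left ?_ h1.le
            exact mul_le_mul h7 (mul_le_mul_of_nonneg_left h5 (mul_pos h8 h9).le)
              (mul_nonneg (mul_pos h8 h9).le h6) hM0
        _ = (x i * ((x i) ^ (a - 1) * (x i) ^ (-a))) * (M * (t ^ (a - 1) * (1 - t) ^ (-a))) := by ring
        _ = M * (t ^ (a - 1) * (1 - t) ^ (-a)) := by rw [e1, one_mul]
    · refine (ae_restrict_iff' measurableSet_Ioo).2 (ae_of_all _ fun t ht => ?_)
      have hxt : Tendsto (fun i => x i * t) L (𝓝 (x0 * t)) := hx.mul_const t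
      have hp : 0 < x0 * t := mul_pos hx0 ht.1
      have hq : x0 * t < x0 := mul_lt_of_lt_one_right hx0 ht.2
      have hgc : ContinuousAt g (x0 * t) := hg.continuousAt (Icc_mem_nhds hp (hq.trans hz))
      refine hx.mul ((hgc.tendsto.comp hxt).mul ((hxt.rpow_const (Or.inl hp.ne')).mul ?_))
      exact (hy.sub hxt).rpow_const (Or.inl (by linarith))
  refine hmain.congr' ?_
  filter_upwards [hxpos] with i h1
  exact (key _ _ h1).symm

/-- the normalisation: `∫_0^x b r^(a-1) c (x-r)^(-a) = 1` -/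
theorem beta_one (h : Ren u k) (ha : 0 < a) (ha1 : a < 1) (hc : 0 < c)
    (hu : Tendsto (fun n : ℕ => (n : ℝ) ^ (1 - a) * u n) atTop (𝓝 b))
    (hk : Tendsto (fun n : ℕ => (n : ℝ) ^ a * KK k n) atTop (𝓝 c)) {x : ℝ} (hx : 0 < x) :
    ∫ r in (0:ℝ)..x, b * r ^ (a - 1) * (c * (x - r) ^ (-a)) = 1 := by
  have h1 := CutR3.tail_lim h ha ha1 hc hu hk (l := []) hx le_rfl tendsto_id
  refine tendsto_nhds_unique h1 (tendsto_const_nhds.congr fun T => ?_)
  show (1:ℝ) = ∑ j ∈ range (⌊x * (T : ℝ)⌋₊ + 1), fw k (gp [] T) j * KK k (⌊x * (T : ℝ)⌋₊ + 1 - j)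
  rw [← KK_renewal h ⌊x * (T : ℝ)⌋₊]
  refine Finset.sum_congr rfl fun j _ => ?_
  rw [CutR3.gp_nil, CutR3.fw_empty h]

/-- half plane: continuity at a degenerate gap -/
theorem Avl_cont (h : Ren u k) (ha : 0 < a) (ha1 : a < 1) (hb : 0 < b)
    (hu : Tendsto (fun n : ℕ => (n : ℝ) ^ (1 - a) * u n) atTop (𝓝 b)) {x0 : ℝ} (hx0 : 0 < x0)
    {ι : Type*} {L : Filter ι} [L.IsCountablyGenerated] {x y : ι → ℝ}
    (hx : Tendsto x L (𝓝 x0)) (hy : Tendsto y L (𝓝 x0)) (hxy : ∀ᶠ i in L, x i ≤ y i) :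
    Tendsto (fun i => Avl a b (ct a b) [(x i, y i)]) L (𝓝 1) := by
  have h1 := cont_int ha ha1 (g := fun _ => b * ct a b) hx0 (show x0 < x0 + 1 by linarith) continuousOn_const
    hx hy hxy
  have h2 : ∫ r in (0:ℝ)..x0, (fun _ => b * ct a b) r * (r ^ (a - 1) * (x0 - r) ^ (-a)) = 1 := by
    refine Eq.trans (intervalIntegral.integral_congr fun r _ => ?_)
      (beta_one h ha ha1 (ct_pos ha ha1 hb) hu (KK_tendsto h ha ha1 hb hu) hx0)
    show b * ct a b * (r ^ (a - 1) * (x0 - r) ^ (-a)) = b * r ^ (a - 1) * (ct a b * (x0 - r) ^ (-a))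
    ring
  rw [h2] at h1
  refine h1.congr fun i => ?_
  refine intervalIntegral.integral_congr fun r _ => ?_
  show b * ct a b * (r ^ (a - 1) * (y i - r) ^ (-a)) = b * r ^ (a - 1) * (ct a b * (y i - r) ^ (-a))
  ring

theorem intv_int (ha : 0 < a) (ha1 : a < 1) {g : ℝ → ℝ} {x y : ℝ} (hx : 0 < x) (hxy : x ≤ y)
    (hg : ContinuousOn g (Set.Icc 0 x)) :
    IntervalIntegrable (fun r : ℝ => g r * (r ^ (a - 1) * (y - r) ^ (-a))) volume 0 x := by
  rw [intervalIntegrable_iff_integrableOn_Ioo_of_le hx.le]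
  obtain ⟨M, hM⟩ := isCompact_Icc.exists_bound_of_continuousOn hg
  refine Integrable.mono' ((CutR3.maj_integrable ha ha1 hx).const_mul M) ?_ ?_
  · refine ContinuousOn.aestronglyMeasurable ?_ measurableSet_Ioo
    refine (hg.mono Set.Ioo_subset_Icc_self).mul (ContinuousOn.mul ?_ ?_)
    · exact continuousOn_id.rpow_const fun t ht => Or.inl ht.1.ne'
    · exact (continuousOn_const.sub continuousOn_id).rpow_const fun t ht => Or.inl
        (show y - t ≠ 0 by linarith [ht.2])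
  · refine (ae_restrict_iff' measurableSet_Ioo).2 (ae_of_all _ fun t ht => ?_)
    have h1 : 0 < x - t := by linarith [ht.2]
    have h2 : x - t ≤ y - t := by linarith
    have h3 : (y - t) ^ (-a) ≤ (x - t) ^ (-a) := Real.rpow_le_rpow_of_nonpos h1 h2 (by linarith)
    have h4 := hM t ⟨ht.1.le, ht.2.le⟩
    have h5 : 0 ≤ t ^ (a - 1) := Real.rpow_nonneg ht.1.le _
    have h6 : 0 ≤ (y - t) ^ (-a) := Real.rpow_nonneg (h1.le.trans h2) _
    rw [norm_mul, Real.norm_of_nonneg (mul_nonneg h5 h6)]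
    exact mul_le_mul h4 (mul_le_mul_of_nonneg_left h3 h5) (mul_nonneg h5 h6) ((norm_nonneg _).trans h4)

/-- bridge: continuity at a degenerate gap -/
theorem br_cont (ha : 0 < a) (ha1 : a < 1) (hb : 0 < b) {x0 : ℝ} (hx0 : 0 < x0) (hx1 : x0 < 1)
    {ι : Type*} {L : Filter ι} [L.IsCountablyGenerated] {x y : ι → ℝ}
    (hx : Tendsto x L (𝓝 x0)) (hy : Tendsto y L (𝓝 x0)) (hxy : ∀ᶠ i in L, x i ≤ y i) :
    Tendsto (fun i => rho a b c [(x i, y i)] 1 / b) L (𝓝 1) := by
  set z : ℝ := (x0 + 1) / 2 with hz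
  have hz0 : x0 < z := by rw [hz]; linarith
  have hz1 : z < 1 := by rw [hz]; linarith
  have hg : ContinuousOn (fun r : ℝ => (1 - r)⁻¹) (Set.Icc 0 z) := by
    refine ContinuousOn.inv₀ (by fun_prop) fun r hr => ?_
    have := hr.2
    linarith
  have h1 := cont_int ha ha1 hx0 hz0 hg hx hx (Eventually.of_forall fun i => le_rfl)
  have h2 := cont_int ha ha1 hx0 hz0 hg hx hy hxy
  have hxa : Tendsto (fun i => (1 - x i) ^ a) L (𝓝 ((1 - x0) ^ a)) :=
    (tendsto_const_nhds.sub hx).rpow_const (Or.inl (by linarith))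
  have hya : Tendsto (fun i => (1 - y i) ^ a) L (𝓝 ((1 - x0) ^ a)) :=
    (tendsto_const_nhds.sub hy).rpow_const (Or.inl (by linarith))
  have h3 := (((hxa.mul h1).sub (hya.mul h2)).const_mul (b * c)).const_sub 1
  rw [sub_self, mul_zero, sub_zero] at h3
  refine h3.congr' ?_
  filter_upwards [hx.eventually_const_lt hx0, hx.eventually_lt_const hz0, hy.eventually_lt_const hz0, hxy]
    with i hi1 hi2 hi3 hi4
  have e : rho a b c [(x i, y i)] 1 = b - ∫ r in (0:ℝ)..(x i), b * r ^ (a - 1) * Dk (b * c) a r 1 (x i) (y i) := by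
    rw [rho, if_neg (by simp only [not_le]; linarith), if_neg (by simp only [not_le]; linarith), rho]
    rw [Real.one_rpow, mul_one]
    rfl
  have hgi : ContinuousOn (fun r : ℝ => (1 - r)⁻¹) (Set.Icc 0 (x i)) :=
    hg.mono (Set.Icc_subset_Icc_right hi2.le)
  have e2 : ∫ r in (0:ℝ)..(x i), b * r ^ (a - 1) * Dk (b * c) a r 1 (x i) (y i) =
      b * (b * c) * ((1 - x i) ^ a * (∫ r in (0:ℝ)..(x i), (1 - r)⁻¹ * (r ^ (a - 1) * (x i - r) ^ (-a))) -
        (1 - y i) ^ a * ∫ r in (0:ℝ)..(x i), (1 - r)⁻¹ * (r ^ (a - 1) * (y i - r) ^ (-a))) := by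
    rw [← intervalIntegral.integral_const_mul ((1 - x i) ^ a), ← intervalIntegral.integral_const_mul ((1 - y i) ^ a),
      ← intervalIntegral.integral_sub ((intv_int ha ha1 hi1 le_rfl hgi).const_mul _)
        ((intv_int ha ha1 hi1 hi4 hgi).const_mul _), ← intervalIntegral.integral_const_mul]
    rw [intervalIntegral.integral_of_le hi1.le, intervalIntegral.integral_of_le hi1.le,
      integral_Ioc_eq_integral_Ioo, integral_Ioc_eq_integral_Ioo]
    refine setIntegral_congr_fun measurableSet_Ioo fun r hr => ?_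
    have hr1 : 0 < x i - r := by linarith [hr.2]
    have hr2 : 0 < y i - r := by linarith [hr.2]
    show b * r ^ (a - 1) * Dk (b * c) a r 1 (x i) (y i) = _
    unfold Dk
    rw [Real.div_rpow (by linarith) hr1.le, Real.div_rpow (by linarith) hr2.le, Real.rpow_neg hr1.le,
      Real.rpow_neg hr2.le]
    ring
  rw [e, e2]
  field_simp

end CutLim
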