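import Pool.Agent.CutLim.E
import Pool.Agent.CutLim.F
import Pool.Agent.CutH.Words
import Pool.Agent.PHW.Num3
import Pool.Agent.Tight.Touch0

/-! CUT_G: the law of the cut levels of the half plane walk. -/

set_option autoImplicit false

namespace CutLim

open Filter Topology Finset MeasureTheory TopologicalSpace HexObs

open scoped ENNReal

theorem ren_uu : Ren uu kk where
  u0 := uu_zero
  k0 := kk_zero
  kn := kk_nonneg
  ks := by
    have h := summable_kk.hasSum
    rwa [tsum_kk] at h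
  ren := fun _ hT => renewal_real hT

open Classical in
/-- the probabilities of the renewals that avoid B -/
noncomputable def avs (B : Set ℕ) (n : ℕ) : ℝ :=
  if n = 0 then 1 else if n ∈ B then 0 else ∑ j ∈ (range n).attach, avs B j.1 * kk (n - j.1)
termination_by n
decreasing_by exact Finset.mem_range.1 j.2

theorem avs_AvSeq (B : Set ℕ) : AvSeq B (avs B) where
  zero := by
    rw [avs, if_pos rfl]
  mem := by
    intro n hn hB
    rw [avs, if_neg (by omega), if_pos hB]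
  not_mem := by
    intro n hn hB
    rw [avs, if_neg (by omega), if_neg hB]
    exact Finset.sum_attach (range n) (fun j => avs B j * kk (n - j))

/-- first and last renewals -/
theorem av_sum {B : Set ℕ} {a : ℕ → ℝ} (ha : AvSeq B a) (n : ℕ) :
    av kk B n 0 = ∑ c ∈ range (n + 1), a c * KK kk (n + 1 - c) := by
  classical
  set V : ℕ → ℝ := fun j => if j = 0 then av kk B n 0 else if j ∈ B then 0 else av kk B n j with hV
  have hV0 : V 0 = av kk B n 0 := by
    rw [hV]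
    exact if_pos rfl
  have hVj : ∀ j, 1 ≤ j → V j = if j ∈ B then 0 else av kk B n j := by
    intro j hj
    rw [hV]
    exact if_neg (by omega)
  have h1 : ∀ j, a j * V j = a j * KK kk (n + 1 - j) + ∑ i ∈ Ioc j n, a j * kk (i - j) * V i := by
    intro j
    by_cases hj : 1 ≤ j ∧ j ∈ B
    · rw [ha.mem j hj.1 hj.2, zero_mul, zero_mul, zero_add]
      symm
      apply Finset.sum_eq_zero
      intro i _
      ring
    · have h2 : V j = av kk B n j := by
        rcases Nat.eq_zero_or_pos j with h | h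
        · rw [h, hV0]
        · rw [hVj j h, if_neg (fun h' => hj ⟨h, h'⟩)]
      rw [h2, av_eq, mul_add, Finset.mul_sum]
      congr 1
      apply Finset.sum_congr rfl
      intro i hi
      rw [Finset.mem_Ioc] at hi
      rw [hVj i (by omega), mul_assoc]
  have h2 : ∑ j ∈ range (n + 1), a j * V j = ∑ j ∈ range (n + 1), a j * KK kk (n + 1 - j) +
      ∑ j ∈ range (n + 1), ∑ i ∈ Ioc j n, a j * kk (i - j) * V i := by
    rw [← Finset.sum_add_distrib]
    exact Finset.sum_congr rfl fun j _ => h1 j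
  have h3 : ∑ j ∈ range (n + 1), ∑ i ∈ Ioc j n, a j * kk (i - j) * V i =
      ∑ i ∈ Ioc 0 n, ∑ j ∈ range i, a j * kk (i - j) * V i := by
    apply Finset.sum_comm'
    intro j i
    rw [Finset.mem_range, Finset.mem_Ioc, Finset.mem_Ioc, Finset.mem_range]
    omega
  have h4 : ∀ i ∈ Ioc 0 n, ∑ j ∈ range i, a j * kk (i - j) * V i = a i * V i := by
    intro i hi
    rw [Finset.mem_Ioc] at hi
    rw [← Finset.sum_mul]
    by_cases hB : i ∈ B
    · rw [hVj i hi.1, if_pos hB, mul_zero, mul_zero]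
    · rw [← ha.not_mem i hi.1 hB]
  have h5 : range (n + 1) = insert 0 (Ioc 0 n) := by
    ext x
    simp only [Finset.mem_range, Finset.mem_insert, Finset.mem_Ioc]
    omega
  have h6 : ∑ j ∈ range (n + 1), a j * V j = a 0 * V 0 + ∑ i ∈ Ioc 0 n, a i * V i := by
    rw [h5, Finset.sum_insert (by simp)]
  rw [h3, Finset.sum_congr rfl h4, h6, ha.zero, one_mul, hV0] at h2
  linarith

/-- the words without cut levels in G up to T -/
theorem gf_avoid (G : Set ℕ) (T : ℕ) :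
    gf {t | t ∈ FCW T ∧ ∀ c, 1 ≤ c → c ≤ T → c ∈ G → ¬ Cut t c} = ENNReal.ofReal (av kk G T 0) := by
  rw [av_sum (avs_AvSeq G) T]
  rcases Nat.eq_zero_or_pos T with rfl | hT
  · have h1 : {t | t ∈ FCW 0 ∧ ∀ c, 1 ≤ c → c ≤ 0 → c ∈ G → ¬ Cut t c} = FCW 0 := by
      ext t
      exact ⟨fun h => h.1, fun h => ⟨h, fun c h1 h2 => by omega⟩⟩
    rw [h1, Touch.gf_FCW, Finset.sum_range_one, (avs_AvSeq G).zero, one_mul]
    have h2 : KK kk (0 + 1 - 0) = 1 := by
      unfold KK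
      rw [Nat.sub_zero, zero_add, Finset.sum_range_one, kk_zero, sub_zero]
    rw [h2, ENNReal.ofReal_one]
  · have h1 : {t | t ∈ FCW T ∧ ∀ c, 1 ≤ c → c ≤ T → c ∈ G → ¬ Cut t c} = {t | t ∈ FCW T ∧ NoCut G (T + 1) t} := by
      ext t
      constructor
      · rintro ⟨h1, h2⟩
        exact ⟨h1, fun c h3 h4 h5 => h2 c h4 (by omega) h3⟩
      · rintro ⟨h1, h2⟩
        exact ⟨h1, fun c h3 h4 h5 => h2 c h5 h3 (by omega)⟩
    rw [h1, gf_stop_noCut (avs_AvSeq G) hT]
    rfl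

/-- the cut levels up to T, divided by T -/
noncomputable def cutset (T : ℕ) (t : List Bool) : NC :=
  ⟨⟨{x : ℝ | ∃ c : ℕ, c ≤ T ∧ (c = 0 ∨ Cut t c) ∧ x = (c : ℝ) / T}, by
    refine Set.Finite.isCompact (((Set.finite_le_nat T).image (fun c : ℕ => (c : ℝ) / T)).subset ?_)
    rintro x ⟨c, h1, h2, rfl⟩
    exact ⟨c, h1, rfl⟩⟩, ⟨0, 0, Nat.zero_le _, Or.inl rfl, by simp⟩⟩

theorem mem_cutset {T : ℕ} {t : List Bool} {x : ℝ} :
    x ∈ (cutset T t : Set ℝ) ↔ ∃ c : ℕ, c ≤ T ∧ (c = 0 ∨ Cut t c) ∧ x = (c : ℝ) / T := Iff.rfl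

/-- the law of the rescaled set of the cut levels up to T -/
noncomputable def lawS (T : ℕ) : Measure NC :=
  Measure.sum fun t : {t : List Bool // t ∈ FCW T} => wE t.1 • Measure.dirac (cutset T t.1)

theorem lawS_apply (T : ℕ) {S : Set NC} (hS : MeasurableSet S) :
    lawS T S = gf {t | t ∈ FCW T ∧ cutset T t ∈ S} := by
  classical
  unfold lawS
  rw [Measure.sum_apply _ hS]
  unfold gf
  rw [tsum_subtype {t | t ∈ FCW T ∧ cutset T t ∈ S} wE]
  have e : ∀ t : {t : List Bool // t ∈ FCW T}, (wE t.1 • Measure.dirac (cutset T t.1)) S =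
      (fun t : List Bool => if cutset T t ∈ S then wE t else 0) t.1 := by
    intro t
    rw [Measure.smul_apply, Measure.dirac_apply' _ hS, smul_eq_mul]
    by_cases hx : cutset T t.1 ∈ S
    · rw [Set.indicator_of_mem hx, Pi.one_apply, mul_one]
      exact (if_pos hx).symm
    · rw [Set.indicator_of_notMem hx, mul_zero]
      exact (if_neg hx).symm
  rw [tsum_congr e]
  rw [tsum_subtype (FCW T) (fun t : List Bool => if cutset T t ∈ S then wE t else 0)]
  refine tsum_congr fun t => ?_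
  by_cases h1 : t ∈ FCW T
  · rw [Set.indicator_of_mem h1]
    by_cases h2 : cutset T t ∈ S
    · rw [if_pos h2, Set.indicator_of_mem (show t ∈ {t | t ∈ FCW T ∧ cutset T t ∈ S} from ⟨h1, h2⟩)]
    · rw [if_neg h2, Set.indicator_of_notMem (fun h3 : t ∈ {t | t ∈ FCW T ∧ cutset T t ∈ S} => h2 h3.2)]
  · rw [Set.indicator_of_notMem h1, Set.indicator_of_notMem (fun h3 : t ∈ {t | t ∈ FCW T ∧ cutset T t ∈ S} => h1 h3.1)]

theorem lawS_univ (T : ℕ) : lawS T Set.univ = 1 := by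
  rw [lawS_apply T MeasurableSet.univ, ← Touch.gf_FCW T]
  congr 1
  ext t
  exact ⟨fun h => h.1, fun h => ⟨h, trivial⟩⟩

theorem isClosed_unit : IsClosed {K : NC | (K : Set ℝ) ⊆ Set.Icc 0 1 ∧ (0 : ℝ) ∈ (K : Set ℝ)} := by
  have h1 : IsClosed {K : NC | (K : Set ℝ) ⊆ Set.Icc 0 1} := NonemptyCompacts.isClosed_subsets_of_isClosed isClosed_Icc
  have h2 : IsClosed {K : NC | ((K : Set ℝ) ∩ {0}).Nonempty} :=
    NonemptyCompacts.isClosed_inter_nonempty_of_isClosed isClosed_singleton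
  have h3 : {K : NC | (K : Set ℝ) ⊆ Set.Icc 0 1 ∧ (0 : ℝ) ∈ (K : Set ℝ)} =
      {K : NC | (K : Set ℝ) ⊆ Set.Icc 0 1} ∩ {K : NC | ((K : Set ℝ) ∩ {0}).Nonempty} := by
    ext K
    constructor
    · rintro ⟨h, h'⟩
      exact ⟨h, 0, h', rfl⟩
    · rintro ⟨h, x, h', h''⟩
      have h4 : x = 0 := h''
      rw [h4] at h'
      exact ⟨h, h'⟩
  rw [h3]
  exact h1.inter h2

theorem cutset_unit {T : ℕ} (t : List Bool) :
    (cutset T t : Set ℝ) ⊆ Set.Icc 0 1 ∧ (0 : ℝ) ∈ (cutset T t : Set ℝ) := by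
  constructor
  · intro x hx
    obtain ⟨c, h1, _, rfl⟩ := mem_cutset.1 hx
    refine ⟨by positivity, ?_⟩
    apply div_le_one_of_le₀ _ (by positivity)
    exact_mod_cast h1
  · exact mem_cutset.2 ⟨0, Nat.zero_le _, Or.inl rfl, by simp⟩

theorem lawS_ae {T : ℕ} (_hT : 1 ≤ T) :
    ∀ᵐ K : NC ∂(lawS T), (K : Set ℝ) ⊆ Set.Icc 0 1 ∧ (0 : ℝ) ∈ (K : Set ℝ) := by
  rw [ae_iff]
  have h1 : {K : NC | ¬ ((K : Set ℝ) ⊆ Set.Icc 0 1 ∧ (0 : ℝ) ∈ (K : Set ℝ))} =
      {K : NC | (K : Set ℝ) ⊆ Set.Icc 0 1 ∧ (0 : ℝ) ∈ (K : Set ℝ)}ᶜ := rfl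
  rw [h1, lawS_apply T isClosed_unit.measurableSet.compl]
  have h2 : {t | t ∈ FCW T ∧ cutset T t ∈ {K : NC | (K : Set ℝ) ⊆ Set.Icc 0 1 ∧ (0 : ℝ) ∈ (K : Set ℝ)}ᶜ} = ∅ := by
    ext t
    constructor
    · rintro ⟨_, h⟩
      exact absurd (cutset_unit t) h
    · exact fun h => absurd h (Set.notMem_empty t)
  rw [h2]
  unfold gf
  simp

theorem lawS_AvC {m T : ℕ} (hm : 1 ≤ m) (hT : 1 ≤ T) (A : Finset ℕ) :
    lawS T (AvC m A) = ENNReal.ofReal (av kk (cells m A T) T 0) := by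
  rw [lawS_apply T (measurableSet_AvC m A), ← gf_avoid]
  congr 1
  have hm' : (0 : ℝ) < m := by exact_mod_cast hm
  have hT' : (0 : ℝ) < T := by exact_mod_cast hT
  have hcell : ∀ c l : ℕ, ((l : ℝ) / m < (c : ℝ) / T ∧ (c : ℝ) / T ≤ ((l : ℝ) + 1) / m) ↔
      (l * T < m * c ∧ m * c ≤ (l + 1) * T) := by
    intro c l
    rw [div_lt_div_iff₀ hm' hT', div_le_div_iff₀ hT' hm']
    have h1 : (l : ℝ) * T < (c : ℝ) * m ↔ l * T < m * c := by
      rw [mul_comm (c : ℝ) m]
      exact_mod_cast Iff.rfl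
    have h2 : (c : ℝ) * m ≤ ((l : ℝ) + 1) * T ↔ m * c ≤ (l + 1) * T := by
      rw [mul_comm (c : ℝ) m]
      exact_mod_cast Iff.rfl
    rw [h1, h2]
  ext t
  constructor
  · rintro ⟨h1, h2⟩
    refine ⟨h1, ?_⟩
    rintro c hc1 hc2 ⟨l, hl, h3⟩ hcut
    exact h2 _ (mem_cutset.2 ⟨c, hc2, Or.inr hcut, rfl⟩) l hl ((hcell c l).2 h3)
  · rintro ⟨h1, h2⟩
    refine ⟨h1, ?_⟩
    intro x hx l hl h3
    obtain ⟨c, hc, hcut, rfl⟩ := mem_cutset.1 hx
    have h4 := (hcell c l).1 h3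
    have hc1 : 1 ≤ c := by
      rcases Nat.eq_zero_or_pos c with h | h
      · rw [h, mul_zero] at h4
        omega
      · exact h
    rcases hcut with h | h
    · omega
    · exact h2 c hc1 hc ⟨l, hl, h4⟩ h

theorem measurableSet_AvI (x y : ℝ) : MeasurableSet (AvI x y) := by
  have h1 : (AvI x y)ᶜ = ⋃ n : ℕ, {K : NC | ((K : Set ℝ) ∩ Set.Icc (x + 1 / (n + 1)) y).Nonempty} := by
    ext K
    rw [Set.mem_iUnion]
    constructor
    · intro h
      have h2 : ¬ Disjoint (K : Set ℝ) (Set.Ioc x y) := h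
      rw [Set.not_disjoint_iff] at h2
      obtain ⟨z, hz, hz2⟩ := h2
      obtain ⟨n, hn⟩ := exists_nat_one_div_lt (sub_pos.2 hz2.1)
      exact ⟨n, z, hz, by linarith, hz2.2⟩
    · rintro ⟨n, z, hz, hz2⟩ h
      have h2 : Disjoint (K : Set ℝ) (Set.Ioc x y) := h
      have h3 : (0 : ℝ) < 1 / (n + 1) := by positivity
      exact Set.disjoint_left.1 h2 hz ⟨by linarith [hz2.1], hz2.2⟩
  have h2 : MeasurableSet (AvI x y)ᶜ := by
    rw [h1]
    exact MeasurableSet.iUnion fun n => (NonemptyCompacts.isClosed_inter_nonempty_of_isClosed isClosed_Icc).measurableSet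
  exact MeasurableSet.of_compl h2

/-- no renewal in (m, M] -/
theorem av_Ioc {m M T : ℕ} (hmM : m ≤ M) (hMT : M ≤ T) :
    av kk (Set.Ioc m M) T 0 = ∑ i ∈ Icc 0 m, uu i * KK kk (M + 1 - i) := by
  set B : Set ℕ := Set.Ioc m M with hB
  have ha := avs_AvSeq B
  rw [av_sum ha]
  have h1 : ∀ n, n ≤ m → avs B n = uu n := by
    intro n
    induction n using Nat.strong_induction_on with
    | _ n ih =>
      intro hn
      rcases Nat.eq_zero_or_pos n with h | h
      · rw [h, ha.zero, uu_zero]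
      · rw [ha.not_mem n h (fun h' => by have := h'.1; omega), renewal_real h]
        have h2 : ∀ k ∈ range n, avs B k * kk (n - k) = uu k * kk (n - k) := by
          intro k hk
          rw [Finset.mem_range] at hk
          rw [ih k hk (by omega)]
        rw [Finset.sum_congr rfl h2]
        refine Finset.sum_bij' (fun k _ => n - k) (fun r _ => n - r) ?_ ?_ ?_ ?_ ?_
        · intro k hk
          rw [Finset.mem_range] at hk
          rw [Finset.mem_Icc]
          omega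
        · intro r hr
          rw [Finset.mem_Icc] at hr
          rw [Finset.mem_range]
          omega
        · intro k hk
          rw [Finset.mem_range] at hk
          show n - (n - k) = k
          omega
        · intro r hr
          rw [Finset.mem_Icc] at hr
          show n - (n - r) = r
          omega
        · intro k hk
          rw [Finset.mem_range] at hk
          have h3 : n - (n - k) = k := by omega
          rw [h3, mul_comm]
  have h2 : ∀ N, M ≤ N → ∑ c ∈ range (N + 1), avs B c * KK kk (N + 1 - c) =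
      ∑ i ∈ Icc 0 m, uu i * KK kk (M + 1 - i) := by
    intro N hN
    induction N, hN using Nat.le_induction with
    | base =>
      symm
      have h3 : ∑ i ∈ Icc 0 m, uu i * KK kk (M + 1 - i) = ∑ i ∈ Icc 0 m, avs B i * KK kk (M + 1 - i) := by
        apply Finset.sum_congr rfl
        intro i hi
        rw [Finset.mem_Icc] at hi
        rw [h1 i hi.2]
      rw [h3]
      apply Finset.sum_subset
      · intro i hi
        rw [Finset.mem_Icc] at hi
        rw [Finset.mem_range]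
        omega
      · intro i hi hi'
        rw [Finset.mem_range] at hi
        rw [Finset.mem_Icc] at hi'
        rw [ha.mem i (by omega) ⟨by omega, by omega⟩, zero_mul]
    | succ N hN ih =>
      rw [← ih, Finset.sum_range_succ, ha.not_mem (N + 1) (by omega) (fun h' => by have := h'.2; omega)]
      have h3 : KK kk (N + 1 + 1 - (N + 1)) = 1 := by
        have h4 : N + 1 + 1 - (N + 1) = 1 := by omega
        rw [h4]
        unfold KK
        rw [Finset.sum_range_one, kk_zero, sub_zero]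
      rw [h3, mul_one, ← Finset.sum_add_distrib]
      apply Finset.sum_congr rfl
      intro c hc
      rw [Finset.mem_range] at hc
      have h5 : N + 1 + 1 - c = N + 1 - c + 1 := by omega
      rw [h5]
      have h6 : KK kk (N + 1 - c) = KK kk (N + 1 - c + 1) + kk (N + 1 - c) := by
        unfold KK
        rw [Finset.sum_range_succ]
        ring
      rw [h6]
      ring
  exact h2 T hMT

theorem lawS_AvI {T : ℕ} (hT : 1 ≤ T) {x y : ℝ} (hx : 0 ≤ x) (hxy : x < y) (hy : y ≤ 1) :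
    lawS T (AvI x y) = ENNReal.ofReal (∑ i ∈ Icc 0 ⌊x * T⌋₊, uu i * KK kk (⌊y * T⌋₊ + 1 - i)) := by
  have hT' : (0 : ℝ) < T := by exact_mod_cast hT
  have hy0 : 0 ≤ y := hx.trans hxy.le
  have h1 : ⌊x * T⌋₊ ≤ ⌊y * T⌋₊ := Nat.floor_le_floor (by nlinarith)
  have h2 : ⌊y * T⌋₊ ≤ T := by
    have h3 : ⌊y * T⌋₊ ≤ ⌊(T : ℝ)⌋₊ := Nat.floor_le_floor (by nlinarith)
    rwa [Nat.floor_natCast] at h3
  rw [← av_Ioc h1 h2, ← gf_avoid, lawS_apply T (measurableSet_AvI x y)]
  congr 1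
  have hiff : ∀ c : ℕ, (c : ℝ) / T ∈ Set.Ioc x y ↔ c ∈ Set.Ioc ⌊x * T⌋₊ ⌊y * T⌋₊ := by
    intro c
    rw [Set.mem_Ioc, Set.mem_Ioc, lt_div_iff₀ hT', div_le_iff₀ hT', Nat.floor_lt (by positivity),
      Nat.le_floor_iff (by positivity)]
  ext t
  constructor
  · rintro ⟨h3, h4⟩
    refine ⟨h3, fun c hc1 hc2 hc3 hcut => ?_⟩
    exact Set.disjoint_left.1 h4 (mem_cutset.2 ⟨c, hc2, Or.inr hcut, rfl⟩) ((hiff c).2 hc3)
  · rintro ⟨h3, h4⟩
    refine ⟨h3, ?_⟩
    show Disjoint _ _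
    rw [Set.disjoint_left]
    intro z hz hz2
    obtain ⟨c, hc, hcut, rfl⟩ := mem_cutset.1 hz
    have h5 := (hiff c).1 hz2
    have hc1 : 1 ≤ c := by have := h5.1; omega
    rcases hcut with h | h
    · omega
    · exact h4 c hc1 hc h5 h

/-- the generalized arcsine integral -/
noncomputable def hh (z : ℝ) : ℝ :=
  1 / (Real.pi * Real.sqrt 2) * ∫ r in (0 : ℝ)..z, r ^ (-(1 / 4) : ℝ) * (1 - r) ^ (-(3 / 4) : ℝ)

lemma hh_integrable : IntervalIntegrable (fun r : ℝ => r ^ (-(1 / 4) : ℝ) * (1 - r) ^ (-(3 / 4) : ℝ)) volume 0 1 := by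
  have h1 : IntervalIntegrable (fun r : ℝ => r ^ (-(1 / 4) : ℝ)) volume 0 (1 / 2) :=
    intervalIntegral.intervalIntegrable_rpow' (by norm_num)
  have h2 : IntervalIntegrable (fun r : ℝ => r ^ (-(3 / 4) : ℝ)) volume 0 (1 / 2) :=
    intervalIntegral.intervalIntegrable_rpow' (by norm_num)
  have h3 : IntervalIntegrable (fun r : ℝ => (1 - r) ^ (-(3 / 4) : ℝ)) volume (1 / 2) 1 := by
    have h4 := h2.comp_sub_left 1
    have h5 : (1 : ℝ) - 0 = 1 := by norm_num
    have h6 : (1 : ℝ) - 1 / 2 = 1 / 2 := by norm_num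
    rw [h5, h6] at h4
    exact h4.symm
  have h7 : IntervalIntegrable (fun r : ℝ => r ^ (-(1 / 4) : ℝ) * (1 - r) ^ (-(3 / 4) : ℝ)) volume 0 (1 / 2) := by
    apply h1.mul_continuousOn
    rw [Set.uIcc_of_le (by norm_num)]
    intro r hr
    apply ContinuousAt.continuousWithinAt
    apply ContinuousAt.rpow_const
    · fun_prop
    · left
      have := hr.2
      intro h
      linarith
  have h8 : IntervalIntegrable (fun r : ℝ => r ^ (-(1 / 4) : ℝ) * (1 - r) ^ (-(3 / 4) : ℝ)) volume (1 / 2) 1 := by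
    apply h3.continuousOn_mul
    rw [Set.uIcc_of_le (by norm_num)]
    intro r hr
    apply ContinuousAt.continuousWithinAt
    apply ContinuousAt.rpow_const
    · fun_prop
    · left
      have := hr.1
      intro h
      linarith
  exact h7.trans h8

lemma hh_cont : ContinuousOn hh (Set.Icc 0 1) := by
  unfold hh
  apply ContinuousOn.mul continuousOn_const
  have h1 := intervalIntegral.continuousOn_primitive_interval (μ := volume)
    (f := fun r : ℝ => r ^ (-(1 / 4) : ℝ) * (1 - r) ^ (-(3 / 4) : ℝ)) (a := 0) (b := 1)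
    (by
      have h2 := (intervalIntegrable_iff_integrableOn_Icc_of_le (by norm_num)).1 hh_integrable
      rwa [Set.uIcc_of_le (by norm_num)])
  rwa [Set.uIcc_of_le (by norm_num)] at h1

lemma gamma_const : (Real.Gamma (3 / 4) * Real.Gamma (1 - 3 / 4))⁻¹ = 1 / (Real.pi * Real.sqrt 2) := by
  rw [Real.Gamma_mul_Gamma_one_sub]
  have h1 : Real.sin (Real.pi * (3 / 4)) = Real.sqrt 2 / 2 := by
    have h2 : Real.pi * (3 / 4) = Real.pi - Real.pi / 4 := by ring
    rw [h2, Real.sin_pi_sub, Real.sin_pi_div_four]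
  rw [h1]
  have h3 : Real.sqrt 2 * Real.sqrt 2 = 2 := Real.mul_self_sqrt (by norm_num)
  have h4 : Real.sqrt 2 ≠ 0 := by positivity
  have h5 : Real.pi ≠ 0 := Real.pi_ne_zero
  field_simp
  nlinarith

/-- the scaling limit of the cut levels, given the exact decay of the bridges -/
theorem cut_limit {b : ℝ} (hb : 0 < b) (hu : Tendsto (fun n : ℕ => (n : ℝ) ^ (1 / 4 : ℝ) * uu n) atTop (𝓝 b)) :
    ∃ ν : ProbabilityMeasure NC, (∀ f : BoundedContinuousFunction NC ℝ,
        Tendsto (fun T => ∫ K, f K ∂(lawS T)) atTop (𝓝 (∫ K, f K ∂(ν : Measure NC)))) ∧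
      (∀ᵐ K : NC ∂(ν : Measure NC), (K : Set ℝ) ⊆ Set.Icc 0 1 ∧ (0 : ℝ) ∈ (K : Set ℝ)) ∧
      ∀ x y : ℝ, 0 ≤ x → x < y → y ≤ 1 → ((ν : Measure NC) (AvO x y)).toReal =
        1 / (Real.pi * Real.sqrt 2) * ∫ r in (0 : ℝ)..(x / y), r ^ (-(1 / 4) : ℝ) * (1 - r) ^ (-(3 / 4) : ℝ) := by
  have ha : (0 : ℝ) < 3 / 4 := by norm_num
  have ha1 : (3 / 4 : ℝ) < 1 := by norm_num
  have he : (1 : ℝ) - 3 / 4 = 1 / 4 := by norm_num
  have hu' : Tendsto (fun n : ℕ => (n : ℝ) ^ (1 - 3 / 4 : ℝ) * uu n) atTop (𝓝 b) := by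
    rw [he]
    exact hu
  have hnn : ∀ (G : Set ℕ) (T : ℕ), 0 ≤ av kk G T 0 := fun G T => av_nonneg ren_uu G T 0
  let P : ℕ → ProbabilityMeasure NC := fun T => ⟨lawS T, ⟨lawS_univ T⟩⟩
  have hPT : ∀ T, (P T : Measure NC) = lawS T := fun T => rfl
  have hP : ∀ T, ∀ᵐ K : NC ∂(P T : Measure NC), (K : Set ℝ) ⊆ Set.Icc 0 1 ∧ (0 : ℝ) ∈ (K : Set ℝ) := by
    intro T
    rw [hPT, ae_iff]
    have h1 : {K : NC | ¬ ((K : Set ℝ) ⊆ Set.Icc 0 1 ∧ (0 : ℝ) ∈ (K : Set ℝ))} =
        {K : NC | (K : Set ℝ) ⊆ Set.Icc 0 1 ∧ (0 : ℝ) ∈ (K : Set ℝ)}ᶜ := rfl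
    rw [h1, lawS_apply T isClosed_unit.measurableSet.compl]
    have h2 : {t | t ∈ FCW T ∧ cutset T t ∈ {K : NC | (K : Set ℝ) ⊆ Set.Icc 0 1 ∧ (0 : ℝ) ∈ (K : Set ℝ)}ᶜ} = ∅ := by
      ext t
      constructor
      · rintro ⟨_, h⟩
        exact absurd (cutset_unit t) h
      · exact fun h => absurd h (Set.notMem_empty t)
    rw [h2]
    unfold gf
    simp
  obtain ⟨ν, hν, hν2⟩ := weak P hP (by
    intro m hm A hA
    obtain ⟨g, hg⟩ := av_lim ren_uu ha ha1 hb hu' hm hA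
    refine ⟨g, hg.congr' ?_⟩
    filter_upwards [eventually_ge_atTop 1] with T hT
    rw [hPT, lawS_AvC hm hT A, ENNReal.toReal_ofReal (hnn _ _)])
  refine ⟨ν, ?_, hν2, ?_⟩
  · intro f
    have h1 := (ProbabilityMeasure.tendsto_iff_forall_integral_tendsto.1 hν) f
    exact h1
  · intro x y hx hxy hy
    have h1 := interval hν hh_cont (by
      intro x y hx hxy hy
      have h2 := av_one_lim ren_uu ha ha1 hb hu' hx hxy
      have h3 : (3 / 4 : ℝ) - 1 = -(1 / 4) := by norm_num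
      rw [gamma_const, h3] at h2
      refine h2.congr' ?_
      filter_upwards [eventually_ge_atTop 1] with T hT
      rw [hPT, lawS_AvI hT hx hxy hy, ENNReal.toReal_ofReal]
      exact Finset.sum_nonneg fun i _ => mul_nonneg (uu_pos i).le (KK_nonneg ren_uu _)) x y hx hxy hy
    exact h1

end CutLim
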