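import Pool.Agent.CutLim.B

/-! CUT, local time, L1: the renewal expectation and the Wald identity in mean square. -/

set_option autoImplicit false

namespace CutLim

open Filter Topology Finset

/-- the renewals after a first gap g -/
def shf (g : ℕ) (S : Finset ℕ) : Finset ℕ := insert g (S.image fun s => g + s)

/-- the expectation of a function of the set of the renewals in 1, ..., T -/
noncomputable def EE (q : ℕ → ℝ) (T : ℕ) (F : Finset ℕ → ℝ) : ℝ :=
  KK q (T + 1) * F ∅ + ∑ g ∈ (Icc 1 T).attach, q g.1 * EE q (T - g.1) (fun S => F (shf g.1 S))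
termination_by T
decreasing_by
  have := Finset.mem_Icc.1 g.2
  omega

variable {u q : ℕ → ℝ} {a b : ℝ}

theorem EE_eq (q : ℕ → ℝ) (T : ℕ) (F : Finset ℕ → ℝ) :
    EE q T F = KK q (T + 1) * F ∅ + ∑ g ∈ Icc 1 T, q g * EE q (T - g) (fun S => F (shf g S)) := by
  rw [EE, Finset.sum_attach (Icc 1 T) fun g => q g * EE q (T - g) (fun S => F (shf g S))]

theorem EE_add (q : ℕ → ℝ) (T : ℕ) : ∀ F G : Finset ℕ → ℝ, EE q T (fun S => F S + G S) = EE q T F + EE q T G := by
  induction T using Nat.strong_induction_on with
  | _ T ih =>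
    intro F G
    rw [EE_eq, EE_eq q T F, EE_eq q T G]
    have h1 : ∀ g ∈ Icc 1 T, q g * EE q (T - g) (fun S => F (shf g S) + G (shf g S)) =
        q g * EE q (T - g) (fun S => F (shf g S)) + q g * EE q (T - g) (fun S => G (shf g S)) := by
      intro g hg
      have := mem_Icc.1 hg
      rw [ih (T - g) (by omega), mul_add]
    rw [sum_congr rfl h1, sum_add_distrib]
    ring

theorem EE_smul (q : ℕ → ℝ) (c : ℝ) (T : ℕ) : ∀ F : Finset ℕ → ℝ, EE q T (fun S => c * F S) = c * EE q T F := by
  induction T using Nat.strong_induction_on with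
  | _ T ih =>
    intro F
    rw [EE_eq, EE_eq q T F]
    have h1 : ∀ g ∈ Icc 1 T, q g * EE q (T - g) (fun S => c * F (shf g S)) =
        c * (q g * EE q (T - g) (fun S => F (shf g S))) := by
      intro g hg
      have := mem_Icc.1 hg
      rw [ih (T - g) (by omega)]
      ring
    rw [sum_congr rfl h1, ← mul_sum]
    ring

theorem EE_one (h : Ren u q) (T : ℕ) : EE q T (fun _ => 1) = 1 := by
  induction T using Nat.strong_induction_on with
  | _ T ih =>
    rw [EE_eq]
    have h1 : ∀ g ∈ Icc 1 T, q g * EE q (T - g) (fun _ => 1) = q g := by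
      intro g hg
      have := mem_Icc.1 hg
      rw [ih (T - g) (by omega), mul_one]
    rw [sum_congr rfl h1]
    unfold KK
    have h2 : ∑ r ∈ range (T + 1), q r = ∑ r ∈ Icc 1 T, q r := by
      rw [Finset.range_eq_Ico, Finset.sum_eq_sum_Ico_succ_bot (by omega), h.k0, zero_add]
      rfl
    rw [h2]
    ring

theorem EE_mono (h : Ren u q) (T : ℕ) : ∀ F G : Finset ℕ → ℝ, (∀ S, F S ≤ G S) → EE q T F ≤ EE q T G := by
  induction T using Nat.strong_induction_on with
  | _ T ih =>
    intro F G hFG
    rw [EE_eq, EE_eq q T G]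
    refine add_le_add (mul_le_mul_of_nonneg_left (hFG _) (KK_nonneg h _)) (sum_le_sum fun g hg => ?_)
    have := mem_Icc.1 hg
    exact mul_le_mul_of_nonneg_left (ih (T - g) (by omega) _ _ fun S => hFG _) (h.kn g)

theorem EE_nonneg (h : Ren u q) (T : ℕ) {F : Finset ℕ → ℝ} (hF : ∀ S, 0 ≤ F S) : 0 ≤ EE q T F := by
  have h1 := EE_mono h T (fun _ => 0) F hF
  have h2 := EE_smul q 0 T (fun _ => 1)
  simp only [zero_mul] at h2
  rwa [h2] at h1

theorem shf_sub {g T : ℕ} (hg : g ∈ Icc 1 T) {S : Finset ℕ} (hS : S ⊆ Icc 1 (T - g)) : shf g S ⊆ Icc 1 T := by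
  have hg' := mem_Icc.1 hg
  intro x hx
  rcases mem_insert.1 hx with rfl | hx
  · exact hg
  · obtain ⟨s, hs, rfl⟩ := mem_image.1 hx
    have := mem_Icc.1 (hS hs)
    exact mem_Icc.2 ⟨by omega, by omega⟩

theorem EE_congr (q : ℕ → ℝ) (T : ℕ) : ∀ F G : Finset ℕ → ℝ, (∀ S, S ⊆ Icc 1 T → F S = G S) → EE q T F = EE q T G := by
  induction T using Nat.strong_induction_on with
  | _ T ih =>
    intro F G hFG
    rw [EE_eq, EE_eq q T G, hFG ∅ (empty_subset _)]
    congr 1
    refine sum_congr rfl fun g hg => ?_
    have := mem_Icc.1 hg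
    rw [ih (T - g) (by omega) _ _ fun S hS => hFG _ (shf_sub hg hS)]

/-- restriction to a smaller horizon -/
theorem EE_restrict (h : Ren u q) (T : ℕ) : ∀ (n : ℕ) (F : Finset ℕ → ℝ), n ≤ T →
    EE q T (fun S => F (S.filter fun s => s ≤ n)) = EE q n F := by
  induction T using Nat.strong_induction_on with
  | _ T ih =>
    intro n F hn
    rw [EE_eq, EE_eq q n F, filter_empty]
    have h1 : ∀ g ∈ Icc 1 T, q g * EE q (T - g) (fun S => F ((shf g S).filter fun s => s ≤ n)) =
        if g ≤ n then q g * EE q (n - g) (fun S => F (shf g S)) else q g * F ∅ := by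
      intro g hg
      have hg' := mem_Icc.1 hg
      split_ifs with hgn
      · rw [← ih (T - g) (by omega) (n - g) (fun S => F (shf g S)) (by omega)]
        congr 2
        funext S
        congr 1
        ext x
        unfold shf
        simp only [mem_filter, mem_insert, mem_image]
        constructor
        · rintro ⟨h1 | ⟨s, hs, rfl⟩, h2⟩
          · exact Or.inl h1
          · exact Or.inr ⟨s, ⟨hs, by omega⟩, rfl⟩
        · rintro (h1 | ⟨s, ⟨hs, h3⟩, rfl⟩)
          · exact ⟨Or.inl h1, by omega⟩
          · exact ⟨Or.inr ⟨s, hs, rfl⟩, by omega⟩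
      · congr 1
        have e : ∀ S : Finset ℕ, (shf g S).filter (fun s => s ≤ n) = ∅ := by
          intro S
          rw [filter_eq_empty_iff]
          intro x hx
          unfold shf at hx
          rcases mem_insert.1 hx with rfl | hx
          · exact hgn
          · obtain ⟨s, hs, rfl⟩ := mem_image.1 hx
            omega
        have e2 : (fun S => F ((shf g S).filter fun s => s ≤ n)) = fun _ => F ∅ * 1 := by
          funext S
          rw [e S, mul_one]
        rw [e2, EE_smul, EE_one h, mul_one]
    rw [sum_congr rfl h1, sum_ite]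
    have h2 : (Icc 1 T).filter (fun g => g ≤ n) = Icc 1 n := by
      ext g
      rw [mem_filter, mem_Icc, mem_Icc]
      omega
    have h3 : (Icc 1 T).filter (fun g => ¬ g ≤ n) = Ico (n + 1) (T + 1) := by
      ext g
      rw [mem_filter, mem_Icc, mem_Ico]
      omega
    rw [h2, h3, ← sum_mul, ← KK_sub q (show n + 1 ≤ T + 1 by omega)]
    ring

/-- renewal inequality -/
lemma ren_le (h : Ren u q) {x : ℕ → ℝ} {c : ℝ} {N : ℕ}
    (hx : ∀ T, T ≤ N → x T ≤ c + ∑ g ∈ Icc 1 T, q g * x (T - g)) : ∀ T, T ≤ N → x T ≤ c * UU u T := by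
  intro T
  induction T using Nat.strong_induction_on with
  | _ T ih =>
    intro hT
    refine (hx T hT).trans ?_
    have h1 : UU u T = 1 + ∑ g ∈ Icc 1 T, q g * UU u (T - g) := by
      clear ih hT hx
      induction T with
      | zero => simp [UU, h.u0]
      | succ T ihT =>
        have e1 : UU u (T + 1) = UU u T + u (T + 1) := by
          unfold UU
          rw [sum_range_succ]
        rw [e1, ihT, h.ren (T + 1) (by omega)]
        have e2 : ∑ g ∈ Icc 1 (T + 1), q g * UU u (T + 1 - g) =
            ∑ g ∈ Icc 1 T, q g * UU u (T - g) + ∑ g ∈ Icc 1 (T + 1), q g * u (T + 1 - g) := by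
          rw [← Finset.insert_Icc_right_eq_Icc_add_one (by omega), sum_insert (by rw [mem_Icc]; omega),
            sum_insert (by rw [mem_Icc]; omega), Nat.sub_self]
          have e3 : ∀ g ∈ Icc 1 T, q g * UU u (T + 1 - g) = q g * UU u (T - g) + q g * u (T + 1 - g) := by
            intro g hg
            have := mem_Icc.1 hg
            have e4 : T + 1 - g = T - g + 1 := by omega
            rw [e4]
            unfold UU
            rw [sum_range_succ (fun i => u i) (T - g + 1)]
            ring
          rw [sum_congr rfl e3, sum_add_distrib]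
          have e5 : UU u 0 = u 0 := by simp [UU]
          rw [e5]
          ring
        rw [e2]
        ring
    rw [h1, mul_add, mul_one, mul_sum]
    refine add_le_add le_rfl (sum_le_sum fun g hg => ?_)
    have hg' := mem_Icc.1 hg
    have h2 := ih (T - g) (by omega) (by omega)
    have h3 := mul_le_mul_of_nonneg_left h2 (h.kn g)
    linarith

end CutLim
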