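import Pool.Agent.CutLim.L1

/-! CUT, local time, L2: the number of the renewals and the length of the neighbourhood, mean square. -/

set_option autoImplicit false

namespace CutLim

open Filter Topology Finset

variable {u q : ℕ → ℝ} {a b : ℝ}

/-- the truncated mean of a gap -/
noncomputable def WK (q : ℕ → ℝ) (m : ℕ) : ℝ := ∑ r ∈ range m, KK q (r + 1)

open Classical in
/-- the number of the rows i ≤ T with a renewal in (i - m, i] -/
noncomputable def hitn (m T : ℕ) (S : Finset ℕ) : ℕ := ((range (T + 1)).filter fun i => ∃ j ∈ insert 0 S, j ≤ i ∧ i < j + m).card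

/-- the compensated number of the renewals -/
noncomputable def GG (q : ℕ → ℝ) (m T : ℕ) (S : Finset ℕ) : ℝ := (S.card : ℝ) + 1 - hitn m T S / WK q m

noncomputable def zz (q : ℕ → ℝ) (m g : ℕ) : ℝ := 1 - (min m g : ℕ) / WK q m

lemma hitn_empty (m T : ℕ) : hitn m T ∅ = min m (T + 1) := by
  classical
  unfold hitn
  have h1 : (range (T + 1)).filter (fun i => ∃ j ∈ insert 0 (∅ : Finset ℕ), j ≤ i ∧ i < j + m) = range (min m (T + 1)) := by
    ext i
    simp only [mem_filter, mem_range, insert_empty_eq, mem_singleton, exists_eq_left, Nat.zero_le, true_and, zero_add]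
    omega
  rw [h1, card_range]

lemma hitn_shf {m T g : ℕ} (hg : g ∈ Icc 1 T) (S : Finset ℕ) :
    hitn m T (shf g S) = min m g + hitn m (T - g) S := by
  classical
  have hg' := mem_Icc.1 hg
  unfold hitn
  have h1 : (range (T + 1)).filter (fun i => ∃ j ∈ insert 0 (shf g S), j ≤ i ∧ i < j + m) =
      range (min m g) ∪ ((range (T - g + 1)).filter fun i => ∃ j ∈ insert 0 S, j ≤ i ∧ i < j + m).image fun i => g + i := by
    ext i
    unfold shf
    simp only [mem_filter, mem_range, mem_union, mem_image, mem_insert]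
    constructor
    · rintro ⟨hi, j, hj, h2, h3⟩
      rcases Nat.lt_or_ge i g with hig | hig
      · left
        rcases hj with rfl | rfl | ⟨s, _, rfl⟩
        · omega
        · omega
        · omega
      · right
        rcases hj with rfl | rfl | ⟨s, hs, rfl⟩
        · exact ⟨i - g, ⟨by omega, 0, Or.inl rfl, by omega, by omega⟩, by omega⟩
        · exact ⟨i - j, ⟨by omega, 0, Or.inl rfl, by omega, by omega⟩, by omega⟩
        · exact ⟨i - g, ⟨by omega, s, Or.inr hs, by omega, by omega⟩, by omega⟩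
    · rintro (hi | ⟨i', ⟨hi', j, hj, h2, h3⟩, rfl⟩)
      · exact ⟨by omega, 0, Or.inl rfl, by omega, by omega⟩
      · rcases hj with rfl | hj
        · exact ⟨by omega, g, Or.inr (Or.inl rfl), by omega, by omega⟩
        · exact ⟨by omega, g + j, Or.inr (Or.inr ⟨j, hj, rfl⟩), by omega, by omega⟩
  rw [h1, card_union_of_disjoint, card_range, card_image_of_injective _ (add_right_injective g)]
  rw [disjoint_left]
  intro i hi hi'
  obtain ⟨i', _, rfl⟩ := mem_image.1 hi'
  have := mem_range.1 hi
  omega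

lemma card_shf {T g : ℕ} {S : Finset ℕ} (hS : S ⊆ Icc 1 T) : (shf g S).card = S.card + 1 := by
  unfold shf
  rw [card_insert_of_notMem, card_image_of_injective _ (add_right_injective g)]
  intro h
  obtain ⟨s, hs, hsg⟩ := mem_image.1 h
  have := mem_Icc.1 (hS hs)
  omega

lemma WK_succ (q : ℕ → ℝ) (m : ℕ) : WK q (m + 1) = WK q m + KK q (m + 1) := sum_range_succ _ _

lemma WK_mono (h : Ren u q) {m n : ℕ} (hmn : m ≤ n) : WK q m ≤ WK q n :=
  sum_le_sum_of_subset_of_nonneg (range_mono hmn) fun _ _ _ => KK_nonneg h _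

lemma WK_one (h : Ren u q) : WK q 1 = 1 := by
  unfold WK
  rw [sum_range_one, KK_one h]

lemma WK_ge (h : Ren u q) {m : ℕ} (hm : 1 ≤ m) : 1 ≤ WK q m := by
  rw [← WK_one h]
  exact WK_mono h hm

lemma GG_shf {q : ℕ → ℝ} {m T g : ℕ} (hg : g ∈ Icc 1 T) {S : Finset ℕ} (hS : S ⊆ Icc 1 (T - g)) :
    GG q m T (shf g S) = zz q m g + GG q m (T - g) S := by
  unfold GG zz
  rw [hitn_shf hg, card_shf hS]
  push_cast
  ring

lemma GG_empty (q : ℕ → ℝ) (m T : ℕ) : GG q m T ∅ = zz q m (T + 1) := by
  unfold GG zz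
  rw [hitn_empty]
  simp

/-- the truncated mean, summation by parts -/
lemma trunc_mean (h : Ren u q) (m T : ℕ) :
    KK q (T + 1) * (min m (T + 1) : ℕ) + ∑ g ∈ Icc 1 T, q g * (min m g : ℕ) = WK q (min m (T + 1)) := by
  induction T with
  | zero =>
    have h1 : KK q (0 + 1) = 1 := KK_one h
    rw [h1, Icc_eq_empty (by omega), sum_empty, add_zero, one_mul, zero_add]
    rcases Nat.eq_zero_or_pos m with rfl | hm
    · simp [WK]
    · rw [min_eq_right (show 1 ≤ m from hm), WK_one h, Nat.cast_one]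
  | succ T ih =>
    have e1 : ∑ g ∈ Icc 1 (T + 1), q g * ((min m g : ℕ) : ℝ) = q (T + 1) * (min m (T + 1) : ℕ) + ∑ g ∈ Icc 1 T, q g * (min m g : ℕ) := by
      rw [← Finset.insert_Icc_right_eq_Icc_add_one (by omega), sum_insert (by rw [mem_Icc]; omega)]
    have e2 : KK q (T + 1) = KK q (T + 1 + 1) + q (T + 1) := by
      unfold KK
      rw [sum_range_succ (fun r => q r) (T + 1)]
      ring
    rw [e1]
    rcases Nat.lt_or_ge (T + 1) m with hm | hm
    · have e3 : min m (T + 1) = T + 1 := by omega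
      have e4 : min m (T + 1 + 1) = T + 1 + 1 := by omega
      rw [e3] at ih
      rw [e3, e4, WK_succ q (T + 1), ← ih, e2]
      push_cast
      ring
    · have e3 : min m (T + 1) = m := by omega
      have e4 : min m (T + 1 + 1) = m := by omega
      rw [e3] at ih
      rw [e3, e4, ← ih, e2]
      ring

lemma gap_total (h : Ren u q) (T : ℕ) : KK q (T + 1) + ∑ g ∈ Icc 1 T, q g = 1 := by
  have h1 := EE_one h T
  rw [EE_eq] at h1
  have h2 : ∀ g ∈ Icc 1 T, q g * EE q (T - g) (fun _ => 1) = q g := fun g _ => by rw [EE_one h, mul_one]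
  rw [sum_congr rfl h2, mul_one] at h1
  exact h1

/-- the mean of the compensated number, first step -/
lemma GG_mean (h : Ren u q) (m T : ℕ) :
    EE q T (GG q m T) = (1 - WK q (min m (T + 1)) / WK q m) + ∑ g ∈ Icc 1 T, q g * EE q (T - g) (GG q m (T - g)) := by
  rw [EE_eq, GG_empty]
  have h1 : ∀ g ∈ Icc 1 T, q g * EE q (T - g) (fun S => GG q m T (shf g S)) =
      q g * zz q m g + q g * EE q (T - g) (GG q m (T - g)) := by
    intro g hg
    rw [EE_congr q (T - g) (fun S => GG q m T (shf g S)) (fun S => zz q m g * 1 + GG q m (T - g) S)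
      (fun S hS => by rw [GG_shf hg hS, mul_one]), EE_add, EE_smul, EE_one h]
    ring
  rw [sum_congr rfl h1, sum_add_distrib, ← add_assoc]
  congr 1
  rw [← trunc_mean h m T, ← gap_total h T]
  unfold zz
  rw [add_div, sum_div]
  have e : ∀ g ∈ Icc 1 T, q g * (1 - ((min m g : ℕ) : ℝ) / WK q m) = q g - q g * (min m g : ℕ) / WK q m := fun g _ => by ring
  rw [sum_congr rfl e, sum_sub_distrib]
  ring

lemma UU_mono (h : Ren u q) {m n : ℕ} (hmn : m ≤ n) : UU u m ≤ UU u n :=
  sum_le_sum_of_subset_of_nonneg (range_mono (by omega)) fun i _ _ => u_nonneg h i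

lemma UU_ge (h : Ren u q) (m : ℕ) : 1 ≤ UU u m := by
  have h1 : u 0 ≤ UU u m := single_le_sum (fun i _ => u_nonneg h i) (mem_range.2 (by omega))
  rwa [h.u0] at h1

/-- the mean of the compensated number -/
theorem GG_mean_le (h : Ren u q) {m : ℕ} (hm : 1 ≤ m) (T : ℕ) :
    0 ≤ EE q T (GG q m T) ∧ EE q T (GG q m T) ≤ UU u m := by
  have hW : 0 < WK q m := lt_of_lt_of_le one_pos (WK_ge h hm)
  have hd0 : ∀ T, 0 ≤ 1 - WK q (min m (T + 1)) / WK q m := fun T => by
    have h1 : WK q (min m (T + 1)) / WK q m ≤ 1 := by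
      rw [div_le_one hW]
      exact WK_mono h (min_le_left _ _)
    linarith
  have hd1 : ∀ T, 1 - WK q (min m (T + 1)) / WK q m ≤ 1 := fun T => by
    have h1 : 0 ≤ WK q (min m (T + 1)) / WK q m := div_nonneg (sum_nonneg fun _ _ => KK_nonneg h _) hW.le
    linarith
  constructor
  · induction T using Nat.strong_induction_on with
    | _ T ih =>
      rw [GG_mean h]
      refine add_nonneg (hd0 T) (sum_nonneg fun g hg => mul_nonneg (h.kn g) (ih (T - g) ?_))
      have := mem_Icc.1 hg
      omega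
  · induction T using Nat.strong_induction_on with
    | _ T ih =>
      rcases Nat.lt_or_ge T m with hTm | hTm
      · have h1 := ren_le h (x := fun T => EE q T (GG q m T)) (c := 1) (N := T) (fun T' _ => by
          rw [GG_mean h]
          exact add_le_add (hd1 T') le_rfl) T le_rfl
        rw [one_mul] at h1
        exact h1.trans (UU_mono h hTm.le)
      · rw [GG_mean h, show min m (T + 1) = m by omega, div_self hW.ne', sub_self, zero_add]
        have hU := UU_ge h m
        calc ∑ g ∈ Icc 1 T, q g * EE q (T - g) (GG q m (T - g)) ≤ ∑ g ∈ Icc 1 T, q g * UU u m := by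
              refine sum_le_sum fun g hg => mul_le_mul_of_nonneg_left (ih (T - g) ?_) (h.kn g)
              have := mem_Icc.1 hg
              omega
          _ = (∑ g ∈ Icc 1 T, q g) * UU u m := by rw [sum_mul]
          _ ≤ 1 * UU u m := by
              refine mul_le_mul_of_nonneg_right ?_ (by linarith)
              have h2 := gap_total h T
              have h3 := KK_nonneg h (T + 1)
              linarith
          _ = UU u m := one_mul _

lemma zz_sq_le (h : Ren u q) {m : ℕ} (hm : 1 ≤ m) (g : ℕ) :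
    zz q m g ^ 2 ≤ 1 + m / WK q m * ((min m g : ℕ) / WK q m) := by
  have hW : 0 < WK q m := lt_of_lt_of_le one_pos (WK_ge h hm)
  unfold zz
  set x : ℝ := ((min m g : ℕ) : ℝ) / WK q m with hx
  have hx0 : 0 ≤ x := by positivity
  have hxm : x ≤ m / WK q m := by
    rw [hx]
    have : ((min m g : ℕ) : ℝ) ≤ m := by exact_mod_cast min_le_left m g
    gcongr
  nlinarith

lemma zz_abs_le (h : Ren u q) {m : ℕ} (hm : 1 ≤ m) (g : ℕ) : |zz q m g| ≤ 1 + (min m g : ℕ) / WK q m := by
  have hW : 0 < WK q m := lt_of_lt_of_le one_pos (WK_ge h hm)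
  unfold zz
  have hx0 : 0 ≤ ((min m g : ℕ) : ℝ) / WK q m := by positivity
  rw [abs_le]
  constructor <;> linarith

/-- the second moment of the compensated number -/
theorem GG_sq_le (h : Ren u q) {m : ℕ} (hm : 1 ≤ m) (T : ℕ) :
    EE q T (fun S => GG q m T S ^ 2) ≤ (1 + m / WK q m + 4 * UU u m) * UU u T := by
  have hW : 0 < WK q m := lt_of_lt_of_le one_pos (WK_ge h hm)
  have hU := UU_ge h m
  refine ren_le h (x := fun T => EE q T (fun S => GG q m T S ^ 2)) (N := T) (fun T' _ => ?_) T le_rfl
  show EE q T' (fun S => GG q m T' S ^ 2) ≤ _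
  rw [EE_eq, GG_empty]
  have h1 : ∀ g ∈ Icc 1 T', q g * EE q (T' - g) (fun S => GG q m T' (shf g S) ^ 2) =
      q g * zz q m g ^ 2 + 2 * (q g * (zz q m g * EE q (T' - g) (GG q m (T' - g)))) +
        q g * EE q (T' - g) (fun S => GG q m (T' - g) S ^ 2) := by
    intro g hg
    rw [EE_congr q (T' - g) (fun S => GG q m T' (shf g S) ^ 2)
      (fun S => zz q m g ^ 2 * 1 + (2 * zz q m g * GG q m (T' - g) S + GG q m (T' - g) S ^ 2))
      (fun S hS => by rw [GG_shf hg hS]; ring), EE_add, EE_smul, EE_one h, EE_add, EE_smul]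
    ring
  rw [sum_congr rfl h1, sum_add_distrib, sum_add_distrib, ← mul_sum]
  have h2 : KK q (T' + 1) * zz q m (T' + 1) ^ 2 + ∑ g ∈ Icc 1 T', q g * zz q m g ^ 2 ≤ 1 + m / WK q m := by
    calc KK q (T' + 1) * zz q m (T' + 1) ^ 2 + ∑ g ∈ Icc 1 T', q g * zz q m g ^ 2
        ≤ KK q (T' + 1) * (1 + m / WK q m * ((min m (T' + 1) : ℕ) / WK q m)) +
          ∑ g ∈ Icc 1 T', q g * (1 + m / WK q m * ((min m g : ℕ) / WK q m)) :=
          add_le_add (mul_le_mul_of_nonneg_left (zz_sq_le h hm _) (KK_nonneg h _))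
            (sum_le_sum fun g _ => mul_le_mul_of_nonneg_left (zz_sq_le h hm _) (h.kn g))
      _ = (KK q (T' + 1) + ∑ g ∈ Icc 1 T', q g) + m / WK q m / WK q m *
          (KK q (T' + 1) * (min m (T' + 1) : ℕ) + ∑ g ∈ Icc 1 T', q g * (min m g : ℕ)) := by
          rw [mul_add (m / WK q m / WK q m), mul_sum (Icc 1 T') (fun g => q g * ((min m g : ℕ) : ℝ)) (m / WK q m / WK q m)]
          have e : ∀ g ∈ Icc 1 T', q g * (1 + m / WK q m * (((min m g : ℕ) : ℝ) / WK q m)) =
              q g + m / WK q m / WK q m * (q g * (min m g : ℕ)) := fun g _ => by ring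
          rw [sum_congr rfl e, sum_add_distrib]
          ring
      _ = 1 + m / WK q m / WK q m * WK q (min m (T' + 1)) := by rw [gap_total h, trunc_mean h]
      _ ≤ 1 + m / WK q m / WK q m * WK q m := by
          have := WK_mono h (min_le_left m (T' + 1))
          gcongr
      _ = 1 + m / WK q m := by field_simp
  have h3 : ∑ g ∈ Icc 1 T', q g * (zz q m g * EE q (T' - g) (GG q m (T' - g))) ≤ 2 * UU u m := by
    calc ∑ g ∈ Icc 1 T', q g * (zz q m g * EE q (T' - g) (GG q m (T' - g)))
        ≤ ∑ g ∈ Icc 1 T', q g * ((1 + (min m g : ℕ) / WK q m) * UU u m) := by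
          refine sum_le_sum fun g _ => mul_le_mul_of_nonneg_left ?_ (h.kn g)
          have h4 := GG_mean_le h hm (T' - g)
          exact mul_le_mul ((le_abs_self _).trans (zz_abs_le h hm g)) h4.2 h4.1 (by positivity)
      _ = (∑ g ∈ Icc 1 T', q g + (∑ g ∈ Icc 1 T', q g * (min m g : ℕ)) / WK q m) * UU u m := by
          rw [sum_div, ← sum_add_distrib, sum_mul]
          refine sum_congr rfl fun g _ => ?_
          ring
      _ ≤ (1 + 1) * UU u m := by
          refine mul_le_mul_of_nonneg_right (add_le_add ?_ ?_) (by linarith)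
          · have := gap_total h T'
            have := KK_nonneg h (T' + 1)
            linarith
          · rw [div_le_one hW]
            have h4 := trunc_mean h m T'
            have h5 := WK_mono h (min_le_left m (T' + 1))
            have h6 : 0 ≤ KK q (T' + 1) * (min m (T' + 1) : ℕ) := mul_nonneg (KK_nonneg h _) (by positivity)
            linarith
      _ = 2 * UU u m := by ring
  linarith

end CutLim
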