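import Pool.Agent.CutLim.L2
import Pool.Agent.CutLim.Dim7

/-! CUT, local time, L3: the law of the set of the cut levels of the stopped walk is the renewal law. -/

set_option autoImplicit false

namespace CutLim

open Filter Topology Finset MeasureTheory TopologicalSpace HexObs

open scoped ENNReal NNReal

lemma FCW_zero {t : List Bool} (ht : t ∈ FCW 0) : t = [] := by
  obtain ⟨j, hj⟩ := ht
  rcases Nat.eq_zero_or_pos j with rfl | h
  · have h1 := hj.1
    rw [Brd_zero] at h1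
    exact h1
  · exact absurd ⟨[], t, j, nil_mem_Brd, hj.1, rfl⟩ (hj.2.2 0 le_rfl h)

lemma cS_cat {g b T : ℕ} {p v : List Bool} (hp : p ∈ FC 1 g) (hv : v ∈ Brd b) (hg : 1 ≤ g) (hgT : g ≤ T) :
    cS T (p ++ v) = shf g (cS (T - g) v) := by
  ext c
  unfold shf
  rw [mem_cS, mem_insert, mem_image]
  constructor
  · rintro ⟨⟨h1, h2⟩, s', u', b', hs', hu', h⟩
    rcases lt_trichotomy c g with h3 | h3 | h3
    · exfalso
      obtain ⟨w, hw, h4, -⟩ := cut_nested hs' hp.1 hu' hv h3.le h.symm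
      exact hp.2.2 c h1 h3 ⟨s', w, g - c, hs', hw, h4⟩
    · exact Or.inl h3
    · right
      obtain ⟨w, hw, -, h4⟩ := cut_nested hp.1 hs' hv hu' h3.le h
      exact ⟨c - g, mem_cS.2 ⟨⟨by omega, by omega⟩, w, u', b', hw, hu', h4⟩, by omega⟩
  · rintro (rfl | ⟨s, hs, rfl⟩)
    · exact ⟨⟨hg, hgT⟩, p, v, b, hp.1, hv, rfl⟩
    · obtain ⟨⟨h1, h2⟩, w, u', b', hw, hu', rfl⟩ := mem_cS.1 hs
      exact ⟨⟨by omega, by omega⟩, p ++ w, u', b', Brd_append hp.1 hw, hu', by rw [List.append_assoc]⟩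

open Classical in
/-- words, the law of the set of the cut levels -/
theorem words_law (T : ℕ) : ∀ A : Set (Finset ℕ),
    gf {t | t ∈ FCW T ∧ cS T t ∈ A} = ENNReal.ofReal (EE kk T fun S => if S ∈ A then 1 else 0) := by
  have hnn : ∀ (T : ℕ) (A : Set (Finset ℕ)), 0 ≤ EE kk T fun S => if S ∈ A then 1 else 0 := by
    intro T A
    refine EE_nonneg ren_uu T fun S => ?_
    split_ifs <;> norm_num
  induction T using Nat.strong_induction_on with
  | _ T ih =>
    intro A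
    rcases Nat.eq_zero_or_pos T with hT | hT
    · subst hT
      have h0 : ∀ t : List Bool, cS 0 t = ∅ := by
        intro t
        unfold cS
        rw [Icc_eq_empty (by omega), filter_empty]
      rw [EE_eq, Icc_eq_empty (by omega), sum_empty, add_zero, show KK kk (0 + 1) = 1 from KK_one ren_uu, one_mul]
      split_ifs with hA
      · have h1 : {t | t ∈ FCW 0 ∧ cS 0 t ∈ A} = FCW 0 := by
          ext t
          exact ⟨fun h => h.1, fun h => ⟨h, by rw [h0]; exact hA⟩⟩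
        rw [h1, Touch.gf_FCW, ENNReal.ofReal_one]
      · have h1 : {t | t ∈ FCW 0 ∧ cS 0 t ∈ A} = ∅ := by
          rw [Set.eq_empty_iff_forall_notMem]
          rintro t ⟨-, h⟩
          rw [h0] at h
          exact hA h
        rw [h1, gf_empty', ENNReal.ofReal_zero]
    -- the pieces
    set B : ℕ → Set (Finset ℕ) := fun g => {S | shf g S ∈ A} with hB
    set P : ℕ → Set (List Bool) := fun g => {t | ∃ p v, p ∈ FC 1 g ∧ (v ∈ FCW (T - g) ∧ cS (T - g) v ∈ B g) ∧ t = p ++ v} with hP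
    set R : Set (List Bool) := {t | t ∈ FCW T ∧ ∀ c, 1 ≤ c → c ≤ T → ¬ Cut t c} with hR
    have hfirst : ∀ t, t ∈ FCW T → (∃ c, 1 ≤ c ∧ c ≤ T ∧ Cut t c) →
        ∃ g ∈ Icc 1 T, ∃ p v, p ∈ FC 1 g ∧ v ∈ FCW (T - g) ∧ t = p ++ v := by
      rintro t ht ⟨c, hc1, hc2, s0, u0, b0, hs0, hu0, h0⟩
      obtain ⟨g, p, v, b, hp, hv, hv', h1⟩ := Touch.dec (s := 1) hT ht
      have hgc : g ≤ c := by
        by_contra hcon
        push Not at hcon
        obtain ⟨w, hw, h5, -⟩ := cut_nested hs0 hp.1 hu0 hv hcon.le (h0.symm.trans h1)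
        exact hp.2.2 c hc1 hcon ⟨s0, w, g - c, hs0, hw, h5⟩
      exact ⟨g, mem_Icc.2 ⟨hp.2.1, by omega⟩, p, v, hp, hv', h1⟩
    have hin : ∀ g ∈ Icc 1 T, ∀ p v, p ∈ FC 1 g → v ∈ FCW (T - g) → p ++ v ∈ FCW T := by
      intro g hg p v hp hv
      have hg' := mem_Icc.1 hg
      obtain ⟨j, hj⟩ := hv
      refine ⟨g + j, Brd_append hp.1 hj.1, by have := hj.2.1; omega, ?_⟩
      rintro c hc1 hc2 ⟨s', u', b', hs', hu', h⟩
      obtain ⟨w, hw, -, h4⟩ := cut_nested hp.1 hs' hj.1 hu' (by omega) h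
      exact hj.2.2 (c - g) (by omega) (by omega) ⟨w, u', b', hw, hu', h4⟩
    have hPg : ∀ g ∈ Icc 1 T, gf (P g) = ENNReal.ofReal (kk g * EE kk (T - g) fun S => if S ∈ B g then 1 else 0) := by
      intro g hg
      have hg' := mem_Icc.1 hg
      have e1 : gf (FC 1 g) = ENNReal.ofReal (kk g) := by
        have h1 := gf_FC_ff (i := 0) (j := g) (by omega)
        have h2 : ff 0 g = kk g := by
          unfold ff
          rw [zero_add, sum_range_one, uu_zero, one_mul, Nat.sub_zero]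
        rw [h2, zero_add] at h1
        exact h1
      rw [ENNReal.ofReal_mul (kk_nonneg g), ← e1, ← ih (T - g) (by omega) (B g)]
      refine le_antisymm (gf_le_mul ?_) (mul_le_gf ?_ ?_)
      · rintro t ⟨p, v, hp, hv, h⟩
        exact ⟨p, hp, v, hv, h⟩
      · intro p hp v hv
        exact ⟨p, v, hp, hv, rfl⟩
      · rintro p hp v ⟨⟨j, hj⟩, -⟩ p' hp' v' ⟨⟨j', hj'⟩, -⟩ h
        exact (cut_unique hp.1 hp'.1 hj.1 hj'.1 h).1
    have hdis : ∀ (A' : ℕ → Set (Finset ℕ)) (g g' : ℕ), g ∈ Icc 1 T → g < g' →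
        Disjoint {t | ∃ p v, p ∈ FC 1 g ∧ (v ∈ FCW (T - g) ∧ cS (T - g) v ∈ A' g) ∧ t = p ++ v}
          {t | ∃ p v, p ∈ FC 1 g' ∧ (v ∈ FCW (T - g') ∧ cS (T - g') v ∈ A' g') ∧ t = p ++ v} := by
      intro A' g g' hg hgg
      have hg' := mem_Icc.1 hg
      rw [Set.disjoint_left]
      rintro t ⟨p, v, hp, ⟨⟨j, hj⟩, -⟩, rfl⟩ ⟨p', v', hp', ⟨⟨j', hj'⟩, -⟩, h⟩
      obtain ⟨w, hw, h4, -⟩ := cut_nested hp.1 hp'.1 hj.1 hj'.1 hgg.le h
      exact hp'.2.2 g hg'.1 hgg ⟨p, w, g' - g, hp.1, hw, h4⟩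
    have hRw : gf R = ENNReal.ofReal (KK kk (T + 1)) := by
      have h1 := gf_avoid (Set.univ : Set ℕ) T
      have h2 : {t | t ∈ FCW T ∧ ∀ c, 1 ≤ c → c ≤ T → c ∈ (Set.univ : Set ℕ) → ¬ Cut t c} = R := by
        ext t
        exact ⟨fun h => ⟨h.1, fun c h3 h4 => h.2 c h3 h4 (Set.mem_univ c)⟩, fun h => ⟨h.1, fun c h3 h4 _ => h.2 c h3 h4⟩⟩
      rw [← h2, h1]
      congr 1
      rw [av_eq]
      rw [Finset.sum_eq_zero (fun j _ => by rw [if_pos (Set.mem_univ j), mul_zero]), add_zero, Nat.sub_zero]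
    have hcSR : ∀ t ∈ R, cS T t = ∅ := by
      rintro t ⟨-, h⟩
      rw [eq_empty_iff_forall_notMem]
      intro c hc
      have := mem_cS.1 hc
      exact h c this.1.1 this.1.2 this.2
    have hsplit : {t | t ∈ FCW T ∧ cS T t ∈ A} = (⋃ g ∈ Icc 1 T, P g) ∪ (if ∅ ∈ A then R else ∅) := by
      ext t
      constructor
      · rintro ⟨ht, hA⟩
        by_cases hc : ∃ c, 1 ≤ c ∧ c ≤ T ∧ Cut t c
        · left
          obtain ⟨g, hg, p, v, hp, hv, h⟩ := hfirst t ht hc
          have hg' := mem_Icc.1 hg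
          rw [Set.mem_iUnion₂]
          refine ⟨g, hg, p, v, hp, ⟨hv, ?_⟩, h⟩
          obtain ⟨j, hj⟩ := hv
          show shf g (cS (T - g) v) ∈ A
          rw [← cS_cat hp hj.1 hg'.1 hg'.2, ← h]
          exact hA
        · right
          have htR : t ∈ R := ⟨ht, fun c h1 h2 h3 => hc ⟨c, h1, h2, h3⟩⟩
          rw [hcSR t htR] at hA
          rw [if_pos hA]
          exact htR
      · rintro (h | h)
        · rw [Set.mem_iUnion₂] at h
          obtain ⟨g, hg, p, v, hp, ⟨hv, hvB⟩, rfl⟩ := h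
          have hg' := mem_Icc.1 hg
          refine ⟨hin g hg p v hp hv, ?_⟩
          obtain ⟨j, hj⟩ := hv
          rw [cS_cat hp hj.1 hg'.1 hg'.2]
          exact hvB
        · split_ifs at h with hA
          · exact ⟨h.1, by rw [hcSR t h]; exact hA⟩
          · exact absurd h (Set.notMem_empty t)
    have hdisR : Disjoint (⋃ g ∈ Icc 1 T, P g) (if ∅ ∈ A then R else ∅) := by
      rw [Set.disjoint_left]
      rintro t ht1 ht2
      split_ifs at ht2 with hA
      · rw [Set.mem_iUnion₂] at ht1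
        obtain ⟨g, hg, p, v, hp, ⟨⟨j, hj⟩, -⟩, rfl⟩ := ht1
        have hg' := mem_Icc.1 hg
        exact ht2.2 g hg'.1 hg'.2 ⟨p, v, j, hp.1, hj.1, rfl⟩
      · exact ht2
    have hunion : gf ((⋃ g ∈ Icc 1 T, P g) ∪ (if ∅ ∈ A then R else ∅)) =
        gf (⋃ g ∈ Icc 1 T, P g) + gf (if ∅ ∈ A then R else ∅) := by
      have h3 := gf_biUnion (Finset.univ : Finset Bool)
        (fun b => cond b (⋃ g ∈ Icc 1 T, P g) (if ∅ ∈ A then R else ∅)) (by
          intro b _ b' _ hb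
          rcases b with _ | _ <;> rcases b' with _ | _
          · exact absurd rfl hb
          · exact hdisR.symm
          · exact hdisR
          · exact absurd rfl hb)
      rw [Fintype.sum_bool] at h3
      refine (congrArg gf ?_).trans h3
      ext t
      rw [Set.mem_iUnion₂]
      constructor
      · rintro (h | h)
        · exact ⟨true, mem_univ _, h⟩
        · exact ⟨false, mem_univ _, h⟩
      · rintro ⟨b, -, hb⟩
        rcases b with _ | _
        · exact Or.inr hb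
        · exact Or.inl hb
    rw [hsplit, hunion, gf_biUnion (Icc 1 T) P (by
      intro g hg g' hg' hne
      rcases lt_or_gt_of_ne hne with h | h
      · exact hdis B g g' hg h
      · exact (hdis B g' g hg' h).symm), sum_congr rfl hPg, EE_eq]
    have e2 : gf (if ∅ ∈ A then R else ∅) = ENNReal.ofReal (KK kk (T + 1) * (if ∅ ∈ A then 1 else 0)) := by
      split_ifs
      · rw [mul_one, hRw]
      · rw [mul_zero, ENNReal.ofReal_zero, gf_empty']
    have n1 : (0 : ℝ) ≤ KK kk (T + 1) * (if ∅ ∈ A then 1 else 0) :=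
      mul_nonneg (KK_nonneg ren_uu _) (by split_ifs <;> norm_num)
    have n2 : ∀ g ∈ Icc 1 T, 0 ≤ kk g * EE kk (T - g) fun S => if shf g S ∈ A then 1 else 0 :=
      fun g _ => mul_nonneg (kk_nonneg g) (hnn (T - g) (B g))
    rw [e2, ENNReal.ofReal_add n1 (sum_nonneg n2), ENNReal.ofReal_sum_of_nonneg n2, add_comm]
    rfl

end CutLim
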