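import Pool.Agent.CutLim.Dim6

/-! CUT, local time, L4: the volume of the neighbourhood of a compact set. -/

set_option autoImplicit false

namespace CutLim

open Filter Topology Finset MeasureTheory TopologicalSpace

open scoped ENNReal NNReal Pointwise

/-- the points at distance at most ε on the right of K -/
def nb (ε : ℝ) (K : Set ℝ) : Set ℝ := {y | ∃ k ∈ K, k ≤ y ∧ y ≤ k + ε}

lemma nb_eq (ε : ℝ) (K : Set ℝ) : nb ε K = K + Set.Icc 0 ε := by
  ext y
  rw [Set.mem_add]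
  constructor
  · rintro ⟨k, hk, h1, h2⟩
    exact ⟨k, hk, y - k, ⟨by linarith, by linarith⟩, by ring⟩
  · rintro ⟨k, hk, z, ⟨h1, h2⟩, rfl⟩
    exact ⟨k, hk, by linarith, by linarith⟩

lemma isClosed_nb (ε : ℝ) (K : NC) : IsClosed (nb ε (K : Set ℝ)) := by
  rw [nb_eq]
  exact (K.isCompact.add isCompact_Icc).isClosed

/-- the volume of the right neighbourhood of K in [0, x] -/
noncomputable def Dv (ε x : ℝ) (K : NC) : ℝ := (volume (nb ε (K : Set ℝ) ∩ Set.Icc 0 x)).toReal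

lemma Dv_ne_top (ε x : ℝ) (K : NC) : volume (nb ε (K : Set ℝ) ∩ Set.Icc 0 x) ≠ ∞ := by
  refine ne_top_of_le_ne_top ?_ (measure_mono Set.inter_subset_right)
  rw [Real.volume_Icc]
  exact ENNReal.ofReal_ne_top

lemma Dv_nonneg (ε x : ℝ) (K : NC) : 0 ≤ Dv ε x K := ENNReal.toReal_nonneg

lemma Dv_le {x : ℝ} (hx : 0 ≤ x) (ε : ℝ) (K : NC) : Dv ε x K ≤ x := by
  unfold Dv
  refine ENNReal.toReal_le_of_le_ofReal hx ?_
  refine (measure_mono Set.inter_subset_right).trans ?_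
  rw [Real.volume_Icc, sub_zero]

lemma Dv_mono {ε ε' : ℝ} (h : ε ≤ ε') (x : ℝ) (K : NC) : Dv ε x K ≤ Dv ε' x K := by
  unfold Dv
  refine ENNReal.toReal_mono (Dv_ne_top _ _ _) (measure_mono (Set.inter_subset_inter_left _ ?_))
  rintro y ⟨k, hk, h1, h2⟩
  exact ⟨k, hk, h1, by linarith⟩

lemma bad_countable {ε : ℝ} (hε : 0 < ε) (K : Set ℝ) :
    {y : ℝ | (∀ k ∈ K, ¬ (y - ε < k ∧ k < y)) ∧ (y ∈ K ∨ y - ε ∈ K)}.Countable := by
  have h1 := countable_setOfPred_isolated_left_within (s := K)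
  have h2 := (countable_setOfPred_isolated_right_within (s := K)).image fun z => z + ε
  refine (h1.union h2).mono ?_
  rintro y ⟨hy, hy1 | hy1⟩
  · left
    refine ⟨hy1, ?_⟩
    rw [← Filter.empty_mem_iff_bot, mem_nhdsWithin]
    refine ⟨Set.Ioo (y - ε) (y + ε), isOpen_Ioo, ⟨by linarith, by linarith⟩, ?_⟩
    rintro k ⟨h3, h4, h5⟩
    exact hy k h4 ⟨h3.1, h5⟩
  · right
    refine ⟨y - ε, ⟨hy1, ?_⟩, by ring⟩
    rw [← Filter.empty_mem_iff_bot, mem_nhdsWithin]
    refine ⟨Set.Ioo (y - ε - ε) y, isOpen_Ioo, ⟨by linarith, by linarith⟩, ?_⟩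
    rintro k ⟨h3, h4, h5⟩
    exact hy k h4 ⟨h5, h3.2⟩

/-- continuity -/
theorem Dv_cont {ε : ℝ} (hε : 0 < ε) (x : ℝ) : Continuous (Dv ε x) := by
  rw [continuous_iff_continuousAt]
  intro K
  refine (ENNReal.tendsto_toReal (Dv_ne_top ε x K)).comp ?_
  refine tendsto_measure_of_ae_tendsto_indicator (𝓝 K) ((isClosed_nb ε K).inter isClosed_Icc).measurableSet
    (fun L => ((isClosed_nb ε L).inter isClosed_Icc).measurableSet) (B := Set.Icc 0 x) isClosed_Icc.measurableSet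
    (by rw [Real.volume_Icc]; exact ENNReal.ofReal_ne_top) (Eventually.of_forall fun _ => Set.inter_subset_right) ?_
  have h1 := (bad_countable hε (K : Set ℝ)).measure_zero volume
  have h2 : ∀ᵐ y ∂(volume : Measure ℝ), ¬ ((∀ k ∈ (K : Set ℝ), ¬ (y - ε < k ∧ k < y)) ∧ (y ∈ (K : Set ℝ) ∨ y - ε ∈ (K : Set ℝ))) :=
    measure_eq_zero_iff_ae_notMem.1 h1
  filter_upwards [h2] with y hy
  by_cases hc : ∃ k ∈ (K : Set ℝ), y - ε < k ∧ k < y
  · -- y belongs to all neighbourhoods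
    have hK : K ∈ (AvS (Set.Ioo (y - ε) y))ᶜ := by
      intro h
      obtain ⟨k, hk, h3, h4⟩ := hc
      exact h k hk ⟨h3, h4⟩
    have h3 := (isClosed_AvS isOpen_Ioo).isOpen_compl.mem_nhds hK
    filter_upwards [h3] with L hL
    have h4 : y ∈ nb ε (K : Set ℝ) := by
      obtain ⟨k, hk, h5, h6⟩ := hc
      exact ⟨k, hk, h6.le, by linarith⟩
    have h5 : y ∈ nb ε (L : Set ℝ) := by
      by_contra hcon
      apply hL
      intro k hk hk2
      exact hcon ⟨k, hk, hk2.2.le, by linarith [hk2.1]⟩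
    exact ⟨fun h => ⟨h4, h.2⟩, fun h => ⟨h5, h.2⟩⟩
  · -- y belongs to none
    have hK : K ∈ AvS (Set.Icc (y - ε) y) := by
      intro k hk hk2
      push Not at hc
      apply hy
      refine ⟨fun k' hk' h => ?_, ?_⟩
      · exact absurd h.2 (not_lt.2 (hc k' hk' h.1))
      · rcases eq_or_lt_of_le hk2.1 with h | h
        · right
          rw [h]
          exact hk
        · left
          have h7 := hc k hk h
          rw [le_antisymm h7 hk2.2]
          exact hk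
    have h3 := (isOpen_AvS isClosed_Icc).mem_nhds hK
    filter_upwards [h3] with L hL
    constructor
    · rintro ⟨⟨k, hk, h4, h5⟩, -⟩
      exact absurd ⟨by linarith, h4⟩ (hL k hk)
    · rintro ⟨⟨k, hk, h4, h5⟩, -⟩
      exact absurd ⟨by linarith, h4⟩ (hK k hk)

end CutLim
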