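import Pool.Agent.CutLim.L3
import Pool.Agent.CutLim.L4

/-! CUT, local time, L5: the number of the cut levels and the volume of the neighbourhood, words. -/

set_option autoImplicit false

namespace CutLim

open Filter Topology Finset MeasureTheory TopologicalSpace HexObs

open scoped ENNReal NNReal

lemma EE_zero (q : ℕ → ℝ) (T : ℕ) : EE q T (fun _ => 0) = 0 := by
  have h := EE_smul q 0 T (fun _ => 1)
  simp only [zero_mul] at h
  exact h

lemma EE_sum {ι : Type} (q : ℕ → ℝ) (T : ℕ) (I : Finset ι) (F : ι → Finset ℕ → ℝ) :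
    EE q T (fun S => ∑ i ∈ I, F i S) = ∑ i ∈ I, EE q T (F i) := by
  classical
  induction I using Finset.induction_on with
  | empty =>
    simp only [sum_empty]
    exact EE_zero q T
  | insert i I hi ih =>
    simp only [sum_insert hi]
    rw [EE_add, ih]

lemma cS_sub (T : ℕ) (t : List Bool) : cS T t ⊆ Icc 1 T := fun _ hc => mem_Icc.2 (mem_cS.1 hc).1

/-- the expectation over the words is the renewal expectation -/
theorem words_EE (T : ℕ) {F : Finset ℕ → ℝ} (hF : ∀ S, 0 ≤ F S) :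
    ∑' t : {t : List Bool // t ∈ FCW T}, wE t.1 * ENNReal.ofReal (F (cS T t.1)) = ENNReal.ofReal (EE kk T F) := by
  classical
  have h1 : ∀ t : List Bool, ENNReal.ofReal (F (cS T t)) =
      ∑ S ∈ (Icc 1 T).powerset, (if cS T t ∈ ({S} : Set (Finset ℕ)) then ENNReal.ofReal (F S) else 0) := by
    intro t
    rw [Finset.sum_eq_single (cS T t)]
    · rw [if_pos (Set.mem_singleton _)]
    · intro S _ hS
      rw [if_neg (fun h => hS (Set.mem_singleton_iff.1 h).symm)]
    · intro h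
      exact absurd (mem_powerset.2 (cS_sub T t)) h
  simp_rw [h1, Finset.mul_sum]
  rw [Summable.tsum_finsetSum (fun _ _ => ENNReal.summable)]
  have h2 : ∀ S ∈ (Icc 1 T).powerset, ∑' t : {t : List Bool // t ∈ FCW T},
      wE t.1 * (if cS T t.1 ∈ ({S} : Set (Finset ℕ)) then ENNReal.ofReal (F S) else 0) =
      ENNReal.ofReal (EE kk T fun S' => F S * (if S' ∈ ({S} : Set (Finset ℕ)) then 1 else 0)) := by
    intro S _
    have hw : ENNReal.ofReal (EE kk T fun S' => if S' ∈ ({S} : Set (Finset ℕ)) then 1 else 0) =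
        gf {t | t ∈ FCW T ∧ cS T t ∈ ({S} : Set (Finset ℕ))} := by
      rw [words_law T {S}]
      congr!
    rw [EE_smul, mul_comm, ENNReal.ofReal_mul' (hF S), hw]
    unfold gf
    rw [← ENNReal.tsum_mul_right, tsum_subtype (FCW T) (fun t => wE t * (if cS T t ∈ ({S} : Set (Finset ℕ)) then ENNReal.ofReal (F S) else 0)),
      tsum_subtype {t | t ∈ FCW T ∧ cS T t ∈ ({S} : Set (Finset ℕ))} (fun t => wE t * ENNReal.ofReal (F S))]
    refine tsum_congr fun t => ?_
    by_cases h3 : t ∈ FCW T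
    · rw [Set.indicator_of_mem h3]
      by_cases h4 : cS T t ∈ ({S} : Set (Finset ℕ))
      · rw [if_pos h4, Set.indicator_of_mem (show t ∈ {t | t ∈ FCW T ∧ cS T t ∈ ({S} : Set (Finset ℕ))} from ⟨h3, h4⟩)]
      · rw [if_neg h4, mul_zero,
          Set.indicator_of_notMem (fun h5 : t ∈ {t | t ∈ FCW T ∧ cS T t ∈ ({S} : Set (Finset ℕ))} => h4 h5.2)]
    · rw [Set.indicator_of_notMem h3,
        Set.indicator_of_notMem (fun h5 : t ∈ {t | t ∈ FCW T ∧ cS T t ∈ ({S} : Set (Finset ℕ))} => h3 h5.1)]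
  rw [sum_congr rfl h2, ← ENNReal.ofReal_sum_of_nonneg, ← EE_sum]
  · congr 1
    refine EE_congr kk T _ _ fun S' hS' => ?_
    rw [Finset.sum_eq_single S']
    · rw [if_pos (Set.mem_singleton _), mul_one]
    · intro S _ hS
      rw [if_neg (fun h => hS (Set.mem_singleton_iff.1 h).symm), mul_zero]
    · intro h
      exact absurd (mem_powerset.2 hS') h
  · intro S _
    refine EE_nonneg ren_uu T fun S' => mul_nonneg (hF S) ?_
    split_ifs <;> norm_num

lemma cS_filter {n T : ℕ} (hn : n ≤ T) (t : List Bool) : (cS T t).filter (fun s => s ≤ n) = cS n t := by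
  ext c
  rw [mem_filter, mem_cS, mem_cS]
  constructor
  · rintro ⟨⟨⟨h1, h2⟩, h3⟩, h4⟩
    exact ⟨⟨h1, h4⟩, h3⟩
  · rintro ⟨⟨h1, h2⟩, h3⟩
    exact ⟨⟨⟨h1, by omega⟩, h3⟩, h2⟩

/-- the mean square over the words -/
theorem words_sq {m n T : ℕ} (hm : 1 ≤ m) (hn : n ≤ T) :
    ∑' t : {t : List Bool // t ∈ FCW T}, wE t.1 * ENNReal.ofReal (GG kk m n (cS n t.1) ^ 2) ≤
      ENNReal.ofReal ((1 + m / WK kk m + 4 * UU uu m) * UU uu n) := by
  have h1 := words_EE T (F := fun S => GG kk m n (S.filter fun s => s ≤ n) ^ 2) fun S => sq_nonneg _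
  have h2 : ∀ t : {t : List Bool // t ∈ FCW T}, wE t.1 * ENNReal.ofReal (GG kk m n (cS n t.1) ^ 2) =
      wE t.1 * ENNReal.ofReal (GG kk m n ((cS T t.1).filter fun s => s ≤ n) ^ 2) := by
    intro t
    rw [cS_filter hn]
  rw [tsum_congr h2, h1, EE_restrict ren_uu T n (fun S => GG kk m n S ^ 2) hn]
  exact ENNReal.ofReal_le_ofReal (GG_sq_le ren_uu hm n)

lemma mass_FCW (T : ℕ) : ∑' t : {t : List Bool // t ∈ FCW T}, wE t.1 = 1 := Touch.gf_FCW T

/-- the mean over the words -/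
theorem words_abs {m n T : ℕ} (hm : 1 ≤ m) (hn : n ≤ T) {l : ℝ} (hl : 0 < l) :
    ∑' t : {t : List Bool // t ∈ FCW T}, wE t.1 * ENNReal.ofReal |GG kk m n (cS n t.1)| ≤
      ENNReal.ofReal ((1 + m / WK kk m + 4 * UU uu m) * UU uu n / l + l) := by
  have h1 : ∀ t : {t : List Bool // t ∈ FCW T}, wE t.1 * ENNReal.ofReal |GG kk m n (cS n t.1)| ≤
      ENNReal.ofReal l⁻¹ * (wE t.1 * ENNReal.ofReal (GG kk m n (cS n t.1) ^ 2)) + wE t.1 * ENNReal.ofReal l := by
    intro t
    rw [← mul_assoc, mul_comm (ENNReal.ofReal l⁻¹), mul_assoc, ← mul_add, ← ENNReal.ofReal_mul (by positivity),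
      ← ENNReal.ofReal_add (by positivity) hl.le]
    refine mul_le_mul_right (ENNReal.ofReal_le_ofReal ?_) _
    set G := GG kk m n (cS n t.1)
    have h2 : 0 ≤ (|G| - l) ^ 2 := sq_nonneg _
    have h3 : |G| * l ≤ G ^ 2 + l ^ 2 := by
      have := sq_abs G
      nlinarith [abs_nonneg G]
    have h4 : |G| ≤ (G ^ 2 + l ^ 2) / l := by
      rw [le_div_iff₀ hl]
      exact h3
    refine h4.trans (le_of_eq ?_)
    field_simp
  refine (ENNReal.tsum_le_tsum h1).trans ?_
  have hnn : 0 ≤ (1 + m / WK kk m + 4 * UU uu m) * UU uu n := by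
    have a1 := WK_ge ren_uu hm
    have a2 := UU_ge ren_uu m
    have a3 := UU_ge ren_uu n
    positivity
  rw [ENNReal.tsum_add, ENNReal.tsum_mul_left, ENNReal.tsum_mul_right, mass_FCW, one_mul,
    ENNReal.ofReal_add (by positivity) hl.le]
  gcongr
  rw [div_eq_inv_mul, ENNReal.ofReal_mul (by positivity)]
  gcongr
  exact words_sq hm hn

lemma nonneg_mem {T : ℕ} {t : List Bool} {n : ℕ} (hn : n ≤ T) {j : ℕ} (hj : j ∈ insert 0 (cS n t)) :
    ((j : ℝ) / T) ∈ (cutset T t : Set ℝ) := by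
  rcases mem_insert.1 hj with rfl | hj
  · exact mem_cutset.2 ⟨0, Nat.zero_le _, Or.inl rfl, rfl⟩
  · have := mem_cS.1 hj
    exact mem_cutset.2 ⟨j, by omega, Or.inr this.2, rfl⟩

/-- the volume is at most the number of the rows -/
theorem Dv_le_hit (ε x : ℝ) {T : ℕ} (hT : 1 ≤ T) (t : List Bool) :
    T * Dv ε x (cutset T t) ≤ hitn (⌊ε * T⌋₊ + 1) ⌊x * T⌋₊ (cS ⌊x * T⌋₊ t) := by
  classical
  have hT0 : (0 : ℝ) < T := by exact_mod_cast hT
  set n := ⌊x * T⌋₊ with hn
  set H := (range (n + 1)).filter fun i => ∃ j ∈ insert 0 (cS n t), j ≤ i ∧ i < j + (⌊ε * T⌋₊ + 1) with hH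
  have hcard : hitn (⌊ε * T⌋₊ + 1) n (cS n t) = H.card := rfl
  have hsub : nb ε (cutset T t : Set ℝ) ∩ Set.Icc 0 x ⊆ ⋃ i ∈ H, Set.Icc ((i : ℝ) / T) (((i : ℝ) + 1) / T) := by
    rintro y ⟨⟨k, hk, h1, h2⟩, hy0, hyx⟩
    obtain ⟨j, hj, hjc, rfl⟩ := mem_cutset.1 hk
    rw [Set.mem_iUnion₂]
    have hyT : 0 ≤ y * T := by positivity
    have f1 := Nat.floor_le hyT
    have f2 := Nat.lt_floor_add_one (y * T)
    have hjy : (j : ℝ) ≤ y * T := by
      rw [div_le_iff₀ hT0] at h1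
      exact h1
    have hji : j ≤ ⌊y * T⌋₊ := Nat.le_floor hjy
    have hin : ⌊y * T⌋₊ ≤ n := Nat.floor_le_floor (by gcongr)
    have h3 : y * T ≤ j + ε * T := by
      have : y * T ≤ (j / T + ε) * T := by gcongr
      rw [add_mul, div_mul_cancel₀ _ hT0.ne'] at this
      exact this
    have hlt : ⌊y * T⌋₊ - j ≤ ⌊ε * T⌋₊ := by
      refine Nat.le_floor ?_
      rw [Nat.cast_sub hji]
      linarith
    refine ⟨⌊y * T⌋₊, mem_filter.2 ⟨mem_range.2 (by omega), j, ?_, hji, by omega⟩, ?_, ?_⟩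
    · rcases hjc with rfl | hjc
      · exact mem_insert_self _ _
      · rcases Nat.eq_zero_or_pos j with rfl | hj0
        · exact mem_insert_self _ _
        · exact mem_insert_of_mem (mem_cS.2 ⟨⟨hj0, by omega⟩, hjc⟩)
    · rw [div_le_iff₀ hT0]
      exact f1
    · rw [le_div_iff₀ hT0]
      exact f2.le
  have hvol : volume (nb ε (cutset T t : Set ℝ) ∩ Set.Icc 0 x) ≤ ENNReal.ofReal ((H.card : ℝ) / T) := by
    refine (measure_mono hsub).trans ((measure_biUnion_finset_le _ _).trans ?_)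
    have h1 : ∀ i ∈ H, volume (Set.Icc ((i : ℝ) / T) (((i : ℝ) + 1) / T)) = ENNReal.ofReal (1 / T) := by
      intro i _
      rw [Real.volume_Icc]
      congr 1
      ring
    rw [sum_congr rfl h1, sum_const, nsmul_eq_mul, ← ENNReal.ofReal_natCast, ← ENNReal.ofReal_mul (by positivity)]
    refine ENNReal.ofReal_le_ofReal (le_of_eq ?_)
    ring
  have h4 : Dv ε x (cutset T t) ≤ (H.card : ℝ) / T := ENNReal.toReal_le_of_le_ofReal (by positivity) hvol
  rw [hcard]
  rw [le_div_iff₀ hT0] at h4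
  linarith

/-- the volume is at least the number of the rows -/
theorem hit_le_Dv {ε x : ℝ} (hε : 0 ≤ ε) (hx : 0 ≤ x) {T : ℕ} (hT : 1 ≤ T) (hn1 : 1 ≤ ⌊x * T⌋₊) (hnT : ⌊x * T⌋₊ ≤ T) (t : List Bool) :
    (hitn ⌊ε * T⌋₊ (⌊x * T⌋₊ - 1) (cS (⌊x * T⌋₊ - 1) t) : ℝ) ≤ T * Dv ε x (cutset T t) := by
  classical
  have hT0 : (0 : ℝ) < T := by exact_mod_cast hT
  set n := ⌊x * T⌋₊ with hn
  set H := (range (n - 1 + 1)).filter fun i => ∃ j ∈ insert 0 (cS (n - 1) t), j ≤ i ∧ i < j + ⌊ε * T⌋₊ with hH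
  have hcard : hitn ⌊ε * T⌋₊ (n - 1) (cS (n - 1) t) = H.card := by
    unfold hitn
    rw [hH]
    congr!
  have hsub : (⋃ i ∈ H, Set.Ico ((i : ℝ) / T) (((i : ℝ) + 1) / T)) ⊆ nb ε (cutset T t : Set ℝ) ∩ Set.Icc 0 x := by
    intro y hy
    rw [Set.mem_iUnion₂] at hy
    obtain ⟨i, hi, h1, h2⟩ := hy
    rw [hH] at hi
    simp only [mem_filter] at hi
    obtain ⟨hi1, j, hj, h3, h4⟩ := hi
    have hi2 := mem_range.1 hi1
    have fx := Nat.floor_le (show 0 ≤ x * T by positivity)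
    have fe := Nat.floor_le (show 0 ≤ ε * T by positivity)
    have c1 : (i : ℝ) + 1 ≤ n := by
      have : i + 1 ≤ n := by omega
      exact_mod_cast this
    have c2 : (j : ℝ) ≤ i := by exact_mod_cast h3
    have c3 : (i : ℝ) + 1 ≤ j + ⌊ε * T⌋₊ := by
      have : i + 1 ≤ j + ⌊ε * T⌋₊ := by omega
      exact_mod_cast this
    refine ⟨⟨(j : ℝ) / T, nonneg_mem (by omega) hj, ?_, ?_⟩, ?_, ?_⟩
    · refine le_trans ?_ h1
      gcongr
    · refine h2.le.trans ?_
      rw [div_le_iff₀ hT0, add_mul, div_mul_cancel₀ _ hT0.ne']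
      linarith
    · exact le_trans (by positivity) h1
    · refine h2.le.trans ?_
      rw [div_le_iff₀ hT0]
      linarith
  have hvol : ENNReal.ofReal ((H.card : ℝ) / T) ≤ volume (nb ε (cutset T t : Set ℝ) ∩ Set.Icc 0 x) := by
    refine le_trans (le_of_eq ?_) (measure_mono hsub)
    rw [measure_biUnion_finset]
    · have h1 : ∀ i ∈ H, volume (Set.Ico ((i : ℝ) / T) (((i : ℝ) + 1) / T)) = ENNReal.ofReal (1 / T) := by
        intro i _
        rw [Real.volume_Ico]
        congr 1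
        ring
      rw [sum_congr rfl h1, sum_const, nsmul_eq_mul, ← ENNReal.ofReal_natCast, ← ENNReal.ofReal_mul (by positivity)]
      congr 1
      ring
    · intro i _ j _ hij
      show Disjoint _ _
      rw [Set.disjoint_left]
      rintro y ⟨h1, h2⟩ ⟨h3, h4⟩
      have k1 : (i : ℝ) < j + 1 := by
        have := lt_of_le_of_lt h1 h4
        rw [div_lt_div_iff_of_pos_right hT0] at this
        exact this
      have k2 : (j : ℝ) < i + 1 := by
        have := lt_of_le_of_lt h3 h2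
        rw [div_lt_div_iff_of_pos_right hT0] at this
        exact this
      have k3 : i < j + 1 := by exact_mod_cast k1
      have k4 : j < i + 1 := by exact_mod_cast k2
      exact hij (by omega)
    · exact fun _ _ => measurableSet_Ico
  have h4 : (H.card : ℝ) / T ≤ Dv ε x (cutset T t) := by
    unfold Dv
    rw [← ENNReal.ofReal_le_iff_le_toReal (Dv_ne_top _ _ _)]
    exact hvol
  rw [hcard]
  rw [div_le_iff₀ hT0] at h4
  linarith

/-- pointwise comparison -/
theorem num_sub {ε x : ℝ} (hε : 0 ≤ ε) (hx : 0 ≤ x) (hx1 : x ≤ 1) {T : ℕ} (hT : 1 ≤ T) (hm : 1 ≤ ⌊ε * T⌋₊) (t : List Bool) :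
    |((cS ⌊x * T⌋₊ t).card : ℝ) - T * Dv ε x (cutset T t) / WK kk ⌊ε * T⌋₊| ≤
      |GG kk ⌊ε * T⌋₊ (⌊x * T⌋₊ - 1) (cS (⌊x * T⌋₊ - 1) t)| + |GG kk (⌊ε * T⌋₊ + 1) ⌊x * T⌋₊ (cS ⌊x * T⌋₊ t)| + 1 +
        (T + 1) / WK kk ⌊ε * T⌋₊ ^ 2 := by
  have hT0 : (0 : ℝ) < T := by exact_mod_cast hT
  set m := ⌊ε * T⌋₊ with hmdef
  set n := ⌊x * T⌋₊ with hn
  have hnT : n ≤ T := by
    have h1 : (n : ℝ) ≤ x * T := Nat.floor_le (by positivity)
    have h2 : (n : ℝ) ≤ T := h1.trans (by nlinarith)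
    exact_mod_cast h2
  have hW := WK_ge ren_uu hm
  have hW0 : 0 < WK kk m := by linarith
  have hW' : WK kk (m + 1) ≤ WK kk m + 1 := by
    rw [WK_succ]
    linarith [KK_le_one ren_uu (m + 1)]
  have hW'' : WK kk m ≤ WK kk (m + 1) := WK_mono ren_uu (Nat.le_succ m)
  have hW'0 : 0 < WK kk (m + 1) := by linarith
  have up := Dv_le_hit ε x hT t
  rw [← hmdef, ← hn] at up
  -- upper
  have hcn : (hitn (m + 1) n (cS n t) : ℝ) ≤ T + 1 := by
    have h1 : hitn (m + 1) n (cS n t) ≤ n + 1 := by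
      unfold hitn
      exact (card_filter_le _ _).trans (card_range _).le
    have h2 : hitn (m + 1) n (cS n t) ≤ T + 1 := by omega
    exact_mod_cast h2
  set N : ℝ := ((cS n t).card : ℝ) with hN
  have hN0 : 0 ≤ N := by positivity
  have hup : T * Dv ε x (cutset T t) / WK kk m ≤
      N + 1 + |GG kk (m + 1) n (cS n t)| + (T + 1) / WK kk m ^ 2 := by
    have e : GG kk (m + 1) n (cS n t) = N + 1 - hitn (m + 1) n (cS n t) / WK kk (m + 1) := rfl
    have h1 : (hitn (m + 1) n (cS n t) : ℝ) / WK kk m =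
        hitn (m + 1) n (cS n t) / WK kk (m + 1) + (WK kk (m + 1) - WK kk m) / WK kk m * (hitn (m + 1) n (cS n t) / WK kk (m + 1)) := by
      field_simp
      ring
    have h2 : (WK kk (m + 1) - WK kk m) / WK kk m * (hitn (m + 1) n (cS n t) / WK kk (m + 1)) ≤ (T + 1) / WK kk m ^ 2 := by
      calc (WK kk (m + 1) - WK kk m) / WK kk m * (hitn (m + 1) n (cS n t) / WK kk (m + 1))
          ≤ 1 / WK kk m * ((T + 1) / WK kk m) := by
            refine mul_le_mul ?_ ?_ (by positivity) (by positivity)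
            · gcongr
              linarith
            · gcongr
        _ = (T + 1) / WK kk m ^ 2 := by
            field_simp
    have h3 : T * Dv ε x (cutset T t) / WK kk m ≤ hitn (m + 1) n (cS n t) / WK kk m := by gcongr
    have h4 := neg_le_abs (GG kk (m + 1) n (cS n t))
    rw [e] at h4 ⊢
    linarith
  have hab := abs_nonneg (GG kk (m + 1) n (cS n t))
  have hab2 := abs_nonneg (GG kk m (n - 1) (cS (n - 1) t))
  have hTW : (0 : ℝ) ≤ (T + 1) / WK kk m ^ 2 := by positivity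
  have hlow : N - |GG kk m (n - 1) (cS (n - 1) t)| ≤ T * Dv ε x (cutset T t) / WK kk m := by
    rcases Nat.eq_zero_or_pos n with h0 | h0
    · have h1 : N = 0 := by
        rw [hN, h0]
        unfold cS
        rw [Icc_eq_empty (by omega), filter_empty, card_empty, Nat.cast_zero]
      have h2 : 0 ≤ T * Dv ε x (cutset T t) / WK kk m := by
        have := Dv_nonneg ε x (cutset T t)
        positivity
      linarith
    · have low := hit_le_Dv hε hx hT (t := t) (by rw [← hn]; exact h0) (by rw [← hn]; exact hnT)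
      rw [← hmdef, ← hn] at low
      have e : GG kk m (n - 1) (cS (n - 1) t) = ((cS (n - 1) t).card : ℝ) + 1 - hitn m (n - 1) (cS (n - 1) t) / WK kk m := rfl
      have h1 : N ≤ ((cS (n - 1) t).card : ℝ) + 1 := by
        have h2 : cS n t ⊆ insert n (cS (n - 1) t) := by
          intro c hc
          have := mem_cS.1 hc
          rcases Nat.lt_or_ge c n with h | h
          · exact mem_insert_of_mem (mem_cS.2 ⟨⟨this.1.1, by omega⟩, this.2⟩)
          · have : c = n := by omega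
            rw [this]
            exact mem_insert_self _ _
        have h3 := (card_le_card h2).trans (card_insert_le _ _)
        rw [hN]
        exact_mod_cast h3
      have h2 : (hitn m (n - 1) (cS (n - 1) t) : ℝ) / WK kk m ≤ T * Dv ε x (cutset T t) / WK kk m := by gcongr
      have h3 := le_abs_self (GG kk m (n - 1) (cS (n - 1) t))
      rw [e] at h3 ⊢
      linarith
  rw [abs_le]
  constructor <;> linarith

end CutLim
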