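import Pool.Agent.CutLim.L5
import Pool.Agent.CutLim.Dim8

/-! CUT, local time, L6: the number of the cut levels and the volume of the neighbourhood, asymptotics. -/

set_option autoImplicit false

namespace CutLim

open Filter Topology Finset MeasureTheory TopologicalSpace HexObs

open scoped ENNReal NNReal

section

variable {u q : ℕ → ℝ} {a b : ℝ}

lemma WK_tendsto (h : Ren u q) (ha : 0 < a) (ha1 : a < 1) (hb : 0 < b)
    (hu : Tendsto (fun n : ℕ => (n : ℝ) ^ (1 - a) * u n) atTop (𝓝 b)) :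
    Tendsto (fun n : ℕ => (n : ℝ) ^ (a - 1) * WK q n) atTop (𝓝 (1 / (b * Real.Gamma a * Real.Gamma (2 - a)))) := by
  have h1 := sum_KK_tendsto h ha ha1 hb hu
  have h2 : Tendsto (fun n : ℕ => (n : ℝ) ^ (a - 1) * KK q (n + 1)) atTop (𝓝 (0 * 0)) := by
    refine Tendsto.mul ?_ ((KK_zero_lim h).comp (tendsto_add_atTop_nat 1))
    have h3 := (tendsto_rpow_neg_atTop (show 0 < 1 - a by linarith)).comp tendsto_natCast_atTop_atTop (α := ℕ)
    refine h3.congr fun n => ?_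
    show ((n : ℕ) : ℝ) ^ (-(1 - a)) = _
    congr 1
    ring
  have h4 := h1.sub h2
  rw [mul_zero, sub_zero] at h4
  refine h4.congr fun n => ?_
  have e : ∑ i ∈ range (n + 1), KK q (i + 1) = WK q n + KK q (n + 1) := WK_succ q n
  rw [e]
  ring

end

section

variable {b : ℝ}

private lemma hu7 (hu : Tendsto (fun n : ℕ => (n : ℝ) ^ (1 / 4 : ℝ) * uu n) atTop (𝓝 b)) :
    Tendsto (fun n : ℕ => (n : ℝ) ^ (1 - 3 / 4 : ℝ) * uu n) atTop (𝓝 b) := by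
  have he : (1 : ℝ) - 3 / 4 = 1 / 4 := by norm_num
  rw [he]
  exact hu

/-- the constant -/
noncomputable def ctr (b ε : ℝ) : ℝ := b * Real.Gamma (3 / 4) * Real.Gamma (5 / 4) * ε ^ (-(1 / 4) : ℝ)

lemma ctr_pos {ε : ℝ} (hb : 0 < b) (hε : 0 < ε) : 0 < ctr b ε := by
  unfold ctr
  have h1 := Real.Gamma_pos_of_pos (show (0 : ℝ) < 3 / 4 by norm_num)
  have h2 := Real.Gamma_pos_of_pos (show (0 : ℝ) < 5 / 4 by norm_num)
  positivity

lemma WK_lim (hb : 0 < b) (hu : Tendsto (fun n : ℕ => (n : ℝ) ^ (1 / 4 : ℝ) * uu n) atTop (𝓝 b)) :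
    Tendsto (fun n : ℕ => (n : ℝ) ^ (-(1 / 4) : ℝ) * WK kk n) atTop
      (𝓝 (1 / (b * Real.Gamma (3 / 4) * Real.Gamma (5 / 4)))) := by
  have h1 := WK_tendsto ren_uu (by norm_num : (0 : ℝ) < 3 / 4) (by norm_num) hb (hu7 hu)
  have e1 : (3 / 4 - 1 : ℝ) = -(1 / 4) := by norm_num
  have e2 : (2 - 3 / 4 : ℝ) = 5 / 4 := by norm_num
  rw [e1, e2] at h1
  exact h1

/-- T^(1/4) / WK converges -/
lemma ratio_lim (hb : 0 < b) (hu : Tendsto (fun n : ℕ => (n : ℝ) ^ (1 / 4 : ℝ) * uu n) atTop (𝓝 b)) {ε : ℝ} (hε : 0 < ε) :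
    Tendsto (fun T : ℕ => (T : ℝ) ^ (1 / 4 : ℝ) / WK kk ⌊ε * T⌋₊) atTop (𝓝 (ctr b ε)) := by
  have hg1 := Real.Gamma_pos_of_pos (show (0 : ℝ) < 3 / 4 by norm_num)
  have hg2 := Real.Gamma_pos_of_pos (show (0 : ℝ) < 5 / 4 by norm_num)
  have hfl : Tendsto (fun T : ℕ => (⌊ε * T⌋₊ : ℝ) / T) atTop (𝓝 ε) :=
    (tendsto_nat_floor_mul_div_atTop hε.le).comp tendsto_natCast_atTop_atTop
  have hft : Tendsto (fun T : ℕ => ⌊ε * (T : ℝ)⌋₊) atTop atTop :=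
    tendsto_nat_floor_atTop.comp (tendsto_natCast_atTop_atTop.const_mul_atTop hε)
  have h1 := ((WK_lim hb hu).comp hft).inv₀ (by positivity)
  have h2 : Tendsto (fun T : ℕ => ((⌊ε * T⌋₊ : ℝ) / T) ^ (-(1 / 4) : ℝ)) atTop (𝓝 (ε ^ (-(1 / 4) : ℝ))) :=
    hfl.rpow_const (Or.inl hε.ne')
  have h3 := h2.mul h1
  have e : ε ^ (-(1 / 4) : ℝ) * (1 / (b * Real.Gamma (3 / 4) * Real.Gamma (5 / 4)))⁻¹ = ctr b ε := by
    unfold ctr
    rw [inv_div, div_one]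
    ring
  rw [e] at h3
  refine h3.congr' ?_
  filter_upwards [hft.eventually_ge_atTop 1, eventually_ge_atTop 1] with T hT hT1
  have hT0 : (0 : ℝ) < T := by exact_mod_cast hT1
  have hm0 : (0 : ℝ) < ⌊ε * (T : ℝ)⌋₊ := by exact_mod_cast hT
  have hW := WK_ge ren_uu hT
  have hmp := Real.rpow_pos_of_pos hm0 (1 / 4)
  show ((⌊ε * T⌋₊ : ℝ) / T) ^ (-(1 / 4) : ℝ) * ((⌊ε * (T : ℝ)⌋₊ : ℝ) ^ (-(1 / 4) : ℝ) * WK kk ⌊ε * T⌋₊)⁻¹ = _
  rw [Real.div_rpow hm0.le hT0.le, Real.rpow_neg hm0.le, Real.rpow_neg hT0.le]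
  field_simp

lemma ratio_bound (hb : 0 < b) (hu : Tendsto (fun n : ℕ => (n : ℝ) ^ (1 / 4 : ℝ) * uu n) atTop (𝓝 b)) :
    ∃ C : ℝ, 0 < C ∧ ∀ m : ℕ, 1 ≤ m → m / WK kk m ≤ C * (m : ℝ) ^ (3 / 4 : ℝ) := by
  have hg1 := Real.Gamma_pos_of_pos (show (0 : ℝ) < 3 / 4 by norm_num)
  have hg2 := Real.Gamma_pos_of_pos (show (0 : ℝ) < 5 / 4 by norm_num)
  obtain ⟨S, hS⟩ := ((WK_lim hb hu).inv₀ (by positivity)).bddAbove_range
  refine ⟨max 1 S, by positivity, fun m hm => ?_⟩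
  have hm0 : (0 : ℝ) < m := by exact_mod_cast hm
  have hW := WK_ge ren_uu hm
  have h1 : ((m : ℝ) ^ (-(1 / 4) : ℝ) * WK kk m)⁻¹ ≤ S := hS ⟨m, rfl⟩
  have hp := Real.rpow_pos_of_pos hm0 (3 / 4)
  have hq := Real.rpow_pos_of_pos hm0 (-(1 / 4))
  have e : (m : ℝ) / WK kk m = ((m : ℝ) ^ (-(1 / 4) : ℝ) * WK kk m)⁻¹ * (m : ℝ) ^ (3 / 4 : ℝ) := by
    have e2 : (m : ℝ) ^ (3 / 4 : ℝ) = m * (m : ℝ) ^ (-(1 / 4) : ℝ) := by
      nth_rewrite 2 [← Real.rpow_one (m : ℝ)]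
      rw [← Real.rpow_add hm0]
      norm_num
    rw [e2]
    field_simp
  rw [e]
  exact mul_le_mul_of_nonneg_right (h1.trans (le_max_right _ _)) hp.le

/-- the mean difference between the number of the cut levels and the volume -/
theorem num_vol (hb : 0 < b) (hu : Tendsto (fun n : ℕ => (n : ℝ) ^ (1 / 4 : ℝ) * uu n) atTop (𝓝 b)) :
    ∃ C : ℝ, 0 < C ∧ ∀ ε x : ℝ, 0 < ε → ε ≤ 1 → 0 ≤ x → x ≤ 1 → ∀ᶠ T : ℕ in atTop,
      ∑' t : {t : List Bool // t ∈ FCW T}, wE t.1 * ENNReal.ofReal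
        |((cS ⌊x * T⌋₊ t.1).card : ℝ) / (T : ℝ) ^ (3 / 4 : ℝ) - ctr b ε * Dv ε x (cutset T t.1)| ≤
      ENNReal.ofReal (C * ε ^ (3 / 8 : ℝ)) := by
  obtain ⟨C1, hC1, hr⟩ := ratio_bound hb hu
  obtain ⟨C2, hC2, hU⟩ := UU_bound hb hu
  set D : ℝ := (1 + C1 + 4 * C2) * 2 ^ (3 / 4 : ℝ) * C2 + 1 with hD
  have hD0 : 0 < D := by positivity
  refine ⟨2 * D + 1, by positivity, fun ε x hε hε1 hx hx1 => ?_⟩
  have hεp : 0 < ε ^ (3 / 8 : ℝ) := Real.rpow_pos_of_pos hε _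
  have hft : Tendsto (fun T : ℕ => ⌊ε * (T : ℝ)⌋₊) atTop atTop :=
    tendsto_nat_floor_atTop.comp (tendsto_natCast_atTop_atTop.const_mul_atTop hε)
  have hrat := ratio_lim hb hu hε
  -- the error terms
  have herr : Tendsto (fun T : ℕ => (T : ℝ) ^ (-(3 / 4) : ℝ) + ((T : ℝ) ^ (1 / 4 : ℝ) / WK kk ⌊ε * T⌋₊) ^ 2 *
      (((T : ℝ) + 1) * (T : ℝ) ^ (-(5 / 4) : ℝ)) + |(T : ℝ) ^ (1 / 4 : ℝ) / WK kk ⌊ε * T⌋₊ - ctr b ε|) atTop
      (𝓝 (0 + ctr b ε ^ 2 * 0 + |ctr b ε - ctr b ε|)) := by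
    refine ((?_ : Tendsto (fun T : ℕ => (T : ℝ) ^ (-(3 / 4) : ℝ)) atTop (𝓝 0)).add ((hrat.pow 2).mul ?_)).add
      (hrat.sub_const _).abs
    · exact (tendsto_rpow_neg_atTop (by norm_num)).comp tendsto_natCast_atTop_atTop
    · have h1 : Tendsto (fun T : ℕ => (T : ℝ) ^ (-(1 / 4) : ℝ) + (T : ℝ) ^ (-(5 / 4) : ℝ)) atTop (𝓝 (0 + 0)) :=
        ((tendsto_rpow_neg_atTop (by norm_num)).comp tendsto_natCast_atTop_atTop).add
          ((tendsto_rpow_neg_atTop (by norm_num)).comp tendsto_natCast_atTop_atTop)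
      rw [add_zero] at h1
      refine h1.congr' ?_
      filter_upwards [eventually_ge_atTop 1] with T hT
      have hT0 : (0 : ℝ) < T := by exact_mod_cast hT
      rw [add_mul, one_mul]
      congr 1
      nth_rewrite 2 [← Real.rpow_one (T : ℝ)]
      rw [← Real.rpow_add hT0]
      norm_num
  rw [mul_zero, add_zero, sub_self, abs_zero, add_zero] at herr
  filter_upwards [hft.eventually_ge_atTop 1, eventually_ge_atTop 1, herr.eventually_le_const hεp] with T hm hT hE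
  have hT0 : (0 : ℝ) < T := by exact_mod_cast hT
  set m := ⌊ε * (T : ℝ)⌋₊ with hmdef
  set n := ⌊x * (T : ℝ)⌋₊ with hn
  have hnT : n ≤ T := by
    have h1 : (n : ℝ) ≤ x * T := Nat.floor_le (by positivity)
    have h2 : (n : ℝ) ≤ T := h1.trans (by nlinarith)
    exact_mod_cast h2
  have hW := WK_ge ren_uu hm
  set P : ℝ := (T : ℝ) ^ (3 / 4 : ℝ) with hP
  have hP0 : 0 < P := Real.rpow_pos_of_pos hT0 _
  set l : ℝ := P * ε ^ (3 / 8 : ℝ) with hl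
  have hl0 : 0 < l := by positivity
  -- bounds of the means
  have hG : ∀ m' n' : ℕ, 1 ≤ m' → (m' : ℝ) ≤ 2 * (ε * T) → n' ≤ T →
      ∑' t : {t : List Bool // t ∈ FCW T}, wE t.1 * ENNReal.ofReal |GG kk m' n' (cS n' t.1)| ≤
        ENNReal.ofReal (D * (P * ε ^ (3 / 8 : ℝ))) := by
    intro m' n' hm' hm'2 hn'
    refine (words_abs hm' hn' hl0).trans (ENNReal.ofReal_le_ofReal ?_)
    have hm'0 : (0 : ℝ) < m' := by exact_mod_cast hm'
    have hmp : 0 < (m' : ℝ) ^ (3 / 4 : ℝ) := Real.rpow_pos_of_pos hm'0 _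
    have h1 : 1 ≤ (m' : ℝ) ^ (3 / 4 : ℝ) := Real.one_le_rpow (by exact_mod_cast hm') (by norm_num)
    have h2 : 1 + m' / WK kk m' + 4 * UU uu m' ≤ (1 + C1 + 4 * C2) * (m' : ℝ) ^ (3 / 4 : ℝ) := by
      have := hr m' hm'
      have := hU m' hm'
      nlinarith
    have h3 : UU uu n' ≤ C2 * P := (UU_mono ren_uu hn').trans (hU T hT)
    have h4 : (m' : ℝ) ^ (3 / 4 : ℝ) ≤ 2 ^ (3 / 4 : ℝ) * (ε ^ (3 / 4 : ℝ) * P) := by
      rw [hP, ← Real.mul_rpow hε.le hT0.le, ← Real.mul_rpow (by norm_num) (by positivity)]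
      exact Real.rpow_le_rpow hm'0.le hm'2 (by norm_num)
    have h5 : (1 + m' / WK kk m' + 4 * UU uu m') * UU uu n' ≤
        ((1 + C1 + 4 * C2) * (2 ^ (3 / 4 : ℝ) * (ε ^ (3 / 4 : ℝ) * P))) * (C2 * P) := by
      refine mul_le_mul (h2.trans (by gcongr)) h3 ?_ (by positivity)
      linarith [UU_ge ren_uu n']
    have h6 : ε ^ (3 / 4 : ℝ) = ε ^ (3 / 8 : ℝ) * ε ^ (3 / 8 : ℝ) := by
      rw [← Real.rpow_add hε]
      norm_num
    calc (1 + m' / WK kk m' + 4 * UU uu m') * UU uu n' / l + l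
        ≤ ((1 + C1 + 4 * C2) * (2 ^ (3 / 4 : ℝ) * (ε ^ (3 / 4 : ℝ) * P))) * (C2 * P) / l + l := by gcongr
      _ = D * (P * ε ^ (3 / 8 : ℝ)) := by
          rw [h6, hl, hD]
          field_simp
  have hm2 : (m : ℝ) ≤ 2 * (ε * T) := by
    have h1 : (m : ℝ) ≤ ε * T := Nat.floor_le (by positivity)
    linarith [show 0 ≤ ε * T by positivity]
  have hm3 : ((m + 1 : ℕ) : ℝ) ≤ 2 * (ε * T) := by
    have h1 : (m : ℝ) ≤ ε * T := Nat.floor_le (by positivity)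
    have h2 : (1 : ℝ) ≤ m := by exact_mod_cast hm
    push_cast
    linarith
  have g1 := hG m (n - 1) hm hm2 (by omega)
  have g2 := hG (m + 1) n (by omega) hm3 hnT
  -- pointwise
  set E : ℝ := (T : ℝ) ^ (-(3 / 4) : ℝ) + ((T : ℝ) ^ (1 / 4 : ℝ) / WK kk m) ^ 2 *
      (((T : ℝ) + 1) * (T : ℝ) ^ (-(5 / 4) : ℝ)) + |(T : ℝ) ^ (1 / 4 : ℝ) / WK kk m - ctr b ε| with hEdef
  have hE0 : 0 ≤ E := by positivity
  have hTq : (T : ℝ) / P = (T : ℝ) ^ (1 / 4 : ℝ) := by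
    rw [hP]
    nth_rewrite 1 [← Real.rpow_one (T : ℝ)]
    rw [← Real.rpow_sub hT0]
    norm_num
  have hpt : ∀ t : {t : List Bool // t ∈ FCW T}, wE t.1 * ENNReal.ofReal
      |((cS n t.1).card : ℝ) / P - ctr b ε * Dv ε x (cutset T t.1)| ≤
      ENNReal.ofReal P⁻¹ * (wE t.1 * ENNReal.ofReal |GG kk m (n - 1) (cS (n - 1) t.1)|) +
        ENNReal.ofReal P⁻¹ * (wE t.1 * ENNReal.ofReal |GG kk (m + 1) n (cS n t.1)|) + wE t.1 * ENNReal.ofReal E := by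
    intro t
    have h1 := num_sub hε.le hx hx1 hT (by rw [← hmdef]; exact hm) t.1
    rw [← hmdef, ← hn] at h1
    have h2 : |((cS n t.1).card : ℝ) / P - ctr b ε * Dv ε x (cutset T t.1)| ≤
        P⁻¹ * |GG kk m (n - 1) (cS (n - 1) t.1)| + P⁻¹ * |GG kk (m + 1) n (cS n t.1)| + E := by
      have e1 : ((cS n t.1).card : ℝ) / P - ctr b ε * Dv ε x (cutset T t.1) =
          P⁻¹ * (((cS n t.1).card : ℝ) - T * Dv ε x (cutset T t.1) / WK kk m) +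
          ((T : ℝ) ^ (1 / 4 : ℝ) / WK kk m - ctr b ε) * Dv ε x (cutset T t.1) := by
        rw [← hTq]
        field_simp
        ring
      have hDv0 := Dv_nonneg ε x (cutset T t.1)
      have hDv1 : Dv ε x (cutset T t.1) ≤ 1 := (Dv_le hx ε _).trans hx1
      rw [e1]
      refine (abs_add_le _ _).trans ?_
      rw [abs_mul, abs_mul, abs_of_pos (inv_pos.2 hP0), abs_of_nonneg hDv0]
      have h3 : P⁻¹ * |((cS n t.1).card : ℝ) - T * Dv ε x (cutset T t.1) / WK kk m| ≤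
          P⁻¹ * (|GG kk m (n - 1) (cS (n - 1) t.1)| + |GG kk (m + 1) n (cS n t.1)| + 1 + (T + 1) / WK kk m ^ 2) := by gcongr
      have h4 : |(T : ℝ) ^ (1 / 4 : ℝ) / WK kk m - ctr b ε| * Dv ε x (cutset T t.1) ≤
          |(T : ℝ) ^ (1 / 4 : ℝ) / WK kk m - ctr b ε| := mul_le_of_le_one_right (abs_nonneg _) hDv1
      have h5 : P⁻¹ * 1 = (T : ℝ) ^ (-(3 / 4) : ℝ) := by
        rw [mul_one, hP, Real.rpow_neg hT0.le]
      have h6 : P⁻¹ * ((T + 1) / WK kk m ^ 2) = ((T : ℝ) ^ (1 / 4 : ℝ) / WK kk m) ^ 2 *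
          (((T : ℝ) + 1) * (T : ℝ) ^ (-(5 / 4) : ℝ)) := by
        have e2 : P⁻¹ = ((T : ℝ) ^ (1 / 4 : ℝ)) ^ 2 * (T : ℝ) ^ (-(5 / 4) : ℝ) := by
          rw [hP, ← Real.rpow_neg hT0.le, ← Real.rpow_natCast, ← Real.rpow_mul hT0.le, ← Real.rpow_add hT0]
          norm_num
        rw [e2]
        field_simp
      rw [mul_add, mul_add, mul_add, h5, h6] at h3
      rw [hEdef]
      linarith
    calc wE t.1 * ENNReal.ofReal |((cS n t.1).card : ℝ) / P - ctr b ε * Dv ε x (cutset T t.1)|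
        ≤ wE t.1 * ENNReal.ofReal (P⁻¹ * |GG kk m (n - 1) (cS (n - 1) t.1)| + P⁻¹ * |GG kk (m + 1) n (cS n t.1)| + E) := by
          gcongr
      _ = _ := by
          rw [ENNReal.ofReal_add (by positivity) hE0, ENNReal.ofReal_add (by positivity) (by positivity),
            ENNReal.ofReal_mul (by positivity), ENNReal.ofReal_mul (by positivity)]
          ring
  refine (ENNReal.tsum_le_tsum hpt).trans ?_
  rw [ENNReal.tsum_add, ENNReal.tsum_add, ENNReal.tsum_mul_left, ENNReal.tsum_mul_left, ENNReal.tsum_mul_right, mass_FCW,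
    one_mul]
  calc _ ≤ ENNReal.ofReal P⁻¹ * ENNReal.ofReal (D * (P * ε ^ (3 / 8 : ℝ))) +
        ENNReal.ofReal P⁻¹ * ENNReal.ofReal (D * (P * ε ^ (3 / 8 : ℝ))) + ENNReal.ofReal (ε ^ (3 / 8 : ℝ)) := by
        gcongr
    _ = ENNReal.ofReal ((2 * D + 1) * ε ^ (3 / 8 : ℝ)) := by
        rw [← ENNReal.ofReal_mul (by positivity), ← ENNReal.ofReal_add (by positivity) (by positivity),
          ← ENNReal.ofReal_add (by positivity) (by positivity)]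
        congr 1
        field_simp
        ring

end

end CutLim
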