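import Pool.Agent.CutLim.L6
import Pool.Agent.CutLim.H

/-! CUT, local time, L7: the Minkowski content of the limit set. -/

set_option autoImplicit false

namespace CutLim

open Filter Topology Finset MeasureTheory TopologicalSpace HexObs

open scoped ENNReal NNReal BoundedContinuousFunction

lemma lawS_lintegral (T : ℕ) {g : NC → ℝ≥0∞} (hg : Measurable g) :
    ∫⁻ K, g K ∂(lawS T) = ∑' t : {t : List Bool // t ∈ FCW T}, wE t.1 * g (cutset T t.1) := by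
  unfold lawS
  rw [lintegral_sum_measure]
  refine tsum_congr fun t => ?_
  rw [lintegral_smul_measure, lintegral_dirac' _ hg, smul_eq_mul]

/-- the approximations of the local time -/
noncomputable def lt (b ε x : ℝ) (K : NC) : ℝ := ctr b ε * Dv ε x K

lemma lt_cont {b ε : ℝ} (hε : 0 < ε) (x : ℝ) : Continuous (lt b ε x) := continuous_const.mul (Dv_cont hε x)

lemma lt_nonneg {b ε : ℝ} (hb : 0 < b) (hε : 0 < ε) (x : ℝ) (K : NC) : 0 ≤ lt b ε x K :=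
  mul_nonneg (ctr_pos hb hε).le (Dv_nonneg _ _ _)

lemma lt_le {b ε x : ℝ} (hb : 0 < b) (hε : 0 < ε) (hx : 0 ≤ x) (K : NC) : lt b ε x K ≤ ctr b ε * x :=
  mul_le_mul_of_nonneg_left (Dv_le hx _ _) (ctr_pos hb hε).le

section

variable {b : ℝ}

/-- a bounded continuous function -/
noncomputable def dif (b : ℝ) {ε ε' x : ℝ} (hb : 0 < b) (hε : 0 < ε) (hε' : 0 < ε') (hx : 0 ≤ x) : NC →ᵇ ℝ≥0 :=
  BoundedContinuousFunction.mkOfBound ⟨fun K => |lt b ε x K - lt b ε' x K|.toNNReal,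
    continuous_real_toNNReal.comp ((lt_cont hε x).sub (lt_cont hε' x)).abs⟩ (ctr b ε * x + ctr b ε' * x) (by
    intro K L
    rw [NNReal.dist_eq]
    simp only [ContinuousMap.coe_mk]
    rw [Real.coe_toNNReal _ (abs_nonneg _), Real.coe_toNNReal _ (abs_nonneg _)]
    have h1 := lt_le hb hε hx K
    have h2 := lt_le hb hε' hx K
    have h3 := lt_le hb hε hx L
    have h4 := lt_le hb hε' hx L
    have n1 := lt_nonneg hb hε x K
    have n2 := lt_nonneg hb hε' x K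
    have n3 := lt_nonneg hb hε x L
    have n4 := lt_nonneg hb hε' x L
    have a1 : |lt b ε x K - lt b ε' x K| ≤ ctr b ε * x + ctr b ε' * x := by
      rw [abs_le]
      constructor <;> linarith
    have a2 : |lt b ε x L - lt b ε' x L| ≤ ctr b ε * x + ctr b ε' * x := by
      rw [abs_le]
      constructor <;> linarith
    have a3 := abs_nonneg (lt b ε x K - lt b ε' x K)
    have a4 := abs_nonneg (lt b ε x L - lt b ε' x L)
    rw [abs_le]
    constructor <;> linarith)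

/-- the approximations form a Cauchy family in mean -/
theorem lt_cauchy (hb : 0 < b) (hu : Tendsto (fun n : ℕ => (n : ℝ) ^ (1 / 4 : ℝ) * uu n) atTop (𝓝 b))
    {κ : ProbabilityMeasure NC} (hκ : Tendsto PS atTop (𝓝 κ)) :
    ∃ C : ℝ, 0 < C ∧ ∀ ε ε' x : ℝ, 0 < ε → ε ≤ 1 → 0 < ε' → ε' ≤ 1 → 0 ≤ x → x ≤ 1 →
      ∫⁻ K, ENNReal.ofReal |lt b ε x K - lt b ε' x K| ∂(κ : Measure NC) ≤
        ENNReal.ofReal (C * (ε ^ (3 / 8 : ℝ) + ε' ^ (3 / 8 : ℝ))) := by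
  obtain ⟨C, hC, h⟩ := num_vol hb hu
  refine ⟨C, hC, fun ε ε' x hε hε1 hε' hε1' hx hx1 => ?_⟩
  have h1 := (ProbabilityMeasure.tendsto_iff_forall_lintegral_tendsto.1 hκ) (dif b hb hε hε' hx)
  have e : ∀ K : NC, ((dif b hb hε hε' hx K : ℝ≥0) : ℝ≥0∞) = ENNReal.ofReal |lt b ε x K - lt b ε' x K| := fun K => rfl
  simp_rw [e] at h1
  refine le_of_tendsto h1 ?_
  filter_upwards [h ε x hε hε1 hx hx1, h ε' x hε' hε1' hx hx1] with T hT hT'
  have hm : Measurable fun K : NC => ENNReal.ofReal |lt b ε x K - lt b ε' x K| :=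
    ((lt_cont hε x).sub (lt_cont hε' x)).abs.measurable.ennreal_ofReal
  have h2 : ∫⁻ K, ENNReal.ofReal |lt b ε x K - lt b ε' x K| ∂(PS T : Measure NC) =
      ∑' t : {t : List Bool // t ∈ FCW T}, wE t.1 * ENNReal.ofReal |lt b ε x (cutset T t.1) - lt b ε' x (cutset T t.1)| :=
    lawS_lintegral T hm
  rw [h2]
  calc ∑' t : {t : List Bool // t ∈ FCW T}, wE t.1 * ENNReal.ofReal |lt b ε x (cutset T t.1) - lt b ε' x (cutset T t.1)|
      ≤ ∑' t : {t : List Bool // t ∈ FCW T}, (wE t.1 * ENNReal.ofReal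
          |((cS ⌊x * T⌋₊ t.1).card : ℝ) / (T : ℝ) ^ (3 / 4 : ℝ) - ctr b ε * Dv ε x (cutset T t.1)| +
          wE t.1 * ENNReal.ofReal
          |((cS ⌊x * T⌋₊ t.1).card : ℝ) / (T : ℝ) ^ (3 / 4 : ℝ) - ctr b ε' * Dv ε' x (cutset T t.1)|) := by
        refine ENNReal.tsum_le_tsum fun t => ?_
        rw [← mul_add, ← ENNReal.ofReal_add (abs_nonneg _) (abs_nonneg _)]
        refine mul_le_mul_right (ENNReal.ofReal_le_ofReal ?_) _
        unfold lt
        set N := ((cS ⌊x * T⌋₊ t.1).card : ℝ) / (T : ℝ) ^ (3 / 4 : ℝ)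
        have := abs_sub_abs_le_abs_sub (N - ctr b ε' * Dv ε' x (cutset T t.1)) (N - ctr b ε * Dv ε x (cutset T t.1))
        have h3 := abs_sub (N - ctr b ε' * Dv ε' x (cutset T t.1)) (N - ctr b ε * Dv ε x (cutset T t.1))
        have e3 : N - ctr b ε' * Dv ε' x (cutset T t.1) - (N - ctr b ε * Dv ε x (cutset T t.1)) =
          ctr b ε * Dv ε x (cutset T t.1) - ctr b ε' * Dv ε' x (cutset T t.1) := by ring
        rw [e3] at h3
        linarith
    _ ≤ ENNReal.ofReal (C * ε ^ (3 / 8 : ℝ)) + ENNReal.ofReal (C * ε' ^ (3 / 8 : ℝ)) := by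
        rw [ENNReal.tsum_add]
        exact add_le_add hT hT'
    _ = ENNReal.ofReal (C * (ε ^ (3 / 8 : ℝ) + ε' ^ (3 / 8 : ℝ))) := by
        rw [← ENNReal.ofReal_add (by positivity) (by positivity)]
        congr 1
        ring

lemma ae_zero_of_summable {κ : Measure NC} {f : ℕ → NC → ℝ≥0∞} (hf : ∀ k, Measurable (f k))
    (h : ∑' k, ∫⁻ K, f k K ∂κ ≠ ∞) : ∀ᵐ K ∂κ, ∑' k, f k K ≠ ∞ := by
  have h1 : ∫⁻ K, ∑' k, f k K ∂κ ≠ ∞ := by
    rw [lintegral_tsum fun k => (hf k).aemeasurable]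
    exact h
  filter_upwards [ae_lt_top (Measurable.tsum hf) h1] with K hK
  exact hK.ne

lemma geom_ne_top {C ρ : ℝ} (hC : 0 ≤ C) (hρ : 0 < ρ) (hρ1 : ρ < 1) :
    ∑' k : ℕ, ENNReal.ofReal (C * (ρ ^ k) ^ (3 / 8 : ℝ)) ≠ ∞ := by
  have h1 : Summable fun k : ℕ => C * (ρ ^ k) ^ (3 / 8 : ℝ) := by
    have h2 : (ρ ^ (3 / 8 : ℝ)) < 1 := Real.rpow_lt_one hρ.le hρ1 (by norm_num)
    have h3 := (summable_geometric_of_lt_one (Real.rpow_nonneg hρ.le (3 / 8)) h2).mul_left C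
    refine h3.congr fun k => ?_
    rw [← Real.rpow_natCast, ← Real.rpow_natCast, ← Real.rpow_mul hρ.le, ← Real.rpow_mul hρ.le, mul_comm (k : ℝ)]
  rw [← ENNReal.ofReal_tsum_of_nonneg (fun k => by positivity) h1]
  exact ENNReal.ofReal_ne_top

/-- the scales 2^(-k) -/
noncomputable def s2 (k : ℕ) : ℝ := (1 / 2) ^ k

lemma s2_pos (k : ℕ) : 0 < s2 k := by
  unfold s2
  positivity

lemma s2_le (k : ℕ) : s2 k ≤ 1 := pow_le_one₀ (by norm_num) (by norm_num)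

/-- the local time of K at x: the 3/4-dimensional Minkowski content -/
noncomputable def Lam (b x : ℝ) (K : NC) : ℝ := (liminf (fun k => ENNReal.ofReal (lt b (s2 k) x K)) atTop).toReal

lemma Lam_meas (b x : ℝ) : Measurable (Lam b x) :=
  (Measurable.liminf fun k => (lt_cont (s2_pos k) x).measurable.ennreal_ofReal).ennreal_toReal

/-- convergence along the powers of 1/2 -/
theorem lt_two (hb : 0 < b) (hu : Tendsto (fun n : ℕ => (n : ℝ) ^ (1 / 4 : ℝ) * uu n) atTop (𝓝 b))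
    {κ : ProbabilityMeasure NC} (hκ : Tendsto PS atTop (𝓝 κ)) {x : ℝ} (hx : 0 ≤ x) (hx1 : x ≤ 1) :
    ∀ᵐ K ∂(κ : Measure NC), Tendsto (fun k => lt b (s2 k) x K) atTop (𝓝 (Lam b x K)) := by
  obtain ⟨C, hC, h⟩ := lt_cauchy hb hu hκ
  have h1 : ∑' k : ℕ, ∫⁻ K, ENNReal.ofReal |lt b (s2 k) x K - lt b (s2 (k + 1)) x K| ∂(κ : Measure NC) ≠ ∞ := by
    refine ne_top_of_le_ne_top (geom_ne_top (C := 2 * C) (ρ := 1 / 2) (by positivity) (by norm_num) (by norm_num)) ?_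
    refine ENNReal.tsum_le_tsum fun k => (h _ _ _ (s2_pos k) (s2_le k) (s2_pos (k + 1)) (s2_le (k + 1)) hx hx1).trans ?_
    refine ENNReal.ofReal_le_ofReal ?_
    have h2 : s2 (k + 1) ^ (3 / 8 : ℝ) ≤ s2 k ^ (3 / 8 : ℝ) := by
      refine Real.rpow_le_rpow (s2_pos _).le ?_ (by norm_num)
      unfold s2
      exact pow_le_pow_of_le_one (by norm_num) (by norm_num) (Nat.le_succ k)
    have e : ((1 / 2 : ℝ) ^ k) = s2 k := rfl
    rw [e]
    nlinarith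
  have h2 := ae_zero_of_summable (fun k => ((lt_cont (s2_pos k) x).sub (lt_cont (s2_pos (k + 1)) x)).abs.measurable.ennreal_ofReal) h1
  filter_upwards [h2] with K hK
  have h3 : Summable fun k => |lt b (s2 k) x K - lt b (s2 (k + 1)) x K| := by
    have := ENNReal.summable_toReal hK
    refine this.congr fun k => ?_
    rw [ENNReal.toReal_ofReal (abs_nonneg _)]
    rfl
  have h4 : CauchySeq fun k => lt b (s2 k) x K := by
    refine cauchySeq_of_summable_dist ?_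
    refine h3.congr fun k => ?_
    rw [Real.dist_eq]
  obtain ⟨L, hL⟩ := cauchySeq_tendsto_of_complete h4
  have hL0 : 0 ≤ L := ge_of_tendsto' hL fun k => lt_nonneg hb (s2_pos k) x K
  have h5 : Lam b x K = L := by
    unfold Lam
    rw [(ENNReal.tendsto_ofReal hL).liminf_eq, ENNReal.toReal_ofReal hL0]
  rw [h5]
  exact hL

/-- convergence along the powers of any ratio -/
theorem lt_ratio (hb : 0 < b) (hu : Tendsto (fun n : ℕ => (n : ℝ) ^ (1 / 4 : ℝ) * uu n) atTop (𝓝 b))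
    {κ : ProbabilityMeasure NC} (hκ : Tendsto PS atTop (𝓝 κ)) {x : ℝ} (hx : 0 ≤ x) (hx1 : x ≤ 1) {ρ : ℝ} (hρ : 0 < ρ)
    (hρ1 : ρ < 1) :
    ∀ᵐ K ∂(κ : Measure NC), Tendsto (fun k : ℕ => lt b (ρ ^ k) x K) atTop (𝓝 (Lam b x K)) := by
  obtain ⟨C, hC, h⟩ := lt_cauchy hb hu hκ
  have hk : ∀ k : ℕ, 0 < ρ ^ k := fun k => by positivity
  have hk1 : ∀ k : ℕ, ρ ^ k ≤ 1 := fun k => pow_le_one₀ hρ.le hρ1.le
  have h1 : ∑' k : ℕ, ∫⁻ K, ENNReal.ofReal |lt b (ρ ^ k) x K - lt b (s2 k) x K| ∂(κ : Measure NC) ≠ ∞ := by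
    have h3 : ∑' k : ℕ, (ENNReal.ofReal (C * (ρ ^ k) ^ (3 / 8 : ℝ)) + ENNReal.ofReal (C * ((1 / 2) ^ k) ^ (3 / 8 : ℝ))) ≠ ∞ := by
      rw [ENNReal.tsum_add]
      exact ENNReal.add_ne_top.2 ⟨geom_ne_top hC.le hρ hρ1, geom_ne_top hC.le (by norm_num) (by norm_num)⟩
    refine ne_top_of_le_ne_top h3 (ENNReal.tsum_le_tsum fun k => (h _ _ _ (hk k) (hk1 k) (s2_pos k) (s2_le k) hx hx1).trans ?_)
    rw [← ENNReal.ofReal_add (by positivity) (by positivity), mul_add]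
    rfl
  have h2 := ae_zero_of_summable (fun k => ((lt_cont (hk k) x).sub (lt_cont (s2_pos k) x)).abs.measurable.ennreal_ofReal) h1
  filter_upwards [h2, lt_two hb hu hκ hx hx1] with K hK hK2
  have h3 : Summable fun k => |lt b (ρ ^ k) x K - lt b (s2 k) x K| := by
    have := ENNReal.summable_toReal hK
    refine this.congr fun k => ?_
    rw [ENNReal.toReal_ofReal (abs_nonneg _)]
    rfl
  have h4 : Tendsto (fun k => lt b (ρ ^ k) x K - lt b (s2 k) x K) atTop (𝓝 0) :=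
    (tendsto_zero_iff_abs_tendsto_zero _).2 h3.tendsto_atTop_zero
  have h5 := h4.add hK2
  rw [zero_add] at h5
  exact h5.congr fun k => by ring

lemma ctr_mul {ρ ε : ℝ} (hρ : 0 < ρ) (hε : 0 < ε) : ctr b (ρ * ε) = ρ ^ (-(1 / 4) : ℝ) * ctr b ε := by
  unfold ctr
  rw [Real.mul_rpow hρ.le hε.le]
  ring

lemma ctr_anti {ε ε' : ℝ} (hb : 0 < b) (hε : 0 < ε) (h : ε ≤ ε') : ctr b ε' ≤ ctr b ε := by
  unfold ctr
  have h1 := Real.Gamma_pos_of_pos (show (0 : ℝ) < 3 / 4 by norm_num)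
  have h2 := Real.Gamma_pos_of_pos (show (0 : ℝ) < 5 / 4 by norm_num)
  exact mul_le_mul_of_nonneg_left (Real.rpow_le_rpow_of_nonpos hε h (by norm_num)) (by positivity)

/-- the ratios -/
noncomputable def rr (j : ℕ) : ℝ := ((j : ℝ) + 1) / (j + 2)

lemma rr_pos (j : ℕ) : 0 < rr j := by
  unfold rr
  positivity

lemma rr_lt (j : ℕ) : rr j < 1 := by
  unfold rr
  rw [div_lt_one (by positivity)]
  linarith

lemma rr_tendsto : Tendsto rr atTop (𝓝 1) := by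
  have h1 : Tendsto (fun n : ℕ => 1 - 1 / ((n : ℝ) + 2)) atTop (𝓝 (1 - 0)) := by
    refine tendsto_const_nhds.sub ?_
    refine (tendsto_const_nhds (x := (1 : ℝ))).div_atTop ?_
    exact tendsto_atTop_add_const_right _ _ tendsto_natCast_atTop_atTop
  rw [sub_zero] at h1
  refine h1.congr fun n => ?_
  unfold rr
  field_simp
  ring

/-- the 3/4-dimensional Minkowski content exists -/
theorem lt_full (hb : 0 < b) (hu : Tendsto (fun n : ℕ => (n : ℝ) ^ (1 / 4 : ℝ) * uu n) atTop (𝓝 b))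
    {κ : ProbabilityMeasure NC} (hκ : Tendsto PS atTop (𝓝 κ)) {x : ℝ} (hx : 0 ≤ x) (hx1 : x ≤ 1) :
    ∀ᵐ K ∂(κ : Measure NC), Tendsto (fun ε => lt b ε x K) (𝓝[>] 0) (𝓝 (Lam b x K)) := by
  have h1 : ∀ᵐ K ∂(κ : Measure NC), ∀ j : ℕ, Tendsto (fun k : ℕ => lt b (rr j ^ k) x K) atTop (𝓝 (Lam b x K)) := by
    rw [ae_all_iff]
    exact fun j => lt_ratio hb hu hκ hx hx1 (rr_pos j) (rr_lt j)
  filter_upwards [h1] with K hK
  set L := Lam b x K with hL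
  have hp : Tendsto (fun j => rr j ^ (1 / 4 : ℝ)) atTop (𝓝 1) := by
    have := rr_tendsto.rpow_const (p := 1 / 4) (Or.inl one_ne_zero)
    rwa [Real.one_rpow] at this
  -- the index of ε
  have hbig : ∀ (j k0 : ℕ), ∀ᶠ ε in 𝓝[>] (0 : ℝ), ∃ k : ℕ, k0 ≤ k ∧ rr j ^ (k + 1) < ε ∧ ε ≤ rr j ^ k := by
    intro j k0
    have h2 : ∀ᶠ ε in 𝓝[>] (0 : ℝ), ε < rr j ^ k0 := nhdsWithin_le_nhds (Iio_mem_nhds (pow_pos (rr_pos j) k0))
    have h3 : ∀ᶠ ε in 𝓝[>] (0 : ℝ), ε ≤ 1 := nhdsWithin_le_nhds (Iic_mem_nhds one_pos)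
    have h4 : ∀ᶠ ε in 𝓝[>] (0 : ℝ), 0 < ε := self_mem_nhdsWithin
    filter_upwards [h2, h3, h4] with ε e1 e2 e3
    obtain ⟨k, hk1, hk2⟩ := exists_nat_pow_near_of_lt_one e3 e2 (rr_pos j) (rr_lt j)
    refine ⟨k, ?_, hk1, hk2⟩
    by_contra hcon
    push Not at hcon
    have : rr j ^ k0 ≤ rr j ^ (k + 1) := pow_le_pow_of_le_one (rr_pos j).le (rr_lt j).le hcon
    linarith
  rw [tendsto_order]
  constructor
  · intro c hc
    -- lower bound
    have h2 : Tendsto (fun j => rr j ^ (1 / 4 : ℝ) * ((L + c) / 2)) atTop (𝓝 (1 * ((L + c) / 2))) := hp.mul_const _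
    have h3 : c < 1 * ((L + c) / 2) := by linarith
    obtain ⟨j, hj⟩ := (h2.eventually_const_lt h3).exists
    have h4 : ∀ᶠ k : ℕ in atTop, (L + c) / 2 < lt b (rr j ^ k) x K := (hK j).eventually_const_lt (by linarith)
    obtain ⟨k0, hk0⟩ := eventually_atTop.1 h4
    filter_upwards [hbig j k0, self_mem_nhdsWithin] with ε hε hε0
    obtain ⟨k, hk, e1, e2⟩ := hε
    have hε0' : (0 : ℝ) < ε := hε0
    have h5 := hk0 (k + 1) (by omega)
    have hr := rr_pos j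
    have h6 : rr j ^ (1 / 4 : ℝ) * lt b (rr j ^ (k + 1)) x K ≤ lt b ε x K := by
      unfold lt
      have e3 : rr j ^ (1 / 4 : ℝ) * (ctr b (rr j ^ (k + 1)) * Dv (rr j ^ (k + 1)) x K) = ctr b (rr j ^ k) * Dv (rr j ^ (k + 1)) x K := by
        rw [pow_succ', ctr_mul hr (pow_pos hr k), Real.rpow_neg hr.le]
        have : rr j ^ (1 / 4 : ℝ) ≠ 0 := (Real.rpow_pos_of_pos hr _).ne'
        field_simp
      rw [e3]
      exact mul_le_mul (ctr_anti hb hε0' e2) (Dv_mono e1.le x K) (Dv_nonneg _ _ _) (ctr_pos hb hε0').le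
    have hrp : 0 < rr j ^ (1 / 4 : ℝ) := Real.rpow_pos_of_pos hr _
    calc c < rr j ^ (1 / 4 : ℝ) * ((L + c) / 2) := hj
      _ ≤ rr j ^ (1 / 4 : ℝ) * lt b (rr j ^ (k + 1)) x K := by gcongr
      _ ≤ lt b ε x K := h6
  · intro c hc
    have hL0 : 0 ≤ L := ENNReal.toReal_nonneg
    have h2 : Tendsto (fun j => (rr j ^ (1 / 4 : ℝ))⁻¹ * ((L + c) / 2)) atTop (𝓝 (1⁻¹ * ((L + c) / 2))) :=
      (hp.inv₀ one_ne_zero).mul_const _
    have h3 : (1 : ℝ)⁻¹ * ((L + c) / 2) < c := by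
      rw [inv_one]
      linarith
    obtain ⟨j, hj⟩ := (h2.eventually_lt_const h3).exists
    have h4 : ∀ᶠ k : ℕ in atTop, lt b (rr j ^ k) x K < (L + c) / 2 := (hK j).eventually_lt_const (by linarith)
    obtain ⟨k0, hk0⟩ := eventually_atTop.1 h4
    filter_upwards [hbig j k0, self_mem_nhdsWithin] with ε hε hε0
    obtain ⟨k, hk, e1, e2⟩ := hε
    have hε0' : (0 : ℝ) < ε := hε0
    have h5 := hk0 k hk
    have hr := rr_pos j
    have h6 : lt b ε x K ≤ (rr j ^ (1 / 4 : ℝ))⁻¹ * lt b (rr j ^ k) x K := by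
      unfold lt
      have e3 : (rr j ^ (1 / 4 : ℝ))⁻¹ * (ctr b (rr j ^ k) * Dv (rr j ^ k) x K) = ctr b (rr j ^ (k + 1)) * Dv (rr j ^ k) x K := by
        rw [pow_succ' (rr j) k, ctr_mul hr (pow_pos hr k), Real.rpow_neg hr.le]
        ring
      rw [e3]
      exact mul_le_mul (ctr_anti hb (pow_pos hr _) e1.le) (Dv_mono e2 x K) (Dv_nonneg _ _ _) (ctr_pos hb (pow_pos hr _)).le
    have hrp : 0 < (rr j ^ (1 / 4 : ℝ))⁻¹ := inv_pos.2 (Real.rpow_pos_of_pos hr _)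
    calc lt b ε x K ≤ (rr j ^ (1 / 4 : ℝ))⁻¹ * lt b (rr j ^ k) x K := h6
      _ ≤ (rr j ^ (1 / 4 : ℝ))⁻¹ * ((L + c) / 2) := by gcongr
      _ < c := hj

end

end CutLim
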