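import Pool.Agent.CutLim.L7

/-! CUT, local time, L8: joint convergence of the cut levels and of their numbers. -/

set_option autoImplicit false

namespace CutLim

open Filter Topology Finset MeasureTheory TopologicalSpace HexObs

open scoped ENNReal NNReal

/-- the rescaled numbers of the cut levels -/
noncomputable def cnt {n : ℕ} (x : Fin n → ℝ) (T : ℕ) (t : List Bool) (i : Fin n) : ℝ :=
  ((cS ⌊x i * T⌋₊ t).card : ℝ) / (T : ℝ) ^ (3 / 4 : ℝ)

/-- the joint law of the cut levels and of their numbers -/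
noncomputable def lawX {n : ℕ} (x : Fin n → ℝ) (T : ℕ) : Measure (NC × (Fin n → ℝ)) :=
  Measure.sum fun t : {t : List Bool // t ∈ FCW T} => wE t.1 • Measure.dirac (cutset T t.1, cnt x T t.1)

lemma lawX_lintegral {n : ℕ} (x : Fin n → ℝ) (T : ℕ) {g : NC × (Fin n → ℝ) → ℝ≥0∞} (hg : Measurable g) :
    ∫⁻ p, g p ∂(lawX x T) = ∑' t : {t : List Bool // t ∈ FCW T}, wE t.1 * g (cutset T t.1, cnt x T t.1) := by
  unfold lawX
  rw [lintegral_sum_measure]
  refine tsum_congr fun t => ?_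
  rw [lintegral_smul_measure, lintegral_dirac' _ hg, smul_eq_mul]

lemma lawX_prob {n : ℕ} (x : Fin n → ℝ) (T : ℕ) : IsProbabilityMeasure (lawX x T) := by
  constructor
  have h := lawX_lintegral x T (g := fun _ => 1) measurable_const
  rw [lintegral_one] at h
  rw [h]
  simp only [mul_one]
  exact mass_FCW T

noncomputable def PX {n : ℕ} (x : Fin n → ℝ) (T : ℕ) : ProbabilityMeasure (NC × (Fin n → ℝ)) := ⟨lawX x T, lawX_prob x T⟩

lemma lawX_fst {n : ℕ} (x : Fin n → ℝ) (T : ℕ) : (lawX x T).map Prod.fst = lawS T := by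
  refine Measure.ext fun S hS => ?_
  rw [Measure.map_apply measurable_fst hS]
  have h1 : lawX x T (Prod.fst ⁻¹' S) = ∫⁻ p, (Prod.fst ⁻¹' S).indicator 1 p ∂(lawX x T) :=
    (lintegral_indicator_one (measurable_fst hS)).symm
  have h2 : lawS T S = ∫⁻ K, S.indicator 1 K ∂(lawS T) := (lintegral_indicator_one hS).symm
  rw [h1, h2, lawX_lintegral x T (measurable_one.indicator (measurable_fst hS)), lawS_lintegral T (measurable_one.indicator hS)]
  rfl

/-- the limit law -/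
noncomputable def limX (b : ℝ) {n : ℕ} (x : Fin n → ℝ) (κ : ProbabilityMeasure NC) : ProbabilityMeasure (NC × (Fin n → ℝ)) :=
  κ.map (f := fun K => (K, fun i => Lam b (x i) K))
    (measurable_id.prodMk (measurable_pi_lambda _ fun i => Lam_meas b (x i))).aemeasurable

section

variable {b : ℝ}

/-- mean distance from the limit -/
lemma lt_lam (hb : 0 < b) (hu : Tendsto (fun n : ℕ => (n : ℝ) ^ (1 / 4 : ℝ) * uu n) atTop (𝓝 b))
    {κ : ProbabilityMeasure NC} (hκ : Tendsto PS atTop (𝓝 κ)) :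
    ∃ C : ℝ, 0 < C ∧ ∀ ε x : ℝ, 0 < ε → ε ≤ 1 → 0 ≤ x → x ≤ 1 →
      ∫⁻ K, ENNReal.ofReal |lt b ε x K - Lam b x K| ∂(κ : Measure NC) ≤ ENNReal.ofReal (C * ε ^ (3 / 8 : ℝ)) := by
  obtain ⟨C, hC, h⟩ := lt_cauchy hb hu hκ
  refine ⟨C, hC, fun ε x hε hε1 hx hx1 => ?_⟩
  have hae := lt_two hb hu hκ hx hx1
  have h1 : ∫⁻ K, ENNReal.ofReal |lt b ε x K - Lam b x K| ∂(κ : Measure NC) =
      ∫⁻ K, liminf (fun k => ENNReal.ofReal |lt b ε x K - lt b (s2 k) x K|) atTop ∂(κ : Measure NC) := by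
    refine lintegral_congr_ae ?_
    filter_upwards [hae] with K hK
    refine (Tendsto.liminf_eq ?_).symm
    exact ENNReal.tendsto_ofReal (hK.const_sub _).abs
  rw [h1]
  refine (lintegral_liminf_le fun k => ((lt_cont hε x).sub (lt_cont (s2_pos k) x)).abs.measurable.ennreal_ofReal).trans ?_
  have h2 : Tendsto (fun k => ENNReal.ofReal (C * (ε ^ (3 / 8 : ℝ) + s2 k ^ (3 / 8 : ℝ)))) atTop
      (𝓝 (ENNReal.ofReal (C * (ε ^ (3 / 8 : ℝ) + 0 ^ (3 / 8 : ℝ))))) := by
    refine ENNReal.tendsto_ofReal (tendsto_const_nhds.mul (tendsto_const_nhds.add ?_))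
    refine Tendsto.rpow_const ?_ (Or.inr (by norm_num))
    exact tendsto_pow_atTop_nhds_zero_of_lt_one (by norm_num) (by norm_num)
  rw [Real.zero_rpow (by norm_num), add_zero] at h2
  rw [← h2.liminf_eq]
  exact liminf_le_liminf (Eventually.of_forall fun k => h ε (s2 k) x hε hε1 (s2_pos k) (s2_le k) hx hx1)

lemma lip_bound {n : ℕ} {f : NC × (Fin n → ℝ) → ℝ} {L : ℝ≥0} (hf : LipschitzWith L f) (K : NC) (y z : Fin n → ℝ) :
    |f (K, y) - f (K, z)| ≤ L * ∑ i, |y i - z i| := by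
  have h1 := hf.dist_le_mul (K, y) (K, z)
  rw [Real.dist_eq] at h1
  refine h1.trans ?_
  gcongr
  rw [Prod.dist_eq, dist_self, max_eq_right dist_nonneg, dist_pi_le_iff (Finset.sum_nonneg fun i _ => abs_nonneg _)]
  intro i
  rw [Real.dist_eq]
  exact Finset.single_le_sum (f := fun i => |y i - z i|) (fun i _ => abs_nonneg _) (Finset.mem_univ i)

lemma int_le {Ω : Type} [MeasurableSpace Ω] {ρ : Measure Ω} [IsProbabilityMeasure ρ] {f g : Ω → ℝ} (hf : Integrable f ρ)
    (hg : Integrable g ρ) {n : ℕ} {h : Fin n → Ω → ℝ≥0∞} (hh : ∀ i, Measurable (h i)) {L : ℝ≥0} {c : ℝ} (hc : 0 ≤ c)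
    (h1 : ∀ w, ENNReal.ofReal |f w - g w| ≤ L * ∑ i, h i w) (h2 : ∀ i, ∫⁻ w, h i w ∂ρ ≤ ENNReal.ofReal c) :
    |∫ w, f w ∂ρ - ∫ w, g w ∂ρ| ≤ L * (n * c) := by
  rw [← integral_sub hf hg]
  have h3 : ENNReal.ofReal |∫ w, (f w - g w) ∂ρ| ≤ ENNReal.ofReal (L * (n * c)) := by
    calc ENNReal.ofReal |∫ w, (f w - g w) ∂ρ| = ‖∫ w, (f w - g w) ∂ρ‖ₑ := by
          rw [← Real.enorm_eq_ofReal_abs]
      _ ≤ ∫⁻ w, ‖f w - g w‖ₑ ∂ρ := enorm_integral_le_lintegral_enorm _
      _ ≤ ∫⁻ w, L * ∑ i, h i w ∂ρ := lintegral_mono fun w => by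
          rw [Real.enorm_eq_ofReal_abs]
          exact h1 w
      _ = L * ∑ i, ∫⁻ w, h i w ∂ρ := by
          rw [lintegral_const_mul _ (Finset.measurable_sum _ fun i _ => hh i), lintegral_finsetSum _ fun i _ => hh i]
      _ ≤ L * ∑ _i : Fin n, ENNReal.ofReal c := by
          gcongr with i
          exact h2 i
      _ = ENNReal.ofReal (L * (n * c)) := by
          rw [sum_const, card_univ, Fintype.card_fin, nsmul_eq_mul, ENNReal.ofReal_mul L.coe_nonneg, ENNReal.ofReal_mul (by positivity),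
            ENNReal.ofReal_natCast, ENNReal.ofReal_coe_nnreal]
  exact (ENNReal.ofReal_le_ofReal_iff (by positivity)).1 h3

/-- JOINT CONVERGENCE of the rescaled cut levels and of their numbers -/
theorem local_time (hb : 0 < b) (hu : Tendsto (fun n : ℕ => (n : ℝ) ^ (1 / 4 : ℝ) * uu n) atTop (𝓝 b))
    {κ : ProbabilityMeasure NC} (hκ : Tendsto PS atTop (𝓝 κ)) {n : ℕ} {x : Fin n → ℝ} (hx : ∀ i, 0 ≤ x i ∧ x i ≤ 1) :
    Tendsto (PX x) atTop (𝓝 (limX b x κ)) := by
  rw [tendsto_iff_forall_lipschitz_integral_tendsto]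
  rintro f ⟨M, hM⟩ ⟨L, hL⟩
  obtain ⟨C, hC, hnv⟩ := num_vol hb hu
  obtain ⟨C', hC', hlam⟩ := lt_lam hb hu hκ
  have hfc := hL.continuous
  have hfb : ∀ p q, |f p - f q| ≤ M := fun p q => hM p q
  have hint : ∀ (ρ : Measure (NC × (Fin n → ℝ))) [IsProbabilityMeasure ρ], Integrable f ρ := by
    intro ρ _
    obtain ⟨p0⟩ : Nonempty (NC × (Fin n → ℝ)) := ⟨(cutset 1 [], 0)⟩
    refine Integrable.of_bound hfc.measurable.aestronglyMeasurable (|f p0| + M) (Eventually.of_forall fun p => ?_)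
    rw [Real.norm_eq_abs]
    have := abs_sub_abs_le_abs_sub (f p) (f p0)
    linarith [hfb p p0]
  have key : ∀ ε : ℝ, 0 < ε → ε ≤ 1 → ∀ η : ℝ, 0 < η → ∀ᶠ T in atTop,
      |∫ p, f p ∂(PX x T : Measure (NC × (Fin n → ℝ))) - ∫ p, f p ∂(limX b x κ : Measure (NC × (Fin n → ℝ)))| ≤
        L * (n * (C * ε ^ (3 / 8 : ℝ))) + η + L * (n * (C' * ε ^ (3 / 8 : ℝ))) := by
    intro ε hε hε1 η hη
    -- the function of K
    have hgc : Continuous fun K : NC => f (K, fun i => lt b ε (x i) K) :=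
      hfc.comp (continuous_id.prodMk (continuous_pi fun i => lt_cont hε (x i)))
    have hgb : ∀ K L' : NC, dist (f (K, fun i => lt b ε (x i) K)) (f (L', fun i => lt b ε (x i) L')) ≤ M := fun K L' => hM _ _
    have hconv := (ProbabilityMeasure.tendsto_iff_forall_integral_tendsto.1 hκ)
      (BoundedContinuousFunction.mkOfBound ⟨fun K : NC => f (K, fun i => lt b ε (x i) K), hgc⟩ M hgb)
    have hconv' : Tendsto (fun T => ∫ K, f (K, fun i => lt b ε (x i) K) ∂(PS T : Measure NC)) atTop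
        (𝓝 (∫ K, f (K, fun i => lt b ε (x i) K) ∂(κ : Measure NC))) := hconv
    have hc1 : ∀ᶠ T in atTop, |∫ K, f (K, fun i => lt b ε (x i) K) ∂(PS T : Measure NC) -
        ∫ K, f (K, fun i => lt b ε (x i) K) ∂(κ : Measure NC)| ≤ η := by
      have := (hconv'.sub_const (∫ K, f (K, fun i => lt b ε (x i) K) ∂(κ : Measure NC))).abs
      rw [sub_self, abs_zero] at this
      exact this.eventually_le_const hη
    have hc2 : ∀ᶠ T in atTop, ∀ i, ∑' t : {t : List Bool // t ∈ FCW T}, wE t.1 * ENNReal.ofReal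
        |((cS ⌊x i * T⌋₊ t.1).card : ℝ) / (T : ℝ) ^ (3 / 4 : ℝ) - ctr b ε * Dv ε (x i) (cutset T t.1)| ≤
        ENNReal.ofReal (C * ε ^ (3 / 8 : ℝ)) := by
      rw [eventually_all]
      exact fun i => hnv ε (x i) hε hε1 (hx i).1 (hx i).2
    filter_upwards [hc1, hc2] with T h1 h2
    -- first comparison
    have hG : Continuous fun p : NC × (Fin n → ℝ) => f (p.1, fun i => lt b ε (x i) p.1) := hgc.comp continuous_fst
    have hGint : Integrable (fun p : NC × (Fin n → ℝ) => f (p.1, fun i => lt b ε (x i) p.1)) (PX x T : Measure (NC × (Fin n → ℝ))) := by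
      obtain ⟨p0⟩ : Nonempty (NC × (Fin n → ℝ)) := ⟨(cutset 1 [], 0)⟩
      refine Integrable.of_bound hG.measurable.aestronglyMeasurable (|f p0| + M) (Eventually.of_forall fun p => ?_)
      rw [Real.norm_eq_abs]
      have := abs_sub_abs_le_abs_sub (f (p.1, fun i => lt b ε (x i) p.1)) (f p0)
      linarith [hfb (p.1, fun i => lt b ε (x i) p.1) p0]
    have a1 : |∫ p, f p ∂(PX x T : Measure (NC × (Fin n → ℝ))) -
        ∫ p, f (p.1, fun i => lt b ε (x i) p.1) ∂(PX x T : Measure (NC × (Fin n → ℝ)))| ≤ L * (n * (C * ε ^ (3 / 8 : ℝ))) := by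
      have hmi : ∀ i : Fin n, Measurable fun p : NC × (Fin n → ℝ) => ENNReal.ofReal |p.2 i - lt b ε (x i) p.1| := by
        intro i
        refine (Continuous.measurable ?_).ennreal_ofReal
        exact (((continuous_apply i).comp continuous_snd).sub ((lt_cont hε (x i)).comp continuous_fst)).abs
      refine int_le (hint _) hGint (h := fun i p => ENNReal.ofReal |p.2 i - lt b ε (x i) p.1|) hmi (by positivity) ?_ ?_
      · intro p
        have h3 := lip_bound hL p.1 p.2 (fun i => lt b ε (x i) p.1)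
        rw [← ENNReal.ofReal_sum_of_nonneg fun i _ => abs_nonneg _, ← ENNReal.ofReal_coe_nnreal, ← ENNReal.ofReal_mul L.coe_nonneg]
        exact ENNReal.ofReal_le_ofReal h3
      · intro i
        have h3 : ∫⁻ p, ENNReal.ofReal |p.2 i - lt b ε (x i) p.1| ∂(PX x T : Measure (NC × (Fin n → ℝ))) =
            ∑' t : {t : List Bool // t ∈ FCW T}, wE t.1 * ENNReal.ofReal |cnt x T t.1 i - lt b ε (x i) (cutset T t.1)| :=
          lawX_lintegral x T (hmi i)
        rw [h3]
        exact h2 i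
    have a2 : ∫ p, f (p.1, fun i => lt b ε (x i) p.1) ∂(PX x T : Measure (NC × (Fin n → ℝ))) =
        ∫ K, f (K, fun i => lt b ε (x i) K) ∂(PS T : Measure NC) := by
      have h3 : (PS T : Measure NC) = (lawX x T).map Prod.fst := (lawX_fst x T).symm
      rw [h3, integral_map measurable_fst.aemeasurable hgc.measurable.aestronglyMeasurable]
      rfl
    have hlm : Measurable fun K : NC => (K, fun i => Lam b (x i) K) :=
      measurable_id.prodMk (measurable_pi_lambda _ fun i => Lam_meas b (x i))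
    have a3 : ∫ p, f p ∂(limX b x κ : Measure (NC × (Fin n → ℝ))) = ∫ K, f (K, fun i => Lam b (x i) K) ∂(κ : Measure NC) :=
      integral_map hlm.aemeasurable hfc.measurable.aestronglyMeasurable
    have hi1 : Integrable (fun K : NC => f (K, fun i => lt b ε (x i) K)) (κ : Measure NC) := by
      obtain ⟨p0⟩ : Nonempty (NC × (Fin n → ℝ)) := ⟨(cutset 1 [], 0)⟩
      refine Integrable.of_bound hgc.measurable.aestronglyMeasurable (|f p0| + M) (Eventually.of_forall fun K => ?_)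
      rw [Real.norm_eq_abs]
      have := abs_sub_abs_le_abs_sub (f (K, fun i => lt b ε (x i) K)) (f p0)
      linarith [hfb (K, fun i => lt b ε (x i) K) p0]
    have hi2 : Integrable (fun K : NC => f (K, fun i => Lam b (x i) K)) (κ : Measure NC) := by
      obtain ⟨p0⟩ : Nonempty (NC × (Fin n → ℝ)) := ⟨(cutset 1 [], 0)⟩
      refine Integrable.of_bound (hfc.measurable.comp hlm).aestronglyMeasurable (|f p0| + M) (Eventually.of_forall fun K => ?_)
      rw [Real.norm_eq_abs]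
      have := abs_sub_abs_le_abs_sub (f (K, fun i => Lam b (x i) K)) (f p0)
      have h9 := hfb (K, fun i => Lam b (x i) K) p0
      linarith
    have a4 : |∫ K, f (K, fun i => lt b ε (x i) K) ∂(κ : Measure NC) - ∫ K, f (K, fun i => Lam b (x i) K) ∂(κ : Measure NC)| ≤
        L * (n * (C' * ε ^ (3 / 8 : ℝ))) := by
      refine int_le hi1 hi2 (h := fun i K => ENNReal.ofReal |lt b ε (x i) K - Lam b (x i) K|) (fun i => ?_) (by positivity) ?_ ?_
      · exact ((lt_cont hε (x i)).measurable.sub (Lam_meas b (x i))).abs.ennreal_ofReal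
      · intro K
        have h3 := lip_bound hL K (fun i => lt b ε (x i) K) (fun i => Lam b (x i) K)
        rw [← ENNReal.ofReal_sum_of_nonneg fun i _ => abs_nonneg _, ← ENNReal.ofReal_coe_nnreal, ← ENNReal.ofReal_mul L.coe_nonneg]
        exact ENNReal.ofReal_le_ofReal h3
      · exact fun i => hlam ε (x i) hε hε1 (hx i).1 (hx i).2
    rw [a2] at a1
    rw [a3]
    rw [abs_le] at a1 a4 h1 ⊢
    constructor <;> linarith [a1.1, a1.2, a4.1, a4.2, h1.1, h1.2]
  -- conclusion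
  rw [Metric.tendsto_atTop]
  intro η hη
  have hlim : Tendsto (fun ε : ℝ => L * (n * (C * ε ^ (3 / 8 : ℝ))) + η / 2 + L * (n * (C' * ε ^ (3 / 8 : ℝ)))) (𝓝[>] 0)
      (𝓝 (L * (n * (C * 0 ^ (3 / 8 : ℝ))) + η / 2 + L * (n * (C' * 0 ^ (3 / 8 : ℝ))))) := by
    have h0 : Tendsto (fun ε : ℝ => ε ^ (3 / 8 : ℝ)) (𝓝[>] 0) (𝓝 (0 ^ (3 / 8 : ℝ))) := by
      have : Continuous fun ε : ℝ => ε ^ (3 / 8 : ℝ) := continuous_id.rpow_const fun _ => Or.inr (by norm_num)
      exact (this.tendsto 0).mono_left nhdsWithin_le_nhds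
    exact (((h0.const_mul _).const_mul _).const_mul _).add_const _ |>.add (((h0.const_mul _).const_mul _).const_mul _)
  rw [Real.zero_rpow (by norm_num)] at hlim
  simp only [mul_zero, zero_add, add_zero] at hlim
  have h1 := hlim.eventually_lt_const (show η / 2 < η by linarith)
  have h2 : ∀ᶠ ε : ℝ in 𝓝[>] 0, ε ≤ 1 := nhdsWithin_le_nhds (Iic_mem_nhds one_pos)
  have h3 : ∀ᶠ ε : ℝ in 𝓝[>] 0, 0 < ε := self_mem_nhdsWithin
  obtain ⟨ε, e1, e2, e3⟩ := (h1.and (h2.and h3)).exists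
  obtain ⟨T0, hT0⟩ := eventually_atTop.1 (key ε e3 e2 (η / 2) (by positivity))
  refine ⟨T0, fun T hT => ?_⟩
  rw [Real.dist_eq]
  exact lt_of_le_of_lt (hT0 T hT) e1

end

end CutLim
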