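import Pool.Agent.CutLim.L8
import Pool.Agent.CutLim.N6

/-! CUT, local time, L9: list form. -/

set_option autoImplicit false

namespace HexObs.CC

open Filter Topology Finset MeasureTheory TopologicalSpace

open scoped ENNReal

/-- laws of functions of the walk, words and lists -/
theorem lists_law {α : Type} [MeasurableSpace α] {T : ℕ} (hT : 1 ≤ T) {F : List (ℤ × ℤ) → α} {G : List Bool → α}
    (h : ∀ t ∈ FCW T, F (toL oo t) = G t) :
    (Measure.sum fun L : {L : List (ℤ × ℤ) // Stop T L} => wt L.1 • Measure.dirac (F L.1)) =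
      Measure.sum fun t : {t : List Bool // t ∈ FCW T} => wE t.1 • Measure.dirac (G t.1) := by
  ext S hS
  rw [Measure.sum_apply _ hS, Measure.sum_apply _ hS, ← (wordEquiv hT).tsum_eq]
  refine tsum_congr fun t => ?_
  rw [wordEquiv_coe, wt_toL, h t.1 t.2]

/-- the rescaled numbers of the cut rows -/
noncomputable def cntL {n : ℕ} (x : Fin n → ℝ) (T : ℕ) (L : List (ℤ × ℤ)) (i : Fin n) : ℝ :=
  (numL ⌊x i * T⌋₊ L : ℝ) / (T : ℝ) ^ (3 / 4 : ℝ)

theorem lawX_lists {n : ℕ} {x : Fin n → ℝ} (hx : ∀ i, 0 ≤ x i ∧ x i ≤ 1) {T : ℕ} (hT : 1 ≤ T) :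
    (Measure.sum fun L : {L : List (ℤ × ℤ) // Stop T L} => wt L.1 • Measure.dirac (cutsL T L.1, cntL x T L.1)) =
      CutLim.lawX x T := by
  refine lists_law hT (F := fun L => (cutsL T L, cntL x T L)) (G := fun t => (CutLim.cutset T t, CutLim.cnt x T t)) ?_
  rintro t ⟨j, hj⟩
  have hT0 : (0 : ℝ) < T := by exact_mod_cast hT
  show (cutsL T (toL oo t), cntL x T (toL oo t)) = (CutLim.cutset T t, CutLim.cnt x T t)
  rw [← cutset_toL hT hj.2.1 hj.1]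
  congr 1
  funext i
  unfold cntL CutLim.cnt
  have hn : ⌊x i * T⌋₊ ≤ T := by
    have h1 : (⌊x i * T⌋₊ : ℝ) ≤ x i * T := Nat.floor_le (mul_nonneg (hx i).1 hT0.le)
    have h2 : (⌊x i * T⌋₊ : ℝ) ≤ T := h1.trans (by nlinarith [(hx i).2])
    exact_mod_cast h2
  rw [numL_toL (hn.trans hj.2.1) hj.1, CutLim.card_cS]

/-- LOCAL TIME, list form -/
theorem local_time_lists {b : ℝ} (hb : 0 < b) (hu : Tendsto (fun n : ℕ => (n : ℝ) ^ (1 / 4 : ℝ) * uu n) atTop (𝓝 b))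
    {κ : ProbabilityMeasure CutLim.NC} (hκ : Tendsto CutLim.PS atTop (𝓝 κ)) :
    ∃ Λ : ℝ → CutLim.NC → ℝ, (∀ x, Measurable (Λ x)) ∧
      (∀ x : ℝ, 0 ≤ x → x ≤ 1 → ∀ᵐ K : CutLim.NC ∂(κ : Measure CutLim.NC),
        Tendsto (fun ε : ℝ => b * Real.Gamma (3 / 4) * Real.Gamma (5 / 4) * ε ^ (-(1 / 4) : ℝ) *
          (volume {y : ℝ | (0 ≤ y ∧ y ≤ x) ∧ ∃ k ∈ (K : Set ℝ), k ≤ y ∧ y ≤ k + ε}).toReal) (𝓝[>] 0) (𝓝 (Λ x K))) ∧
      ∀ (n : ℕ) (x : Fin n → ℝ), (∀ i, 0 ≤ x i ∧ x i ≤ 1) →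
        ∀ f : BoundedContinuousFunction (CutLim.NC × (Fin n → ℝ)) ℝ,
          Tendsto (fun T => ∫ p, f p ∂(Measure.sum fun L : {L : List (ℤ × ℤ) // Stop T L} =>
            wt L.1 • Measure.dirac (cutsL T L.1, cntL x T L.1))) atTop
            (𝓝 (∫ p, f p ∂((κ : Measure CutLim.NC).map fun K => (K, fun i => Λ (x i) K)))) := by
  refine ⟨fun x K => CutLim.Lam b x K, fun x => CutLim.Lam_meas b x, fun x hx hx1 => ?_, fun n x hx f => ?_⟩
  · filter_upwards [CutLim.lt_full hb hu hκ hx hx1] with K hK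
    refine hK.congr fun ε => ?_
    unfold CutLim.lt CutLim.ctr CutLim.Dv CutLim.nb
    have e : {y : ℝ | (0 ≤ y ∧ y ≤ x) ∧ ∃ k ∈ (K : Set ℝ), k ≤ y ∧ y ≤ k + ε} =
        {y | ∃ k ∈ (K : Set ℝ), k ≤ y ∧ y ≤ k + ε} ∩ Set.Icc 0 x := by
      ext y
      exact and_comm
    rw [e]
  · have h1 := (ProbabilityMeasure.tendsto_iff_forall_integral_tendsto.1 (CutLim.local_time hb hu hκ hx)) f
    refine h1.congr' ?_
    filter_upwards [eventually_ge_atTop 1] with T hT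
    rw [lawX_lists hx hT]
    rfl

end HexObs.CC
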