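import Pool.Agent.CutLim.B

/-! CUT_N1: convolutions of sequences of regular variation; the binomial moments of the number of renewal levels. -/

set_option autoImplicit false

namespace CutLim

open Filter Topology Finset

/-- averages with weights that escape to infinity -/
lemma toep {w : ℕ → ℕ → ℝ} (hw0 : ∀ n j, 0 ≤ w n j) (hw1 : ∀ n, ∑ j ∈ range (n + 1), w n j ≤ 1)
    (hwj : ∀ j, Tendsto (fun n => w n j) atTop (𝓝 0)) {e : ℕ → ℝ} (he : Tendsto e atTop (𝓝 0)) :
    Tendsto (fun n => ∑ j ∈ range (n + 1), w n j * |e j|) atTop (𝓝 0) := by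
  rw [Metric.tendsto_atTop]
  intro ε hε
  obtain ⟨J, hJ⟩ := Metric.tendsto_atTop.1 he (ε / 2) (half_pos hε)
  have h1 : Tendsto (fun n => ∑ j ∈ range J, w n j * |e j|) atTop (𝓝 0) := by
    have := tendsto_finsetSum (range J) fun j _ => (hwj j).mul_const |e j|
    simpa using this
  obtain ⟨N, hN⟩ := Metric.tendsto_atTop.1 h1 (ε / 2) (half_pos hε)
  refine ⟨N, fun n hn => ?_⟩
  have h2 := hN n hn
  rw [Real.dist_eq, sub_zero] at h2 ⊢
  have h0 : 0 ≤ ∑ j ∈ range (n + 1), w n j * |e j| := sum_nonneg fun j _ => mul_nonneg (hw0 n j) (abs_nonneg _)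
  rw [abs_of_nonneg h0]
  have h3 : ∑ j ∈ range (n + 1), w n j * |e j| ≤ ∑ j ∈ range J, w n j * |e j| + ∑ j ∈ range (n + 1), w n j * (ε / 2) := by
    calc ∑ j ∈ range (n + 1), w n j * |e j|
        ≤ ∑ j ∈ range (n + 1), ((if j < J then w n j * |e j| else 0) + w n j * (ε / 2)) := by
          refine sum_le_sum fun j _ => ?_
          by_cases h : j < J
          · rw [if_pos h]
            have := mul_nonneg (hw0 n j) (half_pos hε).le
            linarith
          · rw [if_neg h, zero_add]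
            have h4 := hJ j (not_lt.1 h)
            rw [Real.dist_eq, sub_zero] at h4
            exact mul_le_mul_of_nonneg_left h4.le (hw0 n j)
      _ = ∑ j ∈ range (n + 1), (if j < J then w n j * |e j| else 0) + ∑ j ∈ range (n + 1), w n j * (ε / 2) :=
          sum_add_distrib
      _ ≤ _ := by
          gcongr
          rw [← sum_filter]
          refine sum_le_sum_of_subset_of_nonneg ?_ fun j _ _ => mul_nonneg (hw0 n j) (abs_nonneg _)
          intro j hj
          rw [mem_filter] at hj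
          exact mem_range.2 hj.2
  have h4 : ∑ j ∈ range (n + 1), w n j * (ε / 2) ≤ ε / 2 := by
    rw [← sum_mul]
    have := mul_le_mul_of_nonneg_right (hw1 n) (half_pos hε).le
    linarith
  have h5 := le_abs_self (∑ j ∈ range J, w n j * |e j|)
  linarith

/-- the convolution -/
def cv (x y : ℕ → ℝ) (n : ℕ) : ℝ := ∑ j ∈ range (n + 1), x j * y (n - j)

lemma cv_comm (x y : ℕ → ℝ) (n : ℕ) : cv x y n = cv y x n := by
  unfold cv
  rw [← Finset.sum_range_reflect]
  refine sum_congr rfl fun j hj => ?_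
  have hj' := mem_range.1 hj
  rw [show n + 1 - 1 - j = n - j by omega, show n - (n - j) = j by omega, mul_comm]

lemma cf_pos {a : ℝ} (ha : 0 < a) (n : ℕ) : 0 < cf a n := by
  rw [cf_eq_cb]
  exact CutR.cb_pos ha n

lemma cv_cf (a b : ℝ) (n : ℕ) : cv (cf a) (cf b) n = cf (a + b) n := by
  unfold cv
  rw [cf_eq_cb, cf_eq_cb, cf_eq_cb, ← CutR.cb_conv,
    Nat.sum_antidiagonal_eq_sum_range_succ (fun i j => CutR.cb a i * CutR.cb b j)]

lemma cf_ratio {a b : ℝ} (ha : 0 < a) (hb : 0 < b) (j : ℕ) :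
    Tendsto (fun n : ℕ => cf b (n - j) / cf (a + b) n) atTop (𝓝 0) := by
  have h1 := cf_tendsto hb
  have h2 := cf_tendsto (add_pos ha hb)
  have h3 : Tendsto (fun n : ℕ => ((n - j : ℕ) : ℝ) ^ (1 - b) * cf b (n - j)) atTop (𝓝 (Real.Gamma b)⁻¹) :=
    h1.comp (tendsto_sub_atTop_nat j)
  have hG : (Real.Gamma (a + b))⁻¹ ≠ 0 := inv_ne_zero (Real.Gamma_pos_of_pos (add_pos ha hb)).ne'
  have h4 := h3.div h2 hG
  have h5 : Tendsto (fun n : ℕ => (n : ℝ) ^ (1 - (a + b)) / ((n - j : ℕ) : ℝ) ^ (1 - b)) atTop (𝓝 0) := by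
    have h6 : Tendsto (fun n : ℕ => ((n : ℝ) / ((n - j : ℕ) : ℝ)) ^ (1 - b)) atTop (𝓝 1) := by
      have h7 : Tendsto (fun n : ℕ => ((n : ℝ) / ((n - j : ℕ) : ℝ))) atTop (𝓝 1) := by
        have h8 : Tendsto (fun n : ℕ => (1 : ℝ) + (j : ℝ) / ((n - j : ℕ) : ℝ)) atTop (𝓝 (1 + 0)) := by
          refine tendsto_const_nhds.add ?_
          exact (tendsto_const_nhds (x := (j : ℝ))).div_atTop
            (tendsto_natCast_atTop_atTop.comp (tendsto_sub_atTop_nat j))
        rw [add_zero] at h8
        refine h8.congr' ?_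
        filter_upwards [eventually_gt_atTop j] with n hn
        have h9 : ((n - j : ℕ) : ℝ) = (n : ℝ) - j := by
          rw [Nat.cast_sub hn.le]
        have h10 : (0 : ℝ) < (n : ℝ) - j := by
          have : (j : ℝ) < n := by exact_mod_cast hn
          linarith
        rw [h9]
        field_simp
        ring
      have h11 := h7.rpow_const (p := 1 - b) (Or.inl one_ne_zero)
      rwa [Real.one_rpow] at h11
    have h12 : Tendsto (fun n : ℕ => (n : ℝ) ^ (-a)) atTop (𝓝 0) :=
      (tendsto_rpow_neg_atTop ha).comp tendsto_natCast_atTop_atTop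
    have h13 := h6.mul h12
    rw [mul_zero] at h13
    refine h13.congr' ?_
    filter_upwards [eventually_gt_atTop (j + 1)] with n hn
    have hn0 : (0 : ℝ) < n := by
      have : 0 < n := by omega
      exact_mod_cast this
    have hn1 : (0 : ℝ) < ((n - j : ℕ) : ℝ) := by
      have : 0 < n - j := by omega
      exact_mod_cast this
    rw [Real.div_rpow hn0.le hn1.le, show (1 - (a + b)) = (1 - b) + (-a) by ring, Real.rpow_add hn0]
    ring
  have h14 := h4.mul h5
  rw [mul_zero] at h14
  refine h14.congr' ?_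
  filter_upwards [eventually_gt_atTop (j + 1)] with n hn
  have hn0 : (0 : ℝ) < n := by
    have : 0 < n := by omega
    exact_mod_cast this
  have hn1 : (0 : ℝ) < ((n - j : ℕ) : ℝ) := by
    have : 0 < n - j := by omega
    exact_mod_cast this
  have e1 := (Real.rpow_pos_of_pos hn0 (1 - (a + b))).ne'
  have e2 := (Real.rpow_pos_of_pos hn1 (1 - b)).ne'
  have e3 := (cf_pos (add_pos ha hb) n).ne'
  simp only [Pi.div_apply]
  field_simp

/-- one side of the convolution theorem -/
lemma cv_side {a b : ℝ} (ha : 0 < a) (hb : 0 < b) {e : ℕ → ℝ} (he : Tendsto e atTop (𝓝 0)) :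
    Tendsto (fun n => (∑ j ∈ range (n + 1), cf a j * |e j| * cf b (n - j)) / cf (a + b) n) atTop (𝓝 0) := by
  have h := toep (w := fun n j => cf a j * cf b (n - j) / cf (a + b) n)
    (fun n j => div_nonneg (mul_nonneg (cf_pos ha j).le (cf_pos hb _).le) (cf_pos (add_pos ha hb) n).le)
    (fun n => by
      rw [← sum_div]
      have := cv_cf a b n
      unfold cv at this
      rw [this, div_self (cf_pos (add_pos ha hb) n).ne'])
    (fun j => by
      have := (cf_ratio ha hb j).const_mul (cf a j)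
      rw [mul_zero] at this
      refine this.congr fun n => ?_
      ring) he
  refine h.congr fun n => ?_
  rw [sum_div]
  refine sum_congr rfl fun j _ => ?_
  ring

/-- the convolution of two sequences asymptotic to X cf a, Y cf b is asymptotic to X Y cf (a + b) -/
theorem cv_tendsto {a b : ℝ} (ha : 0 < a) (hb : 0 < b) {x y : ℕ → ℝ} {X Y : ℝ}
    (hx : Tendsto (fun n => x n / cf a n) atTop (𝓝 X)) (hy : Tendsto (fun n => y n / cf b n) atTop (𝓝 Y)) :
    Tendsto (fun n => cv x y n / cf (a + b) n) atTop (𝓝 (X * Y)) := by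
  have hx0 : Tendsto (fun n => x n / cf a n - X) atTop (𝓝 0) := by simpa using hx.sub_const X
  have hy0 : Tendsto (fun n => y n / cf b n - Y) atTop (𝓝 0) := by simpa using hy.sub_const Y
  obtain ⟨S, hS⟩ : ∃ S : ℝ, ∀ n, |y n / cf b n| ≤ S := by
    obtain ⟨S, hS⟩ := hy.bddAbove_range
    obtain ⟨S', hS'⟩ := hy.bddBelow_range
    refine ⟨max |S| |S'|, fun n => ?_⟩
    have h1 := hS ⟨n, rfl⟩
    have h2 := hS' ⟨n, rfl⟩
    simp only at h1 h2
    exact abs_le_max_abs_abs h2 h1 |>.trans (by rw [max_comm])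
  have k1 := (cv_side ha hb hx0).const_mul S
  have k2 := (cv_side hb ha hy0).const_mul |X|
  rw [mul_zero] at k1 k2
  have k3 := k1.add k2
  rw [add_zero] at k3
  rw [tendsto_iff_norm_sub_tendsto_zero]
  refine squeeze_zero (fun n => norm_nonneg _) (fun n => ?_) k3
  have hc := cf_pos (add_pos ha hb) n
  have e1 : cv x y n / cf (a + b) n - X * Y = (∑ j ∈ range (n + 1), (x j * y (n - j) - X * Y * (cf a j * cf b (n - j)))) / cf (a + b) n := by
    rw [sum_sub_distrib, ← mul_sum]
    have := cv_cf a b n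
    unfold cv at this ⊢
    rw [this]
    field_simp
  rw [Real.norm_eq_abs, e1, abs_div, abs_of_pos hc]
  have e2 : ∑ j ∈ range (n + 1), cf b j * |y j / cf b j - Y| * cf a (n - j) =
      ∑ j ∈ range (n + 1), cf a j * (|y (n - j) / cf b (n - j) - Y| * cf b (n - j)) := by
    rw [← Finset.sum_range_reflect]
    refine sum_congr rfl fun j hj => ?_
    have hj' := mem_range.1 hj
    rw [show n + 1 - 1 - j = n - j by omega, show n - (n - j) = j by omega]
    ring
  rw [add_comm b a, e2, ← mul_div_assoc, ← mul_div_assoc, ← add_div]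
  refine div_le_div_of_nonneg_right ?_ hc.le
  rw [mul_sum, mul_sum, ← sum_add_distrib]
  refine (abs_sum_le_sum_abs _ _).trans (sum_le_sum fun j _ => ?_)
  have p1 := cf_pos ha j
  have p2 := cf_pos hb (n - j)
  set r := x j / cf a j with hr
  set s := y (n - j) / cf b (n - j) with hs
  have q1 : x j = r * cf a j := by rw [hr]; field_simp
  have q2 : y (n - j) = s * cf b (n - j) := by rw [hs]; field_simp
  rw [q1, q2]
  have q3 : r * cf a j * (s * cf b (n - j)) - X * Y * (cf a j * cf b (n - j)) =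
      (cf a j * cf b (n - j)) * ((r - X) * s + X * (s - Y)) := by ring
  rw [q3, abs_mul, abs_of_pos (mul_pos p1 p2)]
  have q4 : |(r - X) * s + X * (s - Y)| ≤ |r - X| * S + |X| * |s - Y| := by
    refine (abs_add_le _ _).trans ?_
    rw [abs_mul, abs_mul]
    have := hS (n - j)
    gcongr
  calc cf a j * cf b (n - j) * |(r - X) * s + X * (s - Y)|
      ≤ cf a j * cf b (n - j) * (|r - X| * S + |X| * |s - Y|) := by gcongr
    _ = _ := by ring

/-- powers of convolution -/
def cp (v : ℕ → ℝ) : ℕ → ℕ → ℝ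
  | 0 => v
  | k + 1 => cv v (cp v k)

theorem cp_tendsto {a : ℝ} (ha : 0 < a) {v : ℕ → ℝ} {X : ℝ} (hv : Tendsto (fun n => v n / cf a n) atTop (𝓝 X)) :
    ∀ k : ℕ, Tendsto (fun n => cp v k n / cf ((k + 1) * a) n) atTop (𝓝 (X ^ (k + 1)))
  | 0 => by
      simpa [cp] using hv
  | k + 1 => by
      have h := cv_tendsto ha (by positivity : 0 < ((k : ℝ) + 1) * a) hv (cp_tendsto ha hv k)
      have e : a + ((k : ℝ) + 1) * a = (((k + 1 : ℕ) : ℝ) + 1) * a := by
        push_cast
        ring
      rw [e, ← pow_succ'] at h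
      exact h

theorem cp_le {a : ℝ} (ha : 0 < a) {v : ℕ → ℝ} {C : ℝ} (hC : 0 ≤ C) (hv0 : ∀ n, 0 ≤ v n) (hv : ∀ n, v n ≤ C * cf a n) :
    ∀ k n : ℕ, 0 ≤ cp v k n ∧ cp v k n ≤ C ^ (k + 1) * cf ((k + 1) * a) n
  | 0, n => by
      simpa [cp] using ⟨hv0 n, hv n⟩
  | k + 1, n => by
      have ih := cp_le ha hC hv0 hv k
      constructor
      · show 0 ≤ ∑ j ∈ range (n + 1), v j * cp v k (n - j)
        exact sum_nonneg fun j _ => mul_nonneg (hv0 j) (ih _).1
      · have e : a + ((k : ℝ) + 1) * a = (((k + 1 : ℕ) : ℝ) + 1) * a := by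
          push_cast
          ring
        rw [← e, ← cv_cf, pow_succ' C (k + 1)]
        unfold cv
        show ∑ j ∈ range (n + 1), v j * cp v k (n - j) ≤ _
        rw [mul_sum]
        refine sum_le_sum fun j _ => ?_
        calc v j * cp v k (n - j) ≤ (C * cf a j) * (C ^ (k + 1) * cf ((k + 1) * a) (n - j)) := by
              have := (ih (n - j)).1
              have h2 := cf_pos ha j
              gcongr
              · exact hv j
              · exact (ih (n - j)).2
          _ = _ := by ring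

end CutLim
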