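import Mathlib

/-! CUT_N2: convergence in law from the binomial moments. -/

set_option autoImplicit false

namespace CutLim

open Filter Topology Finset MeasureTheory

open scoped ENNReal

/-- the law of j / n ^ a, j with the weights p n j, j ≤ n -/
noncomputable def lawN (a : ℝ) (p : ℕ → ℕ → ℝ) (n : ℕ) : Measure ℝ :=
  ∑ j ∈ range (n + 1), ENNReal.ofReal (p n j) • Measure.dirac ((j : ℝ) / (n : ℝ) ^ a)

/-- the binomial moments -/
noncomputable def bm (p : ℕ → ℕ → ℝ) (k n : ℕ) : ℝ := ∑ j ∈ range (n + 1), (Nat.choose j k : ℝ) * p n j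

theorem lawN_prob {a : ℝ} {p : ℕ → ℕ → ℝ} {n : ℕ} (hp0 : ∀ j, 0 ≤ p n j)
    (hp1 : ∑ j ∈ range (n + 1), p n j = 1) : IsProbabilityMeasure (lawN a p n) := by
  constructor
  unfold lawN
  rw [Measure.finsetSum_apply]
  simp only [Measure.smul_apply, measure_univ, smul_eq_mul, mul_one]
  rw [← ENNReal.ofReal_sum_of_nonneg fun j _ => hp0 j, hp1, ENNReal.ofReal_one]

theorem charFun_lawN {a : ℝ} {p : ℕ → ℕ → ℝ} {n : ℕ} (hp0 : ∀ j, 0 ≤ p n j) (t : ℝ) :
    charFun (lawN a p n) t =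
      ∑ j ∈ range (n + 1), (p n j : ℂ) * Complex.exp (((t / (n : ℝ) ^ a : ℝ) : ℂ) * Complex.I) ^ j := by
  rw [charFun_apply_real]
  unfold lawN
  rw [integral_finsetSum_measure]
  · refine sum_congr rfl fun j _ => ?_
    rw [integral_smul_measure, integral_dirac, ENNReal.toReal_ofReal (hp0 j), ← Complex.exp_nat_mul,
      Complex.real_smul]
    congr 2
    push_cast
    ring
  · intro j _
    exact (integrable_dirac enorm_lt_top).smul_measure ENNReal.ofReal_ne_top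

theorem charFun_bm {a : ℝ} {p : ℕ → ℕ → ℝ} {n : ℕ} (hp0 : ∀ j, 0 ≤ p n j) (hn : 1 ≤ n) (t : ℝ) :
    charFun (lawN a p n) t = ∑' k : ℕ, (((n : ℝ) ^ a : ℝ) * (Complex.exp (((t / (n : ℝ) ^ a : ℝ) : ℂ) * Complex.I) - 1)) ^ k *
      ((bm p k n / (n : ℝ) ^ (k * a) : ℝ) : ℂ) := by
  have hn0 : (0 : ℝ) < n := by exact_mod_cast hn
  have hna : (0 : ℝ) < (n : ℝ) ^ a := Real.rpow_pos_of_pos hn0 a
  have hna' : (((n : ℝ) ^ a : ℝ) : ℂ) ≠ 0 := by exact_mod_cast hna.ne'
  rw [charFun_lawN hp0]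
  set w : ℂ := Complex.exp (((t / (n : ℝ) ^ a : ℝ) : ℂ) * Complex.I) - 1 with hw
  have e1 : Complex.exp (((t / (n : ℝ) ^ a : ℝ) : ℂ) * Complex.I) = w + 1 := by rw [hw]; ring
  have e2 : ∀ k : ℕ, (((n : ℝ) ^ a : ℝ) * w) ^ k * ((bm p k n / (n : ℝ) ^ (k * a) : ℝ) : ℂ) = w ^ k * (bm p k n : ℂ) := by
    intro k
    have e3 : (n : ℝ) ^ ((k : ℝ) * a) = ((n : ℝ) ^ a) ^ k := by
      rw [mul_comm, Real.rpow_mul_natCast hn0.le]
    rw [e3, mul_pow]
    push_cast
    field_simp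
  simp_rw [e2]
  rw [tsum_eq_sum (s := range (n + 1))]
  · rw [e1]
    have e4 : ∀ j ∈ range (n + 1), (p n j : ℂ) * (w + 1) ^ j = ∑ k ∈ range (n + 1), w ^ k * ((Nat.choose j k : ℂ) * (p n j : ℂ)) := by
      intro j hj
      have hj' : j + 1 ≤ n + 1 := by
        have := mem_range.1 hj
        omega
      rw [add_pow, mul_sum]
      have e5 : ∑ k ∈ range (j + 1), (p n j : ℂ) * (w ^ k * 1 ^ (j - k) * (Nat.choose j k : ℂ)) =
          ∑ k ∈ range (j + 1), w ^ k * ((Nat.choose j k : ℂ) * (p n j : ℂ)) := by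
        refine sum_congr rfl fun k _ => ?_
        rw [one_pow]
        ring
      rw [e5]
      refine sum_subset (range_subset_range.2 hj') fun k _ hk => ?_
      have : j < k := by
        by_contra h
        exact hk (mem_range.2 (by omega))
      rw [Nat.choose_eq_zero_of_lt this]
      simp
    rw [sum_congr rfl e4, sum_comm]
    refine sum_congr rfl fun k _ => ?_
    rw [← mul_sum]
    congr 1
    unfold bm
    push_cast
    rfl
  · intro k hk
    have hk' : n < k := by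
      by_contra h
      exact hk (mem_range.2 (by omega))
    have : bm p k n = 0 := by
      unfold bm
      refine sum_eq_zero fun j hj => ?_
      rw [Nat.choose_eq_zero_of_lt (lt_of_lt_of_le (mem_range.1 hj) (by omega))]
      simp
    rw [this]
    simp

/-- the scaled increments -/
lemma scaled_tendsto {a : ℝ} (ha : 0 < a) (t : ℝ) :
    Tendsto (fun n : ℕ => (((n : ℝ) ^ a : ℝ) : ℂ) * (Complex.exp (((t / (n : ℝ) ^ a : ℝ) : ℂ) * Complex.I) - 1)) atTop
      (𝓝 (t * Complex.I)) := by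
  have h1 : HasDerivAt (fun s : ℝ => Complex.exp ((s : ℂ) * (t * Complex.I))) (t * Complex.I) 0 := by
    have h2 : HasDerivAt (fun s : ℝ => (s : ℂ) * (t * Complex.I)) (t * Complex.I) 0 := by
      simpa using (Complex.ofRealCLM.hasDerivAt (x := (0 : ℝ))).mul_const ((t : ℂ) * Complex.I)
    have h3 := h2.cexp
    simpa using h3
  have h4 := h1.tendsto_slope_zero
  simp only [zero_add, Complex.ofReal_zero, zero_mul, Complex.exp_zero] at h4
  have h5 : Tendsto (fun n : ℕ => ((n : ℝ) ^ a)⁻¹) atTop (𝓝[≠] 0) := by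
    rw [tendsto_nhdsWithin_iff]
    constructor
    · exact ((tendsto_rpow_atTop ha).comp tendsto_natCast_atTop_atTop).inv_tendsto_atTop
    · filter_upwards [eventually_gt_atTop 0] with n hn
      have : (0 : ℝ) < n := by exact_mod_cast hn
      exact (inv_pos.2 (Real.rpow_pos_of_pos this a)).ne'
  refine (h4.comp h5).congr fun n => ?_
  simp only [Function.comp_apply, inv_inv, Complex.real_smul]
  congr 3
  push_cast
  ring

lemma scaled_le {a : ℝ} (t : ℝ) {n : ℕ} (hn : 1 ≤ n) :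
    ‖(((n : ℝ) ^ a : ℝ) : ℂ) * (Complex.exp (((t / (n : ℝ) ^ a : ℝ) : ℂ) * Complex.I) - 1)‖ ≤ |t| := by
  have hn0 : (0 : ℝ) < n := by exact_mod_cast hn
  have hna : (0 : ℝ) < (n : ℝ) ^ a := Real.rpow_pos_of_pos hn0 a
  rw [norm_mul, Complex.norm_real, Real.norm_eq_abs, abs_of_pos hna]
  have h1 : ‖Complex.exp (((t / (n : ℝ) ^ a : ℝ) : ℂ) * Complex.I) - 1‖ ≤ ‖t / (n : ℝ) ^ a‖ := by
    have := Real.norm_exp_I_mul_ofReal_sub_one_le (x := t / (n : ℝ) ^ a)
    rwa [mul_comm] at this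
  rw [Real.norm_eq_abs, abs_div, abs_of_pos hna] at h1
  calc (n : ℝ) ^ a * ‖Complex.exp (((t / (n : ℝ) ^ a : ℝ) : ℂ) * Complex.I) - 1‖ ≤ (n : ℝ) ^ a * (|t| / (n : ℝ) ^ a) := by
        gcongr
    _ = |t| := by field_simp

/-- the limit of the characteristic functions -/
theorem charFun_tendsto {a : ℝ} (ha : 0 < a) {p : ℕ → ℕ → ℝ} (hp0 : ∀ n j, 0 ≤ p n j) {m D : ℕ → ℝ}
    (hM : ∀ k : ℕ, Tendsto (fun n : ℕ => bm p k n / (n : ℝ) ^ (k * a)) atTop (𝓝 (m k)))
    (hD : ∀ k n : ℕ, 1 ≤ n → bm p k n / (n : ℝ) ^ (k * a) ≤ D k) (hS : ∀ r : ℝ, 0 < r → Summable fun k => D k * r ^ k)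
    (t : ℝ) : Tendsto (fun n => charFun (lawN a p n) t) atTop (𝓝 (∑' k : ℕ, (t * Complex.I) ^ k * (m k : ℂ))) := by
  have hb0 : ∀ k n : ℕ, 0 ≤ bm p k n / (n : ℝ) ^ (k * a) := fun k n =>
    div_nonneg (sum_nonneg fun j _ => mul_nonneg (Nat.cast_nonneg _) (hp0 n j)) (Real.rpow_nonneg (Nat.cast_nonneg _) _)
  have hD0 : ∀ k, 0 ≤ D k := fun k => (hb0 k 1).trans (hD k 1 le_rfl)
  have h1 : Tendsto (fun n : ℕ => ∑' k : ℕ, (((n : ℝ) ^ a : ℝ) * (Complex.exp (((t / (n : ℝ) ^ a : ℝ) : ℂ) * Complex.I) - 1)) ^ k *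
      ((bm p k n / (n : ℝ) ^ (k * a) : ℝ) : ℂ)) atTop (𝓝 (∑' k : ℕ, (t * Complex.I) ^ k * (m k : ℂ))) := by
    refine tendsto_tsum_of_dominated_convergence (bound := fun k => D k * (|t| + 1) ^ k) (hS _ (by positivity)) ?_ ?_
    · intro k
      refine ((scaled_tendsto ha t).pow k).mul ?_
      exact (Complex.continuous_ofReal.tendsto _).comp (hM k)
    · filter_upwards [eventually_ge_atTop 1] with n hn k
      rw [norm_mul, norm_pow, Complex.norm_real, Real.norm_eq_abs, abs_of_nonneg (hb0 k n), mul_comm]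
      have := hD k n hn
      have h2 := scaled_le (a := a) t hn
      have h3 : ‖(((n : ℝ) ^ a : ℝ) : ℂ) * (Complex.exp (((t / (n : ℝ) ^ a : ℝ) : ℂ) * Complex.I) - 1)‖ ≤ |t| + 1 := by linarith
      have := hD0 k
      gcongr
  refine h1.congr' ?_
  filter_upwards [eventually_ge_atTop 1] with n hn
  exact (charFun_bm (hp0 n) hn t).symm

lemma continuousAt_series {m D : ℕ → ℝ} (hm : ∀ k, |m k| ≤ D k) (hS : ∀ r : ℝ, 0 < r → Summable fun k => D k * r ^ k) :
    Continuous (fun t : ℝ => ∑' k : ℕ, (t * Complex.I) ^ k * (m k : ℂ)) := by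
  rw [continuous_iff_continuousAt]
  intro t
  have h1 : ContinuousOn (fun t : ℝ => ∑' k : ℕ, (t * Complex.I) ^ k * (m k : ℂ)) (Metric.ball 0 (|t| + 1)) := by
    refine continuousOn_tsum (u := fun k => D k * (|t| + 1) ^ k) (fun k => by fun_prop) (hS _ (by positivity)) ?_
    intro k s hs
    rw [Metric.mem_ball, dist_zero_right, Real.norm_eq_abs] at hs
    rw [norm_mul, norm_pow, norm_mul, Complex.norm_real, Complex.norm_I, mul_one, Complex.norm_real, Real.norm_eq_abs,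
      Real.norm_eq_abs, mul_comm]
    have := hm k
    have h0 := (abs_nonneg _).trans this
    gcongr
  exact h1.continuousAt (Metric.isOpen_ball.mem_nhds (by rw [Metric.mem_ball, dist_zero_right, Real.norm_eq_abs]; linarith))

/-- convergence in law from the binomial moments -/
theorem law_of_bm {a : ℝ} (ha : 0 < a) {p : ℕ → ℕ → ℝ} (hp0 : ∀ n j, 0 ≤ p n j)
    (hp1 : ∀ n, ∑ j ∈ range (n + 1), p n j = 1) {m D : ℕ → ℝ}
    (hM : ∀ k : ℕ, Tendsto (fun n : ℕ => bm p k n / (n : ℝ) ^ (k * a)) atTop (𝓝 (m k)))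
    (hD : ∀ k n : ℕ, 1 ≤ n → bm p k n / (n : ℝ) ^ (k * a) ≤ D k) (hS : ∀ r : ℝ, 0 < r → Summable fun k => D k * r ^ k) :
    ∃ ν : ProbabilityMeasure ℝ, Tendsto (β := ProbabilityMeasure ℝ) (fun n => ⟨lawN a p n, lawN_prob (hp0 n) (hp1 n)⟩) atTop (𝓝 ν) ∧
      ∀ t : ℝ, charFun (ν : Measure ℝ) t = ∑' k : ℕ, (t * Complex.I) ^ k * (m k : ℂ) := by
  have hb0 : ∀ k n : ℕ, 0 ≤ bm p k n / (n : ℝ) ^ (k * a) := fun k n =>
    div_nonneg (sum_nonneg fun j _ => mul_nonneg (Nat.cast_nonneg _) (hp0 n j)) (Real.rpow_nonneg (Nat.cast_nonneg _) _)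
  have hm : ∀ k, |m k| ≤ D k := by
    intro k
    have h1 : 0 ≤ m k := ge_of_tendsto' (hM k) fun n => hb0 k n
    rw [abs_of_nonneg h1]
    refine le_of_tendsto (hM k) ?_
    filter_upwards [eventually_ge_atTop 1] with n hn using hD k n hn
  let P : ℕ → ProbabilityMeasure ℝ := fun n => ⟨lawN a p n, lawN_prob (hp0 n) (hp1 n)⟩
  have hc := charFun_tendsto ha hp0 hM hD hS
  have hprob : ∀ n, IsProbabilityMeasure (lawN a p n) := fun n => lawN_prob (hp0 n) (hp1 n)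
  have ht : IsTightMeasureSet (Set.range fun n => lawN a p n) :=
    isTightMeasureSet_of_tendsto_charFun (continuousAt_series hm hS).continuousAt hc
  have ht' : IsTightMeasureSet {((ρ : ProbabilityMeasure ℝ) : Measure ℝ) | ρ ∈ Set.range P} := by
    have e : {((ρ : ProbabilityMeasure ℝ) : Measure ℝ) | ρ ∈ Set.range P} = Set.range fun n => lawN a p n := by
      ext μ
      constructor
      · rintro ⟨ρ, ⟨n, rfl⟩, rfl⟩
        exact ⟨n, rfl⟩
      · rintro ⟨n, rfl⟩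
        exact ⟨P n, ⟨n, rfl⟩, rfl⟩
    rw [e]
    exact ht
  have hcomp := isCompact_closure_of_isTightMeasureSet ht'
  obtain ⟨ν, -, ψ, hψ, hlim⟩ := hcomp.tendsto_subseq (x := P) (fun k => subset_closure ⟨k, rfl⟩)
  have hν : ∀ t : ℝ, charFun (ν : Measure ℝ) t = ∑' k : ℕ, (t * Complex.I) ^ k * (m k : ℂ) := by
    intro t
    have h1 := (ProbabilityMeasure.tendsto_iff_tendsto_charFun.1 hlim) t
    have h2 := (hc t).comp hψ.tendsto_atTop
    exact tendsto_nhds_unique h1 h2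
  refine ⟨ν, ?_, hν⟩
  refine ProbabilityMeasure.tendsto_iff_tendsto_charFun.2 fun t => ?_
  rw [hν t]
  exact hc t

end CutLim
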