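import Pool.Agent.CutLim.N1

/-! CUT_N3: the binomial moments of the number of renewal levels; bounds that are uniform in the order. -/

set_option autoImplicit false

namespace CutLim

open Filter Topology Finset

lemma cv_coeff (x y : ℕ → ℝ) (n : ℕ) : cv x y n = PowerSeries.coeff n (PowerSeries.mk x * PowerSeries.mk y) := by
  rw [PowerSeries.coeff_mul]
  simp only [PowerSeries.coeff_mk]
  rw [Nat.sum_antidiagonal_eq_sum_range_succ (fun i j => x i * y j)]
  rfl

lemma mk_cv (x y : ℕ → ℝ) : PowerSeries.mk (cv x y) = PowerSeries.mk x * PowerSeries.mk y := by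
  ext n
  rw [PowerSeries.coeff_mk, cv_coeff]

lemma cv_assoc (x y z : ℕ → ℝ) (n : ℕ) : cv (cv x y) z n = cv x (cv y z) n := by
  rw [cv_coeff, cv_coeff, mk_cv, mk_cv, mul_assoc]

lemma cv_add_left (x y z : ℕ → ℝ) (n : ℕ) : cv (fun i => x i + y i) z n = cv x z n + cv y z n := by
  unfold cv
  rw [← sum_add_distrib]
  exact sum_congr rfl fun j _ => by ring

lemma cv_add_right (x y z : ℕ → ℝ) (n : ℕ) : cv x (fun i => y i + z i) n = cv x y n + cv x z n := by
  unfold cv
  rw [← sum_add_distrib]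
  exact sum_congr rfl fun j _ => by ring

/-- the renewal equation has one solution -/
lemma ren_unique {q x x' y : ℕ → ℝ} (hq : q 0 = 0) (h : ∀ n, x n = y n + cv q x n) (h' : ∀ n, x' n = y n + cv q x' n) :
    x = x' := by
  funext n
  induction n using Nat.strong_induction_on with
  | _ n ih =>
    rw [h n, h' n]
    congr 1
    unfold cv
    refine sum_congr rfl fun j hj => ?_
    rcases Nat.eq_zero_or_pos j with rfl | hj0
    · rw [hq, zero_mul, zero_mul]
    · rw [ih (n - j) (by have := mem_range.1 hj; omega)]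

/-- u without the value at 0 -/
def vv (u : ℕ → ℝ) (n : ℕ) : ℝ := if n = 0 then 0 else u n

lemma vv_ren {u k : ℕ → ℝ} (h : Ren u k) (n : ℕ) : vv u n = k n + cv k (vv u) n := by
  rcases Nat.eq_zero_or_pos n with rfl | hn
  · simp [vv, cv, h.k0]
  · unfold vv
    rw [if_neg (by omega), h.ren n hn]
    unfold cv
    have e1 : ∑ j ∈ range (n + 1), k j * (if n - j = 0 then 0 else u (n - j)) =
        ∑ j ∈ Icc 1 n, k j * (if n - j = 0 then 0 else u (n - j)) := by
      rw [Finset.range_eq_Ico, ← Finset.sum_Ioc_add_eq_sum_Icc (by omega : 1 ≤ n)]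
      rw [Finset.sum_eq_sum_Ico_succ_bot (by omega), h.k0, zero_mul, zero_add]
      rw [Finset.sum_Ioc_add_eq_sum_Icc (by omega : 1 ≤ n)]
      rfl
    rw [e1]
    have e2 : ∀ j ∈ Icc 1 n, k j * u (n - j) = (if j = n then k n else 0) + k j * (if n - j = 0 then 0 else u (n - j)) := by
      intro j hj
      have := Finset.mem_Icc.1 hj
      by_cases hjn : j = n
      · subst hjn
        simp [h.u0]
      · rw [if_neg hjn, if_neg (by omega), zero_add]
    rw [sum_congr rfl e2, sum_add_distrib]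
    congr 1
    rw [Finset.sum_ite_eq' (Icc 1 n) n, if_pos (Finset.mem_Icc.2 ⟨hn, le_rfl⟩)]

lemma vv_add (u : ℕ → ℝ) (hu : u 0 = 1) : u = fun n => (if n = 0 then 1 else 0) + vv u n := by
  funext n
  unfold vv
  split_ifs with h
  · rw [h, hu, add_zero]
  · rw [zero_add]

lemma cv_delta (x : ℕ → ℝ) (n : ℕ) : cv x (fun i => if i = 0 then 1 else 0) n = x n := by
  unfold cv
  rw [Finset.sum_eq_single n]
  · simp
  · intro j hj hjn
    have := mem_range.1 hj
    show x j * (if n - j = 0 then (1 : ℝ) else 0) = 0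
    rw [if_neg (by omega), mul_zero]
  · intro h
    exact absurd (mem_range.2 (Nat.lt_succ_self n)) h

lemma cp_zero {q : ℕ → ℝ} (hq : q 0 = 0) : ∀ j n : ℕ, n ≤ j → cp q j n = 0
  | 0, n, h => by
      have : n = 0 := by omega
      rw [this]
      exact hq
  | j + 1, n, h => by
      show ∑ i ∈ range (n + 1), q i * cp q j (n - i) = 0
      refine sum_eq_zero fun i hi => ?_
      rcases Nat.eq_zero_or_pos i with rfl | hi0
      · rw [hq, zero_mul]
      · rw [cp_zero hq j (n - i) (by omega), mul_zero]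

/-- sums over the number of pieces -/
noncomputable def SS (q c : ℕ → ℝ) (n : ℕ) : ℝ := ∑ j ∈ range (n + 1), c j * cp q j n

lemma SS_ext {q : ℕ → ℝ} (hq : q 0 = 0) (c : ℕ → ℝ) {n m : ℕ} (hm : n ≤ m) : ∑ j ∈ range m, c j * cp q j n = SS q c n := by
  unfold SS
  have h1 : ∑ j ∈ range m, c j * cp q j n = ∑ j ∈ range (m + 1), c j * cp q j n := by
    rw [sum_range_succ, cp_zero hq m n hm, mul_zero, add_zero]
  rw [h1]
  symm
  refine sum_subset (range_subset_range.2 (by omega)) fun j _ hj => ?_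
  rw [cp_zero hq j n (by by_contra h; exact hj (mem_range.2 (by omega))), mul_zero]

lemma SS_succ {q : ℕ → ℝ} (hq : q 0 = 0) (c : ℕ → ℝ) (n : ℕ) :
    SS q c n = c 0 * q n + cv q (SS q fun j => c (j + 1)) n := by
  have h1 : SS q c n = c 0 * q n + ∑ j ∈ range n, c (j + 1) * cp q (j + 1) n := by
    unfold SS
    rw [sum_range_succ']
    simp only [cp]
    ring
  rw [h1]
  congr 1
  have h2 : ∑ j ∈ range n, c (j + 1) * cp q (j + 1) n = ∑ i ∈ range (n + 1), ∑ j ∈ range n, q i * (c (j + 1) * cp q j (n - i)) := by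
    rw [sum_comm]
    refine sum_congr rfl fun j _ => ?_
    show c (j + 1) * ∑ i ∈ range (n + 1), q i * cp q j (n - i) = _
    rw [mul_sum]
    exact sum_congr rfl fun i _ => by ring
  rw [h2]
  unfold cv
  refine sum_congr rfl fun i hi => ?_
  rcases Nat.eq_zero_or_pos i with rfl | hi0
  · rw [hq, zero_mul]
    exact sum_eq_zero fun j _ => by rw [zero_mul]
  · rw [← mul_sum]
    congr 1
    exact SS_ext hq (fun j => c (j + 1)) (by omega)

/-- the binomial moments of the number of pieces -/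
theorem SS_choose {u q : ℕ → ℝ} (h : Ren u q) : ∀ k : ℕ, (SS q fun j => (Nat.choose j k : ℝ)) = cp (vv u) k
  | 0 => by
      refine ren_unique (q := q) (y := q) h.k0 (fun n => ?_) (fun n => vv_ren h n)
      have e := SS_succ h.k0 (fun j => (Nat.choose j 0 : ℝ)) n
      simpa using e
  | k + 1 => by
      have ih := SS_choose h k
      refine ren_unique (q := q) (y := cv q (cp (vv u) k)) h.k0 (fun n => ?_) (fun n => ?_)
      · rw [SS_succ h.k0 (fun j => (Nat.choose j (k + 1) : ℝ)) n]
        rw [← ih, ← cv_add_right]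
        simp only [Nat.choose_zero_succ, Nat.cast_zero, zero_mul, zero_add]
        congr 1
        funext m
        unfold SS
        rw [← sum_add_distrib]
        refine sum_congr rfl fun j _ => ?_
        show ((Nat.choose (j + 1) (k + 1) : ℕ) : ℝ) * cp q j m =
          ((Nat.choose j k : ℕ) : ℝ) * cp q j m + ((Nat.choose j (k + 1) : ℕ) : ℝ) * cp q j m
        rw [Nat.choose_succ_succ]
        push_cast
        ring
      · show cv (vv u) (cp (vv u) k) n = _
        have e1 : cv (vv u) (cp (vv u) k) n = cv (fun n => q n + cv q (vv u) n) (cp (vv u) k) n := by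
          congr 1
          funext m
          exact vv_ren h m
        rw [e1, cv_add_left, cv_assoc]
        rfl

/-- j-fold convolution, j = 0: unit -/
def cp0 (q : ℕ → ℝ) : ℕ → ℕ → ℝ
  | 0 => fun i => if i = 0 then 1 else 0
  | j + 1 => cp q j

lemma cp0_zero {q : ℕ → ℝ} (hq : q 0 = 0) (j n : ℕ) (h : n < j) : cp0 q j n = 0 := by
  cases j with
  | zero => omega
  | succ j => exact cp_zero hq j n (by omega)

/-- weights of the number of renewals in 1, ..., T, and its binomial moments -/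
noncomputable def pH (q : ℕ → ℝ) (T j : ℕ) : ℝ := ∑ m ∈ range (T + 1), cp0 q j m * KK q (T + 1 - m)

lemma cv_one_KK {u q : ℕ → ℝ} (h : Ren u q) (n : ℕ) : cv u (fun i => KK q (i + 1)) n = 1 := by
  rw [← KK_renewal h n]
  unfold cv
  refine sum_congr rfl fun j hj => ?_
  have := mem_range.1 hj
  show u j * KK q (n - j + 1) = _
  rw [show n - j + 1 = n + 1 - j by omega]

theorem pH_nonneg {u q : ℕ → ℝ} (h : Ren u q) (T j : ℕ) : 0 ≤ pH q T j := by
  have hc : ∀ j m, 0 ≤ cp q j m := by
    intro j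
    induction j with
    | zero => exact h.kn
    | succ j ih =>
      intro m
      show 0 ≤ ∑ i ∈ range (m + 1), q i * cp q j (m - i)
      exact sum_nonneg fun i _ => mul_nonneg (h.kn i) (ih _)
  refine sum_nonneg fun m _ => mul_nonneg ?_ (KK_nonneg h _)
  cases j with
  | zero =>
    show (0 : ℝ) ≤ if m = 0 then 1 else 0
    split_ifs <;> norm_num
  | succ j => exact hc j m

/-- sum over the number of renewals -/
lemma pH_sum {u q : ℕ → ℝ} (h : Ren u q) (c : ℕ → ℝ) (T : ℕ) :
    ∑ j ∈ range (T + 1), c j * pH q T j =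
      cv (fun m => c 0 * (if m = 0 then 1 else 0) + SS q (fun j => c (j + 1)) m) (fun i => KK q (i + 1)) T := by
  unfold pH cv
  simp_rw [mul_sum]
  rw [sum_comm]
  refine sum_congr rfl fun m hm => ?_
  have hm' := mem_range.1 hm
  rw [show T - m + 1 = T + 1 - m by omega, sum_range_succ', add_mul, add_comm]
  congr 1
  · show c 0 * ((if m = 0 then (1 : ℝ) else 0) * KK q (T + 1 - m)) = _
    ring
  · rw [← SS_ext h.k0 (fun j => c (j + 1)) (show m ≤ T by omega), sum_mul]
    refine sum_congr rfl fun j _ => ?_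
    show c (j + 1) * (cp q j m * KK q (T + 1 - m)) = _
    ring

theorem pH_total {u q : ℕ → ℝ} (h : Ren u q) (T : ℕ) : ∑ j ∈ range (T + 1), pH q T j = 1 := by
  have h1 := pH_sum h (fun _ => 1) T
  simp only [one_mul] at h1
  have h2 := SS_choose h 0
  simp only [Nat.choose_zero_right, Nat.cast_one] at h2
  have h3 : (fun m => (if m = 0 then (1 : ℝ) else 0) + SS q (fun _ => 1) m) = u := by
    rw [h2]
    exact (vv_add u h.u0).symm
  rw [h1, h3]
  exact cv_one_KK h T

theorem pH_moment {u q : ℕ → ℝ} (h : Ren u q) (k T : ℕ) :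
    ∑ j ∈ range (T + 1), (Nat.choose j (k + 1) : ℝ) * pH q T j = cv (cp (vv u) k) (fun _ => 1) T := by
  rw [pH_sum h (fun j => (Nat.choose j (k + 1) : ℝ)) T]
  have e1 : (fun m => ((Nat.choose 0 (k + 1) : ℕ) : ℝ) * (if m = 0 then 1 else 0) +
      SS q (fun j => ((Nat.choose (j + 1) (k + 1) : ℕ) : ℝ)) m) = cv (cp (vv u) k) u := by
    funext m
    have e2 : cv (cp (vv u) k) u m = cv (cp (vv u) k) (fun n => (if n = 0 then 1 else 0) + vv u n) m := by
      congr 1
      exact vv_add u h.u0
    rw [e2, cv_add_right, cv_delta, cv_comm (cp (vv u) k) (vv u) m]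
    have e3 : cv (vv u) (cp (vv u) k) m = cp (vv u) (k + 1) m := rfl
    rw [e3, ← SS_choose h k, ← SS_choose h (k + 1)]
    simp only [Nat.choose_zero_succ, Nat.cast_zero, zero_mul, zero_add]
    unfold SS
    rw [← sum_add_distrib]
    refine sum_congr rfl fun j _ => ?_
    show ((Nat.choose (j + 1) (k + 1) : ℕ) : ℝ) * cp q j m =
      ((Nat.choose j k : ℕ) : ℝ) * cp q j m + ((Nat.choose j (k + 1) : ℕ) : ℝ) * cp q j m
    rw [Nat.choose_succ_succ]
    push_cast
    ring
  rw [e1, cv_assoc]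
  congr 1
  funext n
  exact cv_one_KK h n

/-- bound of the binomial coefficients that is uniform in the order -/
theorem cf_bound {b : ℝ} (hb : 1 ≤ b) {n : ℕ} (hn : 1 ≤ n) (hbn : b ≤ 2 * n) :
    cf b n ≤ Real.exp b * (3 * n / b) ^ (b - 1) := by
  have hn0 : (0 : ℝ) < n := by exact_mod_cast hn
  have hb0 : 0 < b := by linarith
  set x : ℝ := n / (n + b) with hx
  have hx0 : 0 < x := by positivity
  have hx1 : x < 1 := by
    rw [hx, div_lt_one (by positivity)]
    linarith
  have h1 : cf b n = ∑ j ∈ range (n + 1), cf (b - 1) j := by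
    rw [sum_cf, sub_add_cancel]
  have h2 : ∑ j ∈ range (n + 1), cf (b - 1) j * x ^ j ≤ 1 / (1 - x) ^ (b - 1) := by
    have h3 := CutR.cb_hasSum (b - 1) (x := x) (by rw [abs_of_pos hx0]; exact hx1)
    rw [← cf_eq_cb] at h3
    exact sum_le_hasSum _ (fun j _ => mul_nonneg (cf_nonneg (by linarith) j) (pow_nonneg hx0.le j)) h3
  have h4 : (∑ j ∈ range (n + 1), cf (b - 1) j) * x ^ n ≤ ∑ j ∈ range (n + 1), cf (b - 1) j * x ^ j := by
    rw [sum_mul]
    refine sum_le_sum fun j hj => ?_
    have := mem_range.1 hj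
    exact mul_le_mul_of_nonneg_left (pow_le_pow_of_le_one hx0.le hx1.le (by omega)) (cf_nonneg (by linarith) j)
  have h5 : cf b n * x ^ n ≤ 1 / (1 - x) ^ (b - 1) := by
    rw [h1]
    exact h4.trans h2
  have h6 : 1 / (1 - x) ^ (b - 1) = ((n + b) / b) ^ (b - 1) := by
    have e : 1 - x = b / (n + b) := by
      rw [hx]
      field_simp
      ring
    rw [e, one_div, ← Real.inv_rpow (by positivity), inv_div]
  have h7 : (x ^ n)⁻¹ ≤ Real.exp b := by
    have e : (x ^ n)⁻¹ = (1 + b / n) ^ n := by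
      rw [hx, ← inv_pow, inv_div]
      congr 1
      field_simp
    rw [e]
    calc (1 + b / n) ^ n ≤ (Real.exp (b / n)) ^ n := by
          gcongr
          linarith [Real.add_one_le_exp (b / n)]
      _ = Real.exp b := by
          rw [← Real.exp_nat_mul]
          congr 1
          field_simp
  have h8 : cf b n ≤ 1 / (1 - x) ^ (b - 1) * (x ^ n)⁻¹ := by
    rw [← div_eq_mul_inv, le_div_iff₀ (pow_pos hx0 n)]
    exact h5
  refine h8.trans ?_
  rw [h6, mul_comm]
  refine mul_le_mul h7 ?_ (by positivity) (Real.exp_pos _).le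
  refine Real.rpow_le_rpow (by positivity) ?_ (by linarith)
  gcongr
  linarith

/-- summability of the bounds -/
theorem summable_bound {a : ℝ} (ha : 0 < a) (K : ℝ) (hK : 0 < K) (e : ℝ) :
    Summable fun k : ℕ => K ^ k * ((k : ℝ) * a + e) ^ (-((k : ℝ) * a + e - 1)) := by
  have h1 : Tendsto (fun k : ℕ => (k : ℝ) * a + e) atTop atTop :=
    tendsto_atTop_add_const_right _ _ (tendsto_natCast_atTop_atTop.atTop_mul_const ha)
  have h2 : ∀ᶠ k : ℕ in atTop, (2 * K) ≤ ((k : ℝ) * a + e) ^ (a / 2) := by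
    exact ((tendsto_rpow_atTop (half_pos ha)).comp h1).eventually_ge_atTop _
  have h3 : ∀ᶠ k : ℕ in atTop, (k : ℝ) * (a / 2) ≤ (k : ℝ) * a + e - 1 := by
    have h4 : Tendsto (fun k : ℕ => (k : ℝ) * (a / 2)) atTop atTop :=
      tendsto_natCast_atTop_atTop.atTop_mul_const (half_pos ha)
    filter_upwards [h4.eventually_ge_atTop (1 - e)] with k hk
    linarith
  refine Summable.of_norm_bounded_eventually_nat (g := fun k : ℕ => (1 / 2 : ℝ) ^ k)
    (summable_geometric_of_lt_one (by norm_num) (by norm_num)) ?_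
  filter_upwards [h2, h3, h1.eventually_ge_atTop 1] with k hk2 hk3 hk1
  set B : ℝ := (k : ℝ) * a + e with hB
  have hB0 : 0 < B := by linarith
  rw [Real.norm_eq_abs, abs_of_nonneg (by positivity), Real.rpow_neg hB0.le]
  have h5 : (2 * K) ^ k ≤ B ^ (B - 1) := by
    calc (2 * K) ^ k ≤ (B ^ (a / 2)) ^ k := by gcongr
      _ = B ^ ((k : ℝ) * (a / 2)) := by
          rw [mul_comm, Real.rpow_mul_natCast hB0.le]
      _ ≤ B ^ (B - 1) := Real.rpow_le_rpow_of_exponent_le hk1 hk3
  have h6 : 0 < (2 * K) ^ k := by positivity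
  calc K ^ k * (B ^ (B - 1))⁻¹ ≤ K ^ k * ((2 * K) ^ k)⁻¹ := by gcongr
    _ = (1 / 2) ^ k := by
        rw [mul_pow]
        field_simp
        rw [one_div, ← mul_pow]
        norm_num

end CutLim
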