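import Pool.Agent.CutLim.N2
import Pool.Agent.CutLim.N3

/-! CUT_N4: the limit laws of the number of renewals: Mittag-Leffler law (half plane), and the version of the bridge. -/

set_option autoImplicit false

namespace CutLim

open Filter Topology Finset MeasureTheory

variable {u q : ℕ → ℝ} {a b : ℝ}

lemma vv_ratio (ha : 0 < a) (hu : Tendsto (fun n : ℕ => (n : ℝ) ^ (1 - a) * u n) atTop (𝓝 b)) :
    Tendsto (fun n => vv u n / cf a n) atTop (𝓝 (b * Real.Gamma a)) := by
  have hG := (Real.Gamma_pos_of_pos ha).ne'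
  have h1 := hu.div (cf_tendsto ha) (inv_ne_zero hG)
  rw [div_inv_eq_mul] at h1
  refine h1.congr' ?_
  filter_upwards [eventually_ge_atTop 1] with n hn
  have hn0 : (0 : ℝ) < n := by exact_mod_cast hn
  have e1 := (Real.rpow_pos_of_pos hn0 (1 - a)).ne'
  have e2 := (cf_pos ha n).ne'
  simp only [Pi.div_apply]
  unfold vv
  rw [if_neg (by omega)]
  field_simp

lemma vv_le (ha : 0 < a) (hu : Tendsto (fun n : ℕ => (n : ℝ) ^ (1 - a) * u n) atTop (𝓝 b)) :
    ∃ C : ℝ, 1 ≤ C ∧ ∀ n, vv u n ≤ C * cf a n := by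
  obtain ⟨S, hS⟩ := (vv_ratio ha hu).bddAbove_range
  refine ⟨max 1 S, le_max_left _ _, fun n => ?_⟩
  have h1 : vv u n / cf a n ≤ S := hS ⟨n, rfl⟩
  rw [div_le_iff₀ (cf_pos ha n)] at h1
  exact h1.trans (mul_le_mul_of_nonneg_right (le_max_right _ _) (cf_pos ha n).le)

lemma vv_nonneg (h : Ren u q) (n : ℕ) : 0 ≤ vv u n := by
  unfold vv
  split_ifs
  · exact le_rfl
  · exact u_nonneg h n

lemma vv_zero (u : ℕ → ℝ) : vv u 0 = 0 := by simp [vv]

lemma cf_one (n : ℕ) : cf 1 n = 1 := by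
  unfold cf
  refine prod_eq_one fun j _ => ?_
  have : (0 : ℝ) < (j : ℝ) + 1 := by positivity
  rw [add_comm (1 : ℝ) j, div_self this.ne']

lemma cf_div {β : ℝ} (hβ : 0 < β) :
    Tendsto (fun n : ℕ => cf β n / (n : ℝ) ^ (β - 1)) atTop (𝓝 (Real.Gamma β)⁻¹) := by
  refine (cf_tendsto hβ).congr' ?_
  filter_upwards [eventually_ge_atTop 1] with n hn
  have hn0 : (0 : ℝ) < n := by exact_mod_cast hn
  rw [show (1 - β) = -(β - 1) by ring, Real.rpow_neg hn0.le]
  ring

/-- half plane: convergence of the binomial moments -/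
theorem pH_bm (ha : 0 < a) (h : Ren u q) (hu : Tendsto (fun n : ℕ => (n : ℝ) ^ (1 - a) * u n) atTop (𝓝 b)) (k : ℕ) :
    Tendsto (fun n : ℕ => bm (pH q) k n / (n : ℝ) ^ (k * a)) atTop (𝓝 ((b * Real.Gamma a) ^ k / Real.Gamma (k * a + 1))) := by
  cases k with
  | zero =>
    have e : (fun n : ℕ => bm (pH q) 0 n / (n : ℝ) ^ (((0 : ℕ) : ℝ) * a)) = fun _ => 1 := by
      funext n
      unfold bm
      simp only [Nat.choose_zero_right, Nat.cast_one, one_mul, Nat.cast_zero, zero_mul, Real.rpow_zero, div_one]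
      exact pH_total h n
    rw [e]
    simp
  | succ k =>
    have h1 := cp_tendsto ha (vv_ratio ha hu) k
    have hβ : 0 < ((k : ℝ) + 1) * a := by positivity
    have h2 : Tendsto (fun n => (fun _ : ℕ => (1 : ℝ)) n / cf 1 n) atTop (𝓝 1) := by
      simp only [cf_one, div_one]
      exact tendsto_const_nhds
    have h3 := cv_tendsto hβ one_pos h1 h2
    have h4 := cf_div (show 0 < ((k : ℝ) + 1) * a + 1 by positivity)
    have h5 := h3.mul h4
    rw [mul_one] at h5
    have e : (b * Real.Gamma a) ^ (k + 1) / Real.Gamma (((k + 1 : ℕ) : ℝ) * a + 1) =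
        (b * Real.Gamma a) ^ (k + 1) * (Real.Gamma (((k : ℝ) + 1) * a + 1))⁻¹ := by
      push_cast
      rw [div_eq_mul_inv]
    rw [e]
    refine h5.congr fun n => ?_
    have e2 := (cf_pos (show 0 < ((k : ℝ) + 1) * a + 1 by positivity) n).ne'
    have e3 : bm (pH q) (k + 1) n = cv (cp (vv u) k) (fun _ => 1) n := pH_moment h k n
    rw [e3]
    push_cast
    rw [show ((k : ℝ) + 1) * a + 1 - 1 = ((k : ℝ) + 1) * a by ring]
    field_simp

/-- the bounds of the half plane -/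
noncomputable def DH (a C : ℝ) (k : ℕ) : ℝ :=
  Real.exp 1 * ((C * Real.exp a * 3 ^ a) ^ k * ((k : ℝ) * a + 1) ^ (-((k : ℝ) * a + 1 - 1)))

theorem pH_bound (ha : 0 < a) (ha1 : a ≤ 1) (h : Ren u q) {C : ℝ} (hC : 1 ≤ C) (hv : ∀ n, vv u n ≤ C * cf a n) (k : ℕ) {n : ℕ} (hn : 1 ≤ n) :
    bm (pH q) k n / (n : ℝ) ^ (k * a) ≤ DH a C k := by
  have hn0 : (0 : ℝ) < n := by exact_mod_cast hn
  cases k with
  | zero =>
    unfold bm DH
    simp only [Nat.choose_zero_right, Nat.cast_one, one_mul, Nat.cast_zero, zero_mul, Real.rpow_zero, div_one, pow_zero,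
      zero_add, sub_self, neg_zero, mul_one]
    rw [pH_total h n]
    linarith [Real.add_one_le_exp (1 : ℝ)]
  | succ k =>
    have hβ : 0 < ((k : ℝ) + 1) * a := by positivity
    set B : ℝ := ((k + 1 : ℕ) : ℝ) * a + 1 with hB
    have hB1 : 1 ≤ B := by
      rw [hB]
      push_cast
      linarith
    have hD0 : 0 ≤ DH a C (k + 1) := by
      unfold DH
      have : 0 < C := by linarith
      positivity
    have e3 : bm (pH q) (k + 1) n = cv (cp (vv u) k) (fun _ => 1) n := pH_moment h k n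
    rcases Nat.lt_or_ge n (k + 1) with hkn | hkn
    · have e4 : cv (cp (vv u) k) (fun _ => 1) n = 0 := by
        unfold cv
        refine sum_eq_zero fun j hj => ?_
        rw [cp_zero (vv_zero u) k j (by have := mem_range.1 hj; omega), zero_mul]
      rw [e3, e4, zero_div]
      exact hD0
    · have hc := cp_le ha (by linarith : (0 : ℝ) ≤ C) (vv_nonneg h) hv k
      have h1 : cv (cp (vv u) k) (fun _ => 1) n ≤ C ^ (k + 1) * cf B n := by
        have e5 : cf B n = cv (cf (((k : ℝ) + 1) * a)) (cf 1) n := by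
          rw [cv_cf, hB]
          push_cast
          rfl
        rw [e5]
        unfold cv
        rw [mul_sum]
        refine sum_le_sum fun j _ => ?_
        rw [cf_one, mul_one, mul_one]
        exact (hc j).2
      have h2 : cf B n ≤ Real.exp B * (3 * n / B) ^ (B - 1) := by
        refine cf_bound hB1 hn ?_
        rw [hB]
        have h6 : ((k + 1 : ℕ) : ℝ) ≤ n := by exact_mod_cast hkn
        have h7 : (1 : ℝ) ≤ n := by exact_mod_cast hn
        have h8 : ((k + 1 : ℕ) : ℝ) * a ≤ ((k + 1 : ℕ) : ℝ) * 1 := by gcongr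
        linarith
      have hB0 : 0 < B := by linarith
      rw [e3, div_le_iff₀ (Real.rpow_pos_of_pos hn0 _)]
      have e6 : Real.exp B * (3 * n / B) ^ (B - 1) = Real.exp 1 * ((Real.exp a * 3 ^ a) ^ (k + 1) * B ^ (-(B - 1))) * (n : ℝ) ^ (((k + 1 : ℕ) : ℝ) * a) := by
        rw [Real.div_rpow (by positivity) hB0.le, Real.mul_rpow (by norm_num) hn0.le, Real.rpow_neg hB0.le]
        have e7 : B - 1 = ((k + 1 : ℕ) : ℝ) * a := by rw [hB]; ring
        have e8 : Real.exp B = Real.exp 1 * (Real.exp a) ^ (k + 1) := by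
          rw [← Real.exp_nat_mul, ← Real.exp_add, hB]
          congr 1
          ring
        have e9 : (3 : ℝ) ^ (B - 1) = ((3 : ℝ) ^ a) ^ (k + 1) := by
          rw [e7, mul_comm, Real.rpow_mul_natCast (by norm_num)]
        rw [e8, e9, e7, mul_pow]
        ring
      calc cv (cp (vv u) k) (fun _ => 1) n ≤ C ^ (k + 1) * cf B n := h1
        _ ≤ C ^ (k + 1) * (Real.exp B * (3 * n / B) ^ (B - 1)) := by
            have : 0 < C := by linarith
            gcongr
        _ = DH a C (k + 1) * (n : ℝ) ^ (((k + 1 : ℕ) : ℝ) * a) := by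
            rw [e6]
            unfold DH
            rw [mul_assoc C, mul_pow C]
            ring

theorem DH_summable (ha : 0 < a) {C : ℝ} (hC : 1 ≤ C) (r : ℝ) (hr : 0 < r) : Summable fun k => DH a C k * r ^ k := by
  have hC0 : 0 < C := by linarith
  have h1 := (summable_bound ha (C * Real.exp a * 3 ^ a * r) (by positivity) 1).mul_left (Real.exp 1)
  refine h1.congr fun k => ?_
  unfold DH
  rw [mul_pow _ r]
  ring

/-- the number of renewals in 1, ..., T divided by T ^ a converges in law (Mittag-Leffler law) -/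
theorem number_half (ha : 0 < a) (ha1 : a < 1) (h : Ren u q)
    (hu : Tendsto (fun n : ℕ => (n : ℝ) ^ (1 - a) * u n) atTop (𝓝 b)) :
    ∃ ν : ProbabilityMeasure ℝ, Tendsto (β := ProbabilityMeasure ℝ)
        (fun n => ⟨lawN a (pH q) n, lawN_prob (fun j => pH_nonneg h n j) (pH_total h n)⟩) atTop (𝓝 ν) ∧
      ∀ t : ℝ, charFun (ν : Measure ℝ) t =
        ∑' k : ℕ, (t * Complex.I) ^ k * (((b * Real.Gamma a) ^ k / Real.Gamma (k * a + 1) : ℝ) : ℂ) := by
  obtain ⟨C, hC, hv⟩ := vv_le ha hu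
  exact law_of_bm ha (fun n j => pH_nonneg h n j) (fun n => pH_total h n) (pH_bm ha h hu)
    (fun k n hn => pH_bound ha ha1.le h hC hv k hn) (fun r hr => DH_summable ha hC r hr)

/-- weights of the number of renewals in 1, ..., n - 1 given that n is a renewal -/
noncomputable def pB (u q : ℕ → ℝ) (n j : ℕ) : ℝ := if n = 0 then (if j = 0 then 1 else 0) else cp q j n / u n

lemma cp_nonneg (h : Ren u q) : ∀ j m : ℕ, 0 ≤ cp q j m
  | 0, m => h.kn m
  | j + 1, m => by
      show 0 ≤ ∑ i ∈ range (m + 1), q i * cp q j (m - i)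
      exact sum_nonneg fun i _ => mul_nonneg (h.kn i) (cp_nonneg h j _)

theorem pB_nonneg (h : Ren u q) (n j : ℕ) : 0 ≤ pB u q n j := by
  unfold pB
  split_ifs
  · norm_num
  · exact le_rfl
  · exact div_nonneg (cp_nonneg h j n) (u_nonneg h n)

theorem pB_bm (h : Ren u q) {n : ℕ} (hn : 1 ≤ n) (k : ℕ) : bm (pB u q) k n = cp (vv u) k n / u n := by
  rw [← SS_choose h k]
  unfold bm SS
  rw [sum_div]
  refine sum_congr rfl fun j _ => ?_
  unfold pB
  rw [if_neg (by omega)]
  ring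

theorem pB_total (h : Ren u q) (hpos : ∀ n, 0 < u n) (n : ℕ) : ∑ j ∈ range (n + 1), pB u q n j = 1 := by
  rcases Nat.eq_zero_or_pos n with rfl | hn
  · simp [pB]
  · have e := pB_bm h hn 0
    have e2 : cp (vv u) 0 n = u n := by
      show vv u n = u n
      unfold vv
      rw [if_neg (by omega)]
    rw [e2, div_self (hpos n).ne'] at e
    rw [← e]
    unfold bm
    simp

/-- bridge: convergence of the binomial moments -/
theorem pB_tendsto (ha : 0 < a) (hb : 0 < b) (h : Ren u q)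
    (hu : Tendsto (fun n : ℕ => (n : ℝ) ^ (1 - a) * u n) atTop (𝓝 b)) (k : ℕ) :
    Tendsto (fun n : ℕ => bm (pB u q) k n / (n : ℝ) ^ (k * a)) atTop
      (𝓝 ((b * Real.Gamma a) ^ (k + 1) / (Real.Gamma ((k + 1) * a) * b))) := by
  have h1 := cp_tendsto ha (vv_ratio ha hu) k
  have hβ : 0 < ((k : ℝ) + 1) * a := by positivity
  have h2 := cf_div hβ
  have h3 := (h1.mul h2).div hu hb.ne'
  have e : (b * Real.Gamma a) ^ (k + 1) / (Real.Gamma ((k + 1) * a) * b) =
      (b * Real.Gamma a) ^ (k + 1) * (Real.Gamma ((k + 1) * a))⁻¹ / b := by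
    rw [← div_eq_mul_inv, div_div]
  rw [e]
  refine h3.congr' ?_
  filter_upwards [eventually_ge_atTop 1] with n hn
  have hn0 : (0 : ℝ) < n := by exact_mod_cast hn
  rw [pB_bm h hn k]
  have e1 := (cf_pos hβ n).ne'
  have e2 : (n : ℝ) ^ (((k : ℝ) + 1) * a - 1) * (n : ℝ) ^ (1 - a) = (n : ℝ) ^ ((k : ℝ) * a) := by
    rw [← Real.rpow_add hn0]
    congr 1
    ring
  simp only [Pi.div_apply]
  rw [← e2]
  have e3 := (Real.rpow_pos_of_pos hn0 (((k : ℝ) + 1) * a - 1)).ne'
  have e4 := (Real.rpow_pos_of_pos hn0 (1 - a)).ne'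
  rw [div_mul_div_comm, mul_comm (cf _ n) _, mul_div_mul_right _ _ e1, div_div, div_div]
  congr 1
  ring

lemma u_lower (hb : 0 < b) (hpos : ∀ n, 0 < u n)
    (hu : Tendsto (fun n : ℕ => (n : ℝ) ^ (1 - a) * u n) atTop (𝓝 b)) :
    ∃ c : ℝ, 0 < c ∧ ∀ n : ℕ, 1 ≤ n → c ≤ (n : ℝ) ^ (1 - a) * u n := by
  obtain ⟨S, hS⟩ := (hu.inv₀ hb.ne').bddAbove_range
  refine ⟨(max 1 S)⁻¹, by positivity, fun n hn => ?_⟩
  have hn0 : (0 : ℝ) < n := by exact_mod_cast hn
  have h0 : 0 < (n : ℝ) ^ (1 - a) * u n := mul_pos (Real.rpow_pos_of_pos hn0 _) (hpos n)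
  have h1 : ((n : ℝ) ^ (1 - a) * u n)⁻¹ ≤ S := hS ⟨n, rfl⟩
  exact inv_le_of_inv_le₀ h0 (h1.trans (le_max_right _ _))

/-- the bounds of the bridge -/
noncomputable def DB (a C c : ℝ) (k : ℕ) : ℝ := (if k = 0 then 1 else 0) +
  c⁻¹ * C * Real.exp a * 3 ^ (a - 1) * ((C * Real.exp a * 3 ^ a) ^ k * ((k : ℝ) * a + a) ^ (-((k : ℝ) * a + a - 1)))

theorem pB_bound (ha : 1 / 2 ≤ a) (ha1 : a ≤ 1) (h : Ren u q) (hpos : ∀ n, 0 < u n) {C c : ℝ} (hC : 1 ≤ C) (hc : 0 < c)
    (hv : ∀ n, vv u n ≤ C * cf a n) (hl : ∀ n : ℕ, 1 ≤ n → c ≤ (n : ℝ) ^ (1 - a) * u n) (k : ℕ) {n : ℕ} (hn : 1 ≤ n) :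
    bm (pB u q) k n / (n : ℝ) ^ (k * a) ≤ DB a C c k := by
  have hn0 : (0 : ℝ) < n := by exact_mod_cast hn
  have ha0 : 0 < a := by linarith
  have hC0 : 0 < C := by linarith
  have hpos2 : 0 ≤ c⁻¹ * C * Real.exp a * 3 ^ (a - 1) * ((C * Real.exp a * 3 ^ a) ^ k * ((k : ℝ) * a + a) ^ (-((k : ℝ) * a + a - 1))) := by
    positivity
  rw [pB_bm h hn k]
  rcases Nat.eq_zero_or_pos k with rfl | hk
  · have e2 : cp (vv u) 0 n = u n := by
      show vv u n = u n
      unfold vv
      rw [if_neg (by omega)]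
    rw [e2, div_self (hpos n).ne']
    unfold DB
    simp only [Nat.cast_zero, zero_mul, Real.rpow_zero, div_one, if_true]
    simp only [Nat.cast_zero, zero_mul] at hpos2
    linarith
  · unfold DB
    rw [if_neg (by omega), zero_add]
    rcases Nat.lt_or_ge k n with hkn | hkn
    · set B : ℝ := (k : ℝ) * a + a with hB
      have hk1 : (1 : ℝ) ≤ k := by exact_mod_cast hk
      have hB1 : 1 ≤ B := by
        rw [hB]
        nlinarith
      have hB0 : 0 < B := by linarith
      have hBe : ((k : ℝ) + 1) * a = B := by rw [hB]; ring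
      have h1 := (cp_le ha0 hC0.le (vv_nonneg h) hv k n).2
      rw [hBe] at h1
      have h2 : cf B n ≤ Real.exp B * (3 * n / B) ^ (B - 1) := by
        refine cf_bound hB1 hn ?_
        have h6 : (k : ℝ) + 1 ≤ n := by exact_mod_cast hkn
        have h8 : ((k : ℝ) + 1) * a ≤ ((k : ℝ) + 1) * 1 := by gcongr
        rw [← hBe]
        linarith
      have h3 : cp (vv u) k n / u n ≤ C ^ (k + 1) * (Real.exp B * (3 * n / B) ^ (B - 1)) * ((n : ℝ) ^ (1 - a) / c) := by
        have h4 : 1 / u n ≤ (n : ℝ) ^ (1 - a) / c := by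
          rw [div_le_div_iff₀ (hpos n) hc, one_mul]
          exact hl n hn
        rw [div_eq_mul_one_div]
        refine mul_le_mul (h1.trans ?_) h4 (by have := hpos n; positivity) (by positivity)
        gcongr
      rw [div_le_iff₀ (Real.rpow_pos_of_pos hn0 _)]
      refine h3.trans (le_of_eq ?_)
      have e8 : Real.exp B = Real.exp a * (Real.exp a) ^ k := by
        rw [← Real.exp_nat_mul, ← Real.exp_add, hB]
        congr 1
        ring
      have e9 : (3 : ℝ) ^ (B - 1) = 3 ^ (a - 1) * ((3 : ℝ) ^ a) ^ k := by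
        rw [← Real.rpow_mul_natCast (by norm_num), ← Real.rpow_add (by norm_num)]
        congr 1
        rw [hB]
        ring
      have e10 : (n : ℝ) ^ (B - 1) * (n : ℝ) ^ (1 - a) = (n : ℝ) ^ ((k : ℝ) * a) := by
        rw [← Real.rpow_add hn0]
        congr 1
        rw [hB]
        ring
      rw [Real.div_rpow (by positivity) hB0.le, Real.mul_rpow (by norm_num) hn0.le, Real.rpow_neg hB0.le, e8, e9, ← e10,
        mul_pow, mul_pow, pow_succ]
      have e11 := (Real.rpow_pos_of_pos hB0 (B - 1)).ne'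
      field_simp
    · rw [cp_zero (vv_zero u) k n hkn, zero_div, zero_div]
      exact hpos2

theorem DB_summable (ha : 0 < a) {C c : ℝ} (hC : 1 ≤ C) (_hc : 0 < c) (r : ℝ) (hr : 0 < r) :
    Summable fun k => DB a C c k * r ^ k := by
  have hC0 : 0 < C := by linarith
  have h1 := (summable_bound ha (C * Real.exp a * 3 ^ a * r) (by positivity) a).mul_left (c⁻¹ * C * Real.exp a * 3 ^ (a - 1))
  have h2 : Summable fun k : ℕ => (if k = 0 then (1 : ℝ) else 0) * r ^ k := by
    refine summable_of_ne_finset_zero (s := {0}) fun k hk => ?_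
    rw [Finset.mem_singleton] at hk
    rw [if_neg hk, zero_mul]
  refine (h2.add h1).congr fun k => ?_
  unfold DB
  rw [mul_pow _ r]
  ring

/-- the number of renewals in 1, ..., n - 1, given that n is a renewal, divided by n ^ a converges in law -/
theorem number_bridge (ha : 1 / 2 ≤ a) (ha1 : a < 1) (hb : 0 < b) (h : Ren u q) (hpos : ∀ n, 0 < u n)
    (hu : Tendsto (fun n : ℕ => (n : ℝ) ^ (1 - a) * u n) atTop (𝓝 b)) :
    ∃ ν : ProbabilityMeasure ℝ, Tendsto (β := ProbabilityMeasure ℝ)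
        (fun n => ⟨lawN a (pB u q) n, lawN_prob (fun j => pB_nonneg h n j) (pB_total h hpos n)⟩) atTop (𝓝 ν) ∧
      ∀ t : ℝ, charFun (ν : Measure ℝ) t =
        ∑' k : ℕ, (t * Complex.I) ^ k * (((b * Real.Gamma a) ^ (k + 1) / (Real.Gamma ((k + 1) * a) * b) : ℝ) : ℂ) := by
  have ha0 : 0 < a := by linarith
  obtain ⟨C, hC, hv⟩ := vv_le ha0 hu
  obtain ⟨c, hc, hl⟩ := u_lower hb hpos hu
  exact law_of_bm ha0 (fun n j => pB_nonneg h n j) (fun n => pB_total h hpos n) (pB_tendsto ha0 hb h hu)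
    (fun k n hn => pB_bound ha ha1.le h hpos hC hc hv hl k hn) (fun r hr => DB_summable ha0 hC hc r hr)

end CutLim
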