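import Pool.Agent.CutLim.N4
import Pool.Agent.CutLim.G

/-! CUT_N5: the law of the number of the cut levels of the critical bridges and of the stopped half plane walk, words. -/

set_option autoImplicit false

namespace CutLim

open Filter Topology Finset MeasureTheory TopologicalSpace HexObs

open scoped ENNReal

/-- the number of the cut levels in 1, ..., T - 1 -/
noncomputable def cN (T : ℕ) (t : List Bool) : ℕ := {c : ℕ | 1 ≤ c ∧ c < T ∧ Cut t c}.ncard

lemma cuts_finite (T : ℕ) (t : List Bool) : {c : ℕ | 1 ≤ c ∧ c < T ∧ Cut t c}.Finite :=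
  (Set.finite_lt_nat T).subset fun _ hc => hc.2.1

lemma cuts_append {T j c : ℕ} (hcT : c < T) (hj : T ≤ j) {a p : List Bool} (ha : a ∈ Brd c) (hp : p ∈ Irr (j - c)) :
    {c' : ℕ | 1 ≤ c' ∧ c' < T ∧ Cut (a ++ p) c'} = {c' : ℕ | 1 ≤ c' ∧ c' < c ∧ Cut a c'} ∪ {c' : ℕ | c' = c ∧ 1 ≤ c} := by
  ext c'
  constructor
  · rintro ⟨h2, h3, s', u', b, hs', hu', h4⟩
    rcases lt_trichotomy c' c with h5 | h5 | h5
    · obtain ⟨v, hv, h6, h7⟩ := cut_nested hs' ha hu' hp.1 h5.le h4.symm
      exact Or.inl ⟨h2, h5, s', v, c - c', hs', hv, h6⟩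
    · exact Or.inr ⟨h5, by omega⟩
    · exfalso
      obtain ⟨v, hv, h6, h7⟩ := cut_nested ha hs' hp.1 hu' h5.le h4
      rcases hp.2.2 _ _ _ _ hv hu' h7 with h8 | h8
      · rw [h8] at hv
        have := Brd_height hv nil_mem_Brd
        omega
      · have h9 := Brd_append hs' hu'
        rw [← h4] at h9
        have h10 := Brd_append ha hp.1
        have h11 := Brd_height h9 h10
        rw [h8] at hu'
        have := Brd_height hu' nil_mem_Brd
        omega
  · rintro (⟨h1, h2, s, u, b, hs, hu, h4⟩ | ⟨rfl, h1⟩)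
    · exact ⟨h1, by omega, s, u ++ p, b + (j - c), hs, Brd_append hu hp.1, by rw [h4, List.append_assoc]⟩
    · exact ⟨h1, hcT, a, p, j - c', ha, hp.1, rfl⟩

lemma cN_append {T j c : ℕ} (hcT : c < T) (hj : T ≤ j) {a p : List Bool} (ha : a ∈ Brd c) (hp : p ∈ Irr (j - c)) :
    cN T (a ++ p) = cN c a + (if 1 ≤ c then 1 else 0) := by
  have hfin : {c' : ℕ | c' = c ∧ 1 ≤ c}.Finite := by
    refine (Set.finite_le_nat c).subset ?_
    rintro x ⟨hx, -⟩
    exact hx.le
  have hdis : Disjoint {c' : ℕ | 1 ≤ c' ∧ c' < c ∧ Cut a c'} {c' : ℕ | c' = c ∧ 1 ≤ c} := by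
    rw [Set.disjoint_left]
    rintro x ⟨-, h1, -⟩ ⟨h2, -⟩
    omega
  unfold cN
  rw [cuts_append hcT hj ha hp, Set.ncard_union_eq hdis (cuts_finite c a) hfin]
  congr 1
  split_ifs with h
  · have : {c' : ℕ | c' = c ∧ 1 ≤ c} = {c} := by
      ext x
      simp [h]
    rw [this, Set.ncard_singleton]
  · have : {c' : ℕ | c' = c ∧ 1 ≤ c} = ∅ := by
      ext x
      simp [h]
    rw [this, Set.ncard_empty]

/-- the words a of height c with i pieces -/
def Wi (i c : ℕ) : Set (List Bool) := {a | a ∈ Brd c ∧ cN c a + (if 1 ≤ c then 1 else 0) = i}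

lemma FC_cN {T j : ℕ} (hT : 1 ≤ T) (hj : T ≤ j) (i : ℕ) : {t | t ∈ FC T j ∧ cN T t = i} =
    ⋃ c ∈ range T, {t | ∃ a p, a ∈ Wi i c ∧ p ∈ Irr (j - c) ∧ t = a ++ p} := by
  rw [CutH.FC_eq hT hj]
  ext t
  simp only [Set.mem_iUnion, Finset.mem_range, Set.mem_ofPred_eq, exists_prop]
  constructor
  · rintro ⟨⟨c, hc, a, p, ha, hp, rfl⟩, h⟩
    rw [cN_append hc hj ha hp] at h
    exact ⟨c, hc, a, p, ⟨ha, h⟩, hp, rfl⟩
  · rintro ⟨c, hc, a, p, ⟨ha, h⟩, hp, rfl⟩
    exact ⟨⟨c, hc, a, p, ha, hp, rfl⟩, by rw [cN_append hc hj ha hp]; exact h⟩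

lemma gf_FC_cN {T j : ℕ} (hT : 1 ≤ T) (hj : T ≤ j) (i : ℕ) :
    gf {t | t ∈ FC T j ∧ cN T t = i} = ∑ c ∈ range T, gf (Wi i c) * kap' (j - c) := by
  classical
  rw [FC_cN hT hj i, gf_biUnion]
  · apply Finset.sum_congr rfl
    intro c hc
    rw [Finset.mem_range] at hc
    unfold kap'
    apply le_antisymm
    · apply gf_le_mul
      rintro t ⟨a, p, ha, hp, ht⟩
      exact ⟨a, ha, p, hp, ht⟩
    · refine mul_le_gf (fun a ha b hb => ⟨a, b, ha, hb, rfl⟩) fun a ha b hb a' ha' b' hb' hab => ?_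
      exact (cut_unique ha.1 ha'.1 hb.1 hb'.1 hab).1
  · intro c hc c' hc' hne
    rw [Finset.mem_range] at hc hc'
    rw [Set.disjoint_left]
    rintro t ⟨a, p, ha, hp, ht⟩ ⟨a', p', ha', hp', ht'⟩
    apply hne
    have h1 : a ++ p ++ [] = a' ++ p' ++ [] := by
      rw [List.append_nil, List.append_nil, ← ht, ← ht']
    have h2 := (jump_unique (s := T - 1) (by omega) (by omega) (by omega) (by omega) ha.1 hp nil_mem_Brd ha'.1 hp'
      nil_mem_Brd h1).1
    rw [h2] at ha
    exact Brd_height ha.1 ha'.1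

lemma gf_empty' : gf (∅ : Set (List Bool)) = 0 := by
  unfold gf
  simp

lemma cp_rec (q : ℕ → ℝ) (hq : q 0 = 0) (i : ℕ) {n : ℕ} (hn : 1 ≤ n) :
    cp q i n = ∑ c ∈ range n, cp0 q i c * q (n - c) := by
  cases i with
  | zero =>
    show q n = ∑ c ∈ range n, (if c = 0 then (1 : ℝ) else 0) * q (n - c)
    rw [Finset.sum_eq_single 0]
    · simp
    · intro c _ hc
      rw [if_neg hc, zero_mul]
    · intro h
      exact absurd (Finset.mem_range.2 hn) h
  | succ i =>
    show cv q (cp q i) n = ∑ c ∈ range n, cp q i c * q (n - c)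
    rw [cv_comm]
    unfold cv
    rw [Finset.sum_range_succ, Nat.sub_self, hq, mul_zero, add_zero]

lemma cp0_nonneg (i m : ℕ) : 0 ≤ cp0 kk i m := by
  cases i with
  | zero =>
    show (0 : ℝ) ≤ if m = 0 then 1 else 0
    split_ifs <;> norm_num
  | succ i => exact cp_nonneg ren_uu i m

/-- the weight of the bridges with a given number of cuts -/
theorem gf_Wi (n : ℕ) : ∀ i : ℕ, gf (Wi i n) = ENNReal.ofReal (cp0 kk i n) := by
  induction n using Nat.strong_induction_on with
  | _ n ih =>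
    intro i
    rcases Nat.eq_zero_or_pos n with rfl | hn
    · have hc0 : ∀ a : List Bool, cN 0 a = 0 := by
        intro a
        unfold cN
        have : {c : ℕ | 1 ≤ c ∧ c < 0 ∧ Cut a c} = ∅ := by
          ext x
          simp
        rw [this, Set.ncard_empty]
      cases i with
      | zero =>
        have h1 : Wi 0 0 = {t : List Bool | t = []} := by
          ext a
          unfold Wi
          rw [Brd_zero]
          constructor
          · rintro ⟨h, -⟩
            exact h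
          · intro h
            exact ⟨h, by simp [hc0]⟩
        rw [h1, CutH.gf_nil]
        show (1 : ℝ≥0∞) = ENNReal.ofReal (if (0 : ℕ) = 0 then 1 else 0)
        simp
      | succ i =>
        have h1 : Wi (i + 1) 0 = ∅ := by
          ext a
          constructor
          · rintro ⟨-, h⟩
            rw [hc0] at h
            simp at h
          · exact fun h => absurd h (Set.notMem_empty a)
        rw [h1, gf_empty', cp0_zero kk_zero (i + 1) 0 (by omega), ENNReal.ofReal_zero]
    · have hn : 1 ≤ n := hn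
      cases i with
      | zero =>
        have h1 : Wi 0 n = ∅ := by
          ext a
          constructor
          · rintro ⟨-, h⟩
            rw [if_pos hn] at h
            omega
          · exact fun h => absurd h (Set.notMem_empty a)
        rw [h1, gf_empty']
        show 0 = ENNReal.ofReal (if n = 0 then 1 else 0)
        rw [if_neg (by omega), ENNReal.ofReal_zero]
      | succ i =>
        have h1 : Wi (i + 1) n = {t | t ∈ FC n n ∧ cN n t = i} := by
          ext a
          unfold Wi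
          rw [CutH.FC_self]
          constructor
          · rintro ⟨h, h'⟩
            rw [if_pos hn] at h'
            exact ⟨h, by omega⟩
          · rintro ⟨h, h'⟩
            exact ⟨h, by rw [if_pos hn, h']⟩
        rw [h1, gf_FC_cN hn le_rfl i]
        show _ = ENNReal.ofReal (cp kk i n)
        rw [cp_rec kk kk_zero i hn, ENNReal.ofReal_sum_of_nonneg fun c _ => mul_nonneg (cp0_nonneg i c) (kk_nonneg _)]
        apply Finset.sum_congr rfl
        intro c hc
        rw [ih c (Finset.mem_range.1 hc) i, CutH.kap_kk, ENNReal.ofReal_mul (cp0_nonneg i c)]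

/-- bridges of n rows with i cut levels in 1, ..., n - 1 -/
theorem gf_Brd_cN {n : ℕ} (hn : 1 ≤ n) (i : ℕ) : gf {t | t ∈ Brd n ∧ cN n t = i} = ENNReal.ofReal (cp kk i n) := by
  have h := gf_Wi n (i + 1)
  have h1 : Wi (i + 1) n = {t | t ∈ Brd n ∧ cN n t = i} := by
    ext a
    unfold Wi
    constructor
    · rintro ⟨h, h'⟩
      rw [if_pos hn] at h'
      exact ⟨h, by omega⟩
    · rintro ⟨h, h'⟩
      exact ⟨h, by rw [if_pos hn, h']⟩
  rw [h1] at h
  exact h

/-- counting one more row -/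
lemma cN_succ {T j : ℕ} (hT : 1 ≤ T) {t : List Bool} (ht : t ∈ FC T j) :
    cN (T + 1) t = cN T t + (if j = T then 1 else 0) := by
  have hcut : Cut t T ↔ j = T := by
    constructor
    · intro h
      by_contra hne
      exact ht.2.2 T le_rfl (lt_of_le_of_ne ht.2.1 (fun h => hne h.symm)) h
    · intro h
      refine ⟨t, [], 0, ?_, nil_mem_Brd, (List.append_nil t).symm⟩
      rw [← h]
      exact ht.1
  unfold cN
  have h1 : {c : ℕ | 1 ≤ c ∧ c < T + 1 ∧ Cut t c} = {c : ℕ | 1 ≤ c ∧ c < T ∧ Cut t c} ∪ {c : ℕ | c = T ∧ j = T} := by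
    ext c
    constructor
    · rintro ⟨h1, h2, h3⟩
      rcases Nat.lt_or_ge c T with h4 | h4
      · exact Or.inl ⟨h1, h4, h3⟩
      · have h5 : c = T := by omega
        rw [h5] at h3
        exact Or.inr ⟨h5, hcut.1 h3⟩
    · rintro (⟨h1, h2, h3⟩ | ⟨rfl, h2⟩)
      · exact ⟨h1, by omega, h3⟩
      · exact ⟨hT, by omega, hcut.2 h2⟩
  have hfin : {c : ℕ | c = T ∧ j = T}.Finite := by
    refine (Set.finite_le_nat T).subset ?_
    rintro x ⟨hx, -⟩
    exact hx.le
  have hdis : Disjoint {c : ℕ | 1 ≤ c ∧ c < T ∧ Cut t c} {c : ℕ | c = T ∧ j = T} := by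
    rw [Set.disjoint_left]
    rintro x ⟨-, h1, -⟩ ⟨h2, -⟩
    omega
  rw [h1, Set.ncard_union_eq hdis (cuts_finite T t) hfin]
  congr 1
  split_ifs with h
  · have : {c : ℕ | c = T ∧ j = T} = {T} := by
      ext x
      simp [h]
    rw [this, Set.ncard_singleton]
  · have : {c : ℕ | c = T ∧ j = T} = ∅ := by
      ext x
      simp [h]
    rw [this, Set.ncard_empty]

/-- the stopped words with i cut levels in 1, ..., T -/
theorem gf_FCW_cN {T : ℕ} (hT : 1 ≤ T) (i : ℕ) :
    gf {t | t ∈ FCW T ∧ cN (T + 1) t = i} = ENNReal.ofReal (pH kk T i) := by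
  classical
  have h1 : {t | t ∈ FCW T ∧ cN (T + 1) t = i} = ⋃ j : ℕ, {t | t ∈ FC T j ∧ cN (T + 1) t = i} := by
    ext t
    rw [Set.mem_iUnion]
    constructor
    · rintro ⟨⟨j, hj⟩, h⟩
      exact ⟨j, hj, h⟩
    · rintro ⟨j, hj, h⟩
      exact ⟨⟨j, hj⟩, h⟩
  have h2 : ∀ j k : ℕ, ∀ t, t ∈ {t | t ∈ FC T j ∧ cN (T + 1) t = i} → t ∈ {t | t ∈ FC T k ∧ cN (T + 1) t = i} → j = k := by
    rintro j k t ⟨hj, _⟩ ⟨hk, _⟩
    exact Brd_height hj.1 hk.1
  rw [h1, K1.gf_iUnion _ h2]
  have h3 : ∀ j : ℕ, gf {t | t ∈ FC T j ∧ cN (T + 1) t = i} =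
      (if j = T then ENNReal.ofReal (cp0 kk i T) else 0) +
      ∑ c ∈ range T, ENNReal.ofReal (cp0 kk i c) * (if T + 1 ≤ j then kap' (j - c) else 0) := by
    intro j
    rcases lt_trichotomy j T with hj | hj | hj
    · have h4 : {t | t ∈ FC T j ∧ cN (T + 1) t = i} = ∅ := by
        ext t
        exact ⟨fun h => absurd h.1.2.1 (by omega), fun h => absurd h (Set.notMem_empty t)⟩
      rw [h4, gf_empty', if_neg (by omega : ¬ j = T), zero_add]
      symm
      exact Finset.sum_eq_zero fun c _ => by rw [if_neg (by omega), mul_zero]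
    · have h4 : {t | t ∈ FC T j ∧ cN (T + 1) t = i} = Wi i T := by
        ext t
        unfold Wi
        constructor
        · rintro ⟨h5, h6⟩
          rw [cN_succ hT h5, if_pos hj] at h6
          rw [hj, CutH.FC_self] at h5
          exact ⟨h5, by rw [if_pos hT]; exact h6⟩
        · rintro ⟨h5, h6⟩
          have h7 : t ∈ FC T j := by
            rw [hj, CutH.FC_self]
            exact h5
          refine ⟨h7, ?_⟩
          rw [cN_succ hT h7, if_pos hj]
          rw [if_pos hT] at h6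
          exact h6
      rw [h4, gf_Wi, if_pos hj, Finset.sum_eq_zero (fun c _ => by rw [if_neg (by omega), mul_zero]), add_zero]
    · have h4 : {t | t ∈ FC T j ∧ cN (T + 1) t = i} = {t | t ∈ FC T j ∧ cN T t = i} := by
        ext t
        constructor
        · rintro ⟨h5, h6⟩
          rw [cN_succ hT h5, if_neg (by omega), add_zero] at h6
          exact ⟨h5, h6⟩
        · rintro ⟨h5, h6⟩
          refine ⟨h5, ?_⟩
          rw [cN_succ hT h5, if_neg (by omega), add_zero]
          exact h6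
      rw [h4, gf_FC_cN hT hj.le i, if_neg (by omega : ¬ j = T), zero_add]
      exact Finset.sum_congr rfl fun c _ => by rw [gf_Wi, if_pos (by omega)]
  simp_rw [h3]
  rw [ENNReal.tsum_add, tsum_ite_eq, Summable.tsum_finsetSum (fun _ _ => ENNReal.summable)]
  unfold pH
  rw [ENNReal.ofReal_sum_of_nonneg fun m _ => mul_nonneg (cp0_nonneg i m) (KK_nonneg ren_uu _), Finset.sum_range_succ, add_comm]
  congr 1
  · apply Finset.sum_congr rfl
    intro c hc
    rw [Finset.mem_range] at hc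
    rw [ENNReal.tsum_mul_left, CutH.tail (by omega), ENNReal.ofReal_mul (cp0_nonneg i c)]
    rfl
  · rw [show T + 1 - T = 1 by omega, KK_one ren_uu, mul_one]

lemma cN_le (T : ℕ) (t : List Bool) : cN (T + 1) t ≤ T := by
  unfold cN
  have h1 : {c : ℕ | 1 ≤ c ∧ c < T + 1 ∧ Cut t c} ⊆ ((Finset.Icc 1 T : Finset ℕ) : Set ℕ) := by
    intro c hc
    rw [Finset.coe_Icc]
    exact ⟨hc.1, by have := hc.2.1; omega⟩
  have h2 := Set.ncard_le_ncard h1 (Finset.finite_toSet _)
  rw [Set.ncard_coe_finset] at h2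
  simpa using h2

/-- the law of a function of a counting variable on words -/
theorem law_count {F : Set (List Bool)} {w : List Bool → ℝ≥0∞} {N : List Bool → ℕ} {n : ℕ} (hN : ∀ t ∈ F, N t ≤ n)
    {p : ℕ → ℝ≥0∞} (hp : ∀ j, j ≤ n → ∑' t : {t : List Bool // t ∈ F ∧ N t = j}, w t.1 = p j) (g : ℕ → ℝ) :
    (Measure.sum fun t : {t : List Bool // t ∈ F} => w t.1 • Measure.dirac (g (N t.1))) =
      ∑ j ∈ range (n + 1), p j • Measure.dirac (g j) := by
  classical
  ext S hS
  rw [Measure.sum_apply _ hS, Measure.finsetSum_apply]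
  have h1 : ∀ t : {t : List Bool // t ∈ F}, (w t.1 • Measure.dirac (g (N t.1))) S =
      ∑ j ∈ range (n + 1), (if N t.1 = j then w t.1 else 0) * (Measure.dirac (g j) : Measure ℝ) S := by
    intro t
    rw [Measure.smul_apply, smul_eq_mul, Finset.sum_eq_single (N t.1)]
    · rw [if_pos rfl]
    · intro j _ hj
      rw [if_neg (fun h => hj h.symm), zero_mul]
    · intro h
      exact absurd (Finset.mem_range.2 (Nat.lt_succ_of_le (hN t.1 t.2))) h
  rw [tsum_congr h1, Summable.tsum_finsetSum (fun _ _ => ENNReal.summable)]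
  refine Finset.sum_congr rfl fun j hj => ?_
  rw [ENNReal.tsum_mul_right, Measure.smul_apply, smul_eq_mul]
  congr 1
  rw [← hp j (by have := Finset.mem_range.1 hj; omega)]
  have h5 : ∑' t : {t : List Bool // t ∈ F ∧ N t = j}, w t.1 = ∑' t : ({t | t ∈ F ∧ N t = j} : Set (List Bool)), w t := rfl
  rw [h5, tsum_subtype F (fun t => if N t = j then w t else 0), tsum_subtype {t | t ∈ F ∧ N t = j} w]
  refine tsum_congr fun t => ?_
  by_cases h2 : t ∈ F
  · rw [Set.indicator_of_mem h2]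
    by_cases h3 : N t = j
    · rw [if_pos h3, Set.indicator_of_mem (show t ∈ {t | t ∈ F ∧ N t = j} from ⟨h2, h3⟩)]
    · rw [if_neg h3, Set.indicator_of_notMem (fun h4 : t ∈ {t | t ∈ F ∧ N t = j} => h3 h4.2)]
  · rw [Set.indicator_of_notMem h2, Set.indicator_of_notMem (fun h4 : t ∈ {t | t ∈ F ∧ N t = j} => h2 h4.1)]

/-- half plane: the law of the number of the cut levels in 1, ..., T, divided by T ^ a -/
theorem lawN_half (a : ℝ) {T : ℕ} (hT : 1 ≤ T) :
    (Measure.sum fun t : {t : List Bool // t ∈ FCW T} => wE t.1 • Measure.dirac ((cN (T + 1) t.1 : ℝ) / (T : ℝ) ^ a)) =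
      lawN a (pH kk) T :=
  law_count (F := FCW T) (w := wE) (N := cN (T + 1)) (n := T) (fun t _ => cN_le T t)
    (p := fun j => ENNReal.ofReal (pH kk T j)) (fun j _ => gf_FCW_cN hT j) (fun j => (j : ℝ) / (T : ℝ) ^ a)

/-- bridge: the law of the number of the cut levels in 1, ..., n - 1, divided by n ^ a -/
theorem lawN_bridge (a : ℝ) {n : ℕ} (hn : 1 ≤ n) :
    (Measure.sum fun t : {t : List Bool // t ∈ Brd n} => (wE t.1 / BT n) • Measure.dirac ((cN n t.1 : ℝ) / (n : ℝ) ^ a)) =
      lawN a (pB uu kk) n := by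
  refine law_count (F := Brd n) (w := fun t => wE t / BT n) (N := cN n) (n := n) (fun t _ => ?_)
    (p := fun j => ENNReal.ofReal (pB uu kk n j)) (fun j _ => ?_) (fun j => (j : ℝ) / (n : ℝ) ^ a)
  · obtain ⟨k, rfl⟩ : ∃ k, n = k + 1 := ⟨n - 1, by omega⟩
    exact (cN_le k t).trans (by omega)
  · have hB : BT n = ENNReal.ofReal (uu n) := by
      unfold uu
      rw [ENNReal.ofReal_toReal (CutH.BT_ne_top'' n)]
    have h1 : ∑' t : {t : List Bool // t ∈ Brd n ∧ cN n t = j}, wE t.1 / BT n = gf {t | t ∈ Brd n ∧ cN n t = j} / BT n := by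
      unfold gf
      rw [ENNReal.div_eq_inv_mul, ← ENNReal.tsum_mul_left]
      exact tsum_congr fun t => by rw [ENNReal.div_eq_inv_mul]
    rw [h1, gf_Brd_cN hn j, hB, ← ENNReal.ofReal_div_of_pos (uu_pos n)]
    congr 1
    unfold pB
    rw [if_neg (by omega)]

end CutLim
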